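import Pool.Agent.Helper20.PN.Defs

/-! The perturbation term of the project PN. -/

open MeasureTheory Metric Set Filter
open scoped ENNReal NNReal ContDiff Topology Gradient

namespace Pool.Agent.Helper20.PN

private lemma flux_exp (y : ℝ) : |1 - Real.exp y| ≤ |y| * Real.exp |y| := by
  rcases le_or_gt 0 y with hy | hy
  · have h1 : 1 ≤ Real.exp y := Real.one_le_exp hy
    have h2 : -y + 1 ≤ Real.exp (-y) := Real.add_one_le_exp (-y)
    have h3 : Real.exp (-y) * Real.exp y = 1 := by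
      rw [← Real.exp_add]; simp
    rw [abs_of_nonneg hy, abs_of_nonpos (by linarith)]
    nlinarith [Real.exp_pos y]
  · have h1 : Real.exp y ≤ 1 := Real.exp_le_one_iff.2 hy.le
    have h2 : y + 1 ≤ Real.exp y := Real.add_one_le_exp y
    have h3 : 1 ≤ Real.exp |y| := Real.one_le_exp (abs_nonneg y)
    rw [abs_of_nonneg (by linarith : (0 : ℝ) ≤ 1 - Real.exp y)]
    have h4 : |y| = -y := abs_of_neg hy
    have h5 : 0 ≤ |y| := abs_nonneg y
    nlinarith

private lemma flux_pt {e t δ : ℝ} (ht : 0 < t) (hδ : 0 < δ) (hδ2 : δ ≤ 1 / 2) (he : |e| ≤ δ) :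
    |1 - t ^ e| * t ≤ |e| * δ⁻¹ * max 1 (t ^ (1 + 2 * δ)) := by
  have h1 : |1 - t ^ e| ≤ |Real.log t * e| * Real.exp |Real.log t * e| := by
    rw [Real.rpow_def_of_pos ht]
    exact flux_exp _
  have h2 : |Real.log t * e| ≤ |Real.log t| * δ := by
    rw [abs_mul]
    exact mul_le_mul_of_nonneg_left he (abs_nonneg _)
  have h3 : |1 - t ^ e| ≤ |Real.log t * e| * Real.exp (|Real.log t| * δ) :=
    h1.trans (mul_le_mul_of_nonneg_left (Real.exp_le_exp.2 h2) (abs_nonneg _))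
  have he0 : 0 ≤ |e| := abs_nonneg e
  rcases le_or_gt t 1 with h | h
  · have hl : Real.log t ≤ 0 := Real.log_nonpos ht.le h
    have h4 : Real.exp (|Real.log t| * δ) * t = t ^ (1 - δ) := by
      rw [Real.rpow_def_of_pos ht, abs_of_nonpos hl]
      nth_rewrite 2 [← Real.exp_log ht]
      rw [← Real.exp_add]
      congr 1
      ring
    have h5 : |Real.log t * t ^ (1 - δ)| < 1 / (1 - δ) :=
      Real.abs_log_mul_self_rpow_lt t (1 - δ) ht h (by linarith)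
    have h6 : (0 : ℝ) < 1 - δ := by linarith
    have h7 : 1 / (1 - δ) ≤ δ⁻¹ := by
      rw [one_div]
      exact inv_anti₀ hδ (by linarith)
    have h8 : |Real.log t| * t ^ (1 - δ) ≤ δ⁻¹ := by
      have : |Real.log t * t ^ (1 - δ)| = |Real.log t| * t ^ (1 - δ) := by
        rw [abs_mul, abs_of_pos (Real.rpow_pos_of_pos ht _)]
      rw [← this]
      exact h5.le.trans h7
    calc |1 - t ^ e| * t ≤ |Real.log t * e| * Real.exp (|Real.log t| * δ) * t :=
          mul_le_mul_of_nonneg_right h3 ht.le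
      _ = |e| * (|Real.log t| * (Real.exp (|Real.log t| * δ) * t)) := by
          rw [abs_mul]; ring
      _ = |e| * (|Real.log t| * t ^ (1 - δ)) := by rw [h4]
      _ ≤ |e| * δ⁻¹ := mul_le_mul_of_nonneg_left h8 he0
      _ = |e| * δ⁻¹ * 1 := by ring
      _ ≤ |e| * δ⁻¹ * max 1 (t ^ (1 + 2 * δ)) :=
          mul_le_mul_of_nonneg_left (le_max_left _ _) (by positivity)
  · have hl : 0 ≤ Real.log t := Real.log_nonneg h.le
    have h4 : Real.exp (|Real.log t| * δ) * t = t ^ (1 + δ) := by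
      rw [Real.rpow_def_of_pos ht, abs_of_nonneg hl]
      nth_rewrite 2 [← Real.exp_log ht]
      rw [← Real.exp_add]
      congr 1
      ring
    have h5 : Real.log t ≤ t ^ δ / δ := Real.log_le_rpow_div ht.le hδ
    have h8 : |Real.log t| * t ^ (1 + δ) ≤ δ⁻¹ * t ^ (1 + 2 * δ) := by
      rw [abs_of_nonneg hl]
      have h9 : t ^ (1 + 2 * δ) = t ^ δ * t ^ (1 + δ) := by
        rw [← Real.rpow_add ht]; congr 1; ring
      rw [h9]
      calc Real.log t * t ^ (1 + δ) ≤ t ^ δ / δ * t ^ (1 + δ) :=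
            mul_le_mul_of_nonneg_right h5 (Real.rpow_nonneg ht.le _)
        _ = δ⁻¹ * (t ^ δ * t ^ (1 + δ)) := by rw [div_eq_mul_inv]; ring
    calc |1 - t ^ e| * t ≤ |Real.log t * e| * Real.exp (|Real.log t| * δ) * t :=
          mul_le_mul_of_nonneg_right h3 ht.le
      _ = |e| * (|Real.log t| * (Real.exp (|Real.log t| * δ) * t)) := by
          rw [abs_mul]; ring
      _ = |e| * (|Real.log t| * t ^ (1 + δ)) := by rw [h4]
      _ ≤ |e| * (δ⁻¹ * t ^ (1 + 2 * δ)) := mul_le_mul_of_nonneg_left h8 he0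
      _ = |e| * δ⁻¹ * t ^ (1 + 2 * δ) := by ring
      _ ≤ |e| * δ⁻¹ * max 1 (t ^ (1 + 2 * δ)) :=
          mul_le_mul_of_nonneg_left (le_max_right _ _) (by positivity)

private lemma flux_pt2 {e t δ s p : ℝ} (ht : 0 < t) (hδ : 0 < δ) (hδ2 : δ ≤ 1 / 2) (he : |e| ≤ δ)
    (hs : 0 < s) (hp : (1 + 2 * δ) * s ≤ p) :
    (|1 - t ^ e| * t) ^ s ≤ (|e| * δ⁻¹) ^ s * (1 + t ^ p) := by
  have h1 := flux_pt ht hδ hδ2 he
  have h0 : 0 ≤ |1 - t ^ e| * t := by positivity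
  have h2 : 0 ≤ |e| * δ⁻¹ := by positivity
  have h3 : (max 1 (t ^ (1 + 2 * δ))) ^ s ≤ 1 + t ^ p := by
    have hp0 : 0 ≤ t ^ p := Real.rpow_nonneg ht.le _
    rcases le_or_gt t 1 with h | h
    · have : t ^ (1 + 2 * δ) ≤ 1 := Real.rpow_le_one ht.le h (by positivity)
      rw [max_eq_left this, Real.one_rpow]
      linarith
    · have : 1 ≤ t ^ (1 + 2 * δ) := Real.one_le_rpow h.le (by positivity)
      rw [max_eq_right this, ← Real.rpow_mul ht.le]
      have := Real.rpow_le_rpow_of_exponent_le h.le hp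
      linarith
  calc (|1 - t ^ e| * t) ^ s ≤ (|e| * δ⁻¹ * max 1 (t ^ (1 + 2 * δ))) ^ s :=
        Real.rpow_le_rpow h0 h1 hs.le
    _ = (|e| * δ⁻¹) ^ s * (max 1 (t ^ (1 + 2 * δ))) ^ s :=
        Real.mul_rpow h2 (by positivity)
    _ ≤ (|e| * δ⁻¹) ^ s * (1 + t ^ p) :=
        mul_le_mul_of_nonneg_left h3 (Real.rpow_nonneg h2 _)

private lemma flux_vec {n : ℕ} {δ s p : ℝ} (v : V n) (hδ : 0 < δ) (hδ2 : δ ≤ 1 / 2)
    (he : |p - 2| ≤ δ) (hs : 0 < s) (hp0 : 0 < p) (hp : (1 + 2 * δ) * s ≤ p) :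
    ‖v - ‖v‖ ^ (p - 2) • v‖ₑ ^ s ≤ ENNReal.ofReal ((|p - 2| * δ⁻¹) ^ s) * (1 + ‖v‖ₑ ^ p) := by
  rcases eq_or_ne v 0 with rfl | hv
  · simp [hs]
  · have ht : 0 < ‖v‖ := norm_pos_iff.2 hv
    have h1 : ‖v - ‖v‖ ^ (p - 2) • v‖ = |1 - ‖v‖ ^ (p - 2)| * ‖v‖ := by
      have : v - ‖v‖ ^ (p - 2) • v = (1 - ‖v‖ ^ (p - 2)) • v := by
        rw [sub_smul, one_smul]
      rw [this, norm_smul, Real.norm_eq_abs]
    have h2 := flux_pt2 (e := p - 2) ht hδ hδ2 he hs hp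
    rw [← ofReal_norm, ← ofReal_norm, h1, ENNReal.ofReal_rpow_of_nonneg (by positivity) hs.le,
      ENNReal.ofReal_rpow_of_nonneg ht.le hp0.le, ← ENNReal.ofReal_one,
      ← ENNReal.ofReal_add zero_le_one (by positivity), ← ENNReal.ofReal_mul (by positivity)]
    exact ENNReal.ofReal_le_ofReal h2

/-- The difference between the Laplace and the p-Laplace fluxes is small. -/
theorem flux (n : ℕ) (hn : 3 ≤ n) : ∃ C : ℝ, ∃ δ : ℝ, 0 < C ∧ 0 < δ ∧ δ ≤ 1 / (2 * n) ∧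
    ∀ p : ℝ, |p - 2| ≤ δ → ∀ g : V n → V n, AEStronglyMeasurable g (volume.restrict (ball 0 2)) →
    ∫⁻ x in ball 0 2, ‖g x‖ₑ ^ p ≤ 1 →
    nrm (ss n) (ball 0 2) (fun x => g x - ‖g x‖ ^ (p - 2) • g x) ≤
      ENNReal.ofReal (C * |p - 2|) := by
  have hn' : (3 : ℝ) ≤ n := by exact_mod_cast hn
  have hn0 : (0 : ℝ) < n := by linarith
  set δ : ℝ := 1 / (2 * (n + 2)) with hδdef
  have hδ : 0 < δ := by positivity
  have hδn : δ * (n + 2) = 1 / 2 := by
    rw [hδdef]; field_simp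
  have hδ2 : δ ≤ 1 / 2 := by nlinarith
  set s : ℝ := ss n with hsdef
  have hsval : s * (n + 2) = 2 * n := by
    rw [hsdef, ss]; field_simp
  have hs : 0 < s := by
    rw [hsdef, ss]; positivity
  have hs2 : s ≤ 2 := by nlinarith
  have hs3 : s = 2 - 8 * δ := by
    have h : (s - (2 - 8 * δ)) * (n + 2) = 0 := by nlinarith
    rcases mul_eq_zero.1 h with h | h
    · linarith
    · linarith
  set B : ℝ≥0∞ := volume (ball (0 : V n) 2) + 1 with hB
  have hBtop : B ≠ ⊤ := ENNReal.add_ne_top.2 ⟨measure_ball_lt_top.ne, ENNReal.one_ne_top⟩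
  have hB1 : 1 ≤ B := le_add_self
  have hBs : B ^ (1 / s) ≠ ⊤ := ENNReal.rpow_ne_top_of_nonneg (by positivity) hBtop
  have hBs1 : 1 ≤ B ^ (1 / s) := ENNReal.one_le_rpow hB1 (by positivity)
  have hC0 : 0 < (B ^ (1 / s)).toReal :=
    ENNReal.toReal_pos (zero_lt_one.trans_le hBs1).ne' hBs
  refine ⟨δ⁻¹ * (B ^ (1 / s)).toReal, δ, by positivity, hδ, ?_, ?_⟩
  · rw [hδdef]
    apply one_div_le_one_div_of_le (by positivity)
    linarith
  · intro p hp g hg hint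
    have hp1 : 2 - δ ≤ p := by
      have := (abs_le.1 hp).1
      linarith
    have hp0 : 0 < p := by linarith
    have hp2 : (1 + 2 * δ) * s ≤ p := by nlinarith
    have hmain : ∫⁻ x in ball (0 : V n) 2, ‖g x - ‖g x‖ ^ (p - 2) • g x‖ₑ ^ s ≤
        ENNReal.ofReal ((|p - 2| * δ⁻¹) ^ s) * B := by
      calc ∫⁻ x in ball (0 : V n) 2, ‖g x - ‖g x‖ ^ (p - 2) • g x‖ₑ ^ s
          ≤ ∫⁻ x in ball (0 : V n) 2,
              ENNReal.ofReal ((|p - 2| * δ⁻¹) ^ s) * (1 + ‖g x‖ₑ ^ p) :=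
            lintegral_mono fun x => flux_vec (g x) hδ hδ2 hp hs hp0 hp2
        _ = ENNReal.ofReal ((|p - 2| * δ⁻¹) ^ s) * ∫⁻ x in ball (0 : V n) 2,
              (1 + ‖g x‖ₑ ^ p) := lintegral_const_mul' _ _ ENNReal.ofReal_ne_top
        _ = ENNReal.ofReal ((|p - 2| * δ⁻¹) ^ s) * (volume (ball (0 : V n) 2) +
              ∫⁻ x in ball (0 : V n) 2, ‖g x‖ₑ ^ p) := by
            rw [lintegral_add_left measurable_const]
            simp
        _ ≤ ENNReal.ofReal ((|p - 2| * δ⁻¹) ^ s) * B := by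
            rw [hB]
            gcongr
    unfold nrm
    have hfin : (ENNReal.ofReal ((|p - 2| * δ⁻¹) ^ s) * B) ^ (1 / s) =
        ENNReal.ofReal (|p - 2| * δ⁻¹) * B ^ (1 / s) := by
      rw [ENNReal.mul_rpow_of_nonneg _ _ (by positivity),
        ENNReal.ofReal_rpow_of_nonneg (by positivity) (by positivity), ← Real.rpow_mul
          (by positivity), mul_one_div_cancel hs.ne', Real.rpow_one]
    calc (∫⁻ x in ball (0 : V n) 2, ‖g x - ‖g x‖ ^ (p - 2) • g x‖ₑ ^ s) ^ (1 / s)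
        ≤ (ENNReal.ofReal ((|p - 2| * δ⁻¹) ^ s) * B) ^ (1 / s) :=
          ENNReal.rpow_le_rpow hmain (by positivity)
      _ = ENNReal.ofReal (|p - 2| * δ⁻¹) * B ^ (1 / s) := hfin
      _ = ENNReal.ofReal (δ⁻¹ * (B ^ (1 / s)).toReal * |p - 2|) := by
          nth_rewrite 1 [← ENNReal.ofReal_toReal hBs]
          rw [← ENNReal.ofReal_mul (by positivity)]
          congr 1
          ring

end Pool.Agent.Helper20.PN
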