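import Pool.Agent.Helper20.PN.Defs

/-! Cutting off: product of a Sobolev function with a test function. -/

open MeasureTheory Metric Set Filter
open scoped ENNReal NNReal ContDiff Topology Gradient

namespace Pool.Agent.Helper20.PN

private theorem cut_loc {n : ℕ} {E : Type*} [NormedAddCommGroup E] {Ω : Set (V n)}
    {f : V n → E} (hf : LocallyIntegrableOn f Ω) {K : Set (V n)} (hK : IsCompact K)
    (hs : K ⊆ Ω) : LocallyIntegrable (K.indicator f) := by
  have h1 : IntegrableOn f K := hf.integrableOn_compact_subset hs hK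
  exact ((integrable_indicator_iff hK.measurableSet).2 h1).locallyIntegrable

private theorem cut_int_left {n : ℕ} {E : Type*} [NormedAddCommGroup E] [NormedSpace ℝ E]
    {Ω : Set (V n)} {f : V n → E} (hf : LocallyIntegrableOn f Ω) {a : V n → ℝ}
    (ha : Continuous a) (hac : HasCompactSupport a) (hs : tsupport a ⊆ Ω) :
    Integrable (fun x => a x • f x) := by
  have h1 := (cut_loc hf hac hs).integrable_smul_left_of_hasCompactSupport ha hac
  refine h1.congr (Eventually.of_forall fun x => ?_)
  by_cases hx : x ∈ tsupport a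
  · simp [indicator_of_mem hx]
  · simp [image_eq_zero_of_notMem_tsupport hx]

private theorem cut_int_right {n : ℕ} {E : Type*} [NormedAddCommGroup E] [NormedSpace ℝ E]
    {Ω : Set (V n)} {f : V n → ℝ} (hf : LocallyIntegrableOn f Ω) {a : V n → E}
    (ha : Continuous a) (hac : HasCompactSupport a) (hs : tsupport a ⊆ Ω) :
    Integrable (fun x => f x • a x) := by
  have h1 := (cut_loc hf hac hs).integrable_smul_right_of_hasCompactSupport ha hac
  refine h1.congr (Eventually.of_forall fun x => ?_)
  by_cases hx : x ∈ tsupport a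
  · simp [indicator_of_mem hx]
  · simp [image_eq_zero_of_notMem_tsupport hx]

private theorem cut_cont_grad {n : ℕ} {η : V n → ℝ} (h : ContDiff ℝ ∞ η) :
    Continuous (∇ η) := by
  have h1 : Continuous (fderiv ℝ η) := h.continuous_fderiv (by simp)
  exact (InnerProductSpace.toDual ℝ (V n)).symm.continuous.comp h1

private theorem cut_tsupp_grad {n : ℕ} {η : V n → ℝ} : tsupport (∇ η) ⊆ tsupport η := by
  refine closure_minimal (fun x hx => ?_) (isClosed_tsupport η)
  by_contra hx'
  apply hx
  have h1 : fderiv ℝ η x = 0 := by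
    by_contra h2
    exact hx' (tsupport_fderiv_subset ℝ (subset_tsupport (fderiv ℝ η) h2))
  simp [gradient, h1]

private theorem cut_grad_apply {n : ℕ} {η : V n → ℝ} (x : V n) (i : Fin n) :
    (∇ η x) i = fderiv ℝ η x (EuclideanSpace.single i 1) := by
  have h1 : (∇ η x) i = inner ℝ (∇ η x) (EuclideanSpace.single i (1 : ℝ)) := by
    rw [EuclideanSpace.inner_single_right]; simp
  rw [h1, gradient]
  simp

/-- Product with a test function. -/
theorem cutoff {n : ℕ} {Ω : Set (V n)} (hΩ : IsOpen Ω) {u : V n → ℝ} {g : V n → V n}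
    (hw : IsWeakGrad Ω u g) {η : V n → ℝ} (hη : IsTest Ω η) (c : ℝ) :
    Integrable (fun x => η x * (u x - c)) ∧
    Integrable (fun x => η x • g x + (u x - c) • ∇ η x) ∧
    IsWeakGrad univ (fun x => η x * (u x - c)) (fun x => η x • g x + (u x - c) • ∇ η x) := by
  obtain ⟨hu, hg, hid⟩ := hw
  obtain ⟨hη1, hη2, hη3⟩ := hη
  have huc : LocallyIntegrableOn (fun x => u x - c) Ω :=
    hu.sub (locallyIntegrableOn_const c)
  have hgc : HasCompactSupport (∇ η) :=
    hη2.of_isClosed_subset (isClosed_tsupport _) cut_tsupp_grad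
  have h1 : Integrable (fun x => η x * (u x - c)) :=
    cut_int_left huc hη1.continuous hη2 hη3
  have h2 : Integrable (fun x => η x • g x + (u x - c) • ∇ η x) :=
    (cut_int_left hg hη1.continuous hη2 hη3).add
      (cut_int_right huc (cut_cont_grad hη1) hgc (cut_tsupp_grad.trans hη3))
  refine ⟨h1, h2, h1.locallyIntegrable.locallyIntegrableOn _,
    h2.locallyIntegrable.locallyIntegrableOn _, fun φ hφ i => ?_⟩
  obtain ⟨hφ1, hφ2, -⟩ := hφ
  set e : V n := EuclideanSpace.single i (1 : ℝ) with he
  have hηd : Differentiable ℝ η := hη1.differentiable (by simp)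
  have hφd : Differentiable ℝ φ := hφ1.differentiable (by simp)
  have htest : IsTest Ω (fun x => η x * φ x) :=
    ⟨hη1.mul hφ1, hη2.mul_right, (tsupport_mul_subset_left).trans hη3⟩
  have hfd : ∀ x, fderiv ℝ (fun x => η x * φ x) x e =
      η x * fderiv ℝ φ x e + φ x * fderiv ℝ η x e := by
    intro x
    have := fderiv_fun_mul (hηd x) (hφd x)
    rw [this]
    simp
  have hcφ : Continuous (fun x => fderiv ℝ φ x e) :=
    (hφ1.continuous_fderiv (by simp)).clm_apply continuous_const
  have hcη : Continuous (fun x => fderiv ℝ η x e) :=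
    (hη1.continuous_fderiv (by simp)).clm_apply continuous_const
  -- the four products
  have hts : ∀ b : V n → ℝ, tsupport (fun x => η x * b x) ⊆ Ω := fun b =>
    (tsupport_mul_subset_left).trans hη3
  have hsη : tsupport (fun x => fderiv ℝ η x e) ⊆ tsupport η := by
    refine closure_minimal (fun x hx => ?_) (isClosed_tsupport η)
    by_contra hx'
    apply hx
    have h1 : fderiv ℝ η x = 0 := by
      by_contra h2
      exact hx' (tsupport_fderiv_subset ℝ (subset_tsupport (fderiv ℝ η) h2))
    simp [h1]
  have hcsη : HasCompactSupport (fun x => fderiv ℝ η x e) :=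
    hη2.of_isClosed_subset (isClosed_tsupport _) hsη
  have hI1 : Integrable (fun x => (η x * fderiv ℝ φ x e) * (u x - c)) :=
    cut_int_left (a := fun x => η x * fderiv ℝ φ x e) huc (hη1.continuous.mul hcφ)
      hη2.mul_right (hts _)
  have hI2 : Integrable (fun x => (fderiv ℝ η x e * φ x) * (u x - c)) :=
    cut_int_left (a := fun x => fderiv ℝ η x e * φ x) huc (hcη.mul hφ1.continuous)
      hcsη.mul_right ((tsupport_mul_subset_left).trans (hsη.trans hη3))
  have hI3 : Integrable (fun x => (η x * φ x) * g x i) := by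
    have h3 := cut_int_left (a := fun x => η x * φ x) hg (hη1.continuous.mul hφ1.continuous)
      hη2.mul_right (hts _)
    have h4 := (EuclideanSpace.proj (𝕜 := ℝ) i : V n →L[ℝ] ℝ).integrable_comp h3
    simpa using h4
  have hI4 : Integrable (fun x => (η x * fderiv ℝ φ x e) * u x) :=
    cut_int_left (a := fun x => η x * fderiv ℝ φ x e) hu (hη1.continuous.mul hcφ)
      hη2.mul_right (hts _)
  have hI5 : Integrable (fun x => (fderiv ℝ η x e * φ x) * u x) :=
    cut_int_left (a := fun x => fderiv ℝ η x e * φ x) hu (hcη.mul hφ1.continuous)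
      hcsη.mul_right ((tsupport_mul_subset_left).trans (hsη.trans hη3))
  have hI6 : Integrable (fun x => η x * fderiv ℝ φ x e + φ x * fderiv ℝ η x e) := by
    refine Continuous.integrable_of_hasCompactSupport ?_ ?_
    · exact (hη1.continuous.mul hcφ).add (hφ1.continuous.mul hcη)
    · exact (hη2.mul_right).add (hφ2.mul_right)
  have hI7 : Integrable (fun x => η x * φ x) :=
    Continuous.integrable_of_hasCompactSupport (hη1.continuous.mul hφ1.continuous)
      hη2.mul_right
  -- the integral of a derivative vanishes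
  have hz : ∫ x, (η x * fderiv ℝ φ x e + φ x * fderiv ℝ η x e) = 0 := by
    have h5 := integral_mul_fderiv_eq_neg_fderiv_mul_of_integrable (μ := (volume : Measure (V n)))
      (f := fun _ => (1 : ℝ)) (g := fun x => η x * φ x) (v := e) (by simp)
      (by simpa [hfd] using hI6) (by simpa using hI7)
      (fun x _ => differentiableAt_const _)
      (fun x _ => htest.1.differentiable (by simp) x)
    simpa [hfd] using h5
  have hmain := hid _ htest i
  rw [← he] at hmain
  simp only [hfd] at hmain
  have e1 : ∫ x, u x * (η x * fderiv ℝ φ x e + φ x * fderiv ℝ η x e) =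
      (∫ x, (η x * fderiv ℝ φ x e) * (u x - c)) + (∫ x, (fderiv ℝ η x e * φ x) * (u x - c)) := by
    rw [← integral_add hI1 hI2]
    have h6 : ∫ x, u x * (η x * fderiv ℝ φ x e + φ x * fderiv ℝ η x e) =
        ∫ x, (((η x * fderiv ℝ φ x e) * (u x - c) + (fderiv ℝ η x e * φ x) * (u x - c)) +
          c * (η x * fderiv ℝ φ x e + φ x * fderiv ℝ η x e)) := by
      congr 1; ext x; ring
    have h7 := integral_add (hI1.add hI2) (hI6.const_mul c)
    simp only [Pi.add_apply] at h7
    rw [h6, h7, integral_const_mul, hz]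
    simp
  have e2 : ∫ x, g x i * (η x * φ x) = ∫ x, (η x * φ x) * g x i := by
    congr 1; ext x; ring
  have e3 : ∫ x, (η x • g x + (u x - c) • ∇ η x) i * φ x =
      (∫ x, (η x * φ x) * g x i) + ∫ x, (fderiv ℝ η x e * φ x) * (u x - c) := by
    rw [← integral_add hI3 hI2]
    congr 1; ext x
    simp only [PiLp.add_apply, PiLp.smul_apply, smul_eq_mul, cut_grad_apply]
    rw [← he]
    ring
  have e4 : ∫ x, η x * (u x - c) * fderiv ℝ φ x e =
      ∫ x, (η x * fderiv ℝ φ x e) * (u x - c) := by
    congr 1; ext x; ring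
  rw [e3, e4]
  rw [e1, e2] at hmain
  linarith

end Pool.Agent.Helper20.PN
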