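import Pool.Agent.Helper20.PN.Defs

/-!
# PN-1a: mollification
-/

set_option autoImplicit false
set_option linter.unusedSectionVars false
set_option linter.unusedVariables false

open MeasureTheory Metric Set Filter
open scoped ENNReal NNReal ContDiff Topology Gradient Convolution

namespace Pool.Agent.Helper20.PN

section

variable {n : ℕ} {E : Type*} [NormedAddCommGroup E]

/-- continuity of translations -/
theorem moll_transl {f : V n → E} (hf : AEStronglyMeasurable f volume) {a : ℝ} (ha : 1 ≤ a)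
    (hfa : ∫⁻ x, ‖f x‖ₑ ^ a < ⊤) :
    Tendsto (fun t : V n => ∫⁻ x, ‖f (x - t) - f x‖ₑ ^ a) (𝓝 0) (𝓝 0) := by
  have ha0 : 0 < a := by linarith
  set p : ℝ≥0∞ := ENNReal.ofReal a with hp
  have hp0 : p ≠ 0 := by rw [hp]; simpa using ha0
  have hpt : p ≠ ⊤ := by rw [hp]; exact ENNReal.ofReal_ne_top
  have hpr : p.toReal = a := by rw [hp]; exact ENNReal.toReal_ofReal ha0.le
  have : Fact (1 ≤ p) := ⟨by rw [hp]; simpa using ha⟩
  have hmem : MemLp f p volume := by
    refine ⟨hf, ?_⟩
    rw [eLpNorm_lt_top_iff_lintegral_rpow_enorm_lt_top hp0 hpt, hpr]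
    exact hfa
  set F := hmem.toLp f with hF
  let g : V n → C(V n, V n) := fun t => ⟨fun x => x - t, by fun_prop⟩
  have hgc : Continuous g := by
    have : Continuous (fun q : V n × V n => q.2 - q.1) := by fun_prop
    exact (ContinuousMap.curry ⟨fun q : V n × V n => q.2 - q.1, this⟩).continuous
  have hgm : ∀ t, MeasurePreserving (g t) (volume : Measure (V n)) volume := fun t =>
    measurePreserving_sub_right volume t
  have h1 : Tendsto (fun t => Lp.compMeasurePreserving (g t) (hgm t) F) (𝓝 0)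
      (𝓝 (Lp.compMeasurePreserving (g 0) (hgm 0) F)) :=
    Filter.Tendsto.compMeasurePreservingLp tendsto_const_nhds (hgc.tendsto 0) hgm (hgm 0) hpt
  have hFf : F =ᵐ[volume] f := hmem.coeFn_toLp
  have h2 : ∀ t, Lp.compMeasurePreserving (g t) (hgm t) F =ᵐ[volume] fun x => f (x - t) := by
    intro t
    refine (Lp.coeFn_compMeasurePreserving F (hgm t)).trans ?_
    exact (hgm t).quasiMeasurePreserving.ae_eq_comp hFf
  have h3 : Tendsto (fun t => edist (Lp.compMeasurePreserving (g t) (hgm t) F) F) (𝓝 0) (𝓝 0) := by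
    have h4 : Lp.compMeasurePreserving (g 0) (hgm 0) F = F := by
      refine Lp.ext ?_
      refine (h2 0).trans ?_
      simpa using hFf.symm
    rw [h4] at h1
    exact tendsto_iff_edist_tendsto_0.mp h1
  have h5 : ∀ t, ∫⁻ x, ‖f (x - t) - f x‖ₑ ^ a =
      (edist (Lp.compMeasurePreserving (g t) (hgm t) F) F) ^ a := by
    intro t
    rw [Lp.edist_def, eLpNorm_eq_lintegral_rpow_enorm_toReal hp0 hpt, hpr, ← ENNReal.rpow_mul,
      one_div, inv_mul_cancel₀ ha0.ne', ENNReal.rpow_one]
    refine lintegral_congr_ae ?_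
    filter_upwards [h2 t, hFf] with x hx1 hx2
    simp only [Pi.sub_apply, hx1, hx2]
  simp only [h5]
  have h6 : Tendsto (fun y : ℝ≥0∞ => y ^ a) (𝓝 0) (𝓝 0) := by
    have := (ENNReal.continuous_rpow_const (y := a)).tendsto 0
    rwa [ENNReal.zero_rpow_of_pos ha0] at this
  exact h6.comp h3

variable [NormedSpace ℝ E] [CompleteSpace E]

theorem moll_prob (ρ : ContDiffBump (0 : V n)) :
    ∫⁻ t, ENNReal.ofReal (ρ.normed volume t) = 1 := by
  rw [← ofReal_integral_eq_lintegral_ofReal ρ.integrable_normed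
    (Filter.Eventually.of_forall fun t => ρ.nonneg_normed t), ρ.integral_normed,
    ENNReal.ofReal_one]

theorem moll_int (ρ : ContDiffBump (0 : V n)) {f : V n → E} (hf : Integrable f) (x : V n) :
    Integrable (fun t => ρ.normed volume t • f (x - t)) := by
  have h1 : Integrable (fun t => f (x - t)) := hf.comp_sub_left x
  obtain ⟨C, hC⟩ := ρ.hasCompactSupport_normed (μ := volume).exists_bound_of_continuous
    ρ.continuous_normed
  exact h1.bdd_smul C ρ.continuous_normed.aestronglyMeasurable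
    (Filter.Eventually.of_forall hC)

theorem moll_jensen (ρ : ContDiffBump (0 : V n)) {f : V n → E} (hf : Integrable f) {a : ℝ}
    (ha : 1 ≤ a) (x : V n) :
    ‖(ρ.normed volume ⋆[ContinuousLinearMap.lsmul ℝ ℝ, volume] f) x - f x‖ₑ ^ a ≤
      ∫⁻ t, ENNReal.ofReal (ρ.normed volume t) * ‖f (x - t) - f x‖ₑ ^ a := by
  have ha0 : 0 < a := by linarith
  have e1 : (ρ.normed volume ⋆[ContinuousLinearMap.lsmul ℝ ℝ, volume] f) x - f x =
      ∫ t, ρ.normed volume t • (f (x - t) - f x) := by
    have h2 : Integrable (fun t => ρ.normed volume t • f x) := ρ.integrable_normed.smul_const _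
    simp only [smul_sub]
    rw [integral_sub (moll_int ρ hf x) h2, integral_smul_const, ρ.integral_normed, one_smul]
    rfl
  have hρm : Measurable (fun t => ENNReal.ofReal (ρ.normed volume t)) :=
    ρ.continuous_normed.measurable.ennreal_ofReal
  set ν : Measure (V n) := volume.withDensity (fun t => ENNReal.ofReal (ρ.normed volume t))
    with hν
  have : IsProbabilityMeasure ν := ⟨by
    rw [hν, withDensity_apply _ MeasurableSet.univ, Measure.restrict_univ, moll_prob]⟩
  have hm : AEStronglyMeasurable (fun t => f (x - t) - f x) volume :=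
    ((hf.comp_sub_left x).aestronglyMeasurable).sub aestronglyMeasurable_const
  have hmν : AEStronglyMeasurable (fun t => f (x - t) - f x) ν :=
    hm.mono_ac (withDensity_absolutelyContinuous _ _)
  have h3 := eLpNorm'_le_eLpNorm'_of_exponent_le one_pos ha ν hmν
  simp only [eLpNorm', ENNReal.rpow_one, one_div, inv_one] at h3
  have h4 : ‖(ρ.normed volume ⋆[ContinuousLinearMap.lsmul ℝ ℝ, volume] f) x - f x‖ₑ ≤
      ∫⁻ t, ‖f (x - t) - f x‖ₑ ∂ν := by
    rw [e1, hν, lintegral_withDensity_eq_lintegral_mul₀ hρm.aemeasurable hm.enorm]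
    refine (enorm_integral_le_lintegral_enorm _).trans (lintegral_mono fun t => ?_)
    simp only [Pi.mul_apply, enorm_smul]
    rw [Real.enorm_eq_ofReal (ρ.nonneg_normed t)]
  have h5 : ∫⁻ t, ENNReal.ofReal (ρ.normed volume t) * ‖f (x - t) - f x‖ₑ ^ a =
      ∫⁻ t, ‖f (x - t) - f x‖ₑ ^ a ∂ν := by
    rw [hν, lintegral_withDensity_eq_lintegral_mul₀ hρm.aemeasurable (hm.enorm.pow_const a)]
    rfl
  rw [h5]
  calc _ ≤ ((∫⁻ t, ‖f (x - t) - f x‖ₑ ^ a ∂ν) ^ a⁻¹) ^ a :=
        ENNReal.rpow_le_rpow (h4.trans h3) ha0.le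
    _ = _ := by rw [← ENNReal.rpow_mul, inv_mul_cancel₀ ha0.ne', ENNReal.rpow_one]

theorem moll_tendsto (ρ : ℕ → ContDiffBump (0 : V n))
    (hρ : Tendsto (fun k => (ρ k).rOut) atTop (𝓝 0)) {f : V n → E} (hf : Integrable f) {a : ℝ}
    (ha : 1 ≤ a) (hfa : ∫⁻ x, ‖f x‖ₑ ^ a < ⊤) :
    Tendsto (fun k => ∫⁻ x, ‖((ρ k).normed volume ⋆[ContinuousLinearMap.lsmul ℝ ℝ, volume] f) x
      - f x‖ₑ ^ a) atTop (𝓝 0) := by
  have ht := moll_transl hf.aestronglyMeasurable ha hfa
  rw [ENNReal.tendsto_nhds_zero] at ht ⊢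
  intro ε hε
  obtain ⟨δ, hδ, hδ2⟩ := Metric.eventually_nhds_iff.mp (ht ε hε)
  have h1 : ∀ᶠ k in atTop, (ρ k).rOut < δ := hρ.eventually_lt_const hδ
  filter_upwards [h1] with k hk
  have hρm : Measurable (fun t => ENNReal.ofReal ((ρ k).normed volume t)) :=
    (ρ k).continuous_normed.measurable.ennreal_ofReal
  calc _ ≤ ∫⁻ x, ∫⁻ t, ENNReal.ofReal ((ρ k).normed volume t) * ‖f (x - t) - f x‖ₑ ^ a :=
        lintegral_mono fun x => moll_jensen (ρ k) hf ha x
    _ = ∫⁻ t, ∫⁻ x, ENNReal.ofReal ((ρ k).normed volume t) * ‖f (x - t) - f x‖ₑ ^ a := by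
        refine lintegral_lintegral_swap ?_
        refine (hρm.comp measurable_snd).aemeasurable.mul (AEMeasurable.pow_const
          (AEStronglyMeasurable.enorm ?_) a)
        refine AEStronglyMeasurable.sub ?_ ?_
        · exact hf.aestronglyMeasurable.comp_quasiMeasurePreserving
            (quasiMeasurePreserving_sub_of_right_invariant volume volume)
        · exact hf.aestronglyMeasurable.comp_fst
    _ ≤ ∫⁻ t, ENNReal.ofReal ((ρ k).normed volume t) * ε := by
        refine lintegral_mono fun t => ?_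
        dsimp only
        rw [lintegral_const_mul' _ _ ENNReal.ofReal_ne_top]
        by_cases h0 : (ρ k).normed volume t = 0
        · rw [h0]; simp
        · refine mul_le_mul_right (hδ2 ?_) _
          have : t ∈ Function.support ((ρ k).normed volume) := h0
          rw [(ρ k).support_normed_eq, Metric.mem_ball] at this
          exact this.trans hk
    _ = ε := by
        rw [lintegral_mul_const _ hρm, moll_prob, one_mul]

end

theorem moll_hasFDerivAt {n : ℕ} {U : V n → ℝ} {Γ : V n → V n} (hU : Integrable U)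
    (hΓ : Integrable Γ) (hw : IsWeakGrad univ U Γ) (ρ : ContDiffBump (0 : V n)) (x : V n) :
    ∇ (ρ.normed volume ⋆[ContinuousLinearMap.lsmul ℝ ℝ, volume] U) x =
      (ρ.normed volume ⋆[ContinuousLinearMap.lsmul ℝ ℝ, volume] Γ) x := by
  have hc1 : ContDiff ℝ 1 (ρ.normed volume) := ρ.contDiff_normed (n := 1)
  have hcs : HasCompactSupport (ρ.normed volume) := ρ.hasCompactSupport_normed
  have h1 := (hcs.hasFDerivAt_convolution_left (ContinuousLinearMap.lsmul ℝ ℝ) hc1
    hU.locallyIntegrable x)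
  have hdiff : Differentiable ℝ (ρ.normed volume) := hc1.differentiable (by norm_num)
  -- the test function
  set φ : V n → ℝ := fun y => ρ.normed volume (x - y) with hφ
  have hφt : IsTest univ φ := by
    refine ⟨(ρ.contDiff_normed (n := ⊤)).comp (by fun_prop), ?_, subset_univ _⟩
    exact hcs.comp_homeomorph (Homeomorph.subLeft x)
  have hφd : ∀ y v, fderiv ℝ φ y v = - fderiv ℝ (ρ.normed volume) (x - y) v := by
    intro y v
    have h2 : HasFDerivAt (fun y : V n => x - y) (-ContinuousLinearMap.id ℝ (V n)) y :=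
      (hasFDerivAt_id y).const_sub x
    have h3 : HasFDerivAt φ _ y := (hdiff (x - y)).hasFDerivAt.comp y h2
    rw [h3.fderiv]
    simp
  have hcd : Continuous (fderiv ℝ (ρ.normed volume)) := hc1.continuous_fderiv (by norm_num)
  have hcsd : HasCompactSupport (fderiv ℝ (ρ.normed volume)) := hcs.fderiv ℝ
  ext i
  have e1 : (∇ (ρ.normed volume ⋆[ContinuousLinearMap.lsmul ℝ ℝ, volume] U) x) i =
      fderiv ℝ (ρ.normed volume ⋆[ContinuousLinearMap.lsmul ℝ ℝ, volume] U) x
        (EuclideanSpace.single i 1) := by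
    rw [← inner_gradient_left, EuclideanSpace.inner_single_right]
    simp
  rw [e1, h1.fderiv]
  have hint : Integrable (fun y => U y • fderiv ℝ (ρ.normed volume) (x - y)) := by
    obtain ⟨C, hC⟩ := hcsd.exists_bound_of_continuous hcd
    refine hU.smul_bdd C ?_ (Filter.Eventually.of_forall fun y => hC (x - y))
    exact (hcd.comp (by fun_prop)).aestronglyMeasurable
  have e2 : ((fderiv ℝ (ρ.normed volume) ⋆[(ContinuousLinearMap.lsmul ℝ ℝ).precompL (V n),
      volume] U) x) (EuclideanSpace.single i 1) =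
      ∫ y, U y * fderiv ℝ (ρ.normed volume) (x - y) (EuclideanSpace.single i 1) := by
    rw [convolution_eq_swap]
    have e3 : (fun t => (((ContinuousLinearMap.lsmul ℝ ℝ).precompL (V n))
        (fderiv ℝ (ρ.normed volume) (x - t))) (U t)) =
        fun y => U y • fderiv ℝ (ρ.normed volume) (x - y) := by
      funext y
      ext v
      simp [ContinuousLinearMap.precompL_apply, mul_comm]
    rw [e3, ContinuousLinearMap.integral_apply hint]
    rfl
  rw [e2]
  have e4 : ((ρ.normed volume ⋆[ContinuousLinearMap.lsmul ℝ ℝ, volume] Γ) x) i =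
      ∫ y, Γ y i * ρ.normed volume (x - y) := by
    rw [convolution_eq_swap]
    have hint2 : Integrable (fun y => ρ.normed volume (x - y) • Γ y) := by
      obtain ⟨C, hC⟩ := hcs.exists_bound_of_continuous ρ.continuous_normed
      refine hΓ.bdd_smul C ?_ (Filter.Eventually.of_forall fun y => hC (x - y))
      exact (ρ.continuous_normed.comp (by fun_prop)).aestronglyMeasurable
    have e5 := ContinuousLinearMap.integral_comp_comm (EuclideanSpace.proj (𝕜 := ℝ) i) hint2
    simp only [ContinuousLinearMap.lsmul_apply]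
    change (EuclideanSpace.proj (𝕜 := ℝ) i) _ = _
    rw [← e5]
    refine integral_congr_ae (Filter.Eventually.of_forall fun y => ?_)
    simp [mul_comm]
  rw [e4]
  have e6 := hw.2.2 φ hφt i
  simp only [hφd, mul_neg, integral_neg, neg_inj] at e6
  exact e6

/-- Mollification of a compactly supported Sobolev function on the whole space. -/
theorem exists_moll {n : ℕ} {U : V n → ℝ} {Γ : V n → V n} {K : Set (V n)} (hK : IsCompact K)
    (hU : Integrable U) (hΓ : Integrable Γ) (hUK : ∀ x ∉ K, U x = 0) (hΓK : ∀ x ∉ K, Γ x = 0)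
    (hw : IsWeakGrad univ U Γ) :
    ∃ φ : ℕ → V n → ℝ, (∀ k, ContDiff ℝ ∞ (φ k)) ∧
      (∀ k : ℕ, tsupport (φ k) ⊆ cthickening (1 / ((k : ℝ) + 1)) K) ∧
      (∀ a : ℝ, 1 ≤ a → ∫⁻ x, ‖U x‖ₑ ^ a < ⊤ →
        Tendsto (fun k => ∫⁻ x, ‖φ k x - U x‖ₑ ^ a) atTop (𝓝 0)) ∧
      (∀ a : ℝ, 1 ≤ a → ∫⁻ x, ‖Γ x‖ₑ ^ a < ⊤ →
        Tendsto (fun k => ∫⁻ x, ‖∇ (φ k) x - Γ x‖ₑ ^ a) atTop (𝓝 0)) := by
  have hpos : ∀ k : ℕ, (0 : ℝ) < 1 / ((k : ℝ) + 1) := fun k => by positivity
  let ρ : ℕ → ContDiffBump (0 : V n) := fun k =>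
    ⟨1 / ((k : ℝ) + 1) / 2, 1 / ((k : ℝ) + 1), by positivity, by
      have := hpos k
      linarith⟩
  have hρ : Tendsto (fun k => (ρ k).rOut) atTop (𝓝 0) :=
    tendsto_one_div_add_atTop_nhds_zero_nat
  refine ⟨fun k => (ρ k).normed volume ⋆[ContinuousLinearMap.lsmul ℝ ℝ, volume] U, ?_, ?_, ?_, ?_⟩
  · intro k
    exact (ρ k).hasCompactSupport_normed.contDiff_convolution_left (n := ⊤) _
      ((ρ k).contDiff_normed (n := ⊤)) hU.locallyIntegrable
  · intro k
    rw [← hK.add_closedBall_zero (hpos k).le]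
    refine closure_minimal ?_ (hK.add (isCompact_closedBall _ _)).isClosed
    refine (support_convolution_subset_swap _).trans (add_subset_add ?_ ?_)
    · intro x hx
      by_contra h
      exact hx (hUK x h)
    · rw [(ρ k).support_normed_eq]
      exact ball_subset_closedBall
  · intro a ha hfa
    exact moll_tendsto ρ hρ hU ha hfa
  · intro a ha hfa
    have := moll_tendsto ρ hρ hΓ ha hfa
    simpa only [moll_hasFDerivAt hU hΓ hw] using this

end Pool.Agent.Helper20.PN
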