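import Pool.Agent.Helper20.PN.Defs
import Pool.Agent.Helper20.PN.Cut
import Pool.Agent.Helper20.PN.Moll

/-! # PN-5: the Poincare inequality on balls -/

open MeasureTheory Metric Set Filter
open scoped ENNReal NNReal ContDiff Topology Gradient

namespace Pool.Agent.Helper20.PN

/-- the norm of the gradient is the norm of the derivative -/
theorem poin_enorm_grad {n : ℕ} (f : V n → ℝ) (x : V n) : ‖∇ f x‖ₑ = ‖fderiv ℝ f x‖ₑ := by
  have h : ‖∇ f x‖ = ‖fderiv ℝ f x‖ := by
    unfold gradient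
    exact LinearIsometryEquiv.norm_map _ _
  rw [← ofReal_norm, ← ofReal_norm, h]

theorem poin_cont_fderiv {n : ℕ} {f : V n → ℝ} (hf : ContDiff ℝ ∞ f) :
    Continuous (fun x => fderiv ℝ f x) :=
  hf.continuous_fderiv (by simp)

theorem poin_cont_grad {n : ℕ} {f : V n → ℝ} (hf : ContDiff ℝ ∞ f) :
    Continuous (fun x => ‖∇ f x‖ₑ) := by
  have h : (fun x => ‖∇ f x‖ₑ) = fun x => ‖fderiv ℝ f x‖ₑ := funext fun x => poin_enorm_grad f x
  rw [h]
  exact (poin_cont_fderiv hf).enorm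

/-- the pointwise inequality -/
theorem poin_pointwise {n : ℕ} {a : ℝ} (ha : 1 ≤ a) {f : V n → ℝ} (hf : ContDiff ℝ ∞ f)
    (x y : V n) :
    ‖f x - f y‖ₑ ^ a ≤ ∫⁻ t in Ioc (0 : ℝ) 1, (‖y - x‖ₑ ^ a * ‖∇ f (x + t • (y - x))‖ₑ ^ a) := by
  have ha0 : 0 < a := by linarith
  have hd : ∀ t : ℝ, HasDerivAt (fun t : ℝ => f (x + t • (y - x)))
      (fderiv ℝ f (x + t • (y - x)) (y - x)) t := by
    intro t
    have h1 : HasFDerivAt f (fderiv ℝ f (x + t • (y - x))) (x + t • (y - x)) :=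
      (hf.differentiable (by simp)).differentiableAt.hasFDerivAt
    have h2 : HasDerivAt (fun t : ℝ => x + t • (y - x)) (y - x) t := by
      have h3 := ((hasDerivAt_id t).smul_const (y - x)).const_add x
      simpa using h3
    exact h1.comp_hasDerivAt t h2
  have hc : Continuous fun t : ℝ => fderiv ℝ f (x + t • (y - x)) (y - x) := by
    have h1 : Continuous fun t : ℝ => fderiv ℝ f (x + t • (y - x)) :=
      (poin_cont_fderiv hf).comp (by fun_prop)
    exact h1.clm_apply continuous_const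
  have hI : ∫ t in (0 : ℝ)..1, fderiv ℝ f (x + t • (y - x)) (y - x) = f y - f x := by
    rw [intervalIntegral.integral_eq_sub_of_hasDerivAt (fun t _ => hd t)
      (hc.intervalIntegrable _ _)]
    simp
  have hprob : IsProbabilityMeasure (volume.restrict (Ioc (0 : ℝ) 1)) := by
    constructor
    rw [Measure.restrict_apply_univ, Real.volume_Ioc]
    simp
  have h1 : ‖f x - f y‖ₑ ≤ eLpNorm' (fun t : ℝ => fderiv ℝ f (x + t • (y - x)) (y - x)) 1
      (volume.restrict (Ioc (0 : ℝ) 1)) := by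
    rw [eLpNorm'_eq_lintegral_enorm]
    have h2 : ‖f x - f y‖ₑ = ‖∫ t in Ioc (0 : ℝ) 1, fderiv ℝ f (x + t • (y - x)) (y - x)‖ₑ := by
      rw [← intervalIntegral.integral_of_le zero_le_one, hI, ← enorm_neg]
      congr 1
      ring
    rw [h2]
    simp only [ENNReal.rpow_one, div_one]
    exact enorm_integral_le_lintegral_enorm _
  have h2 : ‖f x - f y‖ₑ ≤ eLpNorm' (fun t : ℝ => fderiv ℝ f (x + t • (y - x)) (y - x)) a
      (volume.restrict (Ioc (0 : ℝ) 1)) :=
    h1.trans (eLpNorm'_le_eLpNorm'_of_exponent_le one_pos ha _ hc.aestronglyMeasurable)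
  have h3 : ‖f x - f y‖ₑ ^ a ≤ ∫⁻ t in Ioc (0 : ℝ) 1,
      ‖fderiv ℝ f (x + t • (y - x)) (y - x)‖ₑ ^ a := by
    rw [eLpNorm'_eq_lintegral_enorm] at h2
    calc ‖f x - f y‖ₑ ^ a ≤ ((∫⁻ t in Ioc (0 : ℝ) 1,
          ‖fderiv ℝ f (x + t • (y - x)) (y - x)‖ₑ ^ a) ^ (1 / a)) ^ a :=
          ENNReal.rpow_le_rpow h2 ha0.le
      _ = _ := by rw [← ENNReal.rpow_mul, one_div_mul_cancel ha0.ne', ENNReal.rpow_one]
  refine h3.trans (lintegral_mono fun t => ?_)
  rw [← ENNReal.mul_rpow_of_nonneg _ _ ha0.le, poin_enorm_grad, mul_comm]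
  exact ENNReal.rpow_le_rpow (ContinuousLinearMap.le_opENorm _ _) ha0.le

/-- scaling and translation -/
theorem poin_scale {n : ℕ} {G : V n → ℝ≥0∞} (hG : Measurable G) {s : ℝ} (hs : 1 / 2 ≤ s)
    (c : V n) : ∫⁻ x, G (s • x + c) ≤ 2 ^ n * ∫⁻ x, G x := by
  have hs0 : 0 < s := by linarith
  have h1 : ∫⁻ x, G (s • x + c) = ∫⁻ z, G (z + c) ∂(Measure.map (fun x : V n => s • x) volume) :=
    (lintegral_map (f := fun z => G (z + c)) (hG.comp (measurable_id.add_const c))
      (measurable_const_smul s)).symm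
  rw [h1, Measure.map_addHaar_smul _ hs0.ne', lintegral_smul_measure,
    lintegral_add_right_eq_self]
  have h2 : ENNReal.ofReal |(s ^ Module.finrank ℝ (V n))⁻¹| ≤ 2 ^ n := by
    have h3 : Module.finrank ℝ (V n) = n := by simp [V]
    rw [h3, abs_of_nonneg (by positivity), ← inv_pow]
    have h4 : s⁻¹ ≤ 2 := by
      rw [inv_le_comm₀ hs0 (by norm_num)]
      linarith
    calc ENNReal.ofReal (s⁻¹ ^ n) ≤ ENNReal.ofReal (2 ^ n) :=
          ENNReal.ofReal_le_ofReal (pow_le_pow_left₀ (by positivity) h4 n)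
      _ = 2 ^ n := by
          rw [ENNReal.ofReal_pow (by norm_num)]
          norm_num
  exact mul_le_mul_left h2 _

/-- the double integral inequality for smooth functions -/
theorem poin_smooth {n : ℕ} {a : ℝ} (ha : 1 ≤ a) {f : V n → ℝ} (hf : ContDiff ℝ ∞ f) {r : ℝ}
    (hr : 0 < r) (hr2 : r ≤ 2) :
    ∫⁻ x in ball (0 : V n) r, ∫⁻ y in ball (0 : V n) r, ‖f x - f y‖ₑ ^ a ≤
      4 ^ a * (volume (ball (0 : V n) r) * (2 ^ n * ∫⁻ x in ball (0 : V n) r, ‖∇ f x‖ₑ ^ a)) := by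
  have ha0 : 0 < a := by linarith
  set B : Set (V n) := ball (0 : V n) r with hB
  have hBm : MeasurableSet B := measurableSet_ball
  let G : V n → ℝ≥0∞ := B.indicator fun z => ‖∇ f z‖ₑ ^ a
  have hG : Measurable G :=
    Measurable.indicator ((poin_cont_grad hf).measurable.pow_const a) hBm
  have hGi : ∫⁻ z, G z = ∫⁻ x in B, ‖∇ f x‖ₑ ^ a := lintegral_indicator hBm _
  have hpt : ∀ x ∈ B, ∀ y ∈ B, ‖f x - f y‖ₑ ^ a ≤
      4 ^ a * ∫⁻ t in Ioc (0 : ℝ) 1, G (x + t • (y - x)) := by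
    intro x hx y hy
    have h1 := poin_pointwise ha hf x y
    refine h1.trans ?_
    rw [← lintegral_const_mul' _ _ (ENNReal.rpow_ne_top_of_nonneg ha0.le (by norm_num))]
    refine setLIntegral_mono' measurableSet_Ioc fun t ht => ?_
    have h2 : x + t • (y - x) ∈ B := by
      have h3 := (convex_ball (0 : V n) r) hx hy (a := 1 - t) (b := t) (by linarith [ht.2])
        ht.1.le (by ring)
      have h4 : x + t • (y - x) = (1 - t) • x + t • y := by
        rw [smul_sub, sub_smul, one_smul]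
        abel
      rw [h4]
      exact h3
    have h5 : G (x + t • (y - x)) = ‖∇ f (x + t • (y - x))‖ₑ ^ a := indicator_of_mem h2 _
    rw [h5]
    refine mul_le_mul_left (ENNReal.rpow_le_rpow ?_ ha0.le) _
    have h6 : ‖y - x‖ ≤ 4 := by
      have h7 : ‖x‖ < r := by simpa [hB] using hx
      have h8 : ‖y‖ < r := by simpa [hB] using hy
      have h9 := norm_sub_le y x
      linarith
    rw [← ofReal_norm]
    calc ENNReal.ofReal ‖y - x‖ ≤ ENNReal.ofReal 4 := ENNReal.ofReal_le_ofReal h6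
      _ = 4 := by norm_num
  have hm3 : Measurable fun p : (V n × V n) × ℝ => G (p.1.1 + p.2 • (p.1.2 - p.1.1)) :=
    hG.comp (by fun_prop)
  -- the triple integral
  have htri : ∫⁻ x in B, ∫⁻ y in B, ∫⁻ t in Ioc (0 : ℝ) 1, G (x + t • (y - x)) ≤
      volume B * (2 ^ n * ∫⁻ z, G z) := by
    have h1 : ∀ x, ∫⁻ y in B, ∫⁻ t in Ioc (0 : ℝ) 1, G (x + t • (y - x)) =
        ∫⁻ t in Ioc (0 : ℝ) 1, ∫⁻ y in B, G (x + t • (y - x)) := by
      intro x
      refine lintegral_lintegral_swap (Measurable.aemeasurable ?_)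
      exact hG.comp (by fun_prop)
    simp only [h1]
    have h2 : ∫⁻ x in B, ∫⁻ t in Ioc (0 : ℝ) 1, ∫⁻ y in B, G (x + t • (y - x)) =
        ∫⁻ t in Ioc (0 : ℝ) 1, ∫⁻ x in B, ∫⁻ y in B, G (x + t • (y - x)) := by
      refine lintegral_lintegral_swap (Measurable.aemeasurable ?_)
      have h3 : Measurable fun p : (V n × ℝ) × V n => G (p.1.1 + p.1.2 • (p.2 - p.1.1)) :=
        hG.comp (by fun_prop)
      exact h3.lintegral_prod_right' (ν := volume.restrict B)
    rw [h2]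
    have h4 : ∀ t ∈ Ioc (0 : ℝ) 1, ∫⁻ x in B, ∫⁻ y in B, G (x + t • (y - x)) ≤
        volume B * (2 ^ n * ∫⁻ z, G z) := by
      intro t ht
      rcases le_total (1 / 2) t with h5 | h5
      · -- substitute in y
        have h6 : ∀ x, ∫⁻ y in B, G (x + t • (y - x)) ≤ 2 ^ n * ∫⁻ z, G z := by
          intro x
          calc ∫⁻ y in B, G (x + t • (y - x)) ≤ ∫⁻ y, G (x + t • (y - x)) :=
                setLIntegral_le_lintegral _ _
            _ = ∫⁻ y, G (t • y + (x - t • x)) := by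
                refine lintegral_congr fun y => ?_
                congr 1
                rw [smul_sub]
                abel
            _ ≤ _ := poin_scale hG h5 _
        calc ∫⁻ x in B, ∫⁻ y in B, G (x + t • (y - x)) ≤ ∫⁻ x in B, 2 ^ n * ∫⁻ z, G z :=
              lintegral_mono h6
          _ = _ := by rw [setLIntegral_const, mul_comm]
      · have h7 : ∫⁻ x in B, ∫⁻ y in B, G (x + t • (y - x)) =
            ∫⁻ y in B, ∫⁻ x in B, G (x + t • (y - x)) := by
          refine lintegral_lintegral_swap (Measurable.aemeasurable ?_)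
          exact hG.comp (by fun_prop)
        have h6 : ∀ y, ∫⁻ x in B, G (x + t • (y - x)) ≤ 2 ^ n * ∫⁻ z, G z := by
          intro y
          calc ∫⁻ x in B, G (x + t • (y - x)) ≤ ∫⁻ x, G (x + t • (y - x)) :=
                setLIntegral_le_lintegral _ _
            _ = ∫⁻ x, G ((1 - t) • x + t • y) := by
                refine lintegral_congr fun x => ?_
                congr 1
                rw [smul_sub, sub_smul, one_smul]
                abel
            _ ≤ _ := poin_scale hG (by linarith) _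
        rw [h7]
        calc ∫⁻ y in B, ∫⁻ x in B, G (x + t • (y - x)) ≤ ∫⁻ y in B, 2 ^ n * ∫⁻ z, G z :=
              lintegral_mono h6
          _ = _ := by rw [setLIntegral_const, mul_comm]
    calc ∫⁻ t in Ioc (0 : ℝ) 1, ∫⁻ x in B, ∫⁻ y in B, G (x + t • (y - x))
        ≤ ∫⁻ t in Ioc (0 : ℝ) 1, volume B * (2 ^ n * ∫⁻ z, G z) :=
          setLIntegral_mono' measurableSet_Ioc h4
      _ = volume B * (2 ^ n * ∫⁻ z, G z) := by
          rw [setLIntegral_const, Real.volume_Ioc]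
          simp
  calc ∫⁻ x in B, ∫⁻ y in B, ‖f x - f y‖ₑ ^ a
      ≤ ∫⁻ x in B, ∫⁻ y in B, 4 ^ a * ∫⁻ t in Ioc (0 : ℝ) 1, G (x + t • (y - x)) :=
        setLIntegral_mono' hBm fun x hx => setLIntegral_mono' hBm fun y hy => hpt x hx y hy
    _ = 4 ^ a * ∫⁻ x in B, ∫⁻ y in B, ∫⁻ t in Ioc (0 : ℝ) 1, G (x + t • (y - x)) := by
        have h4 : (4 : ℝ≥0∞) ^ a ≠ ⊤ := ENNReal.rpow_ne_top_of_nonneg ha0.le (by norm_num)
        rw [← lintegral_const_mul' _ _ h4]
        refine lintegral_congr fun x => ?_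
        rw [lintegral_const_mul' _ _ h4]
    _ ≤ 4 ^ a * (volume B * (2 ^ n * ∫⁻ z, G z)) := mul_le_mul_right htri _
    _ = _ := by rw [hGi]

/-- the product form -/
theorem poin_smooth' {n : ℕ} {a : ℝ} (ha : 1 ≤ a) {f : V n → ℝ} (hf : ContDiff ℝ ∞ f) {r : ℝ}
    (hr : 0 < r) (hr2 : r ≤ 2) :
    eLpNorm' (fun z : V n × V n => f z.1 - f z.2) a
      ((volume.restrict (ball (0 : V n) r)).prod (volume.restrict (ball (0 : V n) r))) ≤
      (4 ^ a * 2 ^ n * volume (ball (0 : V n) r)) ^ (1 / a) *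
        eLpNorm' (∇ f) a (volume.restrict (ball (0 : V n) r)) := by
  have ha0 : 0 < a := by linarith
  have hfc : Continuous f := hf.continuous
  rw [eLpNorm'_eq_lintegral_enorm, eLpNorm'_eq_lintegral_enorm,
    ← ENNReal.mul_rpow_of_nonneg _ _ (by positivity)]
  refine ENNReal.rpow_le_rpow ?_ (by positivity)
  rw [lintegral_prod]
  · refine (poin_smooth ha hf hr hr2).trans (le_of_eq ?_)
    ring
  · refine Measurable.aemeasurable ?_
    refine Measurable.pow_const (Measurable.enorm ?_) a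
    exact (hfc.measurable.comp measurable_fst).sub (hfc.measurable.comp measurable_snd)

/-- functions of one variable in the product -/
theorem poin_fst {n : ℕ} {a : ℝ} (ha : 1 ≤ a) {E : V n → ℝ} {B : Set (V n)}
    (hE : AEStronglyMeasurable E (volume.restrict B)) :
    eLpNorm' (fun z : V n × V n => E z.1) a
      ((volume.restrict B).prod (volume.restrict B)) =
      volume B ^ (1 / a) * eLpNorm' E a (volume.restrict B) := by
  have ha0 : 0 < a := by linarith
  rw [eLpNorm'_eq_lintegral_enorm, eLpNorm'_eq_lintegral_enorm,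
    ← ENNReal.mul_rpow_of_nonneg _ _ (by positivity)]
  congr 1
  have hEm : AEMeasurable (fun x => ‖E x‖ₑ ^ a) (volume.restrict B) := hE.enorm.pow_const a
  rw [lintegral_prod _ (hE.comp_fst.enorm.pow_const a)]
  simp only [setLIntegral_const]
  rw [lintegral_mul_const'' _ hEm, mul_comm]

theorem poin_snd {n : ℕ} {a : ℝ} (ha : 1 ≤ a) {E : V n → ℝ} {B : Set (V n)}
    (hE : AEStronglyMeasurable E (volume.restrict B)) :
    eLpNorm' (fun z : V n × V n => E z.2) a
      ((volume.restrict B).prod (volume.restrict B)) =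
      volume B ^ (1 / a) * eLpNorm' E a (volume.restrict B) := by
  have ha0 : 0 < a := by linarith
  rw [eLpNorm'_eq_lintegral_enorm, eLpNorm'_eq_lintegral_enorm,
    ← ENNReal.mul_rpow_of_nonneg _ _ (by positivity)]
  congr 1
  rw [lintegral_prod _ (hE.comp_snd.enorm.pow_const a)]
  simp only [setLIntegral_const]
  rw [mul_comm]

/-- passing to the limit in the double integral inequality -/
theorem poin_limit {n : ℕ} {a : ℝ} (ha : 1 ≤ a) {r : ℝ} (hr : 0 < r) (hr2 : r ≤ 2)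
    {u : V n → ℝ} {g : V n → V n} {φ : ℕ → V n → ℝ}
    (hu : AEStronglyMeasurable u (volume.restrict (ball (0 : V n) r)))
    (hg : AEStronglyMeasurable g (volume.restrict (ball (0 : V n) r)))
    (hφ : ∀ k, ContDiff ℝ ∞ (φ k))
    (h1 : Tendsto (fun k => ∫⁻ x in ball (0 : V n) r, ‖φ k x - u x‖ₑ ^ a) atTop (𝓝 0))
    (h2 : Tendsto (fun k => ∫⁻ x in ball (0 : V n) r, ‖∇ (φ k) x - g x‖ₑ ^ a) atTop (𝓝 0)) :
    ∃ c : ℝ, ∫⁻ x in ball (0 : V n) r, ‖u x - c‖ₑ ^ a ≤
      4 ^ a * 2 ^ n * ∫⁻ x in ball (0 : V n) r, ‖g x‖ₑ ^ a := by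
  have ha0 : 0 < a := by linarith
  have ha1 : 0 < 1 / a := by positivity
  set B : Set (V n) := ball (0 : V n) r with hB
  set μ : Measure (V n) := volume.restrict B with hμ
  have hBpos : volume B ≠ 0 := (measure_ball_pos volume _ hr).ne'
  have hBfin : volume B ≠ ⊤ := measure_ball_lt_top.ne
  have h1' : Tendsto (fun k => eLpNorm' (fun x => φ k x - u x) a μ) atTop (𝓝 0) := by
    have h3 := (ENNReal.continuous_rpow_const (y := 1 / a)).tendsto 0 |>.comp h1
    rw [ENNReal.zero_rpow_of_pos ha1] at h3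
    refine h3.congr fun k => ?_
    rw [eLpNorm'_eq_lintegral_enorm]
    rfl
  have h2' : Tendsto (fun k => eLpNorm' (fun x => ∇ (φ k) x - g x) a μ) atTop (𝓝 0) := by
    have h3 := (ENNReal.continuous_rpow_const (y := 1 / a)).tendsto 0 |>.comp h2
    rw [ENNReal.zero_rpow_of_pos ha1] at h3
    refine h3.congr fun k => ?_
    rw [eLpNorm'_eq_lintegral_enorm]
    rfl
  have hgradm : ∀ k, AEStronglyMeasurable (∇ (φ k)) μ := by
    intro k
    have h3 : Continuous (∇ (φ k)) := by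
      unfold gradient
      exact (LinearIsometryEquiv.continuous _).comp (poin_cont_fderiv (hφ k))
    exact h3.aestronglyMeasurable
  have hφm : ∀ k, AEStronglyMeasurable (φ k) μ := fun k => (hφ k).continuous.aestronglyMeasurable
  have hkey : ∀ k, eLpNorm' (fun z : V n × V n => u z.1 - u z.2) a (μ.prod μ) ≤
      (4 ^ a * 2 ^ n * volume B) ^ (1 / a) *
        (eLpNorm' (fun x => ∇ (φ k) x - g x) a μ + eLpNorm' g a μ) +
      (volume B ^ (1 / a) * eLpNorm' (fun x => φ k x - u x) a μ +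
       volume B ^ (1 / a) * eLpNorm' (fun x => φ k x - u x) a μ) := by
    intro k
    have hE : AEStronglyMeasurable (fun x => φ k x - u x) μ := (hφm k).sub hu
    have e1 : (fun z : V n × V n => u z.1 - u z.2) =
        (fun z : V n × V n => φ k z.1 - φ k z.2) +
        ((fun z : V n × V n => -(φ k z.1 - u z.1)) + fun z : V n × V n => φ k z.2 - u z.2) := by
      funext z
      simp only [Pi.add_apply]
      ring
    have hA : AEStronglyMeasurable (fun z : V n × V n => φ k z.1 - φ k z.2) (μ.prod μ) :=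
      (hφm k).comp_fst.sub (hφm k).comp_snd
    have hC : AEStronglyMeasurable (fun z : V n × V n => -(φ k z.1 - u z.1)) (μ.prod μ) :=
      hE.comp_fst.neg
    have hD : AEStronglyMeasurable (fun z : V n × V n => φ k z.2 - u z.2) (μ.prod μ) :=
      hE.comp_snd
    rw [e1]
    refine (eLpNorm'_add_le hA (hC.add hD) ha).trans ?_
    refine add_le_add ?_ ((eLpNorm'_add_le hC hD ha).trans (add_le_add (le_of_eq ?_) (le_of_eq ?_)))
    · refine (poin_smooth' ha (hφ k) hr hr2).trans (mul_le_mul_right ?_ _)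
      have e2 : ∇ (φ k) = (fun x => ∇ (φ k) x - g x) + g := by
        funext x
        simp
      conv_lhs => rw [e2]
      exact eLpNorm'_add_le ((hgradm k).sub hg) hg ha
    · have e3 : eLpNorm' (fun z : V n × V n => -(φ k z.1 - u z.1)) a (μ.prod μ) =
          eLpNorm' (fun z : V n × V n => φ k z.1 - u z.1) a (μ.prod μ) := by
        rw [eLpNorm'_eq_lintegral_enorm, eLpNorm'_eq_lintegral_enorm]
        simp only [enorm_neg]
      rw [e3]
      exact poin_fst ha hE
    · exact poin_snd ha hE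
  have hlim : Tendsto (fun k => (4 ^ a * 2 ^ n * volume B) ^ (1 / a) *
        (eLpNorm' (fun x => ∇ (φ k) x - g x) a μ + eLpNorm' g a μ) +
      (volume B ^ (1 / a) * eLpNorm' (fun x => φ k x - u x) a μ +
       volume B ^ (1 / a) * eLpNorm' (fun x => φ k x - u x) a μ)) atTop
      (𝓝 ((4 ^ a * 2 ^ n * volume B) ^ (1 / a) * (0 + eLpNorm' g a μ) +
        (volume B ^ (1 / a) * 0 + volume B ^ (1 / a) * 0))) := by
    have hc1 : (4 ^ a * 2 ^ n * volume B) ^ (1 / a) ≠ ⊤ := by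
      refine ENNReal.rpow_ne_top_of_nonneg ha1.le (ENNReal.mul_ne_top (ENNReal.mul_ne_top ?_ ?_) hBfin)
      · exact ENNReal.rpow_ne_top_of_nonneg ha0.le (by norm_num)
      · exact ENNReal.pow_ne_top (by norm_num)
    have hc2 : volume B ^ (1 / a) ≠ ⊤ := ENNReal.rpow_ne_top_of_nonneg ha1.le hBfin
    refine Tendsto.add (ENNReal.Tendsto.const_mul (h2'.add_const _) (Or.inr hc1)) ?_
    exact Tendsto.add (ENNReal.Tendsto.const_mul h1' (Or.inr hc2))
      (ENNReal.Tendsto.const_mul h1' (Or.inr hc2))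
  have hfin : eLpNorm' (fun z : V n × V n => u z.1 - u z.2) a (μ.prod μ) ≤
      (4 ^ a * 2 ^ n * volume B) ^ (1 / a) * eLpNorm' g a μ := by
    have h3 := ge_of_tendsto' hlim hkey
    simpa using h3
  have hm : AEMeasurable (fun z : V n × V n => ‖u z.1 - u z.2‖ₑ ^ a) (μ.prod μ) :=
    (hu.comp_fst.sub hu.comp_snd).enorm.pow_const a
  -- the double integral inequality for u
  have hdouble : ∫⁻ z, ‖u z.1 - u z.2‖ₑ ^ a ∂(μ.prod μ) ≤
      4 ^ a * 2 ^ n * volume B * ∫⁻ x, ‖g x‖ₑ ^ a ∂μ := by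
    rw [eLpNorm'_eq_lintegral_enorm, eLpNorm'_eq_lintegral_enorm,
      ← ENNReal.mul_rpow_of_nonneg _ _ ha1.le, ENNReal.rpow_le_rpow_iff ha1] at hfin
    exact hfin
  have hm' : AEMeasurable (fun z : V n × V n => ‖u z.2 - u z.1‖ₑ ^ a) (μ.prod μ) :=
    (hu.comp_snd.sub hu.comp_fst).enorm.pow_const a
  have hdouble' : ∫⁻ y, ∫⁻ x, ‖u x - u y‖ₑ ^ a ∂μ ∂μ ≤
      4 ^ a * 2 ^ n * volume B * ∫⁻ x, ‖g x‖ₑ ^ a ∂μ := by
    refine le_trans (le_of_eq ?_) hdouble
    rw [lintegral_prod _ hm]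
    refine lintegral_congr fun y => lintegral_congr fun x => ?_
    rw [← enorm_neg, neg_sub]
  have hmy : AEMeasurable (fun y => ∫⁻ x, ‖u x - u y‖ₑ ^ a ∂μ) μ := hm'.lintegral_prod_right'
  obtain ⟨y₀, _, hy₀⟩ := exists_le_setLAverage (μ := volume) (s := B) hBpos hBfin hmy
  refine ⟨u y₀, hy₀.trans ?_⟩
  rw [setLAverage_eq]
  refine ENNReal.div_le_of_le_mul (hdouble'.trans (le_of_eq ?_))
  ring

/-- The Poincare inequality on balls. -/
theorem poincare (n : ℕ) (a : ℝ) (ha : 1 ≤ a) : ∃ C : ℝ≥0, ∀ (Ω : Set (V n)) (u : V n → ℝ)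
    (g : V n → V n), IsOpen Ω → IsWeakGrad Ω u g →
    (∀ K ⊆ Ω, IsCompact K → ∫⁻ x in K, ‖u x‖ₑ ^ a < ⊤) →
    (∀ K ⊆ Ω, IsCompact K → ∫⁻ x in K, ‖g x‖ₑ ^ a < ⊤) →
    ∀ r : ℝ, 0 < r → r ≤ 2 → closedBall 0 r ⊆ Ω → ∃ c : ℝ,
      ∫⁻ x in ball 0 r, ‖u x - c‖ₑ ^ a ≤ C * ∫⁻ x in ball 0 r, ‖g x‖ₑ ^ a := by
  have ha0 : 0 < a := by linarith
  refine ⟨4 ^ a * 2 ^ n, ?_⟩
  intro Ω u g hΩ hw hu hg r hr hr2 hrΩ
  obtain ⟨δ, hδ, hδΩ⟩ := (isCompact_closedBall (0 : V n) r).exists_cthickening_subset_open hΩ hrΩ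
  rw [cthickening_closedBall hδ.le hr.le] at hδΩ
  let η : ContDiffBump (0 : V n) := ⟨r + δ / 2, r + δ, by linarith, by linarith⟩
  have hηt : IsTest Ω (η : V n → ℝ) := by
    refine ⟨η.contDiff, η.hasCompactSupport, ?_⟩
    rw [η.tsupport_eq]
    refine (closedBall_subset_closedBall ?_).trans hδΩ
    show r + δ ≤ δ + r
    linarith
  obtain ⟨hi1, hi2, hw'⟩ := cutoff hΩ hw hηt 0
  set K : Set (V n) := closedBall (0 : V n) (r + δ) with hK
  have hKc : IsCompact K := isCompact_closedBall _ _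
  have hKΩ : K ⊆ Ω := (closedBall_subset_closedBall (by linarith)).trans hδΩ
  have hη0 : ∀ x ∉ K, (η : V n → ℝ) x = 0 := by
    intro x hx
    refine image_eq_zero_of_notMem_tsupport ?_
    rw [η.tsupport_eq]
    exact hx
  have hη0' : ∀ x ∉ K, ∇ (η : V n → ℝ) x = 0 := by
    intro x hx
    have h1 : (η : V n → ℝ) =ᶠ[𝓝 x] fun _ => 0 := by
      have h2 : Kᶜ ∈ 𝓝 x := hKc.isClosed.isOpen_compl.mem_nhds hx
      filter_upwards [h2] with z hz
      exact hη0 z hz
    have h3 : fderiv ℝ (η : V n → ℝ) x = 0 := by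
      rw [h1.fderiv_eq]
      simp
    unfold gradient
    rw [h3, map_zero]
  have hη1 : ∀ x ∈ ball (0 : V n) r, (η : V n → ℝ) x = 1 := by
    intro x hx
    refine η.one_of_mem_closedBall ?_
    show x ∈ closedBall (0 : V n) (r + δ / 2)
    rw [mem_closedBall]
    rw [mem_ball] at hx
    linarith
  have hη1' : ∀ x ∈ ball (0 : V n) r, ∇ (η : V n → ℝ) x = 0 := by
    intro x hx
    have h1 : (η : V n → ℝ) =ᶠ[𝓝 x] fun _ => 1 := by
      have h2 : ball (0 : V n) r ∈ 𝓝 x := isOpen_ball.mem_nhds hx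
      filter_upwards [h2] with z hz
      exact hη1 z hz
    have h3 : fderiv ℝ (η : V n → ℝ) x = 0 := by
      rw [h1.fderiv_eq]
      simp
    unfold gradient
    rw [h3, map_zero]
  have hcg : Continuous fun x => ‖∇ (η : V n → ℝ) x‖ := by
    have h3 : Continuous (∇ (η : V n → ℝ)) := by
      unfold gradient
      exact (LinearIsometryEquiv.continuous _).comp (poin_cont_fderiv η.contDiff)
    exact h3.norm
  obtain ⟨M, hM⟩ : ∃ M : ℝ≥0, ∀ x, ‖∇ (η : V n → ℝ) x‖ₑ ≤ M := by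
    obtain ⟨M, hM⟩ := hKc.exists_bound_of_continuousOn hcg.continuousOn
    refine ⟨M.toNNReal, fun x => ?_⟩
    by_cases hx : x ∈ K
    · have h1 := hM x hx
      rw [norm_norm] at h1
      rw [← ofReal_norm]
      exact ENNReal.ofReal_le_ofReal h1
    · rw [hη0' x hx]
      simp
  have hle1 : ∀ x, ‖(η : V n → ℝ) x‖ₑ ≤ 1 := by
    intro x
    rw [← ofReal_norm, Real.norm_eq_abs, abs_of_nonneg η.nonneg]
    calc ENNReal.ofReal (η x) ≤ ENNReal.ofReal 1 := ENNReal.ofReal_le_ofReal η.le_one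
      _ = 1 := by simp
  have hUa : ∫⁻ x, ‖η x * (u x - 0)‖ₑ ^ a < ⊤ := by
    refine lt_of_le_of_lt ?_ (hu K hKΩ hKc)
    rw [← lintegral_indicator hKc.measurableSet]
    refine lintegral_mono fun x => ?_
    by_cases hx : x ∈ K
    · rw [indicator_of_mem hx, sub_zero, enorm_mul]
      refine ENNReal.rpow_le_rpow ?_ ha0.le
      calc ‖η x‖ₑ * ‖u x‖ₑ ≤ 1 * ‖u x‖ₑ := mul_le_mul_left (hle1 x) _
        _ = _ := one_mul _
    · rw [indicator_of_notMem hx, hη0 x hx, zero_mul, enorm_zero, ENNReal.zero_rpow_of_pos ha0]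
  have hΓa : ∫⁻ x, ‖η x • g x + (u x - 0) • ∇ (η : V n → ℝ) x‖ₑ ^ a < ⊤ := by
    have h1 : ∫⁻ x in K, 2 ^ (a - 1) * (‖g x‖ₑ ^ a + (M : ℝ≥0∞) ^ a * ‖u x‖ₑ ^ a) < ⊤ := by
      have hum : AEMeasurable (fun x => ‖u x‖ₑ ^ a) (volume.restrict K) := by
        have h2 : IntegrableOn u K := hw.1.integrableOn_compact_subset hKΩ hKc
        exact h2.aestronglyMeasurable.enorm.pow_const a
      have hgm : AEMeasurable (fun x => ‖g x‖ₑ ^ a) (volume.restrict K) := by
        have h2 : IntegrableOn g K := hw.2.1.integrableOn_compact_subset hKΩ hKc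
        exact h2.aestronglyMeasurable.enorm.pow_const a
      rw [lintegral_const_mul' _ _ (ENNReal.rpow_ne_top_of_nonneg (by linarith) (by norm_num)),
        lintegral_add_left' hgm,
        lintegral_const_mul' _ _ (ENNReal.rpow_ne_top_of_nonneg ha0.le (by simp))]
      refine ENNReal.mul_lt_top (ENNReal.rpow_lt_top_of_nonneg (by linarith) (by norm_num)) ?_
      refine ENNReal.add_lt_top.2 ⟨hg K hKΩ hKc, ?_⟩
      exact ENNReal.mul_lt_top (ENNReal.rpow_lt_top_of_nonneg ha0.le (by simp)) (hu K hKΩ hKc)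
    refine lt_of_le_of_lt ?_ h1
    rw [← lintegral_indicator hKc.measurableSet]
    refine lintegral_mono fun x => ?_
    by_cases hx : x ∈ K
    · rw [indicator_of_mem hx, sub_zero]
      have h3 : ‖η x • g x + u x • ∇ (η : V n → ℝ) x‖ₑ ≤ ‖g x‖ₑ + M * ‖u x‖ₑ := by
        refine (enorm_add_le _ _).trans ?_
        rw [enorm_smul, enorm_smul]
        refine add_le_add ?_ ?_
        · calc ‖η x‖ₑ * ‖g x‖ₑ ≤ 1 * ‖g x‖ₑ := mul_le_mul_left (hle1 x) _
            _ = _ := one_mul _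
        · rw [mul_comm]
          exact mul_le_mul_left (hM x) _
      calc ‖η x • g x + u x • ∇ (η : V n → ℝ) x‖ₑ ^ a ≤ (‖g x‖ₑ + M * ‖u x‖ₑ) ^ a :=
            ENNReal.rpow_le_rpow h3 ha0.le
        _ ≤ 2 ^ (a - 1) * (‖g x‖ₑ ^ a + (M * ‖u x‖ₑ) ^ a) :=
            ENNReal.rpow_add_le_mul_rpow_add_rpow _ _ ha
        _ = _ := by rw [ENNReal.mul_rpow_of_nonneg _ _ ha0.le]
    · rw [indicator_of_notMem hx, hη0 x hx, hη0' x hx, zero_smul, smul_zero, add_zero, enorm_zero,
        ENNReal.zero_rpow_of_pos ha0]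
  obtain ⟨φ, hφ1, _, hφ3, hφ4⟩ := exists_moll hKc hi1 hi2
    (fun x hx => by rw [hη0 x hx, zero_mul])
    (fun x hx => by rw [hη0 x hx, hη0' x hx, zero_smul, smul_zero, add_zero]) hw'
  have hT1 := hφ3 a ha hUa
  have hT2 := hφ4 a ha hΓa
  have hball : MeasurableSet (ball (0 : V n) r) := measurableSet_ball
  have hT1' : Tendsto (fun k => ∫⁻ x in ball (0 : V n) r, ‖φ k x - u x‖ₑ ^ a) atTop (𝓝 0) := by
    refine tendsto_of_tendsto_of_tendsto_of_le_of_le tendsto_const_nhds hT1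
      (fun k => bot_le) fun k => ?_
    refine le_trans (le_of_eq ?_) (setLIntegral_le_lintegral (ball (0 : V n) r) _)
    refine setLIntegral_congr_fun hball fun x hx => ?_
    simp only [hη1 x hx, sub_zero, one_mul]
  have hT2' : Tendsto (fun k => ∫⁻ x in ball (0 : V n) r, ‖∇ (φ k) x - g x‖ₑ ^ a) atTop (𝓝 0) := by
    refine tendsto_of_tendsto_of_tendsto_of_le_of_le tendsto_const_nhds hT2
      (fun k => bot_le) fun k => ?_
    refine le_trans (le_of_eq ?_) (setLIntegral_le_lintegral (ball (0 : V n) r) _)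
    refine setLIntegral_congr_fun hball fun x hx => ?_
    simp only [hη1 x hx, hη1' x hx, one_smul, smul_zero, add_zero]
  have hbK : ball (0 : V n) r ⊆ K := ball_subset_closedBall.trans
    (closedBall_subset_closedBall (by linarith))
  have hum : AEStronglyMeasurable u (volume.restrict (ball (0 : V n) r)) :=
    ((hw.1.integrableOn_compact_subset hKΩ hKc).mono_set hbK).aestronglyMeasurable
  have hgm : AEStronglyMeasurable g (volume.restrict (ball (0 : V n) r)) :=
    ((hw.2.1.integrableOn_compact_subset hKΩ hKc).mono_set hbK).aestronglyMeasurable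
  obtain ⟨c, hc⟩ := poin_limit ha hr hr2 hum hgm hφ1 hT1' hT2'
  refine ⟨c, hc.trans (le_of_eq ?_)⟩
  congr 1
  push_cast
  rw [ENNReal.coe_rpow_of_nonneg _ ha0.le]
  norm_num

end Pool.Agent.Helper20.PN
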