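import Pool.Agent.Helper20.PN.Defs

/-! PN-4: the gradient of a test function is bounded by its Laplacian. -/

open MeasureTheory Metric Set Filter Module
open scoped ENNReal NNReal ContDiff Topology Gradient

namespace Pool.Agent.Helper20.PN

variable {n : ℕ}

private theorem gradlap_pd_contDiff (i : Fin n) {f : V n → ℝ} (hf : ContDiff ℝ ∞ f) :
    ContDiff ℝ ∞ (pd i f) :=
  (hf.fderiv_right (m := ∞) (by simp)).clm_apply contDiff_const

private theorem gradlap_pd_supp (i : Fin n) {f : V n → ℝ} (hf : HasCompactSupport f) :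
    HasCompactSupport (pd i f) :=
  hf.fderiv_apply (𝕜 := ℝ) (EuclideanSpace.single i 1)

private theorem gradlap_snd (i j : Fin n) {f : V n → ℝ} (hf : ContDiff ℝ ∞ f) (x : V n) :
    pd i (pd j f) x =
      fderiv ℝ (fderiv ℝ f) x (EuclideanSpace.single i 1) (EuclideanSpace.single j 1) := by
  unfold pd
  have h1 : DifferentiableAt ℝ (fderiv ℝ f) x :=
    (hf.fderiv_right (m := ∞) (by simp)).differentiable (by simp) x
  have h2 := h1.hasFDerivAt.clm_apply (hasFDerivAt_const (EuclideanSpace.single j (1 : ℝ)) x)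
  rw [h2.fderiv]
  simp

private theorem gradlap_comm (i j : Fin n) {f : V n → ℝ} (hf : ContDiff ℝ ∞ f) :
    pd i (pd j f) = pd j (pd i f) := by
  funext x
  rw [gradlap_snd i j hf, gradlap_snd j i hf]
  have h : IsSymmSndFDerivAt ℝ f x := by
    apply (hf.contDiffAt (x := x)).isSymmSndFDerivAt
    simp only [minSmoothness_of_isRCLikeNormedField]
    exact WithTop.coe_le_coe.2 (le_top : (2 : ℕ∞) ≤ ⊤)
  exact h _ _

private theorem gradlap_int {f g : V n → ℝ} (hf : ContDiff ℝ ∞ f) (hg : ContDiff ℝ ∞ g)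
    (hf' : HasCompactSupport f) : Integrable (fun x => f x * g x) := by
  apply Continuous.integrable_of_hasCompactSupport
  · exact hf.continuous.mul hg.continuous
  · exact hf'.mul_right

private theorem gradlap_parts (i : Fin n) {f g : V n → ℝ} (hf : ContDiff ℝ ∞ f)
    (hg : ContDiff ℝ ∞ g) (hf' : HasCompactSupport f) :
    ∫ x, f x * pd i g x = - ∫ x, pd i f x * g x := by
  apply integral_mul_fderiv_eq_neg_fderiv_mul_of_integrable
  · exact gradlap_int (gradlap_pd_contDiff i hf) hg (gradlap_pd_supp i hf')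
  · exact gradlap_int hf (gradlap_pd_contDiff i hg) hf'
  · exact gradlap_int hf hg hf'
  · exact fun x _ => hf.differentiable (by simp) x
  · exact fun x _ => hg.differentiable (by simp) x

private theorem gradlap_sq (i j : Fin n) {ψ : V n → ℝ} (h : ContDiff ℝ ∞ ψ)
    (h' : HasCompactSupport ψ) :
    ∫ x, pd i (pd j ψ) x * pd i (pd j ψ) x = ∫ x, pd i (pd i ψ) x * pd j (pd j ψ) x := by
  have hj := gradlap_pd_contDiff j h
  have hj' := gradlap_pd_supp j h'
  have hi := gradlap_pd_contDiff i h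
  have hi' := gradlap_pd_supp i h'
  rw [gradlap_parts i (gradlap_pd_contDiff i hj) hj (gradlap_pd_supp i hj'),
    gradlap_parts j (gradlap_pd_contDiff i hi) hj (gradlap_pd_supp i hi')]
  congr 1
  have e : pd i (pd i (pd j ψ)) = pd j (pd i (pd i ψ)) := by
    rw [gradlap_comm i j h, gradlap_comm i j hi]
  rw [e]

private theorem gradlap_sum {ψ : V n → ℝ} (h : ContDiff ℝ ∞ ψ) (h' : HasCompactSupport ψ) :
    ∫ x, ∑ i, ∑ j, pd i (pd j ψ) x ^ 2 = ∫ x, lap ψ x ^ 2 := by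
  have hint : ∀ i j, Integrable (fun x => pd i (pd j ψ) x ^ 2) := fun i j => by
    simp only [sq]
    exact gradlap_int (gradlap_pd_contDiff i (gradlap_pd_contDiff j h))
      (gradlap_pd_contDiff i (gradlap_pd_contDiff j h)) (gradlap_pd_supp i (gradlap_pd_supp j h'))
  have hint2 : ∀ i j, Integrable (fun x => pd i (pd i ψ) x * pd j (pd j ψ) x) := fun i j =>
    gradlap_int (gradlap_pd_contDiff i (gradlap_pd_contDiff i h))
      (gradlap_pd_contDiff j (gradlap_pd_contDiff j h)) (gradlap_pd_supp i (gradlap_pd_supp i h'))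
  rw [integral_finsetSum _ fun i _ => integrable_finsetSum _ fun j _ => hint i j]
  have e : ∀ x, lap ψ x ^ 2 = ∑ i, ∑ j, pd i (pd i ψ) x * pd j (pd j ψ) x := fun x => by
    rw [sq, lap, Finset.sum_mul_sum]
  simp only [e]
  rw [integral_finsetSum _ fun i _ => integrable_finsetSum _ fun j _ => hint2 i j]
  refine Finset.sum_congr rfl fun i _ => ?_
  rw [integral_finsetSum _ fun j _ => hint i j, integral_finsetSum _ fun j _ => hint2 i j]
  refine Finset.sum_congr rfl fun j _ => ?_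
  simp only [sq]
  exact gradlap_sq i j h h'

private theorem gradlap_norm (L : V n →L[ℝ] V n →L[ℝ] ℝ) :
    ‖L‖ ≤ ∑ i, ∑ j, |L (EuclideanSpace.single i 1) (EuclideanSpace.single j 1)| := by
  have key : ∀ (y : V n), y = ∑ i, y i • (EuclideanSpace.single i (1 : ℝ) : V n) := fun y => by
    ext k
    simp [Pi.single_apply]
  have hc : ∀ (y : V n) (i : Fin n), |y i| ≤ ‖y‖ := fun y i => by
    have := EuclideanSpace.norm_sq_eq y
    have h2 : ‖y i‖ ^ 2 ≤ ∑ i, ‖y i‖ ^ 2 :=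
      Finset.single_le_sum (f := fun i => ‖y i‖ ^ 2) (fun _ _ => sq_nonneg _) (Finset.mem_univ i)
    rw [← this] at h2
    exact abs_le_of_sq_le_sq' (by simpa using h2) (norm_nonneg _) |> abs_le.mpr
  refine ContinuousLinearMap.opNorm_le_bound _ (by positivity) fun y => ?_
  refine ContinuousLinearMap.opNorm_le_bound _ (by positivity) fun z => ?_
  conv_lhs => rw [key y, key z]
  simp only [map_sum, map_smul, _root_.sum_apply, _root_.smul_apply,
    smul_eq_mul]
  calc ‖∑ i, z i * ∑ j, y j * L (EuclideanSpace.single j 1) (EuclideanSpace.single i 1)‖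
      ≤ ∑ i, ∑ j, ‖z i * (y j * L (EuclideanSpace.single j 1) (EuclideanSpace.single i 1))‖ := by
        refine (norm_sum_le _ _).trans (Finset.sum_le_sum fun i _ => ?_)
        rw [Finset.mul_sum]
        exact norm_sum_le _ _
    _ ≤ ∑ i, ∑ j, ‖z‖ * (‖y‖ * |L (EuclideanSpace.single j 1) (EuclideanSpace.single i 1)|) := by
        refine Finset.sum_le_sum fun i _ => Finset.sum_le_sum fun j _ => ?_
        rw [norm_mul, norm_mul, Real.norm_eq_abs, Real.norm_eq_abs, Real.norm_eq_abs]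
        gcongr
        · exact hc z i
        · exact hc y j
    _ = (∑ i, ∑ j, |L (EuclideanSpace.single i 1) (EuclideanSpace.single j 1)|) * ‖y‖ * ‖z‖ := by
        rw [Finset.sum_comm, Finset.sum_mul, Finset.sum_mul]
        refine Finset.sum_congr rfl fun i _ => ?_
        rw [Finset.sum_mul, Finset.sum_mul]
        refine Finset.sum_congr rfl fun j _ => ?_
        ring

private theorem gradlap_enorm_sq (a : ℝ) : ‖a‖ₑ ^ (2 : ℝ) = ENNReal.ofReal (a ^ 2) := by
  rw [Real.enorm_eq_ofReal_abs, ENNReal.ofReal_rpow_of_nonneg (abs_nonneg a) (by norm_num)]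
  congr 1
  rw [Real.rpow_two, sq_abs]

private theorem gradlap_second {ψ : V n → ℝ} (h : ContDiff ℝ ∞ ψ) (h' : HasCompactSupport ψ) :
    ∫⁻ x, ‖fderiv ℝ (fderiv ℝ ψ) x‖ₑ ^ (2 : ℝ) ≤
      (n ^ 2 : ℝ≥0∞) * ∫⁻ x, ‖lap ψ x‖ₑ ^ (2 : ℝ) := by
  have hsm : ∀ i j, ContDiff ℝ ∞ (pd i (pd j ψ)) := fun i j =>
    gradlap_pd_contDiff i (gradlap_pd_contDiff j h)
  have hsu : ∀ i j, HasCompactSupport (pd i (pd j ψ)) := fun i j =>
    gradlap_pd_supp i (gradlap_pd_supp j h')
  have hint : ∀ i j, Integrable (fun x => pd i (pd j ψ) x ^ 2) := fun i j => by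
    simp only [sq]
    exact gradlap_int (hsm i j) (hsm i j) (hsu i j)
  have hsumint : Integrable (fun x => ∑ i, ∑ j, pd i (pd j ψ) x ^ 2) :=
    integrable_finsetSum _ fun i _ => integrable_finsetSum _ fun j _ => hint i j
  have hlap : Integrable (fun x => lap ψ x ^ 2) := by
    have e : ∀ x, lap ψ x ^ 2 = ∑ i, ∑ j, pd i (pd i ψ) x * pd j (pd j ψ) x := fun x => by
      rw [sq, lap, Finset.sum_mul_sum]
    simp only [e]
    exact integrable_finsetSum _ fun i _ => integrable_finsetSum _ fun j _ =>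
      gradlap_int (hsm i i) (hsm j j) (hsu i i)
  have h1 : ∀ x, ‖fderiv ℝ (fderiv ℝ ψ) x‖ₑ ^ (2 : ℝ) ≤
      ENNReal.ofReal ((n : ℝ) ^ 2 * ∑ i, ∑ j, pd i (pd j ψ) x ^ 2) := fun x => by
    have a1 := gradlap_norm (fderiv ℝ (fderiv ℝ ψ) x)
    have a2 : ‖fderiv ℝ (fderiv ℝ ψ) x‖ ≤ ∑ i, ∑ j, |pd i (pd j ψ) x| := by
      refine a1.trans (le_of_eq ?_)
      exact Finset.sum_congr rfl fun i _ => Finset.sum_congr rfl fun j _ => by
        rw [gradlap_snd i j h]
    have a3 : ‖fderiv ℝ (fderiv ℝ ψ) x‖ ^ 2 ≤ (n : ℝ) ^ 2 * ∑ i, ∑ j, pd i (pd j ψ) x ^ 2 := by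
      calc ‖fderiv ℝ (fderiv ℝ ψ) x‖ ^ 2 ≤ (∑ i, ∑ j, |pd i (pd j ψ) x|) ^ 2 := by gcongr
        _ = (∑ p : Fin n × Fin n, |pd p.1 (pd p.2 ψ) x|) ^ 2 := by
            rw [Fintype.sum_prod_type]
        _ ≤ (Finset.univ : Finset (Fin n × Fin n)).card *
            ∑ p : Fin n × Fin n, |pd p.1 (pd p.2 ψ) x| ^ 2 := sq_sum_le_card_mul_sum_sq
        _ = (n : ℝ) ^ 2 * ∑ i, ∑ j, pd i (pd j ψ) x ^ 2 := by
            rw [Fintype.sum_prod_type]
            simp only [sq_abs, Finset.card_univ, Fintype.card_prod, Fintype.card_fin]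
            push_cast
            ring
    rw [← enorm_norm, gradlap_enorm_sq]
    exact ENNReal.ofReal_le_ofReal a3
  calc ∫⁻ x, ‖fderiv ℝ (fderiv ℝ ψ) x‖ₑ ^ (2 : ℝ)
      ≤ ∫⁻ x, ENNReal.ofReal ((n : ℝ) ^ 2 * ∑ i, ∑ j, pd i (pd j ψ) x ^ 2) :=
        lintegral_mono h1
    _ = ENNReal.ofReal (∫ x, (n : ℝ) ^ 2 * ∑ i, ∑ j, pd i (pd j ψ) x ^ 2) := by
        rw [ofReal_integral_eq_lintegral_ofReal (hsumint.const_mul _)]
        exact ae_of_all _ fun x => by positivity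
    _ = ENNReal.ofReal ((n : ℝ) ^ 2 * ∫ x, lap ψ x ^ 2) := by
        rw [integral_const_mul, gradlap_sum h h']
    _ = (n ^ 2 : ℝ≥0∞) * ENNReal.ofReal (∫ x, lap ψ x ^ 2) := by
        rw [ENNReal.ofReal_mul (by positivity)]
        congr 1
        rw [ENNReal.ofReal_pow (by positivity), ENNReal.ofReal_natCast]
    _ = (n ^ 2 : ℝ≥0∞) * ∫⁻ x, ‖lap ψ x‖ₑ ^ (2 : ℝ) := by
        rw [ofReal_integral_eq_lintegral_ofReal hlap (ae_of_all _ fun x => by positivity)]
        simp only [gradlap_enorm_sq]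

/-- The gradient of a test function is bounded in `L^{2n/(n-2)}` by its Laplacian in `L^2`. -/
theorem grad_le_lap (n : ℕ) (hn : 3 ≤ n) : ∃ C : ℝ≥0, ∀ ψ : V n → ℝ, IsTest univ ψ →
    nrm (sd n) univ (∇ ψ) ≤ C * nrm 2 univ (lap ψ) := by
  have hn' : (3 : ℝ) ≤ n := by exact_mod_cast hn
  have hsd : 0 < sd n := by
    unfold sd
    apply div_pos <;> linarith
  let p' : ℝ≥0 := ⟨sd n, hsd.le⟩
  refine ⟨SNormLESNormFDerivOfEqConst (V n →L[ℝ] ℝ) (volume : Measure (V n)) ((2 : ℝ≥0) : ℝ) * n,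
    fun ψ hψ => ?_⟩
  obtain ⟨h, h', -⟩ := hψ
  have hG : ContDiff ℝ 1 (fderiv ℝ ψ) := h.fderiv_right (m := 1) (WithTop.coe_le_coe.2 (le_top : (1 + 1 : ℕ∞) ≤ ⊤))
  have hG' : HasCompactSupport (fderiv ℝ ψ) := h'.fderiv (𝕜 := ℝ)
  have key := eLpNorm_le_eLpNorm_fderiv_of_eq (μ := (volume : Measure (V n))) hG hG'
    (p := 2) (p' := p') (by norm_num) (by rw [finrank_euclideanSpace_fin]; omega)
    (by
      rw [finrank_euclideanSpace_fin]
      change (sd n)⁻¹ = _
      unfold sd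
      have h3 : (n : ℝ) ≠ 0 := by linarith
      have h4 : (n : ℝ) - 2 ≠ 0 := by linarith
      push_cast
      field_simp)
  have e1 : eLpNorm (fderiv ℝ ψ) p' (volume : Measure (V n)) = nrm (sd n) univ (∇ ψ) := by
    rw [eLpNorm_eq_lintegral_rpow_enorm_toReal (by
      rw [Ne, ENNReal.coe_eq_zero]
      intro h0
      exact hsd.ne' (congrArg NNReal.toReal h0)) ENNReal.coe_ne_top]
    unfold nrm
    rw [Measure.restrict_univ, ENNReal.coe_toReal]
    have e3 : ∀ x, ‖∇ ψ x‖ₑ = ‖fderiv ℝ ψ x‖ₑ := fun x => by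
      unfold gradient
      exact LinearIsometryEquiv.enorm_map _ _
    simp only [e3]
    rfl
  have e2 : eLpNorm (fderiv ℝ (fderiv ℝ ψ)) (2 : ℝ≥0) (volume : Measure (V n)) ≤
      n * nrm 2 univ (lap ψ) := by
    rw [eLpNorm_eq_lintegral_rpow_enorm_toReal (by norm_num) ENNReal.coe_ne_top]
    unfold nrm
    rw [Measure.restrict_univ]
    simp only [ENNReal.coe_toReal, NNReal.coe_ofNat]
    calc (∫⁻ x, ‖fderiv ℝ (fderiv ℝ ψ) x‖ₑ ^ (2 : ℝ)) ^ (1 / (2 : ℝ))
        ≤ ((n ^ 2 : ℝ≥0∞) * ∫⁻ x, ‖lap ψ x‖ₑ ^ (2 : ℝ)) ^ (1 / (2 : ℝ)) :=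
          ENNReal.rpow_le_rpow (gradlap_second h h') (by norm_num)
      _ = n * (∫⁻ x, ‖lap ψ x‖ₑ ^ (2 : ℝ)) ^ (1 / (2 : ℝ)) := by
          rw [ENNReal.mul_rpow_of_nonneg _ _ (by norm_num)]
          congr 1
          rw [← ENNReal.rpow_natCast, ← ENNReal.rpow_mul]
          norm_num
  rw [e1] at key
  refine key.trans ?_
  rw [ENNReal.coe_mul, ENNReal.coe_natCast, mul_assoc]
  exact mul_le_mul' le_rfl e2

end Pool.Agent.Helper20.PN
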