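import Pool.Agent.Helper20.PN.Defs
import Pool.Agent.Helper20.PN.GradLap

/-! PN-7: harmonic approximation by projection in the space of square integrable functions. -/

open MeasureTheory Metric Set Filter
open scoped ENNReal NNReal ContDiff Topology Gradient InnerProductSpace

namespace Pool.Agent.Helper20.PN

private theorem proj_pd_contDiff {n : ℕ} (i : Fin n) {f : V n → ℝ} (hf : ContDiff ℝ ∞ f) :
    ContDiff ℝ ∞ (pd i f) :=
  (hf.fderiv_right (m := ∞) (by simp)).clm_apply contDiff_const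

private theorem proj_pd_tsupport {n : ℕ} (i : Fin n) (f : V n → ℝ) :
    tsupport (pd i f) ⊆ tsupport f := by
  apply closure_minimal _ (isClosed_tsupport f)
  intro x hx
  by_contra hx'
  apply hx
  unfold pd
  rw [fderiv_of_notMem_tsupport (𝕜 := ℝ) hx']
  simp

private theorem proj_pd_add {n : ℕ} (i : Fin n) {f g : V n → ℝ} (hf : ContDiff ℝ ∞ f)
    (hg : ContDiff ℝ ∞ g) : pd i (f + g) = pd i f + pd i g := by
  funext x
  unfold pd
  rw [fderiv_add (hf.differentiable (by simp) x) (hg.differentiable (by simp) x)]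
  simp

private theorem proj_pd_smul {n : ℕ} (i : Fin n) {f : V n → ℝ} (c : ℝ) (hf : ContDiff ℝ ∞ f) :
    pd i (c • f) = c • pd i f := by
  funext x
  unfold pd
  rw [fderiv_const_smul (hf.differentiable (by simp) x)]
  simp

private theorem proj_lap_add {n : ℕ} {f g : V n → ℝ} (hf : ContDiff ℝ ∞ f)
    (hg : ContDiff ℝ ∞ g) : lap (f + g) = lap f + lap g := by
  funext x
  simp only [lap, Pi.add_apply, ← Finset.sum_add_distrib]
  refine Finset.sum_congr rfl fun i _ => ?_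
  rw [proj_pd_add i hf hg, proj_pd_add i (proj_pd_contDiff i hf) (proj_pd_contDiff i hg)]
  rfl

private theorem proj_lap_smul {n : ℕ} {f : V n → ℝ} (c : ℝ) (hf : ContDiff ℝ ∞ f) :
    lap (c • f) = c • lap f := by
  funext x
  simp only [lap, Pi.smul_apply, smul_eq_mul, Finset.mul_sum]
  refine Finset.sum_congr rfl fun i _ => ?_
  rw [proj_pd_smul i c hf, proj_pd_smul i c (proj_pd_contDiff i hf)]
  rfl

private theorem proj_lap_cont {n : ℕ} {f : V n → ℝ} (hf : ContDiff ℝ ∞ f) :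
    Continuous (lap f) := by
  unfold lap
  exact continuous_finsetSum _ fun i _ =>
    (proj_pd_contDiff i (proj_pd_contDiff i hf)).continuous

private theorem proj_lap_zero {n : ℕ} {f : V n → ℝ} {x : V n} (hx : x ∉ tsupport f) :
    lap f x = 0 := by
  unfold lap
  refine Finset.sum_eq_zero fun i _ => ?_
  by_contra h
  exact hx (proj_pd_tsupport i f (proj_pd_tsupport i _ (subset_tsupport _ h)))

private theorem proj_lap_cpt {n : ℕ} {f : V n → ℝ} (hf : HasCompactSupport f) :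
    HasCompactSupport (lap f) := by
  apply HasCompactSupport.of_support_subset_isCompact hf
  intro x hx
  by_contra h
  exact hx (proj_lap_zero h)

private theorem proj_lap_memLp {n : ℕ} {f : V n → ℝ} (hf : ContDiff ℝ ∞ f)
    (hf' : HasCompactSupport f) (S : Set (V n)) : MemLp (lap f) 2 (volume.restrict S) :=
  (Continuous.memLp_of_hasCompactSupport (proj_lap_cont hf) (proj_lap_cpt hf')).restrict S

private theorem proj_compl {n : ℕ} {f : V n → ℝ≥0∞} {B : Set (V n)} (hB : MeasurableSet B)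
    (h : ∀ x ∉ B, f x = 0) : ∫⁻ x, f x = ∫⁻ x in B, f x := by
  rw [← lintegral_indicator hB]
  congr 1
  funext x
  by_cases hx : x ∈ B
  · rw [indicator_of_mem hx]
  · rw [indicator_of_notMem hx, h x hx]

private theorem proj_test_zero {n : ℕ} : IsTest (ball (0 : V n) 2) (0 : V n → ℝ) := by
  refine ⟨contDiff_const, HasCompactSupport.zero, ?_⟩
  rw [tsupport_eq_empty_iff.2 rfl]
  exact empty_subset _

private theorem proj_test_add {n : ℕ} {Ω : Set (V n)} {f g : V n → ℝ} (hf : IsTest Ω f)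
    (hg : IsTest Ω g) : IsTest Ω (f + g) :=
  ⟨hf.1.add hg.1, hf.2.1.add hg.2.1,
    (tsupport_add f g).trans (union_subset hf.2.2 hg.2.2)⟩

private theorem proj_test_smul {n : ℕ} {Ω : Set (V n)} {f : V n → ℝ} (c : ℝ)
    (hf : IsTest Ω f) : IsTest Ω (c • f) := by
  refine ⟨contDiff_const.smul hf.1, hf.2.1.smul_left (f := fun _ => c), ?_⟩
  exact (tsupport_smul_subset_right (fun _ => c) f).trans hf.2.2

/-- The space of Laplacians of test functions. -/
private noncomputable def proj_K (n : ℕ) :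
    Submodule ℝ (Lp ℝ 2 ((volume : Measure (V n)).restrict (ball 0 2))) where
  carrier := {w | ∃ ψ : V n → ℝ, IsTest (ball 0 2) ψ ∧
    w =ᵐ[(volume : Measure (V n)).restrict (ball 0 2)] lap ψ}
  add_mem' := by
    rintro a b ⟨ψ, hψ, ha⟩ ⟨φ, hφ, hb⟩
    refine ⟨ψ + φ, proj_test_add hψ hφ, ?_⟩
    rw [proj_lap_add hψ.1 hφ.1]
    exact (Lp.coeFn_add a b).trans (ha.add hb)
  zero_mem' := by
    refine ⟨0, proj_test_zero, ?_⟩
    have h : lap (0 : V n → ℝ) = 0 := by
      funext x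
      apply proj_lap_zero
      rw [tsupport_eq_empty_iff.2 rfl]
      exact notMem_empty x
    rw [h]
    exact Lp.coeFn_zero _ _ _
  smul_mem' := by
    rintro c a ⟨ψ, hψ, ha⟩
    refine ⟨c • ψ, proj_test_smul c hψ, ?_⟩
    rw [proj_lap_smul c hψ.1]
    exact (Lp.coeFn_smul c a).trans (ha.const_smul c)

private theorem proj_grad_enorm {n : ℕ} (f : V n → ℝ) (x : V n) :
    ‖∇ f x‖ₑ = ‖fderiv ℝ f x‖ₑ := by
  rw [← ofReal_norm, ← ofReal_norm]
  congr 1
  unfold gradient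
  exact LinearIsometryEquiv.norm_map _ _

private theorem proj_grad_cont {n : ℕ} {f : V n → ℝ} (hf : ContDiff ℝ ∞ f) :
    Continuous (∇ f) := by
  unfold gradient
  exact (LinearIsometryEquiv.continuous _).comp (hf.continuous_fderiv (by simp))

private theorem proj_conj {n : ℕ} (hn : 3 ≤ n) : (sd n).HolderConjugate (ss n) := by
  have h3 : (3 : ℝ) ≤ n := by exact_mod_cast hn
  rw [Real.holderConjugate_iff]
  unfold sd ss
  constructor
  · rw [lt_div_iff₀ (by linarith)]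
    linarith
  · field_simp
    ring

/-- The basic estimate of the pairing with a Laplacian of a test function. -/
private theorem proj_pair {n : ℕ} (hn : 3 ≤ n) {C : ℝ≥0}
    (hC : ∀ ψ : V n → ℝ, IsTest univ ψ → nrm (sd n) univ (∇ ψ) ≤ C * nrm 2 univ (lap ψ))
    {R : V n → V n} (hR : AEStronglyMeasurable R (volume.restrict (ball 0 2)))
    {ψ : V n → ℝ} (hψ : IsTest (ball 0 2) ψ) :
    ‖∫ x, fderiv ℝ ψ x (R x)‖ₑ ≤
      C * nrm (ss n) (ball 0 2) R * nrm 2 (ball 0 2) (lap ψ) := by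
  have h3 : (3 : ℝ) ≤ n := by exact_mod_cast hn
  have hzero : ∀ x ∉ ball (0 : V n) 2, fderiv ℝ ψ x = 0 := fun x hx =>
    fderiv_of_notMem_tsupport (𝕜 := ℝ) fun h => hx (hψ.2.2 h)
  have h1 : ‖∫ x, fderiv ℝ ψ x (R x)‖ₑ ≤ ∫⁻ x, ‖fderiv ℝ ψ x (R x)‖ₑ :=
    enorm_integral_le_lintegral_enorm _
  have h2 : ∫⁻ x, ‖fderiv ℝ ψ x (R x)‖ₑ = ∫⁻ x in ball 0 2, ‖fderiv ℝ ψ x (R x)‖ₑ := by
    apply proj_compl measurableSet_ball
    intro x hx
    rw [hzero x hx]
    simp
  have h4 : ∫⁻ x in ball 0 2, ‖fderiv ℝ ψ x (R x)‖ₑ ≤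
      ∫⁻ x in ball 0 2, ‖∇ ψ x‖ₑ * ‖R x‖ₑ := by
    apply lintegral_mono
    intro x
    simp only [proj_grad_enorm]
    exact ContinuousLinearMap.le_opENorm _ _
  have h5 : ∫⁻ x in ball 0 2, ‖∇ ψ x‖ₑ * ‖R x‖ₑ ≤
      (∫⁻ x in ball 0 2, ‖∇ ψ x‖ₑ ^ sd n) ^ (1 / sd n) *
        (∫⁻ x in ball 0 2, ‖R x‖ₑ ^ ss n) ^ (1 / ss n) := by
    have := ENNReal.lintegral_mul_le_Lp_mul_Lq (volume.restrict (ball (0 : V n) 2))
      (proj_conj hn) (f := fun x => ‖∇ ψ x‖ₑ) (g := fun x => ‖R x‖ₑ)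
      (proj_grad_cont hψ.1).enorm.measurable.aemeasurable hR.enorm
    simpa using this
  have hsd : 0 ≤ 1 / sd n := by
    unfold sd
    apply div_nonneg zero_le_one
    apply div_nonneg <;> linarith
  have h6 : (∫⁻ x in ball 0 2, ‖∇ ψ x‖ₑ ^ sd n) ^ (1 / sd n) ≤ nrm (sd n) univ (∇ ψ) := by
    unfold nrm
    apply ENNReal.rpow_le_rpow _ hsd
    exact lintegral_mono_set (subset_univ _)
  have h7 : nrm 2 univ (lap ψ) = nrm 2 (ball 0 2) (lap ψ) := by
    unfold nrm
    rw [Measure.restrict_univ]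
    congr 1
    apply proj_compl measurableSet_ball
    intro x hx
    rw [proj_lap_zero fun h => hx (hψ.2.2 h)]
    simp
  have h8 := hC ψ ⟨hψ.1, hψ.2.1, subset_univ _⟩
  rw [h7] at h8
  calc ‖∫ x, fderiv ℝ ψ x (R x)‖ₑ ≤ (∫⁻ x in ball 0 2, ‖∇ ψ x‖ₑ ^ sd n) ^ (1 / sd n) *
        (∫⁻ x in ball 0 2, ‖R x‖ₑ ^ ss n) ^ (1 / ss n) := (h1.trans (h2.le.trans h4)).trans h5
    _ ≤ (C * nrm 2 (ball 0 2) (lap ψ)) * nrm (ss n) (ball 0 2) R :=
        mul_le_mul' (h6.trans h8) le_rfl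
    _ = _ := by ring

private theorem proj_norm {n : ℕ} (w : Lp ℝ 2 ((volume : Measure (V n)).restrict (ball 0 2))) :
    nrm 2 (ball 0 2) w = ENNReal.ofReal ‖w‖ := by
  rw [Lp.norm_def, ENNReal.ofReal_toReal (Lp.eLpNorm_ne_top w)]
  rw [eLpNorm_eq_lintegral_rpow_enorm_toReal (by norm_num) (by norm_num)]
  simp [nrm]

private theorem proj_nrm_congr {n : ℕ} {f g : V n → ℝ}
    (h : f =ᵐ[(volume : Measure (V n)).restrict (ball 0 2)] g) (a : ℝ) :
    nrm a (ball 0 2) f = nrm a (ball 0 2) g := by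
  unfold nrm
  congr 1
  apply lintegral_congr_ae
  filter_upwards [h] with x hx
  rw [hx]

/-- The inner product with the Laplacian of a test function. -/
private theorem proj_inner {n : ℕ}
    {a w : Lp ℝ 2 ((volume : Measure (V n)).restrict (ball 0 2))} {f ψ : V n → ℝ}
    (ha : a =ᵐ[(volume : Measure (V n)).restrict (ball 0 2)] f)
    (hψ : IsTest (ball 0 2) ψ)
    (hw : w =ᵐ[(volume : Measure (V n)).restrict (ball 0 2)] lap ψ) :
    ⟪a, w⟫_ℝ = ∫ x, f x * lap ψ x := by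
  rw [L2.inner_def]
  have h1 : ∫ x, f x * lap ψ x = ∫ x in ball 0 2, f x * lap ψ x := by
    symm
    apply setIntegral_eq_integral_of_forall_compl_eq_zero
    intro x hx
    rw [proj_lap_zero fun h => hx (hψ.2.2 h), mul_zero]
  rw [h1]
  apply integral_congr_ae
  filter_upwards [ha, hw] with x hx hx'
  rw [hx, hx']
  simp [mul_comm]

/-- Projection to the weakly harmonic functions. -/
theorem harmonic_approx (n : ℕ) (hn : 3 ≤ n) : ∃ C : ℝ≥0, ∀ (u : V n → ℝ) (R : V n → V n),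
    MemLp u 2 (volume.restrict (ball 0 2)) →
    AEStronglyMeasurable R (volume.restrict (ball 0 2)) →
    ∫⁻ x in ball 0 2, ‖R x‖ₑ ^ ss n < ⊤ →
    (∀ ψ : V n → ℝ, IsTest (ball 0 2) ψ → ∫ x, u x * lap ψ x = - ∫ x, fderiv ℝ ψ x (R x)) →
    ∃ h : V n → ℝ, IsWHarm h ∧
      nrm 2 (ball 0 2) (fun x => u x - h x) ≤ C * nrm (ss n) (ball 0 2) R := by
  obtain ⟨C, hC⟩ := grad_le_lap n hn
  refine ⟨C, fun u R hu hR hRs hweak => ?_⟩
  have h3 : (3 : ℝ) ≤ n := by exact_mod_cast hn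
  have hss : 0 ≤ 1 / ss n := by
    unfold ss
    apply div_nonneg zero_le_one
    apply div_nonneg <;> linarith
  have hfin : C * nrm (ss n) (ball 0 2) R ≠ ⊤ := by
    apply ENNReal.mul_ne_top ENNReal.coe_ne_top
    exact ENNReal.rpow_ne_top_of_nonneg hss hRs.ne
  set M : ℝ := (C * nrm (ss n) (ball 0 2) R).toReal with hM
  have hMo : ENNReal.ofReal M = C * nrm (ss n) (ball 0 2) R := ENNReal.ofReal_toReal hfin
  have hM0 : 0 ≤ M := ENNReal.toReal_nonneg
  set U := hu.toLp u with hU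
  have hUu : U =ᵐ[(volume : Measure (V n)).restrict (ball 0 2)] u := hu.coeFn_toLp
  set K := (proj_K n).topologicalClosure with hK
  have : CompleteSpace K := (Submodule.isClosed_topologicalClosure _).completeSpace_coe
  -- the bound on the closure
  have hb0 : ∀ w ∈ proj_K n, |⟪U, w⟫_ℝ| ≤ M * ‖w‖ := by
    rintro w ⟨ψ, hψ, hw⟩
    rw [proj_inner hUu hψ hw, hweak ψ hψ, abs_neg]
    have h1 := proj_pair hn hC hR hψ
    rw [← hMo, ← proj_nrm_congr hw 2, proj_norm, ← ENNReal.ofReal_mul hM0, ← ofReal_norm,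
      ENNReal.ofReal_le_ofReal_iff (by positivity)] at h1
    exact h1
  have hb : ∀ w ∈ K, |⟪U, w⟫_ℝ| ≤ M * ‖w‖ := by
    have hcl : IsClosed {w : Lp ℝ 2 ((volume : Measure (V n)).restrict (ball 0 2)) |
        |⟪U, w⟫_ℝ| ≤ M * ‖w‖} := isClosed_le (by fun_prop) (by fun_prop)
    intro w hw
    exact closure_minimal (fun w hw => hb0 w hw) hcl hw
  set v := K.starProjection U with hv
  have hvK : v ∈ K := Submodule.starProjection_apply_mem _ _
  have horth : U - v ∈ Kᗮ := Submodule.sub_starProjection_mem_orthogonal _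
  have hvn : ‖v‖ ≤ M := by
    have h1 : ⟪U, v⟫_ℝ = ‖v‖ ^ 2 := by
      have h2 : ⟪U - v, v⟫_ℝ = 0 := Submodule.inner_left_of_mem_orthogonal hvK horth
      rw [inner_sub_left, real_inner_self_eq_norm_sq] at h2
      linarith
    have h2 := hb v hvK
    rw [h1, abs_of_nonneg (by positivity)] at h2
    by_contra hlt
    push Not at hlt
    have : 0 < ‖v‖ := lt_of_le_of_lt hM0 hlt
    nlinarith
  refine ⟨fun x => (U - v : Lp ℝ 2 ((volume : Measure (V n)).restrict (ball 0 2))) x,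
    ⟨Lp.memLp _, ?_⟩, ?_⟩
  · intro ψ hψ
    have hm := proj_lap_memLp hψ.1 hψ.2.1 (ball 0 2)
    rw [← proj_inner (w := hm.toLp _) (Filter.EventuallyEq.rfl) hψ hm.coeFn_toLp]
    apply Submodule.inner_left_of_mem_orthogonal _ horth
    exact Submodule.le_topologicalClosure _ ⟨ψ, hψ, hm.coeFn_toLp⟩
  · rw [← hMo]
    have h1 : (fun x => u x - (U - v : Lp ℝ 2 ((volume : Measure (V n)).restrict (ball 0 2))) x)
        =ᵐ[(volume : Measure (V n)).restrict (ball 0 2)] v := by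
      filter_upwards [hUu, Lp.coeFn_sub U v] with x hx hx'
      rw [hx', Pi.sub_apply, hx]
      ring
    rw [proj_nrm_congr h1 2, proj_norm]
    exact ENNReal.ofReal_le_ofReal hvn

end Pool.Agent.Helper20.PN
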