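import Pool.Agent.Helper20.PN.Defs
import Pool.Agent.Helper20.PN.Cut
import Pool.Agent.Helper20.PN.Moll

/-! Sobolev inequalities for compactly supported and for local Sobolev functions. -/

open MeasureTheory Metric Set Filter
open scoped ENNReal NNReal ContDiff Topology Gradient

namespace Pool.Agent.Helper20.PN

theorem sob_enorm_grad {n : ℕ} (f : V n → ℝ) (x : V n) : ‖∇ f x‖ₑ = ‖fderiv ℝ f x‖ₑ := by
  unfold gradient
  exact LinearIsometryEquiv.enorm_map _ _

theorem sob_cont_grad {n : ℕ} {f : V n → ℝ} (hf : ContDiff ℝ ∞ f) : Continuous (∇ f) := by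
  have h1 : Continuous (fderiv ℝ f) := hf.continuous_fderiv (by simp)
  exact (InnerProductSpace.toDual ℝ (V n)).symm.continuous.comp h1

theorem sob_s0 {n : ℕ} (hn : 3 ≤ n) : 1 ≤ s0 n := by
  have h : (3 : ℝ) ≤ n := by exact_mod_cast hn
  unfold s0
  rw [le_div_iff₀ (by linarith)]
  linarith

theorem sob_q0 {n : ℕ} (hn : 3 ≤ n) : 2 ≤ q0 n := by
  have h : (3 : ℝ) ≤ n := by exact_mod_cast hn
  unfold q0
  rw [le_div_iff₀ (by linarith)]
  linarith

/-- the inequality for smooth functions -/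
theorem sob_smooth {n : ℕ} (hn : 3 ≤ n) {φ : V n → ℝ} (hφ : ContDiff ℝ ∞ φ)
    (hc : HasCompactSupport φ) :
    eLpNorm' φ (q0 n) (volume : Measure (V n)) ≤
      SNormLESNormFDerivOfEqConst ℝ (volume : Measure (V n)) (s0 n) *
        eLpNorm' (∇ φ) (s0 n) (volume : Measure (V n)) := by
  have hn' : (3 : ℝ) ≤ n := by exact_mod_cast hn
  have hs := sob_s0 hn
  have hq := sob_q0 hn
  obtain ⟨p, hp⟩ : ∃ p : ℝ≥0, (p : ℝ) = s0 n := ⟨⟨s0 n, by linarith⟩, rfl⟩
  obtain ⟨q, hq'⟩ : ∃ q : ℝ≥0, (q : ℝ) = q0 n := ⟨⟨q0 n, by linarith⟩, rfl⟩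
  have hp0 : p ≠ 0 := by
    intro h0
    rw [h0] at hp
    simp at hp
    linarith
  have hq0 : q ≠ 0 := by
    intro h0
    rw [h0] at hq'
    simp at hq'
    linarith
  have key := eLpNorm_le_eLpNorm_fderiv_of_eq (μ := (volume : Measure (V n)))
    (hφ.of_le (by exact_mod_cast le_top) : ContDiff ℝ 1 φ) hc
    (p := p) (p' := q) (by rw [← NNReal.coe_le_coe, hp]; simpa using hs)
    (by rw [finrank_euclideanSpace_fin]; omega)
    (by
      rw [finrank_euclideanSpace_fin, hq']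
      push_cast
      rw [hp]
      unfold q0 s0
      have h3 : (n : ℝ) ≠ 0 := by linarith
      have h4 : (n : ℝ) - 1 ≠ 0 := by linarith
      have h5 : (n : ℝ) + 1 ≠ 0 := by linarith
      field_simp
      ring)
  rw [eLpNorm_nnreal_eq_eLpNorm' hq0, eLpNorm_nnreal_eq_eLpNorm' hp0, hp, hq'] at key
  have e : eLpNorm' (fderiv ℝ φ) (s0 n) (volume : Measure (V n)) =
      eLpNorm' (∇ φ) (s0 n) (volume : Measure (V n)) := by
    refine eLpNorm'_congr_enorm_ae (Eventually.of_forall fun x => ?_)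
    exact (sob_enorm_grad φ x).symm
  rw [e] at key
  exact key

theorem sob_rpow {g : ℕ → ℝ≥0∞} (h : Tendsto g atTop (𝓝 0)) {a : ℝ} (ha : 0 < a) :
    Tendsto (fun k => g k ^ a) atTop (𝓝 0) := by
  have h1 := ((ENNReal.continuous_rpow_const (y := a)).tendsto 0).comp h
  rw [ENNReal.zero_rpow_of_pos ha] at h1
  exact h1

/-- The Sobolev inequality for compactly supported Sobolev functions. -/
theorem sobolev_cpt (n : ℕ) (hn : 3 ≤ n) : ∃ C : ℝ≥0, ∀ (U : V n → ℝ) (Γ : V n → V n)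
    (K : Set (V n)), IsCompact K → Integrable U → Integrable Γ → (∀ x ∉ K, U x = 0) →
    (∀ x ∉ K, Γ x = 0) → IsWeakGrad univ U Γ → ∫⁻ x, ‖U x‖ₑ ^ s0 n < ⊤ →
    nrm (q0 n) univ U ≤ C * nrm (s0 n) univ Γ := by
  have hs := sob_s0 hn
  have hq := sob_q0 hn
  have hs0 : 0 < s0 n := by linarith
  have hq0 : 0 < q0 n := by linarith
  refine ⟨SNormLESNormFDerivOfEqConst ℝ (volume : Measure (V n)) (s0 n) + 1,
    fun U Γ K hK hU hΓ hUK hΓK hw hUs => ?_⟩
  set C0 : ℝ≥0 := SNormLESNormFDerivOfEqConst ℝ (volume : Measure (V n)) (s0 n) with hC0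
  by_cases hΓs : ∫⁻ x, ‖Γ x‖ₑ ^ s0 n < ⊤
  swap
  · have h1 : nrm (s0 n) univ Γ = ⊤ := by
      unfold nrm
      rw [Measure.restrict_univ, not_lt_top_iff.1 hΓs,
        ENNReal.top_rpow_of_pos (by positivity)]
    rw [h1, ENNReal.mul_top]
    · exact le_top
    · have h2 : C0 + 1 ≠ 0 := by positivity
      exact ENNReal.coe_ne_zero.2 h2
  obtain ⟨φ, hφ1, hφ2, hφ3, hφ4⟩ := exists_moll hK hU hΓ hUK hΓK hw
  have hU' := sob_rpow (hφ3 _ hs hUs) (a := 1 / s0 n) (by positivity)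
  have hΓ' := sob_rpow (hφ4 _ hs hΓs) (a := 1 / s0 n) (by positivity)
  have hcs : ∀ k, HasCompactSupport (φ k) := fun k =>
    hK.cthickening.of_isClosed_subset (isClosed_tsupport _) (hφ2 k)
  have hm : TendstoInMeasure (volume : Measure (V n)) φ atTop U := by
    refine tendstoInMeasure_of_tendsto_eLpNorm (p := ENNReal.ofReal (s0 n)) ?_
      (fun k => (hφ1 k).continuous.aestronglyMeasurable) hU.aestronglyMeasurable ?_
    · rw [Ne, ENNReal.ofReal_eq_zero]
      linarith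
    · refine hU'.congr fun k => ?_
      rw [eLpNorm_eq_eLpNorm' (by rw [Ne, ENNReal.ofReal_eq_zero]; linarith)
        ENNReal.ofReal_ne_top, ENNReal.toReal_ofReal hs0.le, eLpNorm'_eq_lintegral_enorm]
      rfl
  obtain ⟨ns, hns, hae⟩ := hm.exists_seq_tendsto_ae
  have h1 := Lp.eLpNorm'_lim_le_liminf_eLpNorm' (p := q0 n) hq0
    (fun k => (hφ1 (ns k)).continuous.aestronglyMeasurable) hae
  have h2 : ∀ k, eLpNorm' (φ (ns k)) (q0 n) (volume : Measure (V n)) ≤
      C0 * ((∫⁻ x, ‖∇ (φ (ns k)) x - Γ x‖ₑ ^ s0 n) ^ (1 / s0 n) +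
        eLpNorm' Γ (s0 n) (volume : Measure (V n))) := by
    intro k
    refine (sob_smooth hn (hφ1 (ns k)) (hcs (ns k))).trans ?_
    gcongr
    have h3 := eLpNorm'_add_le (μ := (volume : Measure (V n))) (q := s0 n)
      (f := ∇ (φ (ns k)) - Γ) (g := Γ)
      ((sob_cont_grad (hφ1 (ns k))).aestronglyMeasurable.sub hΓ.aestronglyMeasurable)
      hΓ.aestronglyMeasurable hs
    rw [sub_add_cancel] at h3
    exact h3
  have h3 : Tendsto (fun k => (C0 : ℝ≥0∞) * ((∫⁻ x, ‖∇ (φ (ns k)) x - Γ x‖ₑ ^ s0 n) ^ (1 / s0 n) +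
        eLpNorm' Γ (s0 n) (volume : Measure (V n)))) atTop
      (𝓝 (C0 * (0 + eLpNorm' Γ (s0 n) (volume : Measure (V n))))) := by
    refine ENNReal.Tendsto.const_mul ?_ (Or.inr ENNReal.coe_ne_top)
    exact (hΓ'.comp hns.tendsto_atTop).add_const _
  have h4 : liminf (fun k => eLpNorm' (φ (ns k)) (q0 n) (volume : Measure (V n))) atTop ≤
      C0 * (0 + eLpNorm' Γ (s0 n) (volume : Measure (V n))) := by
    rw [← h3.liminf_eq]
    exact liminf_le_liminf (Eventually.of_forall h2)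
  rw [zero_add] at h4
  have h5 : nrm (q0 n) univ U = eLpNorm' U (q0 n) (volume : Measure (V n)) := by
    unfold nrm
    rw [Measure.restrict_univ, eLpNorm'_eq_lintegral_enorm]
  have h6 : nrm (s0 n) univ Γ = eLpNorm' Γ (s0 n) (volume : Measure (V n)) := by
    unfold nrm
    rw [Measure.restrict_univ, eLpNorm'_eq_lintegral_enorm]
  rw [h5, h6]
  refine (h1.trans h4).trans ?_
  gcongr
  exact_mod_cast (le_add_of_nonneg_right zero_le_one : C0 ≤ C0 + 1)

/-- norms on a smaller set -/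
theorem sob_nrm_mono {n : ℕ} {F : Type*} [ENorm F] {a : ℝ} (ha : 0 < a) {S T : Set (V n)}
    (hST : S ⊆ T) (f : V n → F) : nrm a S f ≤ nrm a T f := by
  unfold nrm
  gcongr

/-- the norm of a function vanishing off a set -/
theorem sob_nrm_ind {n : ℕ} {F : Type*} [NormedAddCommGroup F] {a : ℝ} (ha : 0 < a)
    {S : Set (V n)} (hS : MeasurableSet S) {f : V n → F} (hf : ∀ x ∉ S, f x = 0) :
    nrm a univ f = nrm a S f := by
  unfold nrm
  rw [Measure.restrict_univ, ← lintegral_indicator hS]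
  congr 2
  ext x
  by_cases hx : x ∈ S
  · rw [indicator_of_mem hx]
  · rw [indicator_of_notMem hx, hf x hx, enorm_zero, ENNReal.zero_rpow_of_pos ha]

/-- the inequality with a cut off function which vanishes off a compact set -/
theorem sob_cut {n : ℕ} (hn : 3 ≤ n) {C : ℝ≥0}
    (hC : ∀ (U : V n → ℝ) (Γ : V n → V n)
    (K : Set (V n)), IsCompact K → Integrable U → Integrable Γ → (∀ x ∉ K, U x = 0) →
    (∀ x ∉ K, Γ x = 0) → IsWeakGrad univ U Γ → ∫⁻ x, ‖U x‖ₑ ^ s0 n < ⊤ →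
    nrm (q0 n) univ U ≤ C * nrm (s0 n) univ Γ) {Ω : Set (V n)} (hΩ : IsOpen Ω) {u : V n → ℝ}
    {g : V n → V n} (hw : IsWeakGrad Ω u g)
    (hu : ∀ K ⊆ Ω, IsCompact K → ∫⁻ x in K, ‖u x‖ₑ ^ s0 n < ⊤)
    {η : V n → ℝ} (hη : IsTest Ω η) {M : ℝ≥0} (hη1 : ∀ x, ‖η x‖ ≤ 1)
    (hM : ∀ x, ‖∇ η x‖ ≤ M) (c : ℝ) :
    nrm (q0 n) univ (fun x => η x * (u x - c)) ≤
      C * (nrm (s0 n) (tsupport η) g + M * nrm (s0 n) (tsupport η) (fun x => u x - c)) ∧
    nrm (s0 n) (tsupport η) (fun x => u x - c) < ⊤ := by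
  have hs := sob_s0 hn
  have hs0 : 0 < s0 n := by linarith
  set K : Set (V n) := tsupport η with hK
  have hKc : IsCompact K := hη.2.1
  have hKΩ : K ⊆ Ω := hη.2.2
  obtain ⟨hi1, hi2, hw'⟩ := cutoff hΩ hw hη c
  have hη0 : ∀ x ∉ K, η x = 0 := fun x hx => image_eq_zero_of_notMem_tsupport hx
  have hη0' : ∀ x ∉ K, ∇ η x = 0 := by
    intro x hx
    have h1 : η =ᶠ[𝓝 x] fun _ => 0 := by
      have h2 : Kᶜ ∈ 𝓝 x := hKc.isClosed.isOpen_compl.mem_nhds hx
      filter_upwards [h2] with z hz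
      exact hη0 z hz
    have h3 : fderiv ℝ η x = 0 := by
      rw [h1.fderiv_eq]
      simp
    unfold gradient
    rw [h3, map_zero]
  have hum : AEStronglyMeasurable u (volume.restrict K) :=
    (hw.1.integrableOn_compact_subset hKΩ hKc).aestronglyMeasurable
  have hgm : AEStronglyMeasurable g (volume.restrict K) :=
    (hw.2.1.integrableOn_compact_subset hKΩ hKc).aestronglyMeasurable
  have hucm : AEStronglyMeasurable (fun x => u x - c) (volume.restrict K) :=
    hum.sub aestronglyMeasurable_const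
  have hfin : nrm (s0 n) K (fun x => u x - c) < ⊤ := by
    have h1 := eLpNorm'_add_le (μ := volume.restrict K) (q := s0 n) (f := u)
      (g := fun _ => -c) hum aestronglyMeasurable_const hs
    refine lt_of_le_of_lt h1 (ENNReal.add_lt_top.2 ⟨?_, ?_⟩)
    · rw [eLpNorm'_eq_lintegral_enorm]
      exact ENNReal.rpow_lt_top_of_nonneg (by positivity) (hu K hKΩ hKc).ne
    · rw [eLpNorm'_eq_lintegral_enorm, lintegral_const, Measure.restrict_apply_univ]
      refine ENNReal.rpow_lt_top_of_nonneg (by positivity) (ENNReal.mul_ne_top ?_ ?_)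
      · exact (ENNReal.rpow_lt_top_of_nonneg hs0.le enorm_ne_top).ne
      · exact hKc.measure_lt_top.ne
  refine ⟨?_, hfin⟩
  have hU0 : ∀ x ∉ K, η x * (u x - c) = 0 := fun x hx => by rw [hη0 x hx, zero_mul]
  have hΓ0 : ∀ x ∉ K, η x • g x + (u x - c) • ∇ η x = 0 := fun x hx => by
    rw [hη0 x hx, hη0' x hx, zero_smul, smul_zero, add_zero]
  have hUn : nrm (s0 n) univ (fun x => η x * (u x - c)) ≤ nrm (s0 n) K (fun x => u x - c) := by
    rw [sob_nrm_ind hs0 hKc.measurableSet hU0]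
    unfold nrm
    gcongr with x
    rw [enorm_mul]
    calc ‖η x‖ₑ * ‖u x - c‖ₑ ≤ 1 * ‖u x - c‖ₑ := by
          gcongr
          rw [← ofReal_norm]
          exact ENNReal.ofReal_le_one.2 (hη1 x)
      _ = ‖u x - c‖ₑ := one_mul _
  have hUs : ∫⁻ x, ‖η x * (u x - c)‖ₑ ^ s0 n < ⊤ := by
    have h1 := lt_of_le_of_lt hUn hfin
    unfold nrm at h1
    rw [Measure.restrict_univ] at h1
    exact (ENNReal.rpow_lt_top_iff_of_pos (by positivity)).1 h1
  refine (hC _ _ K hKc hi1 hi2 hU0 hΓ0 hw' hUs).trans ?_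
  gcongr
  rw [sob_nrm_ind hs0 hKc.measurableSet hΓ0]
  have hηm : AEStronglyMeasurable η (volume.restrict K) :=
    hη.1.continuous.aestronglyMeasurable
  have hη'm : AEStronglyMeasurable (∇ η) (volume.restrict K) :=
    (sob_cont_grad hη.1).aestronglyMeasurable
  have h1 := eLpNorm'_add_le (μ := volume.restrict K) (q := s0 n) (f := fun x => η x • g x)
      (g := fun x => (u x - c) • ∇ η x) (hηm.smul hgm) (hucm.smul hη'm) hs
  refine le_trans h1 (add_le_add ?_ ?_)
  · unfold nrm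
    rw [eLpNorm'_eq_lintegral_enorm]
    gcongr with x
    rw [enorm_smul]
    calc ‖η x‖ₑ * ‖g x‖ₑ ≤ 1 * ‖g x‖ₑ := by
          gcongr
          rw [← ofReal_norm]
          exact ENNReal.ofReal_le_one.2 (hη1 x)
      _ = ‖g x‖ₑ := one_mul _
  · have h2 := eLpNorm'_le_nnreal_smul_eLpNorm'_of_ae_le_mul (μ := volume.restrict K)
      (f := fun x => (u x - c) • ∇ η x) (g := fun x => u x - c) (c := M)
      (Eventually.of_forall fun x => by
        rw [nnnorm_smul, mul_comm]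
        gcongr
        rw [← NNReal.coe_le_coe, coe_nnnorm]
        exact hM x) hs0
    exact h2

/-- bumps are test functions -/
theorem sob_bump {n : ℕ} {Ω : Set (V n)} (η : ContDiffBump (0 : V n))
    (h : closedBall 0 η.rOut ⊆ Ω) : IsTest Ω (η : V n → ℝ) := by
  refine ⟨η.contDiff, η.hasCompactSupport, ?_⟩
  rw [η.tsupport_eq]
  exact h

theorem sob_bump_le {n : ℕ} (η : ContDiffBump (0 : V n)) (x : V n) : ‖(η : V n → ℝ) x‖ ≤ 1 := by
  rw [Real.norm_eq_abs, abs_of_nonneg η.nonneg]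
  exact η.le_one

theorem sob_bump_grad {n : ℕ} (η : ContDiffBump (0 : V n)) :
    ∃ M : ℝ≥0, ∀ x, ‖∇ (η : V n → ℝ) x‖ ≤ M := by
  have h1 : Continuous (∇ (η : V n → ℝ)) := sob_cont_grad η.contDiff
  have h2 : HasCompactSupport (∇ (η : V n → ℝ)) := by
    have h3 : HasCompactSupport (fderiv ℝ (η : V n → ℝ)) := η.hasCompactSupport.fderiv (𝕜 := ℝ)
    exact h3.comp_left (g := (InnerProductSpace.toDual ℝ (V n)).symm) (map_zero _)
  obtain ⟨M, hM⟩ := h2.exists_bound_of_continuous h1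
  refine ⟨M.toNNReal, fun x => (hM x).trans ?_⟩
  exact Real.le_coe_toNNReal M

/-- The local Sobolev inequality. -/
theorem sobolev_loc (n : ℕ) (hn : 3 ≤ n) : ∃ C : ℝ≥0, ∀ (Ω : Set (V n)) (u : V n → ℝ)
    (g : V n → V n), IsOpen Ω → closedBall 0 2 ⊆ Ω → IsWeakGrad Ω u g →
    (∀ K ⊆ Ω, IsCompact K → ∫⁻ x in K, ‖u x‖ₑ ^ s0 n < ⊤) →
    (∀ K ⊆ Ω, IsCompact K → ∫⁻ x in K, ‖g x‖ₑ ^ s0 n < ⊤) →
    MemLp u 2 (volume.restrict (ball 0 2)) ∧
    ∀ c : ℝ, nrm (q0 n) (ball 0 (8 / 5)) (fun x => u x - c) ≤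
      C * (nrm (s0 n) (ball 0 2) g + nrm (s0 n) (ball 0 2) (fun x => u x - c)) := by
  have hs := sob_s0 hn
  have hq := sob_q0 hn
  have hs0 : 0 < s0 n := by linarith
  have hq0 : 0 < q0 n := by linarith
  obtain ⟨C, hC⟩ := sobolev_cpt n hn
  let η₀ : ContDiffBump (0 : V n) := ⟨8 / 5, 9 / 5, by norm_num, by norm_num⟩
  obtain ⟨M₀, hM₀⟩ := sob_bump_grad η₀
  refine ⟨C * (1 + M₀), fun Ω u g hΩ hB hw hu hg => ⟨?_, fun c => ?_⟩⟩
  · obtain ⟨δ, hδ, hδΩ⟩ :=
      (isCompact_closedBall (0 : V n) 2).exists_cthickening_subset_open hΩ hB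
    rw [cthickening_closedBall hδ.le (by norm_num)] at hδΩ
    let η : ContDiffBump (0 : V n) := ⟨2 + δ / 2, 2 + δ, by linarith, by linarith⟩
    have hηΩ : closedBall (0 : V n) η.rOut ⊆ Ω := by
      refine (closedBall_subset_closedBall ?_).trans hδΩ
      show 2 + δ ≤ δ + 2
      linarith
    have hηt : IsTest Ω (η : V n → ℝ) := sob_bump η hηΩ
    obtain ⟨M, hM⟩ := sob_bump_grad η
    have hKc : IsCompact (tsupport (η : V n → ℝ)) := hηt.2.1
    obtain ⟨h1, h2⟩ := sob_cut hn hC hΩ hw hu hηt (sob_bump_le η) hM 0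
    have h3 : nrm (s0 n) (tsupport (η : V n → ℝ)) g < ⊤ :=
      ENNReal.rpow_lt_top_of_nonneg (by positivity) (hg _ hηt.2.2 hKc).ne
    have h4 : nrm (q0 n) (ball 0 2) u < ⊤ := by
      refine lt_of_le_of_lt ?_ (lt_of_le_of_lt h1 (ENNReal.mul_lt_top ENNReal.coe_lt_top
        (ENNReal.add_lt_top.2 ⟨h3, ENNReal.mul_lt_top ENNReal.coe_lt_top h2⟩)))
      refine le_trans ?_ (sob_nrm_mono hq0 (subset_univ (ball (0 : V n) 2)) _)
      refine le_of_eq ?_
      unfold nrm
      congr 1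
      refine setLIntegral_congr_fun measurableSet_ball fun x hx => ?_
      have h5 : (η : V n → ℝ) x = 1 := by
        refine η.one_of_mem_closedBall ?_
        show x ∈ closedBall (0 : V n) (2 + δ / 2)
        rw [mem_closedBall]
        rw [mem_ball] at hx
        linarith
      simp only [h5, sub_zero, one_mul]
    have hfm : IsFiniteMeasure (volume.restrict (ball (0 : V n) 2)) :=
      ⟨by rw [Measure.restrict_apply_univ]; exact measure_ball_lt_top⟩
    have hum : AEStronglyMeasurable u (volume.restrict (ball (0 : V n) 2)) :=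
      ((hw.1.integrableOn_compact_subset hB (isCompact_closedBall _ _)).mono_set
        ball_subset_closedBall).aestronglyMeasurable
    have h6 : MemLp u (ENNReal.ofReal (q0 n)) (volume.restrict (ball (0 : V n) 2)) := by
      refine ⟨hum, ?_⟩
      rw [eLpNorm_eq_eLpNorm' (by rw [Ne, ENNReal.ofReal_eq_zero]; linarith)
        ENNReal.ofReal_ne_top, ENNReal.toReal_ofReal hq0.le, eLpNorm'_eq_lintegral_enorm]
      exact h4
    refine h6.mono_exponent ?_
    rw [← ENNReal.ofReal_ofNat]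
    exact ENNReal.ofReal_le_ofReal hq
  · have hηt : IsTest Ω (η₀ : V n → ℝ) := sob_bump η₀
      ((closedBall_subset_closedBall (by show (9 / 5 : ℝ) ≤ 2; norm_num)).trans hB)
    obtain ⟨h1, h2⟩ := sob_cut hn hC hΩ hw hu hηt (sob_bump_le η₀) hM₀ c
    have hsub : tsupport (η₀ : V n → ℝ) ⊆ ball 0 2 := by
      rw [η₀.tsupport_eq]
      exact closedBall_subset_ball (by show (9 / 5 : ℝ) < 2; norm_num)
    calc nrm (q0 n) (ball 0 (8 / 5)) (fun x => u x - c)
        = nrm (q0 n) (ball 0 (8 / 5)) (fun x => η₀ x * (u x - c)) := by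
          unfold nrm
          congr 1
          refine setLIntegral_congr_fun measurableSet_ball fun x hx => ?_
          have h5 : (η₀ : V n → ℝ) x = 1 := by
            refine η₀.one_of_mem_closedBall ?_
            show x ∈ closedBall (0 : V n) (8 / 5)
            exact ball_subset_closedBall hx
          simp only [h5, one_mul]
      _ ≤ nrm (q0 n) univ (fun x => η₀ x * (u x - c)) := sob_nrm_mono hq0 (subset_univ _) _
      _ ≤ C * (nrm (s0 n) (tsupport (η₀ : V n → ℝ)) g +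
            M₀ * nrm (s0 n) (tsupport (η₀ : V n → ℝ)) (fun x => u x - c)) := h1
      _ ≤ C * (nrm (s0 n) (ball 0 2) g + M₀ * nrm (s0 n) (ball 0 2) (fun x => u x - c)) := by
          gcongr <;> exact sob_nrm_mono hs0 hsub _
      _ ≤ C * ((1 + M₀) * nrm (s0 n) (ball 0 2) g +
            (1 + M₀) * nrm (s0 n) (ball 0 2) (fun x => u x - c)) := by
          gcongr
          · exact le_mul_of_one_le_left zero_le (le_add_right le_rfl)
          · exact le_add_left le_rfl
      _ = _ := by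
          push_cast
          ring

end Pool.Agent.Helper20.PN
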