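import Pool.Agent.Helper20.PN.Defs
import Pool.Agent.Helper20.PN.Cut
import Pool.Agent.Helper20.PN.Moll

/-! PN-6: the Caccioppoli inequality for the p-Laplace equation. -/

open MeasureTheory Metric Set Filter
open scoped ENNReal NNReal ContDiff Topology Gradient RealInnerProductSpace

namespace Pool.Agent.Helper20.PN

/-! ### the cutoff function -/

theorem cacc_lip : ∃ L : ℝ≥0, 1 ≤ L ∧ LipschitzWith L Real.smoothTransition := by
  have h1 : ContDiff ℝ 1 Real.smoothTransition := Real.smoothTransition.contDiff (n := 1)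
  have h2 : Continuous (deriv Real.smoothTransition) := h1.continuous_deriv le_rfl
  obtain ⟨M, hM⟩ := (isCompact_Icc (a := (-1 : ℝ)) (b := 2)).exists_bound_of_continuousOn
    h2.continuousOn
  refine ⟨max 1 (Real.toNNReal M), le_max_left _ _, ?_⟩
  refine lipschitzWith_of_nnnorm_deriv_le (h1.differentiable one_ne_zero) ?_
  intro x
  by_cases hx : x ∈ Icc (-1 : ℝ) 2
  · refine le_trans ?_ (le_max_right _ _)
    rw [← NNReal.coe_le_coe, coe_nnnorm]
    exact (hM x hx).trans (Real.le_coe_toNNReal M)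
  · have h3 : deriv Real.smoothTransition x = 0 := by
      rw [mem_Icc, not_and_or, not_le, not_le] at hx
      rcases hx with hx | hx
      · have h4 : Real.smoothTransition =ᶠ[𝓝 x] fun _ => 0 := by
          filter_upwards [Iio_mem_nhds (show x < 0 by linarith)] with y hy
          exact Real.smoothTransition.zero_of_nonpos (le_of_lt hy)
        rw [h4.deriv_eq]
        simp
      · have h4 : Real.smoothTransition =ᶠ[𝓝 x] fun _ => 1 := by
          filter_upwards [Ioi_mem_nhds (show 1 < x by linarith)] with y hy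
          exact Real.smoothTransition.one_of_one_le (le_of_lt hy)
        rw [h4.deriv_eq]
        simp
    rw [h3]
    simp

theorem cacc_eta {n : ℕ} {L : ℝ≥0} (hL : LipschitzWith L Real.smoothTransition) {a b : ℝ}
    (ha : 0 < a) (hab : a < b) : ∃ η : V n → ℝ, ContDiff ℝ ∞ η ∧ (∀ x, 0 ≤ η x) ∧
      (∀ x, η x ≤ 1) ∧ (∀ x ∈ ball (0 : V n) a, η x = 1) ∧ tsupport η ⊆ closedBall 0 b ∧
      ∀ x, ‖fderiv ℝ η x‖ ≤ L / (b - a) := by
  have hba : 0 < b - a := by linarith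
  refine ⟨fun x => Real.smoothTransition ((b - ‖x‖) / (b - a)), ?_, ?_, ?_, ?_, ?_, ?_⟩
  · rw [contDiff_iff_contDiffAt]
    intro x
    by_cases hx : x = 0
    · have h1 : (fun x : V n => Real.smoothTransition ((b - ‖x‖) / (b - a))) =ᶠ[𝓝 x]
          fun _ => 1 := by
        filter_upwards [isOpen_ball.mem_nhds (show x ∈ ball (0 : V n) a by
          rw [hx]; exact mem_ball_self ha)] with y hy
        rw [mem_ball_zero_iff] at hy
        refine Real.smoothTransition.one_of_one_le ?_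
        rw [le_div_iff₀ hba]
        linarith
      exact contDiffAt_const.congr_of_eventuallyEq h1
    · refine ContDiffAt.comp x (Real.smoothTransition.contDiffAt (n := ⊤)) ?_
      exact (contDiffAt_const.sub (contDiffAt_norm ℝ hx)).div_const _
  · intro x
    exact Real.smoothTransition.nonneg _
  · intro x
    exact Real.smoothTransition.le_one _
  · intro x hx
    rw [mem_ball_zero_iff] at hx
    refine Real.smoothTransition.one_of_one_le ?_
    rw [le_div_iff₀ hba]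
    linarith
  · refine closure_minimal ?_ isClosed_closedBall
    intro x hx
    rw [mem_closedBall_zero_iff]
    by_contra h
    rw [not_le] at h
    apply hx
    refine Real.smoothTransition.zero_of_nonpos ?_
    exact div_nonpos_of_nonpos_of_nonneg (by linarith) hba.le
  · intro x
    have h1 : LipschitzWith (L * (Real.toNNReal (1 / (b - a))))
        (fun x : V n => Real.smoothTransition ((b - ‖x‖) / (b - a))) := by
      refine hL.comp ?_
      refine LipschitzWith.of_dist_le_mul fun x y => ?_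
      rw [Real.coe_toNNReal _ (by positivity), Real.dist_eq, dist_eq_norm, ← sub_div, abs_div,
        abs_of_pos hba]
      have h2 : |b - ‖x‖ - (b - ‖y‖)| ≤ ‖x - y‖ := by
        have h3 : b - ‖x‖ - (b - ‖y‖) = ‖y‖ - ‖x‖ := by ring
        rw [h3, norm_sub_rev]
        exact abs_norm_sub_norm_le y x
      rw [div_le_iff₀ hba]
      have h4 : 1 / (b - a) * ‖x - y‖ * (b - a) = ‖x - y‖ := by field_simp
      rw [h4]
      exact h2
    have h2 := norm_fderiv_le_of_lipschitz ℝ h1 (x₀ := x)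
    refine h2.trans (le_of_eq ?_)
    rw [NNReal.coe_mul, Real.coe_toNNReal _ (by positivity)]
    ring

/-! ### the pairing -/

theorem cacc_pow {t p : ℝ} (ht : 0 ≤ t) (hp : 1 < p) : t ^ (p - 2) * t = t ^ (p - 1) := by
  rcases ht.eq_or_lt with rfl | ht
  · rw [mul_zero, Real.zero_rpow (by linarith)]
  · nth_rewrite 2 [← Real.rpow_one t]
    rw [← Real.rpow_add ht]
    congr 1
    ring

theorem cacc_pow' {t p : ℝ} (ht : 0 ≤ t) (hp : 1 < p) : t ^ (p - 2) * t ^ 2 = t ^ p := by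
  rcases ht.eq_or_lt with rfl | ht
  · rw [zero_pow two_ne_zero, mul_zero, Real.zero_rpow (by linarith)]
  · have h1 : t ^ 2 = t ^ (2 : ℝ) := by norm_num
    rw [h1, ← Real.rpow_add ht]
    congr 1
    ring

theorem cacc_pt {n : ℕ} {p : ℝ} (hp : 1 < p) (a b : V n) :
    ‖‖a‖ ^ (p - 2) * ⟪b, a⟫‖ₑ ≤ ‖a‖ₑ ^ (p - 1) * ‖b‖ₑ := by
  rw [← ofReal_norm, ← ofReal_norm, ← ofReal_norm,
    ENNReal.ofReal_rpow_of_nonneg (norm_nonneg _) (by linarith),
    ← ENNReal.ofReal_mul (by positivity)]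
  refine ENNReal.ofReal_le_ofReal ?_
  rw [norm_mul, Real.norm_of_nonneg (Real.rpow_nonneg (norm_nonneg _) _), ← cacc_pow
    (norm_nonneg a) hp, mul_assoc]
  refine mul_le_mul_of_nonneg_left ?_ (Real.rpow_nonneg (norm_nonneg _) _)
  rw [mul_comm]
  exact norm_inner_le_norm b a

theorem cacc_pair {n : ℕ} {p : ℝ} (hp : 1 < p) {g Φ : V n → V n} {B : Set (V n)}
    (hg : AEStronglyMeasurable g (volume.restrict B))
    (hgp : ∫⁻ x in B, ‖g x‖ₑ ^ p < ⊤) (hΦ : AEStronglyMeasurable Φ (volume.restrict B))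
    (hΦp : ∫⁻ x in B, ‖Φ x‖ₑ ^ p < ⊤) (hΦ0 : ∀ x ∉ B, Φ x = 0) :
    Integrable (fun x => ‖g x‖ ^ (p - 2) * ⟪Φ x, g x⟫) ∧
    ‖∫ x, ‖g x‖ ^ (p - 2) * ⟪Φ x, g x⟫‖ₑ ≤
      (∫⁻ x in B, ‖g x‖ₑ ^ p) ^ (1 - 1 / p) * (∫⁻ x in B, ‖Φ x‖ₑ ^ p) ^ (1 / p) := by
  have hp0 : 0 < p := by linarith
  have hsupp : Function.support (fun x => ‖g x‖ ^ (p - 2) * ⟪Φ x, g x⟫) ⊆ B := by
    intro x hx
    by_contra h
    apply hx
    simp [hΦ0 x h]
  have hconj : (p / (p - 1)).HolderConjugate p := by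
    have := (Real.holderConjugate_iff_eq_conjExponent hp (q := p / (p - 1))).mpr rfl
    exact this.symm
  have hle : ∫⁻ x in B, ‖‖g x‖ ^ (p - 2) * ⟪Φ x, g x⟫‖ₑ ≤
      (∫⁻ x in B, ‖g x‖ₑ ^ p) ^ (1 - 1 / p) * (∫⁻ x in B, ‖Φ x‖ₑ ^ p) ^ (1 / p) := by
    calc ∫⁻ x in B, ‖‖g x‖ ^ (p - 2) * ⟪Φ x, g x⟫‖ₑ
        ≤ ∫⁻ x in B, ‖g x‖ₑ ^ (p - 1) * ‖Φ x‖ₑ := lintegral_mono fun x => cacc_pt hp _ _
      _ ≤ (∫⁻ x in B, (‖g x‖ₑ ^ (p - 1)) ^ (p / (p - 1))) ^ (1 / (p / (p - 1))) *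
          (∫⁻ x in B, ‖Φ x‖ₑ ^ p) ^ (1 / p) :=
        ENNReal.lintegral_mul_le_Lp_mul_Lq _ hconj (hg.enorm.pow_const _) hΦ.enorm
      _ = _ := by
        have h1 : ∀ x, (‖g x‖ₑ ^ (p - 1)) ^ (p / (p - 1)) = ‖g x‖ₑ ^ p := by
          intro x
          rw [← ENNReal.rpow_mul]
          congr 1
          field_simp [show p - 1 ≠ 0 by linarith]
        have h2 : 1 / (p / (p - 1)) = 1 - 1 / p := by
          field_simp
        rw [lintegral_congr h1, h2]
  have hmeas : AEStronglyMeasurable (fun x => ‖g x‖ ^ (p - 2) * ⟪Φ x, g x⟫)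
      (volume.restrict B) := by
    refine AEStronglyMeasurable.mul ?_ (hΦ.inner hg)
    exact (hg.norm.aemeasurable.pow_const _).aestronglyMeasurable
  have hint : IntegrableOn (fun x => ‖g x‖ ^ (p - 2) * ⟪Φ x, g x⟫) B := by
    refine ⟨hmeas, ?_⟩
    refine lt_of_le_of_lt hle ?_
    refine ENNReal.mul_lt_top ?_ ?_
    · refine ENNReal.rpow_lt_top_of_nonneg ?_ hgp.ne
      rw [sub_nonneg, div_le_one hp0]
      exact hp.le
    · exact ENNReal.rpow_lt_top_of_nonneg (by positivity) hΦp.ne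
  refine ⟨(integrableOn_iff_integrable_of_support_subset hsupp).mp hint, ?_⟩
  rw [← setIntegral_eq_integral_of_forall_compl_eq_zero (s := B) (fun x hx => by
    rw [hΦ0 x hx, inner_zero_left, mul_zero])]
  exact (enorm_integral_le_lintegral_enorm _).trans hle

theorem cacc_young {e t w D q p : ℝ} (he0 : 0 ≤ e) (he1 : e ≤ 1) (ht : 0 ≤ t) (hw : 0 ≤ w)
    (hD : 0 ≤ D) (hp : 1 < p) (hp3 : p ≤ 3) (hq : q = p / (p - 1)) :
    t ^ (p - 1) * w * (3 * e ^ 2 * D) ≤
      ((p - 1) / p) * (e ^ 3 * t ^ p) + (1 / p) * ((3 * D) ^ p * w ^ p) := by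
  have hp0 : 0 < p := by linarith
  have hp1 : 0 < p - 1 := by linarith
  have hconj : q.HolderConjugate p := by
    rw [hq]
    exact ((Real.holderConjugate_iff_eq_conjExponent hp (q := p / (p - 1))).mpr rfl).symm
  have h1 := Real.young_inequality_of_nonneg (a := e ^ 2 * t ^ (p - 1)) (b := 3 * D * w)
    (by positivity) (by positivity) hconj
  have hq0 : 0 < q := by rw [hq]; positivity
  have h2 : (e ^ 2 * t ^ (p - 1)) ^ q ≤ e ^ 3 * t ^ p := by
    rw [Real.mul_rpow (by positivity) (by positivity), ← Real.rpow_mul ht]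
    have h3 : (p - 1) * q = p := by
      rw [hq]
      field_simp
    rw [h3]
    refine mul_le_mul_of_nonneg_right ?_ (by positivity)
    rcases he0.eq_or_lt with rfl | he
    · simp [Real.zero_rpow hq0.ne']
    · have h4 : (e ^ 2) ^ q = e ^ (2 * q) := by
        rw [Real.rpow_mul he.le]
        norm_num
      have h5 : e ^ 3 = e ^ (3 : ℝ) := by norm_num
      rw [h4, h5]
      refine Real.rpow_le_rpow_of_exponent_ge he he1 ?_
      rw [hq, mul_div_assoc', le_div_iff₀ hp1]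
      linarith
  have h6 : (3 * D * w) ^ p = (3 * D) ^ p * w ^ p := Real.mul_rpow (by positivity) hw
  have h7 : (e ^ 2 * t ^ (p - 1)) ^ q / q ≤ ((p - 1) / p) * (e ^ 3 * t ^ p) := by
    have h8 : (p - 1) / p = 1 / q := by
      rw [hq]
      field_simp
    rw [h8, div_eq_inv_mul, one_div]
    exact mul_le_mul_of_nonneg_left h2 (by positivity)
  have h9 : t ^ (p - 1) * w * (3 * e ^ 2 * D) = e ^ 2 * t ^ (p - 1) * (3 * D * w) := by ring
  rw [h9]
  refine h1.trans ?_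
  rw [h6, div_eq_inv_mul ((3 * D) ^ p * w ^ p) p, ← one_div p]
  exact add_le_add h7 le_rfl

theorem cacc_grad {n : ℕ} (f : V n → ℝ) (x v : V n) : ⟪∇ f x, v⟫ = fderiv ℝ f x v := by
  unfold gradient
  exact InnerProductSpace.toDual_symm_apply

theorem cacc_gnorm {n : ℕ} (f : V n → ℝ) (x : V n) : ‖∇ f x‖ = ‖fderiv ℝ f x‖ := by
  unfold gradient
  exact (InnerProductSpace.toDual ℝ (V n)).symm.norm_map _

theorem cacc_compl {n : ℕ} {f : V n → ℝ≥0∞} {B : Set (V n)} (hB : MeasurableSet B)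
    (hf : ∀ x ∉ B, f x = 0) : ∫⁻ x, f x = ∫⁻ x in B, f x := by
  rw [← lintegral_add_compl f hB, setLIntegral_congr_fun hB.compl (g := fun _ => 0)
    (fun x hx => hf x hx)]
  simp

/-- `|u - c|^p` is integrable on compact subsets. -/
theorem cacc_uc {n : ℕ} {p : ℝ} (hp : 1 < p) {u : V n → ℝ} {B : Set (V n)} (c : ℝ)
    (hB : volume B < ⊤) (hu : ∫⁻ x in B, ‖u x‖ₑ ^ p < ⊤) : ∫⁻ x in B, ‖u x - c‖ₑ ^ p < ⊤ := by
  have h1 : ∀ x, ‖u x - c‖ₑ ^ p ≤ 2 ^ (p - 1) * (‖u x‖ₑ ^ p + ‖c‖ₑ ^ p) := by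
    intro x
    refine le_trans (ENNReal.rpow_le_rpow (enorm_sub_le) (by linarith)) ?_
    exact ENNReal.rpow_add_le_mul_rpow_add_rpow _ _ hp.le
  refine lt_of_le_of_lt (lintegral_mono h1) ?_
  rw [lintegral_const_mul' _ _ (ENNReal.rpow_ne_top_of_nonneg (by linarith) (by simp)),
    lintegral_add_right _ measurable_const, setLIntegral_const]
  refine ENNReal.mul_lt_top (ENNReal.rpow_lt_top_of_nonneg (by linarith) (by simp)) ?_
  refine ENNReal.add_lt_top.mpr ⟨hu, ENNReal.mul_lt_top ?_ hB⟩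
  exact ENNReal.rpow_lt_top_of_nonneg (by linarith) (by simp)

/-- The equation tested with a Sobolev function. -/
theorem cacc_eqn {n : ℕ} {p : ℝ} (hp : 1 < p) {Ω : Set (V n)} {u : V n → ℝ} {g : V n → V n}
    (hs : IsWeakSol p Ω u g) {b r₂ : ℝ} (hb0 : 0 < b) (hb : b < r₂)
    (hball : closedBall (0 : V n) r₂ ⊆ Ω) {U : V n → ℝ} {Γ : V n → V n}
    (hU : Integrable U) (hΓ : Integrable Γ) (hU0 : ∀ x ∉ closedBall (0 : V n) b, U x = 0)
    (hΓ0 : ∀ x ∉ closedBall (0 : V n) b, Γ x = 0) (hw : IsWeakGrad univ U Γ)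
    (hΓp : ∫⁻ x, ‖Γ x‖ₑ ^ p < ⊤) :
    ∫ x, ‖g x‖ ^ (p - 2) * ⟪Γ x, g x⟫ = 0 := by
  have hp0 : 0 < p := by linarith
  obtain ⟨φ, hφs, hφt, -, hφg⟩ := exists_moll (isCompact_closedBall (0 : V n) b) hU hΓ hU0
    hΓ0 hw
  have ht := hφg p hp.le hΓp
  set B := closedBall (0 : V n) r₂ with hBdef
  have hBc : IsCompact B := isCompact_closedBall _ _
  have hBm : MeasurableSet B := measurableSet_closedBall
  have hgB : AEStronglyMeasurable g (volume.restrict B) :=
    (hs.grad.2.1.integrableOn_compact_subset hball hBc).aestronglyMeasurable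
  have hgp : ∫⁻ x in B, ‖g x‖ₑ ^ p < ⊤ := hs.loc_g B hball hBc
  have hsub : closedBall (0 : V n) b ⊆ B := closedBall_subset_closedBall hb.le
  have hΓB : ∀ x ∉ B, Γ x = 0 := fun x hx => hΓ0 x fun h => hx (hsub h)
  have hpair := cacc_pair hp hgB hgp hΓ.aestronglyMeasurable.restrict
    (lt_of_le_of_lt (setLIntegral_le_lintegral _ _) hΓp) hΓB
  have hk : ∀ᶠ k : ℕ in atTop, 1 / ((k : ℝ) + 1) < r₂ - b :=
    (tendsto_one_div_add_atTop_nhds_zero_nat).eventually_lt_const (by linarith)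
  have hfin : ∀ᶠ k in atTop, ∫⁻ x, ‖∇ (φ k) x - Γ x‖ₑ ^ p < ⊤ :=
    (ht.eventually_lt_const ENNReal.zero_lt_top)
  have hev : ∀ᶠ k in atTop, ‖∫ x, ‖g x‖ ^ (p - 2) * ⟪Γ x, g x⟫‖ₑ ≤
      (∫⁻ x in B, ‖g x‖ₑ ^ p) ^ (1 - 1 / p) *
        (∫⁻ x, ‖∇ (φ k) x - Γ x‖ₑ ^ p) ^ (1 / p) := by
    filter_upwards [hk, hfin] with k hk1 hk2
    have hts : tsupport (φ k) ⊆ B := by
      refine (hφt k).trans ?_
      rw [cthickening_closedBall (by positivity) hb0.le]
      exact closedBall_subset_closedBall (by linarith)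
    have htest : IsTest Ω (φ k) :=
      ⟨hφs k, HasCompactSupport.of_support_subset_isCompact hBc
        ((subset_tsupport _).trans hts), hts.trans hball⟩
    have hgr0 : ∀ x ∉ B, ∇ (φ k) x = 0 := by
      intro x hx
      rw [← norm_eq_zero, cacc_gnorm, fderiv_of_notMem_tsupport ℝ fun h => hx (hts h),
        norm_zero]
    have hcg : Continuous (∇ (φ k)) := by
      have h1 : Continuous (fderiv ℝ (φ k)) := (hφs k).continuous_fderiv (by simp)
      exact (InnerProductSpace.toDual ℝ (V n)).symm.continuous.comp h1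
    have hD0 : ∀ x ∉ B, Γ x - ∇ (φ k) x = 0 := by
      intro x hx
      rw [hΓB x hx, hgr0 x hx, sub_zero]
    have hle : ∫⁻ x in B, ‖Γ x - ∇ (φ k) x‖ₑ ^ p ≤ ∫⁻ x, ‖∇ (φ k) x - Γ x‖ₑ ^ p := by
      refine (setLIntegral_le_lintegral _ _).trans (le_of_eq ?_)
      refine lintegral_congr fun x => ?_
      rw [enorm_sub_rev]
    have hpk := cacc_pair (Φ := fun x => Γ x - ∇ (φ k) x) hp hgB hgp
      (hΓ.aestronglyMeasurable.restrict.sub hcg.aestronglyMeasurable.restrict)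
      (lt_of_le_of_lt hle hk2) hD0
    have heq := hs.eqn (φ k) htest
    have h2 : ∫ x, ‖g x‖ ^ (p - 2) * ⟪Γ x, g x⟫ =
        ∫ x, ‖g x‖ ^ (p - 2) * ⟪Γ x - ∇ (φ k) x, g x⟫ := by
      have h3 := integral_sub hpair.1 hpk.1
      have h4 : ∀ x, ‖g x‖ ^ (p - 2) * ⟪Γ x, g x⟫ -
          ‖g x‖ ^ (p - 2) * ⟪Γ x - ∇ (φ k) x, g x⟫ =
          ‖g x‖ ^ (p - 2) * fderiv ℝ (φ k) x (g x) := by
        intro x
        rw [inner_sub_left, cacc_grad]
        ring
      simp only [h4] at h3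
      rw [heq] at h3
      linarith
    rw [h2]
    refine hpk.2.trans ?_
    refine mul_le_mul_right (ENNReal.rpow_le_rpow hle (by positivity)) _
  have hlim : Tendsto (fun k => (∫⁻ x in B, ‖g x‖ₑ ^ p) ^ (1 - 1 / p) *
      (∫⁻ x, ‖∇ (φ k) x - Γ x‖ₑ ^ p) ^ (1 / p)) atTop (𝓝 0) := by
    have h1 : Tendsto (fun k => (∫⁻ x, ‖∇ (φ k) x - Γ x‖ₑ ^ p) ^ (1 / p)) atTop
        (𝓝 ((0 : ℝ≥0∞) ^ (1 / p))) := (ENNReal.continuous_rpow_const.tendsto _).comp ht
    rw [ENNReal.zero_rpow_of_pos (by positivity)] at h1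
    have h2 : (∫⁻ x in B, ‖g x‖ₑ ^ p) ^ (1 - 1 / p) ≠ ⊤ := by
      refine ENNReal.rpow_ne_top_of_nonneg ?_ hgp.ne
      rw [sub_nonneg, div_le_one hp0]
      exact hp.le
    have h3 := ENNReal.Tendsto.const_mul h1 (Or.inr h2)
    rwa [mul_zero] at h3
  have hfinal := ge_of_tendsto hlim hev
  rw [nonpos_iff_eq_zero, enorm_eq_zero] at hfinal
  exact hfinal

/-- The Caccioppoli inequality for the p-Laplace equation. -/
theorem caccioppoli (n : ℕ) : ∃ C : ℝ, 1 ≤ C ∧ ∀ (p : ℝ), 1 < p → p ≤ 3 →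
    ∀ (Ω : Set (V n)) (u : V n → ℝ) (g : V n → V n), IsOpen Ω → IsWeakSol p Ω u g →
    ∀ r₁ r₂ c : ℝ, 0 < r₁ → r₁ < r₂ → closedBall 0 r₂ ⊆ Ω →
      ∫⁻ x in ball 0 r₁, ‖g x‖ₑ ^ p ≤
        ENNReal.ofReal ((C / (r₂ - r₁)) ^ p) * ∫⁻ x in ball 0 r₂, ‖u x - c‖ₑ ^ p := by
  obtain ⟨L, hL1, hL⟩ := cacc_lip
  have hL1' : (1 : ℝ) ≤ L := by exact_mod_cast hL1
  refine ⟨6 * L, by linarith, ?_⟩
  intro p hp hp3 Ω u g hΩ hs r₁ r₂ c hr₁ hr hball
  have hp0 : 0 < p := by linarith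
  have hrr : 0 < r₂ - r₁ := by linarith
  obtain ⟨b, hbdef⟩ : ∃ b, b = (r₁ + r₂) / 2 := ⟨_, rfl⟩
  have hb1 : r₁ < b := by linarith
  have hb2 : b < r₂ := by linarith
  have hb0 : 0 < b := by linarith
  obtain ⟨η, hη, h0, h1, hone, hsupp, hgrad⟩ := cacc_eta (n := n) hL hr₁ hb1
  obtain ⟨D, hDdef⟩ : ∃ D : ℝ, D = L / (b - r₁) := ⟨_, rfl⟩
  rw [← hDdef] at hgrad
  have hD0 : 0 ≤ D := by
    rw [hDdef]
    exact div_nonneg L.2 (by linarith)
  have h3D : 3 * D = 6 * L / (r₂ - r₁) := by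
    rw [hDdef, hbdef]
    have h2 : (r₁ + r₂) / 2 - r₁ = (r₂ - r₁) / 2 := by ring
    rw [h2]
    field_simp
    ring
  -- the test function
  obtain ⟨ζ, hζdef⟩ : ∃ ζ : V n → ℝ, ζ = fun x => η x ^ 3 := ⟨_, rfl⟩
  have hζx : ∀ x, ζ x = η x ^ 3 := fun x => by rw [hζdef]
  have hζs : Function.support ζ ⊆ closedBall 0 b := by
    intro x hx
    refine hsupp (subset_tsupport _ ?_)
    intro h2
    apply hx
    rw [hζx, h2]
    norm_num
  have hζt : tsupport ζ ⊆ closedBall 0 b := closure_minimal hζs isClosed_closedBall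
  have hsub : closedBall (0 : V n) b ⊆ closedBall 0 r₂ := closedBall_subset_closedBall hb2.le
  have hζtest : IsTest Ω ζ := by
    refine ⟨?_, ?_, hζt.trans (hsub.trans hball)⟩
    · rw [hζdef]
      exact hη.pow 3
    · exact HasCompactSupport.of_support_subset_isCompact (isCompact_closedBall _ _) hζs
  have hζ0 : ∀ x ∉ closedBall (0 : V n) b, ζ x = 0 := by
    intro x hx
    by_contra h2
    exact hx (hζs h2)
  have hζg0 : ∀ x ∉ closedBall (0 : V n) b, ∇ ζ x = 0 := by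
    intro x hx
    rw [← norm_eq_zero, cacc_gnorm, fderiv_of_notMem_tsupport ℝ fun h => hx (hζt h), norm_zero]
  have hζg : ∀ x, ‖∇ ζ x‖ ≤ 3 * η x ^ 2 * D := by
    intro x
    rw [cacc_gnorm, hζdef]
    have h2 : fderiv ℝ (fun x => η x ^ 3) x = (3 * η x ^ 2) • fderiv ℝ η x := by
      have h4 := fderiv_fun_pow (𝕜 := ℝ) 3 ((hη.differentiable (by simp)) x)
      rw [h4]
      ext v
      simp
    rw [h2, norm_smul, Real.norm_of_nonneg (by positivity)]
    exact mul_le_mul_of_nonneg_left (hgrad x) (by positivity)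
  obtain ⟨hU, hΓ, hw⟩ := cutoff hΩ hs.grad hζtest c
  -- integrability
  set B := closedBall (0 : V n) r₂ with hBdef
  have hBc : IsCompact B := isCompact_closedBall _ _
  have hBm : MeasurableSet B := measurableSet_closedBall
  have hBv : volume B < ⊤ := hBc.measure_lt_top
  have hgB : AEStronglyMeasurable g (volume.restrict B) :=
    (hs.grad.2.1.integrableOn_compact_subset hball hBc).aestronglyMeasurable
  have huB : AEStronglyMeasurable u (volume.restrict B) :=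
    (hs.grad.1.integrableOn_compact_subset hball hBc).aestronglyMeasurable
  have hgp : ∫⁻ x in B, ‖g x‖ₑ ^ p < ⊤ := hs.loc_g B hball hBc
  have hucp : ∫⁻ x in B, ‖u x - c‖ₑ ^ p < ⊤ := cacc_uc hp c hBv (hs.loc_u B hball hBc)
  have hU0 : ∀ x ∉ closedBall (0 : V n) b, ζ x * (u x - c) = 0 := fun x hx => by
    rw [hζ0 x hx, zero_mul]
  have hΓ0 : ∀ x ∉ closedBall (0 : V n) b, ζ x • g x + (u x - c) • ∇ ζ x = 0 := fun x hx => by
    rw [hζ0 x hx, hζg0 x hx, zero_smul, smul_zero, add_zero]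
  have hζ1 : ∀ x, ζ x ≤ 1 := fun x => by
    rw [hζx]
    exact pow_le_one₀ (h0 x) (h1 x)
  have hζnn : ∀ x, 0 ≤ ζ x := fun x => by
    rw [hζx]
    exact pow_nonneg (h0 x) 3
  have hζgD : ∀ x, ‖∇ ζ x‖ ≤ 3 * D := by
    intro x
    refine (hζg x).trans ?_
    have h2 : η x ^ 2 ≤ 1 := pow_le_one₀ (h0 x) (h1 x)
    nlinarith
  have hΓp : ∫⁻ x, ‖ζ x • g x + (u x - c) • ∇ ζ x‖ₑ ^ p < ⊤ := by
    rw [cacc_compl hBm (fun x hx => by
      rw [hΓ0 x (fun h => hx (hsub h)), enorm_zero, ENNReal.zero_rpow_of_pos hp0])]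
    have h2 : ∀ x, ‖ζ x • g x + (u x - c) • ∇ ζ x‖ₑ ^ p ≤
        2 ^ (p - 1) * (‖g x‖ₑ ^ p + ENNReal.ofReal (3 * D) ^ p * ‖u x - c‖ₑ ^ p) := by
      intro x
      have h3 : ‖ζ x • g x‖ₑ ≤ ‖g x‖ₑ := by
        rw [enorm_smul]
        calc ‖ζ x‖ₑ * ‖g x‖ₑ ≤ 1 * ‖g x‖ₑ := by
              refine mul_le_mul_left ?_ _
              rw [← ofReal_norm, Real.norm_of_nonneg (hζnn x)]
              exact ENNReal.ofReal_le_one.mpr (hζ1 x)
          _ = ‖g x‖ₑ := one_mul _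
      have h4 : ‖(u x - c) • ∇ ζ x‖ₑ ≤ ENNReal.ofReal (3 * D) * ‖u x - c‖ₑ := by
        rw [enorm_smul, mul_comm]
        refine mul_le_mul_left ?_ _
        rw [← ofReal_norm]
        exact ENNReal.ofReal_le_ofReal (hζgD x)
      refine (ENNReal.rpow_le_rpow ((enorm_add_le _ _).trans (add_le_add h3 h4)) hp0.le).trans ?_
      refine (ENNReal.rpow_add_le_mul_rpow_add_rpow _ _ hp.le).trans (le_of_eq ?_)
      rw [ENNReal.mul_rpow_of_nonneg _ _ hp0.le]
    refine lt_of_le_of_lt (lintegral_mono h2) ?_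
    rw [lintegral_const_mul' _ _ (ENNReal.rpow_ne_top_of_nonneg (by linarith) (by simp)),
      lintegral_add_left' (hgB.enorm.pow_const _),
      lintegral_const_mul' _ _ (ENNReal.rpow_ne_top_of_nonneg hp0.le ENNReal.ofReal_ne_top)]
    refine ENNReal.mul_lt_top (ENNReal.rpow_lt_top_of_nonneg (by linarith) (by simp)) ?_
    refine ENNReal.add_lt_top.mpr ⟨hgp, ENNReal.mul_lt_top ?_ hucp⟩
    exact ENNReal.rpow_lt_top_of_nonneg hp0.le ENNReal.ofReal_ne_top
  have hF0 := cacc_eqn hp hs hb0 hb2 hball hU hΓ hU0 hΓ0 hw hΓp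
  have hFi := (cacc_pair hp hgB hgp hΓ.aestronglyMeasurable.restrict
    (lt_of_le_of_lt (setLIntegral_le_lintegral _ _) hΓp)
    (fun x hx => hΓ0 x fun h => hx (hsub h))).1
  -- the two other functions
  have hgi : IntegrableOn (fun x => ‖g x‖ ^ p) B := by
    refine ⟨(hgB.norm.aemeasurable.pow_const _).aestronglyMeasurable, ?_⟩
    unfold HasFiniteIntegral
    refine lt_of_le_of_lt (le_of_eq (lintegral_congr fun x => ?_)) hgp
    rw [← ofReal_norm, Real.norm_of_nonneg (by positivity), ← ofReal_norm,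
      ENNReal.ofReal_rpow_of_nonneg (norm_nonneg _) hp0.le]
  have hui : IntegrableOn (fun x => ‖u x - c‖ ^ p) B := by
    refine ⟨((huB.sub aestronglyMeasurable_const).norm.aemeasurable.pow_const
      _).aestronglyMeasurable, ?_⟩
    unfold HasFiniteIntegral
    refine lt_of_le_of_lt (le_of_eq (lintegral_congr fun x => ?_)) hucp
    rw [← ofReal_norm, Real.norm_of_nonneg (by positivity), ← ofReal_norm,
      ENNReal.ofReal_rpow_of_nonneg (norm_nonneg _) hp0.le]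
  have hζc : Continuous ζ := hζtest.1.continuous
  have hf1 : Integrable (fun x => ζ x * ‖g x‖ ^ p) := by
    have h2 : IntegrableOn (fun x => ζ x * ‖g x‖ ^ p) B := by
      refine Integrable.bdd_mul (c := 1) hgi hζc.aestronglyMeasurable ?_
      refine Eventually.of_forall fun x => ?_
      rw [Real.norm_of_nonneg (hζnn x)]
      exact hζ1 x
    refine (integrableOn_iff_integrable_of_support_subset ?_).mp h2
    intro x hx
    by_contra h3
    apply hx
    change ζ x * ‖g x‖ ^ p = 0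
    rw [hζ0 x (fun h => h3 (hsub h)), zero_mul]
  have hbm : MeasurableSet (ball (0 : V n) r₂) := measurableSet_ball
  have hf2 : Integrable ((ball (0 : V n) r₂).indicator fun x => ‖u x - c‖ ^ p) :=
    (integrable_indicator_iff hbm).mpr (hui.mono_set ball_subset_closedBall)
  have hpt : ∀ x, ζ x * ‖g x‖ ^ p ≤
      ‖g x‖ ^ (p - 2) * ⟪ζ x • g x + (u x - c) • ∇ ζ x, g x⟫ +
      (((p - 1) / p) * (ζ x * ‖g x‖ ^ p) +
        ((1 / p) * (3 * D) ^ p) * (ball (0 : V n) r₂).indicator (fun x => ‖u x - c‖ ^ p) x) := by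
    intro x
    by_cases hx : x ∈ closedBall (0 : V n) b
    · have hx2 : x ∈ ball (0 : V n) r₂ := by
        rw [mem_closedBall_zero_iff] at hx
        rw [mem_ball_zero_iff]
        linarith
      rw [indicator_of_mem hx2]
      have h2 : ‖g x‖ ^ (p - 2) * ⟪ζ x • g x + (u x - c) • ∇ ζ x, g x⟫ =
          ζ x * ‖g x‖ ^ p + ‖g x‖ ^ (p - 2) * ((u x - c) * ⟪∇ ζ x, g x⟫) := by
        rw [inner_add_left, real_inner_smul_left, real_inner_smul_left,
          real_inner_self_eq_norm_sq, ← cacc_pow' (norm_nonneg (g x)) hp]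
        ring
      have h3 : -(‖g x‖ ^ (p - 2) * ((u x - c) * ⟪∇ ζ x, g x⟫)) ≤
          ‖g x‖ ^ (p - 1) * ‖u x - c‖ * (3 * η x ^ 2 * D) := by
        refine (neg_le_abs _).trans ?_
        rw [abs_mul, abs_mul, abs_of_nonneg (Real.rpow_nonneg (norm_nonneg _) _),
          ← cacc_pow (norm_nonneg (g x)) hp, ← Real.norm_eq_abs (u x - c)]
        have h4 : |⟪∇ ζ x, g x⟫| ≤ 3 * η x ^ 2 * D * ‖g x‖ :=
          (abs_real_inner_le_norm _ _).trans
            (mul_le_mul_of_nonneg_right (hζg x) (norm_nonneg _))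
        calc ‖g x‖ ^ (p - 2) * (‖u x - c‖ * |⟪∇ ζ x, g x⟫|)
            ≤ ‖g x‖ ^ (p - 2) * (‖u x - c‖ * (3 * η x ^ 2 * D * ‖g x‖)) := by
              refine mul_le_mul_of_nonneg_left ?_ (Real.rpow_nonneg (norm_nonneg _) _)
              exact mul_le_mul_of_nonneg_left h4 (norm_nonneg _)
          _ = _ := by ring
      have h5 := cacc_young (h0 x) (h1 x) (norm_nonneg (g x)) (norm_nonneg (u x - c)) hD0 hp hp3
        rfl
      rw [← hζx] at h5
      rw [h2]
      have h6 := h3.trans h5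
      have h7 : 1 / p * ((3 * D) ^ p * ‖u x - c‖ ^ p) = 1 / p * (3 * D) ^ p * ‖u x - c‖ ^ p := by
        ring
      rw [h7] at h6
      linarith
    · have h2 : 0 ≤ (ball (0 : V n) r₂).indicator (fun x => ‖u x - c‖ ^ p) x :=
        indicator_nonneg (fun y _ => Real.rpow_nonneg (norm_nonneg _) _) x
      rw [hΓ0 x hx, hζ0 x hx, inner_zero_left]
      have h3 : 0 ≤ (1 / p) * (3 * D) ^ p *
          (ball (0 : V n) r₂).indicator (fun x => ‖u x - c‖ ^ p) x := by positivity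
      linarith
  have hint := integral_mono hf1 (hFi.add ((hf1.const_mul _).add (hf2.const_mul _))) hpt
  rw [integral_add' hFi ((hf1.const_mul _).add (hf2.const_mul _)), hF0, zero_add,
    integral_add' (hf1.const_mul _) (hf2.const_mul _), integral_const_mul,
    integral_const_mul] at hint
  have hX : ∫ x, ζ x * ‖g x‖ ^ p ≤
      (3 * D) ^ p * ∫ x, (ball (0 : V n) r₂).indicator (fun x => ‖u x - c‖ ^ p) x := by
    have h2 : ((1 : ℝ) - (p - 1) / p) = 1 / p := by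
      field_simp
      ring
    have h3 : (1 / p) * ∫ x, ζ x * ‖g x‖ ^ p ≤
        (1 / p) * ((3 * D) ^ p *
          ∫ x, (ball (0 : V n) r₂).indicator (fun x => ‖u x - c‖ ^ p) x) := by
      rw [← h2]
      rw [← h2] at hint
      nlinarith [hint]
    exact le_of_mul_le_mul_left h3 (by positivity)
  -- conclusion
  have hlhs : ∫⁻ x in ball (0 : V n) r₁, ‖g x‖ₑ ^ p ≤ ENNReal.ofReal (∫ x, ζ x * ‖g x‖ ^ p) := by
    rw [ofReal_integral_eq_lintegral_ofReal hf1
      (Eventually.of_forall fun x => mul_nonneg (hζnn x) (by positivity))]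
    refine le_trans (le_of_eq ?_) (setLIntegral_le_lintegral (ball (0 : V n) r₁) _)
    refine setLIntegral_congr_fun measurableSet_ball fun x hx => ?_
    change ‖g x‖ₑ ^ p = ENNReal.ofReal (ζ x * ‖g x‖ ^ p)
    rw [hζx, hone x hx, one_pow, one_mul, ← ofReal_norm,
      ENNReal.ofReal_rpow_of_nonneg (norm_nonneg _) hp0.le]
  have hrhs : ENNReal.ofReal (∫ x, (ball (0 : V n) r₂).indicator (fun x => ‖u x - c‖ ^ p) x) =
      ∫⁻ x in ball (0 : V n) r₂, ‖u x - c‖ₑ ^ p := by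
    rw [integral_indicator hbm, ofReal_integral_eq_lintegral_ofReal
      (hui.mono_set ball_subset_closedBall)
      (Eventually.of_forall fun x => Real.rpow_nonneg (norm_nonneg _) _)]
    refine lintegral_congr fun x => ?_
    rw [← ofReal_norm, ENNReal.ofReal_rpow_of_nonneg (norm_nonneg _) hp0.le]
  refine hlhs.trans ?_
  rw [← hrhs, ← h3D, ← ENNReal.ofReal_mul (by positivity)]
  exact ENNReal.ofReal_le_ofReal hX

end Pool.Agent.Helper20.PN
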