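import Pool.Agent.Helper20.PN.Defs

/-! Further definitions for the project PN: weighted means and variances, the state at one
scale. -/

open MeasureTheory Metric Set
open scoped ENNReal NNReal

namespace Pool.Agent.Helper20.PN

/-- Weighted mean of `f` on the ball of radius `r` about the origin. -/
noncomputable def mn {n : ℕ} (r : ℝ) (f : V n → ℝ) : ℝ :=
  (∫ z, wt z * f (r • z)) / ∫ z, wt (n := n) z

/-- Weighted variance of `f` on the ball of radius `r` about the origin. -/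
noncomputable def G {n : ℕ} (r : ℝ) (f : V n → ℝ) : ℝ := A r (fun x => f x - mn r f)

/-- `h` is a harmonic approximation of `u` in the ball of radius 2, with constant `C`. -/
structure Approx {n : ℕ} (C p : ℝ) (u h : V n → ℝ) : Prop where
  memu : MemLp u 2 (volume.restrict (ball 0 2))
  harm : IsWHarm h
  small : ∫ x in ball 0 2, (u x - h x) ^ 2 ≤ (C * |p - 2|) ^ 2
  small_p : ∀ t : ℝ, 0 < t → t < 2 → ∫⁻ x in ball 0 t, ‖u x - h x‖ₑ ^ p ≤
    ENNReal.ofReal (C / (2 - t) ^ (3 * n + 3) * |p - 2|)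
  osc : ∃ c : ℝ, ∀ t : ℝ, 0 < t → t < 2 → ∫ x in ball 0 t, (u x - c) ^ 2 ≤ (C / (2 - t)) ^ 2

/-- The state at one scale. -/
def Good {n : ℕ} (ε M D p : ℝ) (u : V n → ℝ) (g : V n → V n) : Prop :=
  0 < G (2 / (1 + ε)) u ∧ G (2 / (1 + ε)) u ≤ M * G (2 / (1 + ε) ^ 5) u ∧
    ∫⁻ x in ball 0 2, ‖g x‖ₑ ^ p ≤ ENNReal.ofReal (D * G (2 / (1 + ε)) u ^ (p / 2))

end Pool.Agent.Helper20.PN
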