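import Pool.Agent.Helper20.PN.Sob
import Pool.Agent.Helper20.PN.Cacc
import Pool.Agent.Helper20.PN.Defs2

/-! PN-14: the local Sobolev inequality with general radii. -/

set_option autoImplicit false

open MeasureTheory Metric Set Filter
open scoped ENNReal NNReal ContDiff Topology Gradient

namespace Pool.Agent.Helper20.PN

/-- The local Sobolev inequality. -/
theorem sobolev_loc_gen (n : ℕ) (hn : 3 ≤ n) : ∃ C : ℝ, 0 < C ∧ ∀ (Ω : Set (V n))
    (u : V n → ℝ) (g : V n → V n), IsOpen Ω → closedBall 0 2 ⊆ Ω → IsWeakGrad Ω u g →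
    (∀ K ⊆ Ω, IsCompact K → ∫⁻ x in K, ‖u x‖ₑ ^ s0 n < ⊤) →
    (∀ K ⊆ Ω, IsCompact K → ∫⁻ x in K, ‖g x‖ₑ ^ s0 n < ⊤) →
    ∀ c r : ℝ, 0 < r → r < 2 → nrm (q0 n) (ball 0 r) (fun x => u x - c) ≤
      ENNReal.ofReal (C / (2 - r)) *
        (nrm (s0 n) (ball 0 2) g + nrm (s0 n) (ball 0 2) (fun x => u x - c)) := by
  have hs := sob_s0 hn
  have hq := sob_q0 hn
  have hs0 : 0 < s0 n := by linarith
  have hq0 : 0 < q0 n := by linarith
  obtain ⟨C, hC⟩ := sobolev_cpt n hn
  obtain ⟨L, hL1, hL⟩ := cacc_lip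
  have hL1' : (1 : ℝ) ≤ L := by exact_mod_cast hL1
  refine ⟨2 * L * (C + 1), by positivity, ?_⟩
  intro Ω u g hΩ hB hw hu _ c r hr hr2
  obtain ⟨η, η1, η2, η3, η4, η5, η6⟩ := cacc_eta (n := n) hL (a := r) (b := (r + 2) / 2) hr
    (by linarith)
  have hb : (r + 2) / 2 < 2 := by linarith
  have hcp : HasCompactSupport η :=
    (isCompact_closedBall (0 : V n) ((r + 2) / 2)).of_isClosed_subset (isClosed_tsupport _) η5
  have hηt : IsTest Ω η := ⟨η1, hcp,
    η5.trans ((closedBall_subset_closedBall hb.le).trans hB)⟩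
  have hM0 : (0 : ℝ) ≤ L / ((r + 2) / 2 - r) := by
    apply div_nonneg L.2
    linarith
  obtain ⟨h1, -⟩ := sob_cut hn hC hΩ hw hu hηt (M := Real.toNNReal (L / ((r + 2) / 2 - r)))
    (fun x => by rw [Real.norm_of_nonneg (η2 x)]; exact η3 x)
    (fun x => by rw [cacc_gnorm, Real.coe_toNNReal _ hM0]; exact η6 x) c
  have hsub : tsupport η ⊆ ball 0 2 := η5.trans (closedBall_subset_ball hb)
  have h2r : 0 < 2 - r := by linarith
  have hMe : (L : ℝ) / ((r + 2) / 2 - r) = 2 * L / (2 - r) := by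
    rw [show (r + 2) / 2 - r = (2 - r) / 2 by ring]
    field_simp
  set N1 := nrm (s0 n) (ball 0 2) g with hN1
  set N2 := nrm (s0 n) (ball 0 2) (fun x => u x - c) with hN2
  have e1 : ((Real.toNNReal (L / ((r + 2) / 2 - r)) : ℝ≥0) : ℝ≥0∞) =
      ENNReal.ofReal (2 * L / (2 - r)) := by
    rw [← hMe]
    rfl
  have e2 : (1 : ℝ≥0∞) ≤ ENNReal.ofReal (2 * L / (2 - r)) := by
    rw [ENNReal.one_le_ofReal, le_div_iff₀ h2r]
    linarith
  calc nrm (q0 n) (ball 0 r) (fun x => u x - c)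
      = nrm (q0 n) (ball 0 r) (fun x => η x * (u x - c)) := by
        unfold nrm
        congr 1
        refine setLIntegral_congr_fun measurableSet_ball fun x hx => ?_
        simp only [η4 x hx, one_mul]
    _ ≤ nrm (q0 n) univ (fun x => η x * (u x - c)) := sob_nrm_mono hq0 (subset_univ _) _
    _ ≤ _ := h1
    _ ≤ C * (N1 + ENNReal.ofReal (2 * L / (2 - r)) * N2) := by
        rw [e1]
        gcongr <;> exact sob_nrm_mono hs0 hsub _
    _ ≤ C * (ENNReal.ofReal (2 * L / (2 - r)) * N1 + ENNReal.ofReal (2 * L / (2 - r)) * N2) := by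
        gcongr
        exact le_mul_of_one_le_left zero_le e2
    _ = ENNReal.ofReal (2 * L / (2 - r)) * C * (N1 + N2) := by ring
    _ ≤ ENNReal.ofReal (2 * L * (C + 1) / (2 - r)) * (N1 + N2) := by
        gcongr
        rw [← ENNReal.ofReal_coe_nnreal (p := C), ← ENNReal.ofReal_mul (by positivity)]
        refine ENNReal.ofReal_le_ofReal ?_
        rw [div_mul_eq_mul_div]
        refine div_le_div_of_nonneg_right ?_ h2r.le
        have : (0 : ℝ) ≤ L := L.2
        nlinarith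
    _ = _ := rfl

end Pool.Agent.Helper20.PN
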