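import Pool.Agent.Helper20.PN.Defs

/-! Mollification of weakly harmonic functions (PN-1b). -/

open MeasureTheory Metric Set Filter
open scoped ENNReal NNReal ContDiff Topology Gradient Convolution

namespace Pool.Agent.Helper20.PN

/-- Smoothness of derivatives. -/
private theorem mollH_contDiff_pd {n : ℕ} (i : Fin n) {f : V n → ℝ} (hf : ContDiff ℝ ∞ f) :
    ContDiff ℝ ∞ (pd i f) := by
  unfold pd
  exact (hf.fderiv_right (m := ∞) (by simp)).clm_apply contDiff_const

private theorem mollH_tsupport_pd {n : ℕ} (i : Fin n) (f : V n → ℝ) :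
    tsupport (pd i f) ⊆ tsupport f := by
  refine closure_minimal ?_ (isClosed_tsupport f)
  intro x hx
  refine support_fderiv_subset ℝ (f := f) ?_
  intro h0
  apply hx
  simp [pd, h0]

private theorem mollH_cpt_pd {n : ℕ} (i : Fin n) {f : V n → ℝ} (hf : HasCompactSupport f) :
    HasCompactSupport (pd i f) :=
  hf.of_isClosed_subset (isClosed_tsupport _) (mollH_tsupport_pd i f)

private theorem mollH_pd_sub {n : ℕ} (i : Fin n) {f : V n → ℝ} (hf : ContDiff ℝ ∞ f) (x y : V n) :
    pd i (fun z => f (x - z)) y = - pd i f (x - y) := by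
  unfold pd
  have h1 : HasFDerivAt (fun z : V n => x - z) (-ContinuousLinearMap.id ℝ (V n)) y :=
    (hasFDerivAt_id y).const_sub x
  have h2 : HasFDerivAt f (fderiv ℝ f (x - y)) (x - y) :=
    ((hf.differentiable (by simp)) (x - y)).hasFDerivAt
  have h3 := (h2.comp y h1).fderiv
  have h4 : (f ∘ fun z : V n => x - z) = fun z => f (x - z) := rfl
  rw [h4] at h3
  rw [h3]
  simp

private theorem mollH_lap_sub {n : ℕ} {f : V n → ℝ} (hf : ContDiff ℝ ∞ f) (x y : V n) :
    lap (fun z => f (x - z)) y = lap f (x - y) := by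
  unfold lap
  refine Finset.sum_congr rfl fun i _ => ?_
  have h1 : pd i (fun z => f (x - z)) = fun z => (-pd i f) (x - z) := by
    funext z
    rw [mollH_pd_sub i hf]
    rfl
  rw [h1, mollH_pd_sub i (f := -pd i f) (mollH_contDiff_pd i hf).neg]
  have h2 : pd i (-pd i f) (x - y) = - pd i (pd i f) (x - y) := by
    simp [pd, fderiv_neg]
  rw [h2, neg_neg]

private theorem mollH_pd_conv {n : ℕ} (i : Fin n) {F g : V n → ℝ}
    (hF : LocallyIntegrable F volume) (hg : ContDiff ℝ ∞ g) (hc : HasCompactSupport g) :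
    pd i (F ⋆[ContinuousLinearMap.mul ℝ ℝ, volume] g) =
      F ⋆[ContinuousLinearMap.mul ℝ ℝ, volume] (pd i g) := by
  funext x
  unfold pd
  have h := hc.hasFDerivAt_convolution_right (ContinuousLinearMap.mul ℝ ℝ) hF
    (hg.of_le (by simp)) x
  rw [h.fderiv, convolution_precompR_apply (ContinuousLinearMap.mul ℝ ℝ) hF (hc.fderiv ℝ)
    (hg.continuous_fderiv (by simp))]

private theorem mollH_lap_conv {n : ℕ} {F g : V n → ℝ}
    (hF : LocallyIntegrable F volume) (hg : ContDiff ℝ ∞ g) (hc : HasCompactSupport g) (x : V n) :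
    lap (F ⋆[ContinuousLinearMap.mul ℝ ℝ, volume] g) x =
      ∫ y, F y * lap (fun z => g (x - z)) y := by
  unfold lap
  have h1 : ∀ i : Fin n, pd i (pd i (F ⋆[ContinuousLinearMap.mul ℝ ℝ, volume] g)) x =
      ∫ y, F y * pd i (pd i fun z => g (x - z)) y := by
    intro i
    rw [mollH_pd_conv i hF hg hc, mollH_pd_conv i hF (mollH_contDiff_pd i hg) (mollH_cpt_pd i hc),
      convolution_def]
    refine integral_congr_ae (ae_of_all _ fun y => ?_)
    have h2 : pd i (fun z => g (x - z)) = fun z => (-pd i g) (x - z) := by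
      funext z
      rw [mollH_pd_sub i hg]
      rfl
    have h3 : pd i (pd i fun z => g (x - z)) y = pd i (pd i g) (x - y) := by
      rw [h2, mollH_pd_sub i (f := -pd i g) (mollH_contDiff_pd i hg).neg]
      have h4 : pd i (-pd i g) (x - y) = - pd i (pd i g) (x - y) := by
        simp [pd, fderiv_neg]
      rw [h4, neg_neg]
    simp only [ContinuousLinearMap.mul_apply']
    rw [h3]
  rw [Finset.sum_congr rfl fun i _ => h1 i, ← integral_finsetSum]
  · refine integral_congr_ae (ae_of_all _ fun y => ?_)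
    simp only [Finset.mul_sum]
  · intro i _
    have h5 : HasCompactSupport (fun z => g (x - z)) :=
      hc.comp_homeomorph (Homeomorph.subLeft x)
    have h6 : ContDiff ℝ ∞ (fun z => g (x - z)) := hg.comp (contDiff_const.sub contDiff_id)
    have h7 := mollH_contDiff_pd i (mollH_contDiff_pd i h6)
    have h8 := mollH_cpt_pd i (mollH_cpt_pd i h5)
    have h9 := hF.integrable_smul_left_of_hasCompactSupport h7.continuous h8
    refine h9.congr (ae_of_all _ fun y => ?_)
    simp [mul_comm]

/-- Continuity of translations in the mean of order two. -/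
private theorem mollH_trans {n : ℕ} {F : V n → ℝ} (hF : MemLp F 2 (volume : Measure (V n)))
    {ε : ℝ≥0∞} (hε : 0 < ε) : ∃ δ : ℝ, 0 < δ ∧ ∀ t : V n, ‖t‖ < δ →
      ∫⁻ x, ‖F (x - t) - F x‖ₑ ^ (2 : ℝ) ≤ ε := by
  set f : Lp ℝ 2 (volume : Measure (V n)) := hF.toLp F with hf
  have hg : Continuous fun c : V n => (⟨fun x : V n => x - c, by fun_prop⟩ : C(V n, V n)) := by
    refine ContinuousMap.continuous_of_continuous_uncurry _ ?_
    change Continuous fun p : V n × V n => p.2 - p.1
    fun_prop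
  have hcont : Continuous fun c : V n =>
      Lp.compMeasurePreserving (p := 2) (fun x : V n => x - c)
        (measurePreserving_sub_right volume c) f :=
    Continuous.compMeasurePreservingLp (f := fun _ : V n => f) continuous_const hg
      (fun c => measurePreserving_sub_right volume c) (by norm_num)
  have hε2 : 0 < ε ^ (1 / 2 : ℝ) := ENNReal.rpow_pos_of_nonneg hε (by norm_num)
  have h0 := EMetric.tendsto_nhds.1 (hcont.tendsto 0) _ hε2
  obtain ⟨δ, hδ, hb⟩ := Metric.eventually_nhds_iff.1 h0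
  refine ⟨δ, hδ, fun t ht => ?_⟩
  have h1 := hb (y := t) (by simpa [dist_zero_right] using ht)
  rw [Lp.edist_def] at h1
  have h2 : (⇑(Lp.compMeasurePreserving (p := 2) (fun x : V n => x - t)
      (measurePreserving_sub_right volume t) f) -
      ⇑(Lp.compMeasurePreserving (p := 2) (fun x : V n => x - 0)
      (measurePreserving_sub_right volume 0) f)) =ᵐ[volume] fun x => F (x - t) - F x := by
    have e1 := Lp.coeFn_compMeasurePreserving f (measurePreserving_sub_right volume t)
    have e2 := Lp.coeFn_compMeasurePreserving f (measurePreserving_sub_right volume (0 : V n))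
    have e3 : (⇑f ∘ fun x : V n => x - t) =ᵐ[volume] fun x => F (x - t) :=
      (measurePreserving_sub_right volume t).quasiMeasurePreserving.ae_eq_comp
        (MemLp.coeFn_toLp hF)
    have e4 : (⇑f ∘ fun x : V n => x - 0) =ᵐ[volume] fun x => F (x - 0) :=
      (measurePreserving_sub_right volume (0 : V n)).quasiMeasurePreserving.ae_eq_comp
        (MemLp.coeFn_toLp hF)
    filter_upwards [e1, e2, e3, e4] with x a1 a2 a3 a4
    simp only [Pi.sub_apply]
    rw [a1, a2, a3, a4, sub_zero]
  rw [eLpNorm_congr_ae h2, eLpNorm_eq_lintegral_rpow_enorm_toReal (by norm_num) (by norm_num)] at h1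
  have h3 : ((2 : ℝ≥0∞)).toReal = 2 := by norm_num
  rw [h3] at h1
  have h4 := (ENNReal.rpow_lt_rpow_iff (z := 2) (by norm_num)).2 h1
  rw [← ENNReal.rpow_mul, ← ENNReal.rpow_mul] at h4
  norm_num at h4
  simpa using h4.le

/-- Convergence of mollifications in the mean of order two. -/
private theorem mollH_conv {n : ℕ} {F : V n → ℝ} (hFm : Measurable F)
    (hF : MemLp F 2 (volume : Measure (V n))) (hFi : LocallyIntegrable F volume)
    {ε : ℝ≥0∞} (hε : 0 < ε) : ∃ δ : ℝ, 0 < δ ∧ ∀ b : ContDiffBump (0 : V n), b.rOut < δ →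
      ∫⁻ x, ‖(F ⋆[ContinuousLinearMap.mul ℝ ℝ, volume] b.normed volume) x - F x‖ₑ ^ (2 : ℝ) ≤
        ε := by
  obtain ⟨δ, hδ, ht⟩ := mollH_trans hF hε
  refine ⟨δ, hδ, fun b hb => ?_⟩
  set r : V n → ℝ := b.normed volume with hr
  have hrc : Continuous r := b.continuous_normed
  have hrs : HasCompactSupport r := b.hasCompactSupport_normed
  have hri : Integrable r volume := b.integrable_normed
  have hr1 : ∫ x, r x = 1 := b.integral_normed
  have hr0 : ∀ x, 0 ≤ r x := fun x => b.nonneg_normed x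
  have hr2 : ∫⁻ x, ‖r x‖ₑ = 1 := by
    have h := ofReal_integral_norm_eq_lintegral_enorm hri
    rw [← h]
    have h' : ∀ x, ‖r x‖ = r x := fun x => by rw [Real.norm_of_nonneg (hr0 x)]
    simp only [h', hr1]
    simp
  have hrm : Measurable fun s => ‖r s‖ₑ := hrc.measurable.enorm
  have hpt : ∀ x, ‖(F ⋆[ContinuousLinearMap.mul ℝ ℝ, volume] r) x - F x‖ₑ ^ (2 : ℝ) ≤
      ∫⁻ s, ‖F (x - s) - F x‖ₑ ^ (2 : ℝ) * ‖r s‖ₑ := by
    intro x
    have hex : Integrable (fun s => F (x - s) * r s) volume := by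
      have h := hrs.convolutionExists_right (ContinuousLinearMap.mul ℝ ℝ) hFi hrc x
      have h' := (convolutionExistsAt_iff_integrable_swap (L := ContinuousLinearMap.mul ℝ ℝ)).1 h
      simpa using h'
    have e1 : (F ⋆[ContinuousLinearMap.mul ℝ ℝ, volume] r) x - F x =
        ∫ s, (F (x - s) - F x) * r s := by
      rw [convolution_eq_swap]
      simp only [ContinuousLinearMap.mul_apply']
      have e2 : F x = ∫ s, F x * r s := by
        rw [integral_const_mul, hr1, mul_one]
      conv_lhs => rw [e2]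
      rw [← integral_sub hex (hri.const_mul _)]
      refine integral_congr_ae (ae_of_all _ fun s => ?_)
      simp only []
      ring
    rw [e1]
    have e3 : ‖∫ s, (F (x - s) - F x) * r s‖ₑ ≤ ∫⁻ s, ‖F (x - s) - F x‖ₑ * ‖r s‖ₑ := by
      refine (enorm_integral_le_lintegral_enorm _).trans (le_of_eq ?_)
      refine lintegral_congr fun s => ?_
      rw [enorm_mul]
    have hm : Measurable fun s => ‖F (x - s) - F x‖ₑ := by
      exact ((hFm.comp (measurable_const.sub measurable_id)).sub measurable_const).enorm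
    have e4 : ∫⁻ s, ‖F (x - s) - F x‖ₑ * ‖r s‖ₑ ≤
        (∫⁻ s, ‖F (x - s) - F x‖ₑ ^ (2 : ℝ) * ‖r s‖ₑ) ^ (1 / 2 : ℝ) := by
      have h := ENNReal.lintegral_mul_le_Lp_mul_Lq volume Real.HolderConjugate.two_two
        (f := fun s => ‖F (x - s) - F x‖ₑ * ‖r s‖ₑ ^ (1 / 2 : ℝ))
        (g := fun s => ‖r s‖ₑ ^ (1 / 2 : ℝ)) (hm.mul (hrm.pow_const _)).aemeasurable
        (hrm.pow_const _).aemeasurable
      have a1 : ∀ s, ((fun s => ‖F (x - s) - F x‖ₑ * ‖r s‖ₑ ^ (1 / 2 : ℝ)) *
          fun s => ‖r s‖ₑ ^ (1 / 2 : ℝ)) s = ‖F (x - s) - F x‖ₑ * ‖r s‖ₑ := by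
        intro s
        simp only [Pi.mul_apply]
        rw [mul_assoc, ← ENNReal.rpow_add_of_nonneg _ _ (by norm_num) (by norm_num)]
        norm_num
      have a2 : ∀ s, (‖r s‖ₑ ^ (1 / 2 : ℝ)) ^ (2 : ℝ) = ‖r s‖ₑ := by
        intro s
        rw [← ENNReal.rpow_mul]
        norm_num
      have a3 : ∀ s, (‖F (x - s) - F x‖ₑ * ‖r s‖ₑ ^ (1 / 2 : ℝ)) ^ (2 : ℝ) =
          ‖F (x - s) - F x‖ₑ ^ (2 : ℝ) * ‖r s‖ₑ := by
        intro s
        rw [ENNReal.mul_rpow_of_nonneg _ _ (by norm_num), a2]
      simp only [a1, a2, a3, hr2, ENNReal.one_rpow, mul_one] at h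
      exact h
    calc ‖∫ s, (F (x - s) - F x) * r s‖ₑ ^ (2 : ℝ)
        ≤ ((∫⁻ s, ‖F (x - s) - F x‖ₑ ^ (2 : ℝ) * ‖r s‖ₑ) ^ (1 / 2 : ℝ)) ^ (2 : ℝ) :=
          ENNReal.rpow_le_rpow (e3.trans e4) (by norm_num)
      _ = _ := by
          rw [← ENNReal.rpow_mul]
          norm_num
  calc ∫⁻ x, ‖(F ⋆[ContinuousLinearMap.mul ℝ ℝ, volume] r) x - F x‖ₑ ^ (2 : ℝ)
      ≤ ∫⁻ x, ∫⁻ s, ‖F (x - s) - F x‖ₑ ^ (2 : ℝ) * ‖r s‖ₑ := lintegral_mono hpt
    _ = ∫⁻ s, ∫⁻ x, ‖F (x - s) - F x‖ₑ ^ (2 : ℝ) * ‖r s‖ₑ := by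
        refine lintegral_lintegral_swap ?_
        refine Measurable.aemeasurable ?_
        have b1 : Measurable fun z : V n × V n => F (z.1 - z.2) - F z.1 :=
          (hFm.comp (measurable_fst.sub measurable_snd)).sub (hFm.comp measurable_fst)
        exact (b1.enorm.pow_const _).mul (hrm.comp measurable_snd)
    _ ≤ ∫⁻ s, ε * ‖r s‖ₑ := by
        refine lintegral_mono fun s => ?_
        by_cases hs : ‖s‖ < δ
        · rw [lintegral_mul_const _ ?_]
          · gcongr
            exact ht s hs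
          · exact (((hFm.comp (measurable_id.sub measurable_const)).sub hFm).enorm.pow_const _)
        · have : r s = 0 := by
            have h1 : s ∉ Function.support r := by
              rw [hr, b.support_normed_eq]
              intro h2
              rw [mem_ball_zero_iff] at h2
              exact hs (h2.trans hb)
            simpa using h1
          simp [this]
    _ = ε := by
        rw [lintegral_const_mul _ hrm, hr2, mul_one]

/-- Mollification of a weakly harmonic function. -/
theorem exists_moll_harm {n : ℕ} {h : V n → ℝ} (hh : IsWHarm h) :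
    ∃ φ : ℕ → V n → ℝ, (∀ k, ContDiff ℝ ∞ (φ k)) ∧
      (∀ k : ℕ, ∀ x ∈ ball (0 : V n) (2 - 1 / ((k : ℝ) + 1)), lap (φ k) x = 0) ∧
      Tendsto (fun k => ∫⁻ x in ball 0 2, ‖φ k x - h x‖ₑ ^ (2 : ℝ)) atTop (𝓝 0) := by
  obtain ⟨hL, hw⟩ := hh
  have hI : MemLp ((ball (0 : V n) 2).indicator h) 2 volume :=
    (memLp_indicator_iff_restrict measurableSet_ball).2 hL
  set G := (ball (0 : V n) 2).indicator h with hG
  set F : V n → ℝ := hI.aestronglyMeasurable.mk G with hFdef
  have hFG : G =ᵐ[volume] F := hI.aestronglyMeasurable.ae_eq_mk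
  have hFm : Measurable F := hI.aestronglyMeasurable.stronglyMeasurable_mk.measurable
  have hF2 : MemLp F 2 volume := hI.ae_eq hFG
  have hFi : LocallyIntegrable F volume := hF2.locallyIntegrable (by norm_num)
  let b : ℕ → ContDiffBump (0 : V n) := fun k =>
    ⟨1 / (2 * ((k : ℝ) + 1)), 1 / ((k : ℝ) + 1), by positivity, by
      apply one_div_lt_one_div_of_lt (by positivity)
      have : (0 : ℝ) < (k : ℝ) + 1 := by positivity
      linarith⟩
  refine ⟨fun k => F ⋆[ContinuousLinearMap.mul ℝ ℝ, volume] (b k).normed volume, ?_, ?_, ?_⟩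
  · intro k
    exact (b k).hasCompactSupport_normed.contDiff_convolution_right _ hFi
      ((b k).contDiff_normed (n := ⊤))
  · intro k x hx
    have hbs : ContDiff ℝ ∞ ((b k).normed (volume : Measure (V n))) :=
      (b k).contDiff_normed (n := ⊤)
    rw [mollH_lap_conv hFi hbs (b k).hasCompactSupport_normed]
    set ψ : V n → ℝ := fun z => (b k).normed volume (x - z) with hψ
    have hts : tsupport ψ ⊆ ball 0 2 := by
      have h1 : tsupport ψ ⊆ closedBall x (1 / ((k : ℝ) + 1)) := by
        refine closure_minimal ?_ isClosed_closedBall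
        intro z hz
        have h2 : x - z ∈ Function.support ((b k).normed volume) := hz
        rw [(b k).support_normed_eq, mem_ball_zero_iff] at h2
        rw [mem_closedBall, dist_comm, dist_eq_norm]
        exact h2.le
      refine h1.trans fun z hz => ?_
      rw [mem_closedBall, dist_eq_norm] at hz
      rw [mem_ball_zero_iff] at hx ⊢
      have h3 : ‖z‖ ≤ ‖z - x‖ + ‖x‖ := by
        have := norm_add_le (z - x) x
        simpa using this
      linarith
    have htest : IsTest (ball 0 2) ψ := by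
      refine ⟨hbs.comp (contDiff_const.sub contDiff_id), ?_, hts⟩
      exact (b k).hasCompactSupport_normed.comp_homeomorph (Homeomorph.subLeft x)
    have h4 := hw ψ htest
    rw [← h4]
    refine integral_congr_ae ?_
    filter_upwards [hFG] with y hy
    rw [← hy, hG]
    by_cases hyb : y ∈ ball (0 : V n) 2
    · rw [indicator_of_mem hyb]
    · have h5 : lap ψ y = 0 := by
        unfold lap
        refine Finset.sum_eq_zero fun i _ => ?_
        have h6 : y ∉ tsupport (pd i (pd i ψ)) := fun h7 =>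
          hyb (hts (mollH_tsupport_pd i ψ (mollH_tsupport_pd i (pd i ψ) h7)))
        exact image_eq_zero_of_notMem_tsupport h6
      rw [h5, mul_zero, mul_zero]
  · rw [ENNReal.tendsto_nhds_zero]
    intro ε hε
    obtain ⟨δ, hδ, hc⟩ := mollH_conv hFm hF2 hFi hε
    have h1 : Tendsto (fun k : ℕ => 1 / ((k : ℝ) + 1)) atTop (𝓝 0) :=
      tendsto_one_div_add_atTop_nhds_zero_nat
    filter_upwards [h1.eventually (gt_mem_nhds hδ)] with k hk
    refine le_trans ?_ (hc (b k) hk)
    have h2 : ∀ᵐ x ∂(volume.restrict (ball (0 : V n) 2)), F x = h x := by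
      have h3 := ae_restrict_of_ae (s := ball (0 : V n) 2) hFG
      filter_upwards [h3, ae_restrict_mem measurableSet_ball] with x hx1 hx2
      rw [← hx1, hG, indicator_of_mem hx2]
    calc ∫⁻ x in ball 0 2, ‖(F ⋆[ContinuousLinearMap.mul ℝ ℝ, volume] (b k).normed volume) x -
          h x‖ₑ ^ (2 : ℝ)
        = ∫⁻ x in ball 0 2, ‖(F ⋆[ContinuousLinearMap.mul ℝ ℝ, volume] (b k).normed volume) x -
          F x‖ₑ ^ (2 : ℝ) := by
          refine lintegral_congr_ae ?_
          filter_upwards [h2] with x hx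
          rw [hx]
      _ ≤ _ := setLIntegral_le_lintegral _ _

end Pool.Agent.Helper20.PN
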