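import Pool.Agent.Helper20.PN.Defs

/-! # Smooth harmonic functions: the three balls inequality with a gap -/

open MeasureTheory Metric Set Filter
open scoped ENNReal NNReal ContDiff Topology

namespace Pool.Agent.Helper20.PN

/-- Weighted integrals. -/
noncomputable def threeA {n : ℕ} (i : ℕ) (G : V n → ℝ) (r : ℝ) : ℝ :=
  ∫ z, wt z ^ i * G (r • z)

theorem three_wt_cont {n : ℕ} : Continuous (wt : V n → ℝ) := by
  unfold wt
  fun_prop

theorem three_wt_nonneg {n : ℕ} (z : V n) : 0 ≤ wt z := le_max_right _ _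

theorem three_wt_zero {n : ℕ} {z : V n} (hz : z ∉ closedBall (0 : V n) 1) : wt z = 0 := by
  unfold wt
  rw [mem_closedBall, dist_zero_right, not_le] at hz
  apply max_eq_right
  nlinarith

theorem three_wtp_zero {n : ℕ} {i : ℕ} (hi : 1 ≤ i) {z : V n}
    (hz : z ∉ closedBall (0 : V n) 1) : wt z ^ i = 0 := by
  rw [three_wt_zero hz, zero_pow (by omega)]

theorem three_int {n : ℕ} {i : ℕ} (hi : 1 ≤ i) {F : V n → ℝ} (hF : Continuous F) :
    Integrable (fun z : V n => wt z ^ i * F z) := by
  apply Continuous.integrable_of_hasCompactSupport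
  · exact (three_wt_cont.pow i).mul hF
  · apply HasCompactSupport.intro (isCompact_closedBall (0 : V n) 1)
    intro x hx
    simp only [three_wtp_zero hi hx, zero_mul]

/-- Differentiation under the integral sign. -/
theorem three_hasDerivAt {n : ℕ} {i : ℕ} (hi : 1 ≤ i) {G : V n → ℝ} (hG : ContDiff ℝ ∞ G)
    (r : ℝ) : HasDerivAt (threeA i G) (∫ z : V n, wt z ^ i * fderiv ℝ G (r • z) z) r := by
  have hG1 : Continuous (fderiv ℝ G) := hG.continuous_fderiv (by simp)
  have hc : Continuous (fun q : ℝ × V n => fderiv ℝ G (q.1 • q.2) q.2) := by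
    exact (hG1.comp (by fun_prop)).clm_apply (by fun_prop)
  obtain ⟨C, hC⟩ := ((isCompact_closedBall r 1).prod
    (isCompact_closedBall (0 : V n) 1)).exists_bound_of_continuousOn hc.continuousOn
  have key := hasDerivAt_integral_of_dominated_loc_of_deriv_le (μ := (volume : Measure (V n)))
    (F := fun (x : ℝ) (z : V n) => wt z ^ i * G (x • z))
    (F' := fun (x : ℝ) (z : V n) => wt z ^ i * fderiv ℝ G (x • z) z)
    (x₀ := r) (s := closedBall r 1) (bound := fun z => wt z ^ i * C)
    (closedBall_mem_nhds r one_pos) ?_ ?_ ?_ ?_ ?_ ?_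
  · exact key.2
  · refine Eventually.of_forall fun x => ?_
    exact ((three_wt_cont.pow i).mul
      (hG.continuous.comp (by fun_prop))).aestronglyMeasurable
  · exact three_int hi (hG.continuous.comp (by fun_prop))
  · exact ((three_wt_cont.pow i).mul
      (hc.comp (by fun_prop : Continuous fun z : V n => (r, z)))).aestronglyMeasurable
  · refine Eventually.of_forall fun z x hx => ?_
    by_cases hz : z ∈ closedBall (0 : V n) 1
    · rw [norm_mul, Real.norm_of_nonneg (pow_nonneg (three_wt_nonneg z) i)]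
      exact mul_le_mul_of_nonneg_left (hC (x, z) ⟨hx, hz⟩)
        (pow_nonneg (three_wt_nonneg z) i)
    · simp [three_wtp_zero hi hz]
  · exact three_int hi continuous_const
  · refine Eventually.of_forall fun z x _ => ?_
    apply HasDerivAt.const_mul
    have h1 : HasFDerivAt G (fderiv ℝ G (x • z)) (x • z) :=
      (hG.differentiable (by simp)).differentiableAt.hasFDerivAt
    have h2 : HasDerivAt (fun y : ℝ => y • z) ((1 : ℝ) • z) x := (hasDerivAt_id x).smul_const z
    have h3 := h1.comp_hasDerivAt x h2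
    rw [one_smul] at h3
    exact h3

/-- The derivative of a power of the positive part. -/
theorem three_pos_deriv {i : ℕ} (hi : 1 ≤ i) (x : ℝ) :
    HasDerivAt (fun t : ℝ => max t 0 ^ (i + 1)) ((i + 1 : ℝ) * max x 0 ^ i) x := by
  rcases lt_trichotomy x 0 with hx | hx | hx
  · have h1 : (fun t : ℝ => max t 0 ^ (i + 1)) =ᶠ[𝓝 x] fun _ => 0 := by
      filter_upwards [gt_mem_nhds hx] with t ht
      rw [max_eq_right (le_of_lt ht), zero_pow (by omega)]
    rw [max_eq_right hx.le, zero_pow (by omega), mul_zero]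
    exact (hasDerivAt_const x (0 : ℝ)).congr_of_eventuallyEq h1
  · subst hx
    rw [max_self, zero_pow (by omega), mul_zero]
    rw [hasDerivAt_iff_isLittleO]
    simp only [max_self, sub_zero, smul_zero]
    rw [zero_pow (by omega)]
    simp only [sub_zero]
    have h1 : (fun t : ℝ => max t 0 ^ (i + 1)) =O[𝓝 0] fun t : ℝ => t ^ (i + 1) := by
      apply Asymptotics.isBigO_of_le
      intro t
      rw [norm_pow, norm_pow]
      apply pow_le_pow_left₀ (norm_nonneg _)
      rw [Real.norm_eq_abs, Real.norm_eq_abs]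
      rcases le_total t 0 with h | h
      · rw [max_eq_right h, abs_zero]; exact abs_nonneg _
      · rw [max_eq_left h]
    exact h1.trans_isLittleO (Asymptotics.isLittleO_pow_id (by omega))
  · have h1 : (fun t : ℝ => max t 0 ^ (i + 1)) =ᶠ[𝓝 x] fun t => t ^ (i + 1) := by
      filter_upwards [lt_mem_nhds hx] with t ht
      rw [max_eq_left (le_of_lt ht)]
    rw [max_eq_left hx.le]
    have h2 := hasDerivAt_pow (i + 1) x
    simp only [Nat.add_sub_cancel, Nat.cast_add, Nat.cast_one] at h2
    exact h2.congr_of_eventuallyEq h1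

/-- The derivative of a power of the weight. -/
theorem three_wt_fderiv {n : ℕ} {i : ℕ} (hi : 1 ≤ i) (z : V n) :
    HasFDerivAt (fun z : V n => wt z ^ (i + 1))
      ((-(2 * (i + 1)) * wt z ^ i : ℝ) • (innerSL ℝ z : V n →L[ℝ] ℝ)) z := by
  have h1 : HasFDerivAt (fun z : V n => 1 - ‖z‖ ^ 2) (-((2 : ℝ) • (innerSL ℝ z : V n →L[ℝ] ℝ))) z := by
    have h0 := (hasStrictFDerivAt_norm_sq z).hasFDerivAt
    have h2 := h0.const_sub 1
    refine h2.congr_fderiv ?_
    ext y
    simp [two_mul]
  have h2 := (three_pos_deriv hi (1 - ‖z‖ ^ 2)).comp_hasFDerivAt z h1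
  have e : ((-(2 * (i + 1)) * wt z ^ i : ℝ) • (innerSL ℝ z : V n →L[ℝ] ℝ)) =
      (((i : ℝ) + 1) * max (1 - ‖z‖ ^ 2) 0 ^ i) • (-((2 : ℝ) • (innerSL ℝ z : V n →L[ℝ] ℝ))) := by
    ext y
    unfold wt
    simp only [ContinuousLinearMap.coe_smul', Pi.smul_apply, smul_eq_mul,
      ContinuousLinearMap.neg_apply]
    ring
  rw [e]
  exact h2

theorem three_pd_smooth {n : ℕ} {G : V n → ℝ} (hG : ContDiff ℝ ∞ G) (j : Fin n) :
    ContDiff ℝ ∞ (pd j G) := by
  unfold pd
  exact (hG.fderiv_right (m := ∞) (by simp)).clm_apply contDiff_const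

theorem three_lap_smooth {n : ℕ} {G : V n → ℝ} (hG : ContDiff ℝ ∞ G) :
    ContDiff ℝ ∞ (lap G) := by
  have : lap G = fun x => ∑ i, pd i (pd i G) x := rfl
  rw [this]
  exact ContDiff.sum fun i _ => three_pd_smooth (three_pd_smooth hG i) i

/-- Integration by parts. -/
theorem three_parts {n : ℕ} {i : ℕ} (hi : 1 ≤ i) {G : V n → ℝ} (hG : ContDiff ℝ ∞ G)
    (r : ℝ) : ∫ z : V n, wt z ^ i * fderiv ℝ G (r • z) z =
      r / (2 * (i + 1)) * threeA (i + 1) (lap G) r := by
  have hdec : ∀ z : V n, fderiv ℝ G (r • z) z = ∑ j, z j * pd j G (r • z) := by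
    intro z
    have hz : z = ∑ j, z j • EuclideanSpace.single j (1 : ℝ) := by
      have := (EuclideanSpace.basisFun (Fin n) ℝ).sum_repr z
      simpa using this.symm
    have h2 : fderiv ℝ G (r • z) (∑ j, z j • EuclideanSpace.single j (1 : ℝ)) =
        ∑ j, z j * pd j G (r • z) := by
      rw [map_sum]
      refine Finset.sum_congr rfl fun j _ => ?_
      rw [map_smul]
      rfl
    rw [← hz] at h2
    exact h2
  have hpart : ∀ j : Fin n, ∫ z : V n, wt z ^ i * (z j * pd j G (r • z)) =
      r / (2 * (i + 1)) * ∫ z : V n, wt z ^ (i + 1) * pd j (pd j G) (r • z) := by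
    intro j
    have hs := three_pd_smooth hG j
    have hss := three_pd_smooth hs j
    have hcomp : ContDiff ℝ ∞ (fun z : V n => pd j G (r • z)) := by
      exact hs.comp (contDiff_const_smul r)
    have hfd : ∀ z : V n, fderiv ℝ (fun z : V n => pd j G (r • z)) z
        (EuclideanSpace.single j 1) = r * pd j (pd j G) (r • z) := by
      intro z
      have h1 : HasFDerivAt (pd j G) (fderiv ℝ (pd j G) (r • z)) (r • z) :=
        (hs.differentiable (by simp)).differentiableAt.hasFDerivAt
      have h2 : HasFDerivAt (fun z : V n => r • z) (r • ContinuousLinearMap.id ℝ (V n)) z :=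
        (hasFDerivAt_id z).const_smul r
      have h3 := h1.comp z h2
      rw [HasFDerivAt.fderiv (f := fun z : V n => pd j G (r • z)) h3]
      simp [pd]
    have hfw : ∀ z : V n, fderiv ℝ (fun z : V n => wt z ^ (i + 1)) z
        (EuclideanSpace.single j 1) = -(2 * (i + 1)) * (wt z ^ i * z j) := by
      intro z
      rw [(three_wt_fderiv hi z).fderiv]
      have h5 : (innerSL ℝ z : V n →L[ℝ] ℝ) (EuclideanSpace.single j 1) = z j := by
        rw [innerSL_apply_apply, EuclideanSpace.inner_single_right]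
        simp
      simp only [ContinuousLinearMap.coe_smul', Pi.smul_apply, smul_eq_mul, h5]
      ring
    have hI := integral_mul_fderiv_eq_neg_fderiv_mul_of_integrable
      (μ := (volume : Measure (V n))) (f := fun z : V n => wt z ^ (i + 1))
      (g := fun z : V n => pd j G (r • z)) (v := EuclideanSpace.single j (1 : ℝ)) ?_ ?_ ?_ ?_ ?_
    · simp only [hfd, hfw] at hI
      have e1 : ∫ z : V n, wt z ^ (i + 1) * (r * pd j (pd j G) (r • z)) =
          r * ∫ z : V n, wt z ^ (i + 1) * pd j (pd j G) (r • z) := by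
        rw [← integral_const_mul]
        refine integral_congr_ae (Eventually.of_forall fun z => ?_)
        simp only
        ring
      have e2 : ∫ z : V n, -(2 * (i + 1 : ℝ)) * (wt z ^ i * z j) * pd j G (r • z) =
          -(2 * (i + 1)) * ∫ z : V n, wt z ^ i * (z j * pd j G (r • z)) := by
        rw [← integral_const_mul]
        refine integral_congr_ae (Eventually.of_forall fun z => ?_)
        simp only
        ring
      rw [e1, e2] at hI
      have hne : (2 * (i + 1 : ℝ)) ≠ 0 := by positivity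
      have hI2 : 2 * (i + 1 : ℝ) * ∫ z : V n, wt z ^ i * (z j * pd j G (r • z)) =
          r * ∫ z : V n, wt z ^ (i + 1) * pd j (pd j G) (r • z) := by
        linarith
      rw [div_mul_eq_mul_div, eq_div_iff hne, ← hI2]
      ring
    · simp only [hfw]
      have : Integrable (fun z : V n => wt z ^ i * (-(2 * (i + 1 : ℝ)) * z j * pd j G (r • z))) := by
        apply three_int hi
        have := hcomp.continuous
        fun_prop
      refine this.congr (Eventually.of_forall fun z => ?_)
      simp only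
      ring
    · simp only [hfd]
      apply three_int (by omega)
      have : Continuous (fun z : V n => pd j (pd j G) (r • z)) :=
        hss.continuous.comp (continuous_const_smul r)
      fun_prop
    · exact three_int (by omega) hcomp.continuous
    · intro z _
      exact (three_wt_fderiv hi z).differentiableAt
    · intro z _
      exact (hcomp.differentiable (by simp)).differentiableAt
  have hlhs : ∫ z : V n, wt z ^ i * fderiv ℝ G (r • z) z =
      ∑ j, ∫ z : V n, wt z ^ i * (z j * pd j G (r • z)) := by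
    rw [← integral_finsetSum]
    · refine integral_congr_ae (Eventually.of_forall fun z => ?_)
      simp only [hdec, Finset.mul_sum]
    · intro j _
      apply three_int hi
      have : Continuous (fun z : V n => pd j G (r • z)) :=
        (three_pd_smooth hG j).continuous.comp (continuous_const_smul r)
      fun_prop
  have hrhs : threeA (i + 1) (lap G) r =
      ∑ j, ∫ z : V n, wt z ^ (i + 1) * pd j (pd j G) (r • z) := by
    unfold threeA
    rw [← integral_finsetSum]
    · refine integral_congr_ae (Eventually.of_forall fun z => ?_)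
      simp only [lap, Finset.mul_sum]
    · intro j _
      apply three_int (by omega)
      exact (three_pd_smooth (three_pd_smooth hG j) j).continuous.comp (continuous_const_smul r)
  rw [hlhs, hrhs, Finset.mul_sum]
  exact Finset.sum_congr rfl fun j _ => hpart j

theorem three_deriv {n : ℕ} {i : ℕ} (hi : 1 ≤ i) {G : V n → ℝ} (hG : ContDiff ℝ ∞ G)
    (r : ℝ) : HasDerivAt (threeA i G) (r / (2 * (i + 1)) * threeA (i + 1) (lap G) r) r := by
  rw [← three_parts hi hG r]
  exact three_hasDerivAt hi hG r

theorem three_zero {n : ℕ} (i : ℕ) (G : V n → ℝ) :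
    threeA i G 0 = G 0 * ∫ z, wt (n := n) z ^ i := by
  unfold threeA
  rw [← integral_const_mul]
  refine integral_congr_ae (Eventually.of_forall fun z => ?_)
  simp only [zero_smul]
  ring

theorem three_nonneg {n : ℕ} {i : ℕ} (hi : 1 ≤ i) {R : ℝ} {G : V n → ℝ}
    (hG : ∀ x ∈ ball (0 : V n) R, 0 ≤ G x) {r : ℝ} (hr : 0 ≤ r) (hR : r < R) :
    0 ≤ threeA i G r := by
  unfold threeA
  apply integral_nonneg
  intro z
  by_cases hz : z ∈ closedBall (0 : V n) 1
  · apply mul_nonneg (pow_nonneg (three_wt_nonneg z) i)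
    apply hG
    rw [mem_closedBall, dist_zero_right] at hz
    rw [mem_ball, dist_zero_right, norm_smul, Real.norm_of_nonneg hr]
    nlinarith
  · simp [three_wtp_zero hi hz]

/-- The class of sums of squares of harmonic functions. -/
def ThreeP {n : ℕ} (R : ℝ) (G : V n → ℝ) : Prop :=
  ContDiff ℝ ∞ G ∧ ∃ (ι : Type) (_ : Fintype ι) (h : ι → V n → ℝ),
    (∀ k, ContDiff ℝ ∞ (h k)) ∧ (∀ k, ∀ x ∈ ball (0 : V n) R, lap (h k) x = 0) ∧
    ∀ x ∈ ball (0 : V n) R, G x = ∑ k, h k x ^ 2

theorem ThreeP.nonneg {n : ℕ} {R : ℝ} {G : V n → ℝ} (hG : ThreeP R G) :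
    ∀ x ∈ ball (0 : V n) R, 0 ≤ G x := by
  obtain ⟨_, ι, _, h, _, _, h3⟩ := hG
  intro x hx
  rw [h3 x hx]
  exact Finset.sum_nonneg fun k _ => sq_nonneg _

theorem three_pd_congr {n : ℕ} {f g : V n → ℝ} {x : V n} (j : Fin n) (h : f =ᶠ[𝓝 x] g) :
    pd j f =ᶠ[𝓝 x] pd j g := by
  unfold pd
  filter_upwards [h.fderiv (𝕜 := ℝ)] with y hy
  rw [hy]

theorem three_lap_congr {n : ℕ} {f g : V n → ℝ} {x : V n} (h : f =ᶠ[𝓝 x] g) :
    lap f =ᶠ[𝓝 x] lap g := by
  unfold lap
  have : ∀ᶠ y in 𝓝 x, ∀ j : Fin n, pd j (pd j f) y = pd j (pd j g) y := by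
    rw [eventually_all]
    intro j
    exact three_pd_congr j (three_pd_congr j h)
  filter_upwards [this] with y hy
  exact Finset.sum_congr rfl fun j _ => hy j

theorem three_pd_comm {n : ℕ} {f : V n → ℝ} (hf : ContDiff ℝ ∞ f) (j l : Fin n) :
    pd j (pd l f) = pd l (pd j f) := by
  have key : ∀ (a b : Fin n) (x : V n), pd a (pd b f) x =
      fderiv ℝ (fderiv ℝ f) x (EuclideanSpace.single a 1) (EuclideanSpace.single b 1) := by
    intro a b x
    have h1 : DifferentiableAt ℝ (fderiv ℝ f) x :=
      ((hf.fderiv_right (m := ∞) (by simp)).differentiable (by simp)).differentiableAt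
    unfold pd
    rw [fderiv_clm_apply h1 (differentiableAt_const _)]
    simp
  funext x
  rw [key, key]
  have hsymm : IsSymmSndFDerivAt ℝ f x := by
    apply (hf.contDiffAt).isSymmSndFDerivAt
    rw [minSmoothness_of_isRCLikeNormedField]
    exact WithTop.coe_le_coe.2 le_top
  exact hsymm.eq _ _

theorem three_pd_add {n : ℕ} {f g : V n → ℝ} (hf : ContDiff ℝ ∞ f) (hg : ContDiff ℝ ∞ g)
    (j : Fin n) : pd j (fun x => f x + g x) = fun x => pd j f x + pd j g x := by
  funext x
  unfold pd
  rw [fderiv_fun_add ((hf.differentiable (by simp)).differentiableAt)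
    ((hg.differentiable (by simp)).differentiableAt)]
  simp

theorem three_pd_sum {n : ℕ} {ι : Type} [Fintype ι] {f : ι → V n → ℝ}
    (hf : ∀ k, ContDiff ℝ ∞ (f k)) (j : Fin n) :
    pd j (fun x => ∑ k, f k x) = fun x => ∑ k, pd j (f k) x := by
  funext x
  unfold pd
  rw [fderiv_fun_sum (fun k _ => ((hf k).differentiable (by simp)).differentiableAt)]
  simp

theorem three_pd_zero_on {n : ℕ} {f : V n → ℝ} {R : ℝ}
    (hf : ∀ x ∈ ball (0 : V n) R, f x = 0) (l : Fin n) :
    ∀ x ∈ ball (0 : V n) R, pd l f x = 0 := by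
  intro x hx
  have h1 : f =ᶠ[𝓝 x] fun _ => 0 := by
    filter_upwards [isOpen_ball.mem_nhds hx] with y hy
    exact hf y hy
  have h2 := (three_pd_congr l h1).self_of_nhds
  rw [h2]
  simp [pd]

/-- Derivatives of harmonic functions are harmonic. -/
theorem three_pd_harm {n : ℕ} {f : V n → ℝ} {R : ℝ} (hf : ContDiff ℝ ∞ f)
    (harm : ∀ x ∈ ball (0 : V n) R, lap f x = 0) (l : Fin n) :
    ∀ x ∈ ball (0 : V n) R, lap (pd l f) x = 0 := by
  have e : lap (pd l f) = pd l (lap f) := by
    have e1 : lap f = fun x => ∑ i, pd i (pd i f) x := rfl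
    rw [e1, three_pd_sum (fun i => three_pd_smooth (three_pd_smooth hf i) i) l]
    funext x
    unfold lap
    refine Finset.sum_congr rfl fun i _ => ?_
    rw [three_pd_comm (three_pd_smooth hf i) l i, three_pd_comm hf l i]
  rw [e]
  exact three_pd_zero_on harm l

theorem three_pd_sq {n : ℕ} {f : V n → ℝ} (hf : ContDiff ℝ ∞ f) (l : Fin n) :
    pd l (fun x => f x ^ 2) = fun x => 2 * (f x * pd l f x) := by
  funext x
  unfold pd
  have h1 : HasFDerivAt f (fderiv ℝ f x) x :=
    (hf.differentiable (by simp)).differentiableAt.hasFDerivAt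
  have h2 := h1.pow 2
  rw [HasFDerivAt.fderiv (f := fun x => f x ^ 2) h2]
  simp
  ring

theorem three_pd_mul {n : ℕ} {f g : V n → ℝ} (hf : ContDiff ℝ ∞ f) (hg : ContDiff ℝ ∞ g)
    (l : Fin n) : pd l (fun x => 2 * (f x * g x)) =
      fun x => 2 * (f x * pd l g x + pd l f x * g x) := by
  funext x
  unfold pd
  have h1 : HasFDerivAt f (fderiv ℝ f x) x :=
    (hf.differentiable (by simp)).differentiableAt.hasFDerivAt
  have h2 : HasFDerivAt g (fderiv ℝ g x) x :=
    (hg.differentiable (by simp)).differentiableAt.hasFDerivAt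
  have h3 := (h1.mul h2).const_mul 2
  rw [HasFDerivAt.fderiv (f := fun x => 2 * (f x * g x)) h3]
  simp
  ring

theorem three_lap_sq {n : ℕ} {f : V n → ℝ} (hf : ContDiff ℝ ∞ f) (x : V n) :
    lap (fun x => f x ^ 2) x = 2 * (f x * lap f x) + ∑ l, 2 * pd l f x ^ 2 := by
  unfold lap
  rw [Finset.mul_sum, Finset.mul_sum, ← Finset.sum_add_distrib]
  refine Finset.sum_congr rfl fun l _ => ?_
  rw [three_pd_sq hf l, three_pd_mul hf (three_pd_smooth hf l) l]
  ring

theorem ThreeP.lap {n : ℕ} {R : ℝ} {G : V n → ℝ} (hG : ThreeP R G) :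
    ThreeP R (lap G) := by
  obtain ⟨h0, ι, hι, h, h1, h2, h3⟩ := hG
  refine ⟨three_lap_smooth h0, ι × Fin n, inferInstance,
    fun k x => Real.sqrt 2 * pd k.2 (h k.1) x, ?_, ?_, ?_⟩
  · intro k
    exact contDiff_const.mul (three_pd_smooth (h1 k.1) k.2)
  · intro k x hx
    have hsm := three_pd_smooth (h1 k.1) k.2
    have e1 : ∀ (f : V n → ℝ), ContDiff ℝ ∞ f → ∀ j : Fin n,
        pd j (fun x => Real.sqrt 2 * f x) = fun x => Real.sqrt 2 * pd j f x := by
      intro f hf j
      funext y
      unfold pd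
      rw [fderiv_const_mul ((hf.differentiable (by simp)).differentiableAt)]
      simp
    have e2 : PN.lap (fun x => Real.sqrt 2 * pd k.2 (h k.1) x) x =
        Real.sqrt 2 * PN.lap (pd k.2 (h k.1)) x := by
      unfold PN.lap
      rw [Finset.mul_sum]
      refine Finset.sum_congr rfl fun j _ => ?_
      rw [e1 _ hsm j, e1 _ (three_pd_smooth hsm j) j]
    rw [e2, three_pd_harm (h1 k.1) (h2 k.1) k.2 x hx, mul_zero]
  · intro x hx
    have hev : G =ᶠ[𝓝 x] fun x => ∑ k, h k x ^ 2 := by
      filter_upwards [isOpen_ball.mem_nhds hx] with y hy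
      exact h3 y hy
    rw [(three_lap_congr hev).self_of_nhds]
    have e3 : PN.lap (fun x => ∑ k, h k x ^ 2) x = ∑ k, PN.lap (fun x => h k x ^ 2) x := by
      unfold PN.lap
      rw [Finset.sum_comm]
      refine Finset.sum_congr rfl fun j _ => ?_
      rw [three_pd_sum (fun k => (h1 k).pow 2) j]
      rw [three_pd_sum (fun k => three_pd_smooth ((h1 k).pow 2) j) j]
    rw [e3, Fintype.sum_prod_type]
    refine Finset.sum_congr rfl fun k _ => ?_
    rw [three_lap_sq (h1 k), h2 k x hx, mul_zero, mul_zero, zero_add]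
    refine Finset.sum_congr rfl fun l _ => ?_
    rw [mul_pow, Real.sq_sqrt (by norm_num)]

theorem three_mono {n : ℕ} {i : ℕ} (hi : 1 ≤ i) {R : ℝ} {G : V n → ℝ} (hG : ThreeP R G)
    {r s : ℝ} (hr : 0 ≤ r) (hrs : r ≤ s) (hs : s < R) : threeA i G r ≤ threeA i G s := by
  have hm : MonotoneOn (threeA i G) (Icc 0 s) := by
    apply monotoneOn_of_deriv_nonneg (convex_Icc 0 s)
    · exact fun x _ => (three_deriv hi hG.1 x).continuousAt.continuousWithinAt
    · exact fun x _ => (three_deriv hi hG.1 x).differentiableAt.differentiableWithinAt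
    · intro x hx
      rw [interior_Icc] at hx
      rw [(three_deriv hi hG.1 x).deriv]
      apply mul_nonneg
      · exact div_nonneg hx.1.le (by positivity)
      · exact three_nonneg (by omega) hG.lap.nonneg hx.1.le (lt_trans hx.2 hs)
  exact hm ⟨hr, hrs⟩ ⟨le_trans hr hrs, le_refl s⟩ hrs

/-- The main claim. -/
theorem three_claim {n : ℕ} (K : ℕ) : ∀ {i : ℕ} (_ : 1 ≤ i) {R : ℝ} {G : V n → ℝ}
    (_ : ThreeP R G) {r : ℝ} (_ : 0 ≤ r) (_ : 2 * r < R),
    0 ≤ threeA i G (2 * r) / (4 ^ K / 8) + 4 ^ K / 8 * threeA i G (r / 2) -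
      5 / 2 * threeA i G r := by
  induction K with
  | zero =>
    intro i hi R G hG r hr hR
    have h1 : threeA i G r ≤ threeA i G (2 * r) :=
      three_mono hi hG hr (by linarith) hR
    have h2 : 0 ≤ threeA i G r := three_nonneg hi hG.nonneg hr (by linarith)
    have h3 : 0 ≤ threeA i G (r / 2) := three_nonneg hi hG.nonneg (by linarith) (by linarith)
    norm_num
    linarith
  | succ K ih =>
    intro i hi R G hG r hr hR
    set M : ℝ := 4 ^ (K + 1) / 8 with hM
    have hMpos : 0 < M := by positivity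
    set Φ : ℝ → ℝ := fun t => threeA i G (2 * t) / M + M * threeA i G (t / 2) -
      5 / 2 * threeA i G t with hΦ
    have hder : ∀ t : ℝ, HasDerivAt Φ (t / (2 * (i + 1)) *
        (threeA (i + 1) (lap G) (2 * t) / (4 ^ K / 8) +
          4 ^ K / 8 * threeA (i + 1) (lap G) (t / 2) -
          5 / 2 * threeA (i + 1) (lap G) t)) t := by
      intro t
      have d1 : HasDerivAt (fun t => threeA i G (2 * t))
          ((2 * t) / (2 * (i + 1)) * threeA (i + 1) (lap G) (2 * t) * 2) t := by
        have h1 := three_deriv hi hG.1 (2 * t)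
        have h2 : HasDerivAt (fun t : ℝ => 2 * t) 2 t := by
          simpa using (hasDerivAt_id t).const_mul (2 : ℝ)
        exact h1.comp t h2
      have d2 : HasDerivAt (fun t => threeA i G (t / 2))
          ((t / 2) / (2 * (i + 1)) * threeA (i + 1) (lap G) (t / 2) * (1 / 2)) t := by
        have h1 := three_deriv hi hG.1 (t / 2)
        have h2 : HasDerivAt (fun t : ℝ => t / 2) (1 / 2) t := by
          simpa using (hasDerivAt_id t).div_const (2 : ℝ)
        exact h1.comp t h2
      have d3 := three_deriv hi hG.1 t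
      have d4 := ((d1.div_const M).add (d2.const_mul M)).sub (d3.const_mul (5 / 2))
      refine HasDerivAt.congr_deriv d4 ?_
      rw [hM, pow_succ]
      have hne : (4 : ℝ) ^ K ≠ 0 := by positivity
      have hne2 : (i + 1 : ℝ) ≠ 0 := by positivity
      field_simp
      ring
    have hmono : MonotoneOn Φ (Icc 0 r) := by
      apply monotoneOn_of_deriv_nonneg (convex_Icc 0 r)
      · exact fun x _ => (hder x).continuousAt.continuousWithinAt
      · exact fun x _ => (hder x).differentiableAt.differentiableWithinAt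
      · intro x hx
        rw [interior_Icc] at hx
        rw [(hder x).deriv]
        apply mul_nonneg
        · exact div_nonneg hx.1.le (by positivity)
        · exact ih (i := i + 1) (by omega) hG.lap hx.1.le (by linarith [hx.2])
    have h0 : 0 ≤ Φ 0 := by
      have e0 : Φ 0 = threeA i G 0 * (1 / M + M - 5 / 2) := by
        simp only [hΦ, mul_zero, zero_div]
        ring
      rw [e0]
      apply mul_nonneg
      · exact three_nonneg hi hG.nonneg le_rfl (by linarith)
      · rcases Nat.eq_zero_or_pos K with hK | hK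
        · subst hK
          rw [hM]
          norm_num
        · have h2 : 2 ≤ M := by
            rw [hM]
            have : (4 : ℝ) ^ 2 ≤ 4 ^ (K + 1) := pow_le_pow_right₀ (by norm_num) (by omega)
            linarith
          have h3 : 1 / M + M - 5 / 2 = (M - 2) * (M - 1 / 2) / M := by
            field_simp
            ring
          rw [h3]
          apply div_nonneg _ hMpos.le
          apply mul_nonneg <;> linarith
    exact le_trans h0 (hmono ⟨le_rfl, hr⟩ ⟨hr, le_rfl⟩ hr)

/-- The three balls inequality with a gap. -/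
theorem three_ball {n : ℕ} {R : ℝ} {h : V n → ℝ} (hh : ContDiff ℝ ∞ h)
    (harm : ∀ x ∈ ball (0 : V n) R, lap h x = 0) (K : ℕ) {r : ℝ} (hr : 0 < r)
    (hR : 2 * r < R) :
    5 / 2 * A r h ≤ A (2 * r) h / (4 ^ K / 8) + 4 ^ K / 8 * A (r / 2) h := by
  have hP : ThreeP R (fun x => h x ^ 2) := by
    refine ⟨hh.pow 2, Unit, inferInstance, fun _ => h, fun _ => hh, fun _ => harm, ?_⟩
    intro x _
    simp
  have key := three_claim K (le_refl 1) hP hr.le hR
  have e : ∀ t : ℝ, threeA 1 (fun x => h x ^ 2) t = A t h := by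
    intro t
    unfold threeA A
    simp only [pow_one]
  rw [e, e, e] at key
  linarith

/-- The mean value property with the weight `wt`. -/
theorem mean_value {n : ℕ} {R : ℝ} {h : V n → ℝ} (hh : ContDiff ℝ ∞ h)
    (harm : ∀ x ∈ ball (0 : V n) R, lap h x = 0) {r : ℝ} (hr : 0 < r) (hR : r < R) :
    ∫ z, wt z * h (r • z) = h 0 * ∫ z, wt (n := n) z := by
  have hz : ∀ x ∈ Icc (0 : ℝ) r, threeA 2 (lap h) x = 0 := by
    intro x hx
    unfold threeA
    apply integral_eq_zero_of_ae
    refine Eventually.of_forall fun z => ?_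
    by_cases hz : z ∈ closedBall (0 : V n) 1
    · simp only [Pi.zero_apply]
      rw [harm, mul_zero]
      rw [mem_closedBall, dist_zero_right] at hz
      rw [mem_ball, dist_zero_right, norm_smul, Real.norm_of_nonneg hx.1]
      have := hx.2
      nlinarith [hx.1, norm_nonneg z]
    · simp [three_wtp_zero (by norm_num : 1 ≤ 2) hz]
  have key : threeA 1 h r = threeA 1 h 0 := by
    apply constant_of_has_deriv_right_zero (f := threeA 1 h) (a := 0) (b := r)
    · exact fun x _ => (three_deriv le_rfl hh x).continuousAt.continuousWithinAt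
    · intro x hx
      have h1 := (three_deriv le_rfl hh x).hasDerivWithinAt (s := Ici x)
      rw [hz x ⟨hx.1, hx.2.le⟩, mul_zero] at h1
      exact h1
    · exact ⟨hr.le, le_rfl⟩
  rw [three_zero] at key
  unfold threeA at key
  simpa only [pow_one] using key

end Pool.Agent.Helper20.PN
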