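import Pool.Agent.Helper20.PN.Defs2
import Pool.Agent.Helper20.PN.Three

/-! # The three balls inequality with a gap, general ratio -/

open MeasureTheory Metric Set Filter
open scoped ENNReal NNReal ContDiff Topology

namespace Pool.Agent.Helper20.PN

/-- The factor `l ^ (2 K + 1 - 2 m)`. -/
private noncomputable def three2M (l : ℝ) (m K : ℕ) : ℝ := l ^ (2 * K + 1) / l ^ (2 * m)

private theorem three2M_pos {l : ℝ} (hl : 1 < l) (m K : ℕ) : 0 < three2M l m K := by
  have : 0 < l := by linarith
  unfold three2M
  positivity

private theorem three2M_succ {l : ℝ} (m K : ℕ) :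
    three2M l m (K + 1) = three2M l m K * l ^ 2 := by
  unfold three2M
  have : 2 * (K + 1) + 1 = (2 * K + 1) + 2 := by ring
  rw [this, pow_add]
  ring

private theorem three2M_zero {l : ℝ} (hl : 1 < l) (m K : ℕ) :
    0 ≤ 1 / three2M l m K + three2M l m K - (l + 1 / l) := by
  have h0 : 0 < l := by linarith
  have hM := three2M_pos hl m K
  have e : 1 / three2M l m K + three2M l m K - (l + 1 / l) =
      (three2M l m K - l) * (three2M l m K - 1 / l) / three2M l m K := by
    field_simp
    ring
  rw [e]
  apply div_nonneg _ hM.le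
  have h1l : 1 / l ≤ l := by
    rw [div_le_iff₀ h0]
    nlinarith
  rcases le_or_gt m K with h | h
  · have h1 : l ≤ three2M l m K := by
      unfold three2M
      rw [le_div_iff₀ (by positivity), ← pow_succ']
      exact pow_le_pow_right₀ hl.le (by omega)
    apply mul_nonneg <;> linarith
  · have h1 : three2M l m K ≤ 1 / l := by
      unfold three2M
      rw [div_le_div_iff₀ (by positivity) h0, ← pow_succ, one_mul]
      exact pow_le_pow_right₀ hl.le (by omega)
    apply mul_nonneg_of_nonpos_of_nonpos <;> linarith

/-- The main claim. -/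
private theorem three2_claim {n : ℕ} {l : ℝ} (hl : 1 < l) {m : ℕ}
    (hm : l + 1 / l ≤ l ^ (2 * m) / l) (K : ℕ) : ∀ {i : ℕ} (_ : 1 ≤ i) {R : ℝ} {G : V n → ℝ}
    (_ : ThreeP R G) {r : ℝ} (_ : 0 ≤ r) (_ : l * r < R),
    0 ≤ threeA i G (l * r) / three2M l m K + three2M l m K * threeA i G (r / l) -
      (l + 1 / l) * threeA i G r := by
  have hl0 : 0 < l := by linarith
  induction K with
  | zero =>
    intro i hi R G hG r hr hR
    have hrl : r ≤ l * r := by nlinarith
    have h1 : threeA i G r ≤ threeA i G (l * r) := three_mono hi hG hr hrl hR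
    have h2 : 0 ≤ threeA i G r := three_nonneg hi hG.nonneg hr (by linarith)
    have h3 : 0 ≤ threeA i G (r / l) :=
      three_nonneg hi hG.nonneg (by positivity)
        (lt_of_le_of_lt (div_le_self hr hl.le) (by linarith))
    have h4 : threeA i G (l * r) / three2M l m 0 = threeA i G (l * r) * (l ^ (2 * m) / l) := by
      unfold three2M
      field_simp
      ring
    rw [h4]
    have h5 : (l + 1 / l) * threeA i G r ≤ threeA i G (l * r) * (l ^ (2 * m) / l) := by
      rw [mul_comm]
      exact mul_le_mul h1 hm (by positivity) (by linarith)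
    have h6 : 0 ≤ three2M l m 0 * threeA i G (r / l) := mul_nonneg (three2M_pos hl m 0).le h3
    linarith
  | succ K ih =>
    intro i hi R G hG r hr hR
    have hMpos := three2M_pos hl m (K + 1)
    have hMK := three2M_pos hl m K
    have hsucc := three2M_succ (l := l) m K
    set M : ℝ := three2M l m (K + 1) with hM
    set Φ : ℝ → ℝ := fun t => threeA i G (l * t) / M + M * threeA i G (t / l) -
      (l + 1 / l) * threeA i G t with hΦ
    have hder : ∀ t : ℝ, HasDerivAt Φ (t / (2 * (i + 1)) *
        (threeA (i + 1) (lap G) (l * t) / three2M l m K +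
          three2M l m K * threeA (i + 1) (lap G) (t / l) -
          (l + 1 / l) * threeA (i + 1) (lap G) t)) t := by
      intro t
      have d1 : HasDerivAt (fun t => threeA i G (l * t))
          ((l * t) / (2 * (i + 1)) * threeA (i + 1) (lap G) (l * t) * l) t := by
        have h1 := three_deriv hi hG.1 (l * t)
        have h2 : HasDerivAt (fun t : ℝ => l * t) l t := by
          simpa using (hasDerivAt_id t).const_mul l
        exact h1.comp t h2
      have d2 : HasDerivAt (fun t => threeA i G (t / l))
          ((t / l) / (2 * (i + 1)) * threeA (i + 1) (lap G) (t / l) * (1 / l)) t := by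
        have h1 := three_deriv hi hG.1 (t / l)
        have h2 : HasDerivAt (fun t : ℝ => t / l) (1 / l) t := by
          simpa using (hasDerivAt_id t).div_const l
        exact h1.comp t h2
      have d3 := three_deriv hi hG.1 t
      have d4 := ((d1.div_const M).add (d2.const_mul M)).sub (d3.const_mul (l + 1 / l))
      refine HasDerivAt.congr_deriv d4 ?_
      rw [hsucc]
      have hne2 : (i + 1 : ℝ) ≠ 0 := by positivity
      have hne3 := hMK.ne'
      field_simp
    have hmono : MonotoneOn Φ (Icc 0 r) := by
      apply monotoneOn_of_deriv_nonneg (convex_Icc 0 r)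
      · exact fun x _ => (hder x).continuousAt.continuousWithinAt
      · exact fun x _ => (hder x).differentiableAt.differentiableWithinAt
      · intro x hx
        rw [interior_Icc] at hx
        rw [(hder x).deriv]
        apply mul_nonneg
        · exact div_nonneg hx.1.le (by positivity)
        · exact ih (i := i + 1) (by omega) hG.lap hx.1.le
            (lt_trans (mul_lt_mul_of_pos_left hx.2 hl0) hR)
    have h0 : 0 ≤ Φ 0 := by
      have e0 : Φ 0 = threeA i G 0 * (1 / M + M - (l + 1 / l)) := by
        simp only [hΦ, mul_zero, zero_div]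
        ring
      rw [e0]
      have hRpos : 0 < R := lt_of_le_of_lt (by positivity) hR
      exact mul_nonneg (three_nonneg hi hG.nonneg le_rfl hRpos) (three2M_zero hl m (K + 1))
    exact le_trans h0 (hmono ⟨le_rfl, hr⟩ ⟨hr, le_rfl⟩ hr)

/-- The three balls inequality with a gap, general ratio. -/
theorem three_ball_gen {n : ℕ} {R : ℝ} {h : V n → ℝ} (hh : ContDiff ℝ ∞ h)
    (harm : ∀ x ∈ ball (0 : V n) R, lap h x = 0) {l : ℝ} (hl : 1 < l) (K : ℕ) {r : ℝ}
    (hr : 0 < r) (hR : l * r < R) :
    (l + 1 / l) * A r h ≤
      A (l * r) h / l ^ (2 * K + 1) + l ^ (2 * K + 1) * A (r / l) h := by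
  have hl0 : 0 < l := by linarith
  obtain ⟨m₀, hm₀⟩ := pow_unbounded_of_one_lt ((l + 1 / l) * l) hl
  have hm : l + 1 / l ≤ l ^ (2 * m₀) / l := by
    rw [le_div_iff₀ hl0]
    exact le_trans hm₀.le (pow_le_pow_right₀ hl.le (by omega))
  have hP : ThreeP R (fun x => h x ^ 2) := by
    refine ⟨hh.pow 2, Unit, inferInstance, fun _ => h, fun _ => hh, fun _ => harm, ?_⟩
    intro x _
    simp
  have key := three2_claim hl hm (K + m₀) (le_refl 1) hP hr.le hR
  have e : ∀ t : ℝ, threeA 1 (fun x => h x ^ 2) t = A t h := by
    intro t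
    unfold threeA A
    simp only [pow_one]
  have hM : three2M l m₀ (K + m₀) = l ^ (2 * K + 1) := by
    unfold three2M
    have : 2 * (K + m₀) + 1 = (2 * K + 1) + 2 * m₀ := by ring
    rw [this, pow_add]
    field_simp
  rw [e, e, e, hM] at key
  linarith

end Pool.Agent.Helper20.PN
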