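import Pool.Agent.Helper20.PN.WHarm
import Pool.Agent.Helper20.PN.Defs2
import Pool.Agent.Helper20.PN.MollH
import Pool.Agent.Helper20.PN.Three2

/-! Weakly harmonic functions: three balls inequality with general ratio and interior bounds, all
radii below 2. -/

open MeasureTheory Metric Set Filter
open scoped ENNReal NNReal ContDiff Topology

namespace Pool.Agent.Helper20.PN

variable {n : ℕ}

lemma wharm2_le_two {r : ℝ} (hr : 0 < r) (hr2 : r ≤ 2) :
    wharmNu n r ≤ ENNReal.ofReal |(r ^ n)⁻¹| • volume.restrict (ball 0 2) := by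
  refine (wharm_le hr).trans ?_
  have h1 : (volume : Measure (V n)).restrict (ball 0 r) ≤ volume.restrict (ball 0 2) :=
    Measure.restrict_mono (ball_subset_ball hr2) le_rfl
  exact Measure.le_iff'.2 fun s => by
    simp only [Measure.smul_apply, smul_eq_mul]
    exact mul_le_mul_right (h1 s) _

lemma wharm2_mem {r : ℝ} (hr : 0 < r) (hr2 : r ≤ 2) {f : V n → ℝ}
    (hf : MemLp f 2 (volume.restrict (ball 0 2))) : MemLp f 2 (wharmNu n r) :=
  (hf.smul_measure ENNReal.ofReal_ne_top).mono_measure (wharm2_le_two hr hr2)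

lemma wharm2_tendsto {r : ℝ} (hr : 0 < r) (hr2 : r ≤ 2) {f : ℕ → V n → ℝ}
    (hf : Tendsto (fun k => eLpNorm (f k) 2 (volume.restrict (ball 0 2))) atTop (𝓝 0)) :
    Tendsto (fun k => eLpNorm (f k) 2 (wharmNu n r)) atTop (𝓝 0) := by
  have h1 : ∀ k, eLpNorm (f k) 2 (wharmNu n r) ≤
      (ENNReal.ofReal |(r ^ n)⁻¹|) ^ (1 / 2 : ℝ) * eLpNorm (f k) 2 (volume.restrict (ball 0 2)) := by
    intro k
    refine (eLpNorm_mono_measure (f k) (wharm2_le_two hr hr2)).trans ?_
    rw [eLpNorm_smul_measure_of_ne_top (by simp)]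
    simp
  have h2 : Tendsto (fun k => (ENNReal.ofReal |(r ^ n)⁻¹|) ^ (1 / 2 : ℝ) *
      eLpNorm (f k) 2 (volume.restrict (ball 0 2))) atTop (𝓝 0) := by
    have := ENNReal.Tendsto.const_mul (a := (ENNReal.ofReal |(r ^ n)⁻¹|) ^ (1 / 2 : ℝ)) hf
      (Or.inr (by
        apply ENNReal.rpow_ne_top_of_nonneg (by norm_num) ENNReal.ofReal_ne_top))
    simpa using this
  exact tendsto_of_tendsto_of_tendsto_of_le_of_le tendsto_const_nhds h2 (fun _ => zero_le) h1

lemma wharm2_approx {h : V n → ℝ} (hh : IsWHarm h) :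
    ∃ φ : ℕ → V n → ℝ, (∀ k, ContDiff ℝ ∞ (φ k)) ∧
      (∀ k : ℕ, ∀ x ∈ ball (0 : V n) (2 - 1 / ((k : ℝ) + 1)), lap (φ k) x = 0) ∧
      (∀ k, MemLp (φ k) 2 (volume.restrict (ball 0 2))) ∧
      Tendsto (fun k => eLpNorm (fun x => φ k x - h x) 2 (volume.restrict (ball 0 2))) atTop
        (𝓝 0) := by
  obtain ⟨φ, h1, h2, h3⟩ := exists_moll_harm hh
  refine ⟨φ, h1, h2, fun k => wharm_cont_mem (h1 _).continuous, ?_⟩
  have h4 := h3.ennrpow_const (1 / 2 : ℝ)
  have h5 : (0 : ℝ≥0∞) ^ (1 / 2 : ℝ) = 0 := ENNReal.zero_rpow_of_pos (by norm_num)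
  rw [h5] at h4
  refine h4.congr fun k => ?_
  rw [eLpNorm_eq_lintegral_rpow_enorm_toReal (by norm_num) (by norm_num)]
  simp

lemma wharm2_ev {r : ℝ} (hr : r < 2) : ∀ᶠ k : ℕ in atTop, r < 2 - 1 / ((k : ℝ) + 1) := by
  have h1 := (tendsto_one_div_add_atTop_nhds_zero_nat (𝕜 := ℝ)).eventually
    (gt_mem_nhds (show (0 : ℝ) < 2 - r by linarith))
  filter_upwards [h1] with k hk
  linarith

lemma wharm2_common {h : V n → ℝ} (hh : IsWHarm h) : ∃ c₀ : ℝ, ∀ r : ℝ, 0 < r → r < 2 →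
    ∫ x, h x ∂(wharmNu n r) = c₀ * ∫ z, wt (n := n) z := by
  obtain ⟨φ, h1, h2, h3, h4⟩ := wharm2_approx hh
  have key : ∀ r : ℝ, 0 < r → r < 2 →
      Tendsto (fun k => φ k 0 * ∫ z, wt (n := n) z) atTop (𝓝 (∫ x, h x ∂(wharmNu n r))) := by
    intro r hr hr2
    have := wharm_fin (n := n) hr
    have h5 := wharm_tendsto_int (μ := wharmNu n r) (fun k => wharm2_mem hr hr2.le (h3 k))
      (wharm2_mem hr hr2.le hh.1) (wharm2_tendsto hr hr2.le h4)
    refine h5.congr' ?_
    filter_upwards [wharm2_ev hr2] with k hk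
    exact wharm_mean (h1 k) (h2 k) hr hk
  have hW := wharm_wt_pos (n := n)
  refine ⟨(∫ x, h x ∂(wharmNu n 1)) / ∫ z, wt (n := n) z, ?_⟩
  intro r hr hr2
  rw [div_mul_cancel₀ _ hW.ne']
  exact tendsto_nhds_unique (key r hr hr2) (key 1 (by norm_num) (by norm_num))

lemma wharm2_A_tendsto {r : ℝ} (hr : 0 < r) (hr2 : r ≤ 2) {φ : ℕ → V n → ℝ} {h : V n → ℝ}
    (hh : MemLp h 2 (volume.restrict (ball 0 2)))
    (h3 : ∀ k, MemLp (φ k) 2 (volume.restrict (ball 0 2)))
    (h4 : Tendsto (fun k => eLpNorm (fun x => φ k x - h x) 2 (volume.restrict (ball 0 2))) atTop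
        (𝓝 0)) (c : ℝ) :
    Tendsto (fun k => A r (fun x => φ k x - c)) atTop (𝓝 (A r (fun x => h x - c))) := by
  simp only [wharm_A hr]
  have := wharm_fin (n := n) hr
  have hc : MemLp (fun _ : V n => c) 2 (wharmNu n r) := memLp_const c
  have h6 : ∀ k, MemLp (fun x => φ k x - c) 2 (wharmNu n r) :=
    fun k => (wharm2_mem hr hr2 (h3 k)).sub hc
  have h7 : MemLp (fun x => h x - c) 2 (wharmNu n r) := (wharm2_mem hr hr2 hh).sub hc
  apply wharm_tendsto_sq h6 h7
  have h5 := wharm2_tendsto hr hr2 h4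
  refine h5.congr fun k => ?_
  congr 1
  funext x
  ring

/-- The three balls inequality for weakly harmonic functions, and the common mean value. -/
theorem wharm_three_gen {n : ℕ} {h : V n → ℝ} (hh : IsWHarm h) : ∃ c₀ : ℝ,
    (∀ (l : ℝ) (K : ℕ) (r : ℝ), 1 < l → 0 < r → l * r < 2 →
      (l + 1 / l) * A r (fun x => h x - c₀) ≤
        A (l * r) (fun x => h x - c₀) / l ^ (2 * K + 1) +
          l ^ (2 * K + 1) * A (r / l) (fun x => h x - c₀)) ∧
    ∀ r : ℝ, 0 < r → r < 2 → ∀ c : ℝ,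
      A r (fun x => h x - c₀) ≤ A r (fun x => h x - c) := by
  obtain ⟨c₀, hc₀⟩ := wharm2_common hh
  refine ⟨c₀, ?_, ?_⟩
  · intro l K r hl hr hlr
    obtain ⟨φ, h1, h2, h3, h4⟩ := wharm2_approx hh
    have hl0 : 0 < l := by linarith
    have hr2 : r ≤ 2 := by nlinarith
    have hrl : r / l ≤ 2 := by
      rw [div_le_iff₀ hl0]
      nlinarith
    have t1 := wharm2_A_tendsto hr hr2 hh.1 h3 h4 c₀
    have t2 := wharm2_A_tendsto (r := l * r) (by positivity) hlr.le hh.1 h3 h4 c₀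
    have t3 := wharm2_A_tendsto (r := r / l) (by positivity) hrl hh.1 h3 h4 c₀
    refine le_of_tendsto_of_tendsto (t1.const_mul (l + 1 / l))
      ((t2.div_const (l ^ (2 * K + 1))).add (t3.const_mul (l ^ (2 * K + 1)))) ?_
    filter_upwards [wharm2_ev hlr] with k hk
    exact three_ball_gen (R := 2 - 1 / ((k : ℝ) + 1)) (h := fun x => φ k x - c₀)
      ((h1 k).sub contDiff_const) (by
        intro x hx
        rw [wharm_lap_sub]
        exact h2 k x hx) hl K hr hk
  · intro r hr hr2 c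
    rw [wharm_A hr, wharm_A hr]
    have := wharm_fin (n := n) hr
    have hm := wharm2_mem hr hr2.le hh.1
    have hint : Integrable h (wharmNu n r) := hm.integrable (by norm_num)
    have hm0 : MemLp (fun x => h x - c₀) 2 (wharmNu n r) := hm.sub (memLp_const c₀)
    have hi0 : Integrable (fun x => (h x - c₀) ^ 2) (wharmNu n r) := hm0.integrable_sq
    have e1 : ∀ x, (h x - c) ^ 2 = (h x - c₀) ^ 2 + (2 * (c₀ - c) * (h x - c₀) +
        (c₀ - c) ^ 2 * 1) := fun x => by ring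
    have hi1 : Integrable (fun x => 2 * (c₀ - c) * (h x - c₀)) (wharmNu n r) :=
      (hint.sub (integrable_const c₀)).const_mul _
    have hi2 : Integrable (fun _ : V n => (c₀ - c) ^ 2 * (1 : ℝ)) (wharmNu n r) :=
      integrable_const _
    have e2 : ∫ x, (h x - c) ^ 2 ∂(wharmNu n r) = ∫ x, (h x - c₀) ^ 2 ∂(wharmNu n r) +
        (∫ x, 2 * (c₀ - c) * (h x - c₀) ∂(wharmNu n r) +
          ∫ _x, (c₀ - c) ^ 2 * (1 : ℝ) ∂(wharmNu n r)) := by
      simp only [e1]
      have hi3 : Integrable (fun x => 2 * (c₀ - c) * (h x - c₀) + (c₀ - c) ^ 2 * 1)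
        (wharmNu n r) := hi1.add hi2
      rw [integral_add hi0 hi3, integral_add hi1 hi2]
    have e3 : ∫ x, 2 * (c₀ - c) * (h x - c₀) ∂(wharmNu n r) = 0 := by
      rw [integral_const_mul, integral_sub hint (integrable_const c₀), hc₀ r hr hr2]
      have : ∫ _x : V n, c₀ ∂(wharmNu n r) = c₀ * ∫ _x, (1 : ℝ) ∂(wharmNu n r) := by
        rw [← integral_const_mul]
        simp
      rw [this, wharm_mass hr, sub_self, mul_zero]
    have e4 : 0 ≤ ∫ _x, (c₀ - c) ^ 2 * (1 : ℝ) ∂(wharmNu n r) := by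
      apply integral_nonneg
      intro x
      positivity
    rw [e2, e3]
    linarith

/-! ### Interior bounds -/

lemma wharm2_point {φ : V n → ℝ} (h1 : ContDiff ℝ ∞ φ) {R : ℝ}
    (h2 : ∀ x ∈ ball (0 : V n) R, lap φ x = 0) {r₁ r₂ : ℝ}
    (h12 : r₁ < r₂) (hr₂ : r₂ < R) (c : ℝ) {y : V n} (hy : y ∈ ball (0 : V n) r₁) :
    |φ y - c| ≤ (2 ^ n / ∫ z, wt (n := n) z) / (r₂ - r₁) ^ n *
      ∫ x in ball 0 r₂, |φ x - c| := by
  obtain ⟨ρ, hρ⟩ : ∃ ρ, ρ = (r₂ - r₁) / 2 := ⟨_, rfl⟩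
  have hρ0 : 0 < ρ := by rw [hρ]; linarith
  have hy' : ‖y‖ < r₁ := by simpa using hy
  obtain ⟨W, hWdef⟩ : ∃ W, W = ∫ z, wt (n := n) z := ⟨_, rfl⟩
  have hW : 0 < W := by rw [hWdef]; exact wharm_wt_pos
  rw [← hWdef]
  have hcont : Continuous (fun x => |φ x - c|) := (h1.continuous.sub continuous_const).abs
  have hcont2 : Continuous (fun x => |φ (y + x) - c|) :=
    hcont.comp (continuous_const.add continuous_id)
  have m1 : ∫ x, (φ (y + x) - c) ∂(wharmNu n ρ) = (φ y - c) * W := by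
    have h3 := wharm_mean (h := fun x => φ (y + x) - c) (R := R - ‖y‖)
      ((h1.comp (contDiff_const.add contDiff_id)).sub contDiff_const) (by
        intro x hx
        rw [wharm_lap_sub (fun x => φ (y + x)) c, wharm_lap_add]
        apply h2
        simp only [mem_ball, dist_zero_right] at hx ⊢
        have := norm_add_le y x
        linarith) hρ0 (by rw [hρ]; linarith)
    rw [h3, add_zero, hWdef]
  have m2 : |φ y - c| * W ≤ ∫ x, |φ (y + x) - c| ∂(wharmNu n ρ) := by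
    have h4 : |φ y - c| * W = |(φ y - c) * W| := by rw [abs_mul, abs_of_pos hW]
    rw [h4, ← m1]
    exact abs_integral_le_integral_abs
  have m3 : ∫ x, |φ (y + x) - c| ∂(wharmNu n ρ) ≤
      |(ρ ^ n)⁻¹| * ∫ x in ball 0 ρ, |φ (y + x) - c| := by
    have h5 := integral_mono_measure (wharm_le (n := n) hρ0) (f := fun x => |φ (y + x) - c|)
      (Eventually.of_forall fun x => abs_nonneg _)
      ((wharm_loc hcont2 0 ρ).smul_measure ENNReal.ofReal_ne_top)
    rwa [integral_smul_measure, ENNReal.toReal_ofReal (abs_nonneg _), smul_eq_mul] at h5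
  have m4 : ∫ x in ball 0 ρ, |φ (y + x) - c| = ∫ x in ball y ρ, |φ x - c| := by
    have h6 := (measurePreserving_add_left (volume : Measure (V n)) y).setIntegral_preimage_emb
      (measurableEmbedding_addLeft y) (fun x => |φ x - c|) (ball y ρ)
    rw [preimage_add_ball, sub_self] at h6
    exact h6
  have m5 : ∫ x in ball y ρ, |φ x - c| ≤ ∫ x in ball 0 r₂, |φ x - c| := by
    apply setIntegral_mono_set (wharm_loc hcont 0 r₂)
      (Eventually.of_forall fun x => abs_nonneg _)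
    apply LE.le.eventuallyLE
    intro x hx
    simp only [mem_ball, dist_zero_right] at hx ⊢
    rw [dist_eq_norm] at hx
    have h7 : ‖x‖ ≤ ‖x - y‖ + ‖y‖ := by
      simpa using norm_add_le (x - y) y
    rw [hρ] at hx
    linarith
  have m6 : |(ρ ^ n)⁻¹| = 2 ^ n / (r₂ - r₁) ^ n := by
    rw [abs_of_pos (by positivity), hρ, div_pow, inv_div]
  have m7 : |φ y - c| * W ≤ 2 ^ n / (r₂ - r₁) ^ n * ∫ x in ball 0 r₂, |φ x - c| := by
    refine m2.trans (m3.trans ?_)
    rw [m6, m4]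
    apply mul_le_mul_of_nonneg_left m5
    have : 0 < r₂ - r₁ := by linarith
    positivity
  have hd : (r₂ - r₁) ^ n ≠ 0 := by
    have : 0 < r₂ - r₁ := by linarith
    positivity
  calc |φ y - c| = |φ y - c| * W / W := by field_simp
    _ ≤ (2 ^ n / (r₂ - r₁) ^ n * ∫ x in ball 0 r₂, |φ x - c|) / W :=
        div_le_div_of_nonneg_right m7 hW.le
    _ = _ := by ring

/-- Interior bounds for weakly harmonic functions. -/
theorem wharm_sup_gen (n : ℕ) : ∃ C : ℝ, 0 < C ∧ ∀ h : V n → ℝ, IsWHarm h → ∀ c r₁ r₂ : ℝ,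
    0 < r₁ → r₁ < r₂ → r₂ < 2 → ∀ᵐ y ∂(volume.restrict (ball (0 : V n) r₁)),
      |h y - c| ≤ C / (r₂ - r₁) ^ n * ∫ x in ball 0 r₂, |h x - c| := by
  refine ⟨2 ^ n / ∫ z, wt (n := n) z, div_pos (by positivity) wharm_wt_pos, ?_⟩
  intro h hh c r₁ r₂ hr₁ h12 hr₂
  obtain ⟨φ, h1, h2, h3, h4⟩ := wharm2_approx hh
  have hfin : IsFiniteMeasure ((volume : Measure (V n)).restrict (ball 0 2)) := wharm_fin2
  have hfin2 : IsFiniteMeasure ((volume : Measure (V n)).restrict (ball 0 r₂)) := wharm_fin2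
  -- a subsequence converging almost everywhere
  have h5 : TendstoInMeasure (volume.restrict (ball (0 : V n) 2)) φ atTop h :=
    tendstoInMeasure_of_tendsto_eLpNorm (p := 2) (by norm_num) (fun k => (h3 k).1) hh.1.1 h4
  obtain ⟨ns, hns, hae⟩ := h5.exists_seq_tendsto_ae
  -- convergence of the integrals
  have hle : (volume : Measure (V n)).restrict (ball 0 r₂) ≤ volume.restrict (ball 0 2) :=
    Measure.restrict_mono (ball_subset_ball (by linarith)) le_rfl
  have h6 : Tendsto (fun k => eLpNorm (fun x => φ k x - h x) 2 (volume.restrict (ball 0 r₂)))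
      atTop (𝓝 0) :=
    tendsto_of_tendsto_of_tendsto_of_le_of_le tendsto_const_nhds h4 (fun _ => zero_le)
      (fun k => eLpNorm_mono_measure _ hle)
  have h7 := wharm_int_tendsto (μ := (volume : Measure (V n)).restrict (ball 0 r₂))
    (fun k => (h3 k).mono_measure hle) (hh.1.mono_measure hle) h6
  have h8 : Tendsto (fun k => ∫ x in ball 0 r₂, |φ k x - c|) atTop
      (𝓝 (∫ x in ball 0 r₂, |h x - c|)) := by
    have hcm : MemLp (fun _ : V n => c) 2 ((volume : Measure (V n)).restrict (ball 0 r₂)) :=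
      memLp_const c
    refine tendsto_integral_of_L1 (fun x => |h x - c|)
      (((hh.1.mono_measure hle).sub hcm).1.norm)
      (Eventually.of_forall fun k =>
        (wharm_loc ((h1 k).continuous.sub continuous_const).abs 0 r₂)) ?_
    refine tendsto_of_tendsto_of_tendsto_of_le_of_le tendsto_const_nhds h7 (fun _ => zero_le)
      (fun k => lintegral_mono fun x => ?_)
    rw [← ofReal_norm, ← ofReal_norm]
    apply ENNReal.ofReal_le_ofReal
    rw [Real.norm_eq_abs, Real.norm_eq_abs]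
    refine (abs_abs_sub_abs_le_abs_sub _ _).trans (le_of_eq ?_)
    congr 1
    ring
  have h9 : Tendsto (fun k => (2 ^ n / ∫ z, wt (n := n) z) / (r₂ - r₁) ^ n *
      ∫ x in ball 0 r₂, |φ (ns k) x - c|) atTop
      (𝓝 ((2 ^ n / ∫ z, wt (n := n) z) / (r₂ - r₁) ^ n * ∫ x in ball 0 r₂, |h x - c|)) :=
    (h8.comp hns.tendsto_atTop).const_mul _
  have hle1 : (volume : Measure (V n)).restrict (ball 0 r₁) ≤ volume.restrict (ball 0 2) :=
    Measure.restrict_mono (ball_subset_ball (by linarith)) le_rfl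
  filter_upwards [ae_mono hle1 hae, ae_restrict_mem measurableSet_ball] with y hy hyr
  refine le_of_tendsto_of_tendsto ((hy.sub_const c).abs) h9 ?_
  filter_upwards [hns.tendsto_atTop.eventually (wharm2_ev hr₂)] with k hk
  exact wharm2_point (h1 _) (h2 _) h12 hk c hyr

end Pool.Agent.Helper20.PN
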