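import Pool.Agent.Helper20.PN.Defs2
import Pool.Agent.Helper20.PN.Flux
import Pool.Agent.Helper20.PN.Poin
import Pool.Agent.Helper20.PN.Proj
import Pool.Agent.Helper20.PN.Sob
import Pool.Agent.Helper20.PN.Sob2
import Pool.Agent.Helper20.PN.WHarm2

/-! The harmonic approximation. -/

open MeasureTheory Metric Set Filter
open scoped ENNReal NNReal ContDiff Topology Gradient

namespace Pool.Agent.Helper20.PN

/-! ### pointwise inequalities -/

private theorem approx_one_add {a b : ℝ} (ha : 0 < a) (hab : a ≤ b) (x : ℝ≥0∞) :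
    x ^ a ≤ 1 + x ^ b := by
  rcases le_total x 1 with h | h
  · exact (ENNReal.rpow_le_one h ha.le).trans le_self_add
  · exact (ENNReal.rpow_le_rpow_of_exponent_le h hab).trans le_add_self

private theorem approx_young_real {κ p q a : ℝ} (hκ : 0 < κ) (hκ1 : κ ≤ 1) (hp : 1 ≤ p)
    (hpq : 2 * p ≤ 2 + q) (ha : 0 ≤ a) :
    a ^ p ≤ κ⁻¹ * a ^ (2 : ℝ) + κ * (1 + a ^ q) := by
  have h2 : 0 ≤ a ^ (2 : ℝ) := Real.rpow_nonneg ha _
  have hq0 : 0 ≤ a ^ q := Real.rpow_nonneg ha _
  have hi : 1 ≤ κ⁻¹ := (one_le_inv₀ hκ).2 hκ1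
  rcases le_total a κ with h | h
  · -- small values
    have h3 : a ^ p ≤ a := by
      rcases ha.eq_or_lt with h0 | h0
      · rw [← h0, Real.zero_rpow (by linarith)]
      · have := Real.rpow_le_rpow_of_exponent_ge h0 (h.trans hκ1) hp
        rwa [Real.rpow_one] at this
    have h4 : 0 ≤ κ⁻¹ * a ^ (2 : ℝ) := by positivity
    nlinarith [mul_nonneg hκ.le hq0]
  · have ha0 : 0 < a := lt_of_lt_of_le hκ h
    rcases le_total a 1 with h1 | h1
    · -- middle values
      have h3 : a ^ p ≤ a := by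
        have := Real.rpow_le_rpow_of_exponent_ge ha0 h1 hp
        rwa [Real.rpow_one] at this
      have h4 : a ≤ κ⁻¹ * a ^ (2 : ℝ) := by
        rw [Real.rpow_two, inv_mul_eq_div, le_div_iff₀ hκ]
        nlinarith
      have h5 : 0 ≤ κ * (1 + a ^ q) := by positivity
      linarith
    · rcases le_total (κ⁻¹) (a ^ ((q - 2) / 2)) with h3 | h3
      · -- large values
        have h4 : a ^ p ≤ a ^ ((2 + q) / 2) :=
          Real.rpow_le_rpow_of_exponent_le h1 (by linarith)
        have h5 : a ^ ((2 + q) / 2) * a ^ ((q - 2) / 2) = a ^ q := by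
          rw [← Real.rpow_add ha0]
          congr 1
          ring
        have h6 : a ^ ((2 + q) / 2) ≤ κ * a ^ q := by
          have h7 : κ⁻¹ * a ^ ((2 + q) / 2) ≤ a ^ q := by
            rw [← h5, mul_comm]
            exact mul_le_mul_of_nonneg_left h3 (Real.rpow_nonneg ha _)
          rw [inv_mul_eq_div, div_le_iff₀ hκ] at h7
          linarith
        have h8 : 0 ≤ κ⁻¹ * a ^ (2 : ℝ) := by positivity
        nlinarith
      · have h4 : a ^ p ≤ a ^ ((2 + q) / 2) :=
          Real.rpow_le_rpow_of_exponent_le h1 (by linarith)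
        have h5 : a ^ ((q - 2) / 2) * a ^ (2 : ℝ) = a ^ ((2 + q) / 2) := by
          rw [← Real.rpow_add ha0]
          congr 1
          ring
        have h6 : a ^ ((2 + q) / 2) ≤ κ⁻¹ * a ^ (2 : ℝ) := by
          rw [← h5]
          exact mul_le_mul_of_nonneg_right h3 h2
        have h7 : 0 ≤ κ * (1 + a ^ q) := by positivity
        linarith

private theorem approx_young {κ p q : ℝ} (hκ : 0 < κ) (hκ1 : κ ≤ 1) (hp : 1 ≤ p)
    (hq : 2 ≤ q) (hpq : 2 * p ≤ 2 + q) (v : ℝ) :
    ‖v‖ₑ ^ p ≤ ENNReal.ofReal κ⁻¹ * ‖v‖ₑ ^ (2 : ℝ) +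
      ENNReal.ofReal κ * (1 + ‖v‖ₑ ^ q) := by
  have hv := norm_nonneg v
  rw [← ofReal_norm, ENNReal.ofReal_rpow_of_nonneg hv (by linarith),
    ENNReal.ofReal_rpow_of_nonneg hv (by norm_num),
    ENNReal.ofReal_rpow_of_nonneg hv (by linarith), ← ENNReal.ofReal_one,
    ← ENNReal.ofReal_add zero_le_one (Real.rpow_nonneg hv _),
    ← ENNReal.ofReal_mul (by positivity), ← ENNReal.ofReal_mul hκ.le,
    ← ENNReal.ofReal_add (by positivity) (by positivity)]
  exact ENNReal.ofReal_le_ofReal (approx_young_real hκ hκ1 hp hpq hv)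

/-! ### the weak gradient tested with first derivatives -/

private theorem approx_loc {n : ℕ} {E : Type*} [NormedAddCommGroup E] {Ω : Set (V n)}
    {f : V n → E} (hf : LocallyIntegrableOn f Ω) {K : Set (V n)} (hK : IsCompact K)
    (hs : K ⊆ Ω) : LocallyIntegrable (K.indicator f) := by
  have h1 : IntegrableOn f K := hf.integrableOn_compact_subset hs hK
  exact ((integrable_indicator_iff hK.measurableSet).2 h1).locallyIntegrable

private theorem approx_int_left {n : ℕ} {E : Type*} [NormedAddCommGroup E] [NormedSpace ℝ E]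
    {Ω : Set (V n)} {f : V n → E} (hf : LocallyIntegrableOn f Ω) {a : V n → ℝ}
    (ha : Continuous a) (hac : HasCompactSupport a) (hs : tsupport a ⊆ Ω) :
    Integrable (fun x => a x • f x) := by
  have h1 := (approx_loc hf hac hs).integrable_smul_left_of_hasCompactSupport ha hac
  refine h1.congr (Eventually.of_forall fun x => ?_)
  by_cases hx : x ∈ tsupport a
  · simp [indicator_of_mem hx]
  · simp [image_eq_zero_of_notMem_tsupport hx]

private theorem approx_tsupp {n : ℕ} {ψ : V n → ℝ} (i : Fin n) :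
    tsupport (pd i ψ) ⊆ tsupport ψ := by
  refine closure_minimal (fun x hx => ?_) (isClosed_tsupport ψ)
  by_contra hx'
  apply hx
  have h1 : fderiv ℝ ψ x = 0 := by
    by_contra h2
    exact hx' (tsupport_fderiv_subset ℝ (subset_tsupport (fderiv ℝ ψ) h2))
  simp [pd, h1]

private theorem approx_test_pd {n : ℕ} {Ω : Set (V n)} {ψ : V n → ℝ} (hψ : IsTest Ω ψ)
    (i : Fin n) : IsTest Ω (pd i ψ) := by
  obtain ⟨h1, h2, h3⟩ := hψ
  refine ⟨?_, h2.of_isClosed_subset (isClosed_tsupport _) (approx_tsupp i),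
    (approx_tsupp i).trans h3⟩
  have h4 : ContDiff ℝ ∞ (fderiv ℝ ψ) := h1.fderiv_right (m := ∞) (by simp)
  exact h4.clm_apply contDiff_const

private theorem approx_sum {n : ℕ} (ψ : V n → ℝ) (x v : V n) :
    fderiv ℝ ψ x v = ∑ i, v i * pd i ψ x := by
  have h1 : v = ∑ i, v i • (EuclideanSpace.single i (1 : ℝ) : V n) := by
    ext j
    simp [Finset.sum_apply, Pi.single_apply]
  conv_lhs => rw [h1]
  rw [map_sum]
  refine Finset.sum_congr rfl fun i _ => ?_
  rw [map_smul, smul_eq_mul, pd]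

private theorem approx_lap {n : ℕ} {Ω : Set (V n)} {u : V n → ℝ} {g : V n → V n}
    (hw : IsWeakGrad Ω u g) {ψ : V n → ℝ} (hψ : IsTest Ω ψ) :
    Integrable (fun x => fderiv ℝ ψ x (g x)) ∧
      ∫ x, u x * lap ψ x = - ∫ x, fderiv ℝ ψ x (g x) := by
  obtain ⟨hu, hg, hid⟩ := hw
  have hI1 : ∀ i, Integrable (fun x => g x i * pd i ψ x) := by
    intro i
    obtain ⟨t1, t2, t3⟩ := approx_test_pd hψ i
    have h3 := approx_int_left hg t1.continuous t2 t3
    have h4 := (EuclideanSpace.proj (𝕜 := ℝ) i : V n →L[ℝ] ℝ).integrable_comp h3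
    refine h4.congr (Eventually.of_forall fun x => ?_)
    simp [mul_comm]
  have hI2 : ∀ i, Integrable (fun x => u x * pd i (pd i ψ) x) := by
    intro i
    obtain ⟨t1, t2, t3⟩ := approx_test_pd (approx_test_pd hψ i) i
    have h3 := approx_int_left hu t1.continuous t2 t3
    refine h3.congr (Eventually.of_forall fun x => ?_)
    simp [mul_comm]
  have h5 : (fun x => fderiv ℝ ψ x (g x)) = fun x => ∑ i, g x i * pd i ψ x := by
    funext x
    exact approx_sum ψ x (g x)
  refine ⟨?_, ?_⟩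
  · rw [h5]
    exact integrable_finsetSum _ fun i _ => hI1 i
  · rw [h5, integral_finsetSum _ fun i _ => hI1 i, ← Finset.sum_neg_distrib]
    have h6 : (fun x => u x * lap ψ x) = fun x => ∑ i, u x * pd i (pd i ψ) x := by
      funext x
      rw [lap, Finset.mul_sum]
    rw [h6, integral_finsetSum _ fun i _ => hI2 i]
    exact Finset.sum_congr rfl fun i _ => hid _ (approx_test_pd hψ i) i

private theorem approx_flux {n : ℕ} {p : ℝ} (hp : 1 ≤ p) {Ω : Set (V n)}
    {u : V n → ℝ} {g : V n → V n} (hs : IsWeakSol p Ω u g) {ψ : V n → ℝ} (hψ : IsTest Ω ψ) :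
    ∫ x, u x * lap ψ x = - ∫ x, fderiv ℝ ψ x (g x - ‖g x‖ ^ (p - 2) • g x) := by
  obtain ⟨h1, h2⟩ := approx_lap hs.grad hψ
  have h3 := hs.eqn ψ hψ
  have hK : IsCompact (tsupport ψ) := hψ.2.1
  have hgm : AEStronglyMeasurable g (volume.restrict (tsupport ψ)) :=
    (hs.grad.2.1.aestronglyMeasurable).mono_measure (Measure.restrict_mono hψ.2.2 le_rfl)
  have hcd : Continuous (fderiv ℝ ψ) := hψ.1.continuous_fderiv (by simp)
  have hcs : HasCompactSupport (fderiv ℝ ψ) := hψ.2.1.fderiv ℝ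
  obtain ⟨B, hB⟩ := hcd.bounded_above_of_compact_support hcs
  have hB0 : 0 ≤ B := (norm_nonneg _).trans (hB 0)
  have hint : Integrable (fun x => ‖g x‖ ^ (p - 2) * fderiv ℝ ψ x (g x)) := by
    have hsupp : Function.support (fun x => ‖g x‖ ^ (p - 2) * fderiv ℝ ψ x (g x)) ⊆
        tsupport ψ := by
      intro x hx
      by_contra hx'
      apply hx
      have h4 : fderiv ℝ ψ x = 0 := by
        by_contra h5
        exact hx' (tsupport_fderiv_subset ℝ (subset_tsupport (fderiv ℝ ψ) h5))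
      simp [h4]
    rw [← integrableOn_iff_integrable_of_support_subset hsupp]
    refine ⟨?_, ?_⟩
    · refine AEStronglyMeasurable.mul ?_ ?_
      · exact (hgm.norm.aemeasurable.pow_const _).aestronglyMeasurable
      · exact h1.aestronglyMeasurable.restrict
    · have h6 : ∀ x, ‖‖g x‖ ^ (p - 2) * fderiv ℝ ψ x (g x)‖ₑ ≤
          ENNReal.ofReal B * (1 + ‖g x‖ₑ ^ p) := by
        intro x
        have hx0 := norm_nonneg (g x)
        rw [← ofReal_norm, ← ofReal_norm, ENNReal.ofReal_rpow_of_nonneg hx0 (by linarith),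
          ← ENNReal.ofReal_one, ← ENNReal.ofReal_add zero_le_one (Real.rpow_nonneg hx0 _),
          ← ENNReal.ofReal_mul hB0]
        refine ENNReal.ofReal_le_ofReal ?_
        rw [norm_mul, Real.norm_of_nonneg (Real.rpow_nonneg hx0 _)]
        have h7 : ‖fderiv ℝ ψ x (g x)‖ ≤ B * ‖g x‖ :=
          (ContinuousLinearMap.le_opNorm _ _).trans
            (mul_le_mul_of_nonneg_right (hB x) hx0)
        have h8 : ‖g x‖ ^ (p - 2) * ‖g x‖ ≤ 1 + ‖g x‖ ^ p := by
          rcases hx0.eq_or_lt with h0 | h0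
          · rw [← h0, mul_zero]
            have : (0 : ℝ) ≤ 0 ^ p := Real.rpow_nonneg le_rfl _
            linarith
          · have h9 : ‖g x‖ ^ (p - 2) * ‖g x‖ = ‖g x‖ ^ (p - 1) := by
              nth_rewrite 2 [← Real.rpow_one ‖g x‖]
              rw [← Real.rpow_add h0]
              congr 1
              ring
            rw [h9]
            rcases le_total ‖g x‖ 1 with h10 | h10
            · have h11 := Real.rpow_le_one hx0 h10 (show 0 ≤ p - 1 by linarith)
              have h12 := Real.rpow_nonneg hx0 p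
              linarith
            · have h11 := Real.rpow_le_rpow_of_exponent_le h10 (show p - 1 ≤ p by linarith)
              linarith
        calc ‖g x‖ ^ (p - 2) * ‖fderiv ℝ ψ x (g x)‖ ≤ ‖g x‖ ^ (p - 2) * (B * ‖g x‖) :=
              mul_le_mul_of_nonneg_left h7 (Real.rpow_nonneg hx0 _)
          _ = B * (‖g x‖ ^ (p - 2) * ‖g x‖) := by ring
          _ ≤ _ := mul_le_mul_of_nonneg_left h8 hB0
      refine lt_of_le_of_lt (lintegral_mono h6) ?_
      rw [lintegral_const_mul' _ _ ENNReal.ofReal_ne_top]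
      refine ENNReal.mul_lt_top ENNReal.ofReal_lt_top ?_
      rw [lintegral_add_left measurable_const]
      refine ENNReal.add_lt_top.2 ⟨?_, hs.loc_g _ hψ.2.2 hK⟩
      rw [lintegral_const, one_mul, Measure.restrict_apply_univ]
      exact hK.measure_lt_top
  have h4 : (fun x => fderiv ℝ ψ x (g x - ‖g x‖ ^ (p - 2) • g x)) =
      fun x => fderiv ℝ ψ x (g x) - ‖g x‖ ^ (p - 2) * fderiv ℝ ψ x (g x) := by
    funext x
    rw [map_sub, map_smul, smul_eq_mul]
  rw [h4, integral_sub h1 hint, h3, sub_zero, h2]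

/-! ### norms -/

private theorem approx_nrm {n : ℕ} {F : Type*} [NormedAddCommGroup F] {a : ℝ} (ha : 0 < a)
    (S : Set (V n)) (f : V n → F) :
    nrm a S f = eLpNorm f (ENNReal.ofReal a) (volume.restrict S) := by
  rw [eLpNorm_eq_lintegral_rpow_enorm_toReal (by simpa using ha) ENNReal.ofReal_ne_top,
    ENNReal.toReal_ofReal ha.le, nrm]

private theorem approx_lint {n : ℕ} {F : Type*} [ENorm F] {S : Set (V n)} {f : V n → F}
    {a B : ℝ} (ha : 0 < a) (hB : 0 ≤ B) (h : nrm a S f ≤ ENNReal.ofReal B) :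
    ∫⁻ x in S, ‖f x‖ₑ ^ a ≤ ENNReal.ofReal (B ^ a) := by
  have h1 := ENNReal.rpow_le_rpow h ha.le
  rwa [nrm, ← ENNReal.rpow_mul, one_div, inv_mul_cancel₀ ha.ne', ENNReal.rpow_one,
    ENNReal.ofReal_rpow_of_nonneg hB ha.le] at h1

private theorem approx_nrm_le {n : ℕ} {F : Type*} [ENorm F] {S : Set (V n)} {f : V n → F}
    {a X : ℝ} (ha : 0 < a) (hX : 0 ≤ X) (h : ∫⁻ x in S, ‖f x‖ₑ ^ a ≤ ENNReal.ofReal X) :
    nrm a S f ≤ ENNReal.ofReal (X ^ (1 / a)) := by
  rw [← ENNReal.ofReal_rpow_of_nonneg hX (by positivity)]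
  exact ENNReal.rpow_le_rpow h (by positivity)

private theorem approx_sq {n : ℕ} {S : Set (V n)} {f : V n → ℝ} {B : ℝ} (hB : 0 ≤ B)
    (h : nrm 2 S f ≤ ENNReal.ofReal B) : ∫ x in S, f x ^ 2 ≤ B ^ 2 := by
  have h1 := approx_lint (by norm_num) hB h
  by_cases hi : Integrable (fun x => f x ^ 2) (volume.restrict S)
  · have h2 := ofReal_integral_eq_lintegral_ofReal hi
      (Eventually.of_forall fun x => sq_nonneg (f x))
    have h3 : ∀ x, ENNReal.ofReal (f x ^ 2) = ‖f x‖ₑ ^ (2 : ℝ) := by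
      intro x
      rw [← ofReal_norm, ENNReal.ofReal_rpow_of_nonneg (norm_nonneg _) (by norm_num),
        Real.rpow_two, Real.norm_eq_abs, sq_abs]
    rw [lintegral_congr h3] at h2
    rw [← h2, Real.rpow_two] at h1
    exact (ENNReal.ofReal_le_ofReal_iff (sq_nonneg B)).1 h1
  · rw [integral_undef hi]
    exact sq_nonneg B

private theorem approx_s0 {n : ℕ} (hn : 3 ≤ n) : 1 ≤ s0 n ∧ s0 n ≤ 2 - 1 / (2 * n) := by
  have h : (3 : ℝ) ≤ n := by exact_mod_cast hn
  unfold s0
  constructor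
  · rw [le_div_iff₀ (by linarith)]
    linarith
  · have h1 : (2 * (n : ℝ)) / (n + 1) = 2 - 2 / (n + 1) := by
      field_simp
      ring
    rw [h1]
    have h2 : 1 / (2 * (n : ℝ)) ≤ 2 / (n + 1) := by
      rw [div_le_div_iff₀ (by linarith) (by linarith)]
      linarith
    linarith

private theorem approx_q0 {n : ℕ} (hn : 3 ≤ n) :
    2 ≤ q0 n ∧ q0 n ≤ 3 ∧ 2 + 2 / n ≤ q0 n := by
  have h : (3 : ℝ) ≤ n := by exact_mod_cast hn
  have h0 : (0 : ℝ) < n - 1 := by linarith
  unfold q0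
  refine ⟨?_, ?_, ?_⟩
  · rw [le_div_iff₀ h0]
    linarith
  · rw [div_le_iff₀ h0]
    linarith
  · have h1 : (2 * (n : ℝ)) / (n - 1) = 2 + 2 / (n - 1) := by
      field_simp
      ring
    rw [h1]
    have h2 : 2 / (n : ℝ) ≤ 2 / (n - 1) := by
      rw [div_le_div_iff₀ (by linarith) h0]
      linarith
    linarith

/-! ### Sobolev and Poincare -/

private theorem approx_first (n : ℕ) (hn : 3 ≤ n) : ∃ C₁ : ℝ, 0 ≤ C₁ ∧ ∀ p : ℝ, s0 n ≤ p →
    ∀ (Ω : Set (V n)) (u : V n → ℝ) (g : V n → V n), IsOpen Ω → closedBall 0 2 ⊆ Ω →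
    IsWeakSol p Ω u g → ∫⁻ x in ball 0 2, ‖g x‖ₑ ^ p = 1 →
    MemLp u 2 (volume.restrict (ball 0 2)) ∧ ∃ c : ℝ, ∀ t : ℝ, 0 < t → t < 2 →
      nrm (q0 n) (ball 0 t) (fun x => u x - c) ≤ ENNReal.ofReal (C₁ / (2 - t)) := by
  obtain ⟨hs1, hs2⟩ := approx_s0 hn
  have hs0 : 0 < s0 n := by linarith
  obtain ⟨CP, hP⟩ := poincare n (s0 n) hs1
  obtain ⟨CL, hL⟩ := sobolev_loc n hn
  obtain ⟨CS, hCS, hS⟩ := sobolev_loc_gen n hn
  set om : ℝ := (volume (ball (0 : V n) 2)).toReal with hom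
  have hom0 : 0 ≤ om := ENNReal.toReal_nonneg
  have home : volume (ball (0 : V n) 2) = ENNReal.ofReal om :=
    (ENNReal.ofReal_toReal measure_ball_lt_top.ne).symm
  set N₁ : ℝ := (om + 1) ^ (1 / s0 n) + (CP * (om + 1)) ^ (1 / s0 n) with hN
  have hN0 : 0 ≤ N₁ := by positivity
  refine ⟨CS * N₁, by positivity, fun p hp Ω u g hΩ hB hs hg1 => ?_⟩
  have hloc : ∀ (F : Type) [NormedAddCommGroup F] (f : V n → F),
      (∀ K ⊆ Ω, IsCompact K → ∫⁻ x in K, ‖f x‖ₑ ^ p < ⊤) →
      ∀ K ⊆ Ω, IsCompact K → ∫⁻ x in K, ‖f x‖ₑ ^ s0 n < ⊤ := by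
    intro F _ f hf K hK hKc
    refine lt_of_le_of_lt (lintegral_mono fun x => approx_one_add hs0 hp _) ?_
    rw [lintegral_add_left measurable_const]
    refine ENNReal.add_lt_top.2 ⟨?_, hf K hK hKc⟩
    rw [lintegral_const, one_mul, Measure.restrict_apply_univ]
    exact hKc.measure_lt_top
  have hu0 := hloc ℝ u hs.loc_u
  have hg0 := hloc (V n) g hs.loc_g
  have hgs : ∫⁻ x in ball 0 2, ‖g x‖ₑ ^ s0 n ≤ ENNReal.ofReal (om + 1) := by
    refine (lintegral_mono fun x => approx_one_add hs0 hp _).trans ?_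
    rw [lintegral_add_left measurable_const, hg1, lintegral_const, one_mul,
      Measure.restrict_apply_univ, home, ENNReal.ofReal_add hom0 zero_le_one, ENNReal.ofReal_one]
  obtain ⟨c, hc⟩ := hP Ω u g hΩ hs.grad hu0 hg0 2 (by norm_num) le_rfl hB
  have hcs : ∫⁻ x in ball 0 2, ‖u x - c‖ₑ ^ s0 n ≤ ENNReal.ofReal (CP * (om + 1)) := by
    refine hc.trans ?_
    rw [ENNReal.ofReal_mul (NNReal.coe_nonneg CP), ENNReal.ofReal_coe_nnreal]
    exact mul_le_mul_right hgs _
  refine ⟨(hL Ω u g hΩ hB hs.grad hu0 hg0).1, c, fun t ht ht2 => ?_⟩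
  refine (hS Ω u g hΩ hB hs.grad hu0 hg0 c t ht ht2).trans ?_
  have h1 := approx_nrm_le hs0 (by positivity) hgs
  have h2 := approx_nrm_le (f := fun x => u x - c) hs0 (by positivity) hcs
  have h3 : CS * N₁ / (2 - t) = CS / (2 - t) * N₁ := by ring
  have h4 : 0 ≤ CS / (2 - t) := div_nonneg hCS.le (by linarith)
  rw [h3, ENNReal.ofReal_mul h4]
  refine mul_le_mul_right ?_ _
  rw [hN, ENNReal.ofReal_add (by positivity) (by positivity)]
  exact add_le_add h1 h2

/-! ### the harmonic function -/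

private theorem approx_second (n : ℕ) (hn : 3 ≤ n) : ∃ K₀ δ : ℝ, 0 < K₀ ∧ 0 < δ ∧
    δ ≤ 1 / (2 * n) ∧ ∀ p : ℝ, |p - 2| ≤ δ → 1 ≤ p →
    ∀ (Ω : Set (V n)) (u : V n → ℝ) (g : V n → V n), closedBall 0 2 ⊆ Ω →
    IsWeakSol p Ω u g → ∫⁻ x in ball 0 2, ‖g x‖ₑ ^ p = 1 →
    MemLp u 2 (volume.restrict (ball 0 2)) → ∃ h : V n → ℝ, IsWHarm h ∧
      nrm 2 (ball 0 2) (fun x => u x - h x) ≤ ENNReal.ofReal (K₀ * |p - 2|) := by
  obtain ⟨CH, hH⟩ := harmonic_approx n hn
  obtain ⟨CF, δF, hCF, hδF, hδF', hF⟩ := flux n hn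
  refine ⟨CH * CF + 1, δF, by positivity, hδF, hδF', fun p hp hp1 Ω u g hB hs hg1 hu => ?_⟩
  have hBΩ : ball (0 : V n) 2 ⊆ Ω := ball_subset_closedBall.trans hB
  have hgm : AEStronglyMeasurable g (volume.restrict (ball 0 2)) :=
    (hs.grad.2.1.aestronglyMeasurable).mono_measure (Measure.restrict_mono hBΩ le_rfl)
  have hflux := hF p hp g hgm hg1.le
  have hss : 0 < ss n := by
    have : (3 : ℝ) ≤ n := by exact_mod_cast hn
    unfold ss
    positivity
  have hRm : AEStronglyMeasurable (fun x => g x - ‖g x‖ ^ (p - 2) • g x)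
      (volume.restrict (ball 0 2)) := by
    have hsm : AEStronglyMeasurable (fun x => ‖g x‖ ^ (p - 2)) (volume.restrict (ball 0 2)) :=
      (hgm.norm.aemeasurable.pow_const _).aestronglyMeasurable
    exact hgm.sub (hsm.smul hgm)
  have hfin := approx_lint (f := fun x => g x - ‖g x‖ ^ (p - 2) • g x) hss (by positivity) hflux
  obtain ⟨h, hh, hle⟩ := hH u (fun x => g x - ‖g x‖ ^ (p - 2) • g x) hu hRm
    (lt_of_le_of_lt hfin ENNReal.ofReal_lt_top)
    (fun ψ hψ => approx_flux hp1 hs ⟨hψ.1, hψ.2.1, hψ.2.2.trans hBΩ⟩)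
  refine ⟨h, hh, hle.trans ?_⟩
  refine (mul_le_mul_right hflux _).trans ?_
  rw [← ENNReal.ofReal_coe_nnreal, ← ENNReal.ofReal_mul (NNReal.coe_nonneg CH)]
  refine ENNReal.ofReal_le_ofReal ?_
  have := abs_nonneg (p - 2)
  nlinarith [NNReal.coe_nonneg CH]

/-! ### bounds on smaller balls -/

private theorem approx_vol {n : ℕ} {t e : ℝ} (ht2 : t ≤ 2) (he : 0 ≤ e) (he1 : e ≤ 1) :
    volume (ball (0 : V n) t) ^ e ≤
      ENNReal.ofReal ((volume (ball (0 : V n) 2)).toReal + 1) := by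
  have h1 : volume (ball (0 : V n) t) ≤
      ENNReal.ofReal ((volume (ball (0 : V n) 2)).toReal + 1) := by
    refine (measure_mono (ball_subset_ball ht2)).trans ?_
    rw [← ENNReal.ofReal_toReal (measure_ball_lt_top (μ := volume) (x := (0 : V n)) (r := 2)).ne,
      ENNReal.toReal_ofReal ENNReal.toReal_nonneg]
    exact ENNReal.ofReal_le_ofReal (by linarith)
  rcases le_total (volume (ball (0 : V n) t)) 1 with h | h
  · refine (ENNReal.rpow_le_one h he).trans ?_
    rw [← ENNReal.ofReal_one]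
    refine ENNReal.ofReal_le_ofReal ?_
    have : 0 ≤ (volume (ball (0 : V n) 2)).toReal := ENNReal.toReal_nonneg
    linarith
  · refine le_trans ?_ h1
    have h2 := ENNReal.rpow_le_rpow_of_exponent_le h he1
    rwa [ENNReal.rpow_one] at h2

private theorem approx_third (n : ℕ) (hn : 3 ≤ n) (C₁ : ℝ) (hC₁ : 0 ≤ C₁) :
    ∃ C₂ C₆ : ℝ, 0 ≤ C₂ ∧ 0 ≤ C₆ ∧ ∀ (u h : V n → ℝ) (c : ℝ),
    MemLp u 2 (volume.restrict (ball 0 2)) → IsWHarm h →
    (∀ t : ℝ, 0 < t → t < 2 →
      nrm (q0 n) (ball 0 t) (fun x => u x - c) ≤ ENNReal.ofReal (C₁ / (2 - t))) →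
    nrm 2 (ball 0 2) (fun x => u x - h x) ≤ 1 → ∀ t : ℝ, 0 < t → t < 2 →
      nrm 2 (ball 0 t) (fun x => u x - c) ≤ ENNReal.ofReal (C₂ / (2 - t)) ∧
      nrm (q0 n) (ball 0 t) (fun x => u x - h x) ≤ ENNReal.ofReal (C₆ / (2 - t) ^ (n + 1)) ∧
      1 ≤ C₆ / (2 - t) ^ (n + 1) := by
  obtain ⟨hq2, hq3, -⟩ := approx_q0 hn
  have hq0 : 0 < q0 n := by linarith
  obtain ⟨CW, hCW, hW⟩ := wharm_sup_gen n
  set om : ℝ := (volume (ball (0 : V n) 2)).toReal with hom
  have hom0 : 0 ≤ om := ENNReal.toReal_nonneg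
  set C₂ : ℝ := C₁ * (om + 1) with hC₂
  have hC₂0 : 0 ≤ C₂ := by positivity
  set C₅ : ℝ := CW * 2 ^ n * ((2 * C₂ + 2) * (om + 1)) with hC₅
  have hC₅0 : 0 ≤ C₅ := by positivity
  refine ⟨C₂, C₁ * 2 ^ n + (om + 1) * C₅ + 2 ^ (n + 1), hC₂0, by positivity,
    fun u h c hu hh hq hk => ?_⟩
  have hum : ∀ t : ℝ, t ≤ 2 → AEStronglyMeasurable u (volume.restrict (ball 0 t)) :=
    fun t ht => hu.1.mono_measure (Measure.restrict_mono (ball_subset_ball ht) le_rfl)
  have hhm : ∀ t : ℝ, t ≤ 2 → AEStronglyMeasurable h (volume.restrict (ball 0 t)) :=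
    fun t ht => hh.1.1.mono_measure (Measure.restrict_mono (ball_subset_ball ht) le_rfl)
  have h2e : ENNReal.ofReal 2 = 2 := by norm_num
  -- the oscillation of `u`
  have hA : ∀ t : ℝ, 0 < t → t < 2 →
      nrm 2 (ball 0 t) (fun x => u x - c) ≤ ENNReal.ofReal (C₂ / (2 - t)) := by
    intro t ht ht2
    have h1 := hq t ht ht2
    rw [approx_nrm hq0] at h1
    rw [approx_nrm two_pos]
    have hm : AEStronglyMeasurable (fun x => u x - c) (volume.restrict (ball 0 t)) :=
      (hum t ht2.le).sub aestronglyMeasurable_const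
    refine (eLpNorm_le_eLpNorm_mul_rpow_measure_univ (ENNReal.ofReal_le_ofReal hq2) hm).trans ?_
    rw [Measure.restrict_apply_univ, ENNReal.toReal_ofReal two_pos.le,
      ENNReal.toReal_ofReal hq0.le]
    have h3 : C₂ / (2 - t) = C₁ / (2 - t) * (om + 1) := by
      rw [hC₂]
      ring
    have h4 : 0 ≤ C₁ / (2 - t) := div_nonneg hC₁ (by linarith)
    rw [h3, ENNReal.ofReal_mul h4]
    have h5 : 1 / q0 n ≤ 1 / 2 := one_div_le_one_div_of_le two_pos hq2
    have h6 : 0 < 1 / q0 n := by positivity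
    exact mul_le_mul' h1 (approx_vol ht2.le (by linarith) (by linarith))
  intro t ht ht2
  have hd : 0 < 2 - t := by linarith
  refine ⟨hA t ht ht2, ?_, ?_⟩
  · set t' : ℝ := (t + 2) / 2 with ht'
    have ht'0 : 0 < t' := by rw [ht']; linarith
    have ht'2 : t' < 2 := by rw [ht']; linarith
    have htt' : t < t' := by rw [ht']; linarith
    -- the mean of `h - c`
    have h1 : nrm 2 (ball 0 t') (fun x => h x - c) ≤ ENNReal.ofReal (C₂ / (2 - t') + 1) := by
      have h2 := hA t' ht'0 ht'2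
      have h3 : nrm 2 (ball 0 t') (fun x => u x - h x) ≤ 1 := by
        refine le_trans ?_ hk
        refine ENNReal.rpow_le_rpow ?_ (by norm_num)
        exact lintegral_mono_set (ball_subset_ball ht'2.le)
      rw [approx_nrm two_pos] at h2 h3 ⊢
      have h4 : (fun x => h x - c) = (fun x => u x - c) - fun x => u x - h x := by
        funext x
        simp only [Pi.sub_apply]
        ring
      have hm1 : AEStronglyMeasurable (fun x => u x - c) (volume.restrict (ball 0 t')) :=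
        (hum t' ht'2.le).sub aestronglyMeasurable_const
      have hm2 : AEStronglyMeasurable (fun x => u x - h x) (volume.restrict (ball 0 t')) :=
        (hum t' ht'2.le).sub (hhm t' ht'2.le)
      rw [h4]
      refine (eLpNorm_sub_le hm1 hm2 ?_).trans ?_
      · rw [h2e]
        norm_num
      · have h5 : 0 ≤ C₂ / (2 - t') := div_nonneg hC₂0 (by linarith)
        rw [ENNReal.ofReal_add h5 zero_le_one, ENNReal.ofReal_one]
        exact add_le_add h2 h3
    have hmc : AEStronglyMeasurable (fun x => h x - c) (volume.restrict (ball 0 t')) :=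
      (hhm t' ht'2.le).sub aestronglyMeasurable_const
    have h6 : ∫ x in ball 0 t', |h x - c| ≤ (C₂ / (2 - t') + 1) * (om + 1) := by
      have h7 := eLpNorm_le_eLpNorm_mul_rpow_measure_univ
        (show (1 : ℝ≥0∞) ≤ ENNReal.ofReal 2 by rw [h2e]; norm_num) hmc
      rw [approx_nrm two_pos] at h1
      rw [Measure.restrict_apply_univ, ENNReal.toReal_ofReal two_pos.le, ENNReal.toReal_one,
        eLpNorm_one_eq_lintegral_enorm] at h7
      have h8 := h7.trans (mul_le_mul' h1 (approx_vol ht'2.le (by norm_num) (by norm_num)))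
      have h5 : 0 ≤ C₂ / (2 - t') + 1 := by
        have := div_nonneg hC₂0 (show 0 ≤ 2 - t' by linarith)
        linarith
      rw [← ENNReal.ofReal_mul h5] at h8
      have h9 := integral_norm_eq_lintegral_enorm hmc
      simp only [Real.norm_eq_abs] at h9
      rw [h9]
      exact ENNReal.toReal_le_of_le_ofReal (by positivity) h8
    -- the bound for `h - c`
    have h10 : ∀ᵐ y ∂(volume.restrict (ball (0 : V n) t)),
        ‖h y - c‖ ≤ C₅ / (2 - t) ^ (n + 1) := by
      filter_upwards [hW h hh c t t' ht htt' ht'2] with y hy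
      rw [Real.norm_eq_abs]
      refine hy.trans ?_
      have e1 : t' - t = (2 - t) / 2 := by rw [ht']; ring
      have e2 : 2 - t' = (2 - t) / 2 := by rw [ht']; ring
      rw [e2] at h6
      have h11 : (C₂ / ((2 - t) / 2) + 1) * (om + 1) ≤
          (2 * C₂ + 2) * (om + 1) / (2 - t) := by
        have h0 : (0 : ℝ) ≤ om + 1 := by linarith
        have h0' : (2 * C₂ + 2) * (om + 1) / (2 - t) = (2 * C₂ + 2) / (2 - t) * (om + 1) := by
          ring
        rw [h0']
        refine mul_le_mul_of_nonneg_right ?_ h0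
        rw [le_div_iff₀ hd, add_mul]
        have : C₂ / ((2 - t) / 2) * (2 - t) = 2 * C₂ := by
          field_simp
        rw [this]
        linarith
      have h12 : 0 ≤ CW / (t' - t) ^ n := by
        rw [e1]
        positivity
      refine (mul_le_mul_of_nonneg_left (h6.trans h11) h12).trans (le_of_eq ?_)
      rw [e1, hC₅, div_pow, pow_succ]
      field_simp
    have h13 : nrm (q0 n) (ball 0 t) (fun x => h x - c) ≤
        ENNReal.ofReal ((om + 1) * (C₅ / (2 - t) ^ (n + 1))) := by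
      rw [approx_nrm hq0]
      refine (eLpNorm_le_of_ae_bound h10).trans ?_
      rw [Measure.restrict_apply_univ, ENNReal.toReal_ofReal hq0.le,
        ENNReal.ofReal_mul (by positivity)]
      have h14 : (q0 n)⁻¹ ≤ 1 := inv_le_one_of_one_le₀ (by linarith)
      exact mul_le_mul' (approx_vol ht2.le (by positivity) h14) le_rfl
    have h15 := hq t ht ht2
    have hm1 : AEStronglyMeasurable (fun x => u x - c) (volume.restrict (ball 0 t)) :=
      (hum t ht2.le).sub aestronglyMeasurable_const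
    have hm2 : AEStronglyMeasurable (fun x => h x - c) (volume.restrict (ball 0 t)) :=
      (hhm t ht2.le).sub aestronglyMeasurable_const
    rw [approx_nrm hq0] at h13 h15 ⊢
    have h16 : (fun x => u x - h x) = (fun x => u x - c) - fun x => h x - c := by
      funext x
      simp only [Pi.sub_apply]
      ring
    rw [h16]
    refine (eLpNorm_sub_le hm1 hm2 ?_).trans ?_
    · rw [← ENNReal.ofReal_one]
      exact ENNReal.ofReal_le_ofReal (by linarith)
    · refine (add_le_add h15 h13).trans ?_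
      rw [← ENNReal.ofReal_add (div_nonneg hC₁ hd.le) (by positivity)]
      refine ENNReal.ofReal_le_ofReal ?_
      rw [le_div_iff₀ (by positivity), add_mul]
      have e1 : C₁ / (2 - t) * (2 - t) ^ (n + 1) = C₁ * (2 - t) ^ n := by
        rw [pow_succ]
        field_simp
      have e2 : (om + 1) * (C₅ / (2 - t) ^ (n + 1)) * (2 - t) ^ (n + 1) = (om + 1) * C₅ := by
        field_simp
      rw [e1, e2]
      have e3 : (2 - t) ^ n ≤ 2 ^ n := pow_le_pow_left₀ hd.le (by linarith) n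
      have e4 := mul_le_mul_of_nonneg_left e3 hC₁
      have e5 : (0 : ℝ) < 2 ^ (n + 1) := by positivity
      linarith
  · rw [le_div_iff₀ (by positivity), one_mul]
    have e3 : (2 - t) ^ (n + 1) ≤ 2 ^ (n + 1) := pow_le_pow_left₀ hd.le (by linarith) _
    have e4 : 0 ≤ C₁ * 2 ^ n + (om + 1) * C₅ := by positivity
    linarith

/-! ### the theorem -/

theorem approx (n : ℕ) (hn : 3 ≤ n) : ∃ C δ : ℝ, 1 ≤ C ∧ 0 < δ ∧ δ ≤ 1 / 4 ∧ ∀ p : ℝ,
    |p - 2| ≤ δ → ∀ (Ω : Set (V n)) (u : V n → ℝ) (g : V n → V n), IsOpen Ω →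
    closedBall 0 2 ⊆ Ω → IsWeakSol p Ω u g → ∫⁻ x in ball 0 2, ‖g x‖ₑ ^ p = 1 →
    ∃ h : V n → ℝ, Approx C p u h := by
  obtain ⟨hq2, hq3, hq4⟩ := approx_q0 hn
  obtain ⟨hs1, hs2⟩ := approx_s0 hn
  obtain ⟨C₁, hC₁, hA⟩ := approx_first n hn
  obtain ⟨K₀, δF, hK₀, hδF, hδF', hB⟩ := approx_second n hn
  obtain ⟨C₂, C₆, hC₂, hC₆, hT⟩ := approx_third n hn C₁ hC₁
  set om : ℝ := (volume (ball (0 : V n) 2)).toReal with hom
  have hom0 : 0 ≤ om := ENNReal.toReal_nonneg
  have home : volume (ball (0 : V n) 2) = ENNReal.ofReal om :=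
    (ENNReal.ofReal_toReal measure_ball_lt_top.ne).symm
  have hn3 : (3 : ℝ) ≤ n := by exact_mod_cast hn
  set C : ℝ := 1 + K₀ + C₂ + K₀ * (2 + om) * C₆ ^ 3 with hC
  have hC0 : 0 ≤ K₀ * (2 + om) * C₆ ^ 3 := by positivity
  refine ⟨C, min δF (min (1 / 4) (1 / K₀)), by rw [hC]; linarith,
    lt_min hδF (lt_min (by norm_num) (by positivity)),
    (min_le_right _ _).trans (min_le_left _ _), fun p hp Ω u g hΩ hcb hs hg1 => ?_⟩
  have hp1 : |p - 2| ≤ δF := hp.trans (min_le_left _ _)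
  have hp2 : |p - 2| ≤ 1 / 4 := hp.trans ((min_le_right _ _).trans (min_le_left _ _))
  have hp3 : |p - 2| ≤ 1 / K₀ := hp.trans ((min_le_right _ _).trans (min_le_right _ _))
  have hp4 := abs_le.1 hp2
  have hp5 := abs_le.1 (hp1.trans hδF')
  have hab := abs_nonneg (p - 2)
  obtain ⟨hu, c, hc⟩ := hA p (by linarith) Ω u g hΩ hcb hs hg1
  obtain ⟨h, hh, hk⟩ := hB p hp1 (by linarith) Ω u g hcb hs hg1 hu
  have hk1 : K₀ * |p - 2| ≤ 1 := by
    have := mul_le_mul_of_nonneg_left hp3 hK₀.le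
    rwa [mul_one_div, div_self hK₀.ne'] at this
  have hk2 : nrm 2 (ball 0 2) (fun x => u x - h x) ≤ 1 := by
    refine hk.trans ?_
    rw [← ENNReal.ofReal_one]
    exact ENNReal.ofReal_le_ofReal hk1
  have hT' := hT u h c hu hh hc hk2
  refine ⟨h, ⟨hu, hh, ?_, ?_, c, ?_⟩⟩
  · refine (approx_sq (by positivity) hk).trans ?_
    refine pow_le_pow_left₀ (by positivity) ?_ 2
    refine mul_le_mul_of_nonneg_right ?_ hab
    rw [hC]
    linarith
  · intro t ht ht2
    obtain ⟨-, h2, h3⟩ := hT' t ht ht2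
    have hd : 0 < 2 - t := by linarith
    have h4 : ∫⁻ x in ball 0 t, ‖u x - h x‖ₑ ^ (2 : ℝ) ≤
        ENNReal.ofReal ((K₀ * |p - 2|) ^ (2 : ℝ)) :=
      (lintegral_mono_set (ball_subset_ball ht2.le)).trans
        (approx_lint two_pos (by positivity) hk)
    rcases hab.eq_or_lt with h0 | h0
    · have hp0 : p = 2 := by
        have := abs_eq_zero.1 h0.symm
        linarith
      rw [← h0, mul_zero, Real.zero_rpow two_ne_zero] at h4
      rw [← h0, mul_zero]
      rw [hp0]
      exact h4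
    · set κ : ℝ := K₀ * |p - 2| with hκ
      have hκ0 : 0 < κ := by positivity
      have hpq : 2 * p ≤ 2 + q0 n := by
        have e1 : 1 / (2 * (n : ℝ)) ≤ 1 / n := by
          rw [div_le_div_iff₀ (by positivity) (by positivity)]
          linarith
        have e2 : 2 / (n : ℝ) = 2 * (1 / n) := by ring
        rw [e2] at hq4
        linarith [hp5.2]
      have h5 : ∫⁻ x in ball 0 t, ‖u x - h x‖ₑ ^ p ≤
          ENNReal.ofReal κ⁻¹ * ENNReal.ofReal (κ ^ (2 : ℝ)) +
            ENNReal.ofReal κ * (ENNReal.ofReal om +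
              ENNReal.ofReal ((C₆ / (2 - t) ^ (n + 1)) ^ (3 : ℝ))) := by
        refine (lintegral_mono fun x => approx_young hκ0 hk1 (by linarith) hq2 hpq _).trans ?_
        have hmu : AEStronglyMeasurable u (volume.restrict (ball 0 t)) :=
          hu.1.mono_measure (Measure.restrict_mono (ball_subset_ball ht2.le) le_rfl)
        have hmh : AEStronglyMeasurable h (volume.restrict (ball 0 t)) :=
          hh.1.1.mono_measure (Measure.restrict_mono (ball_subset_ball ht2.le) le_rfl)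
        have hm : AEMeasurable (fun x => ENNReal.ofReal κ⁻¹ * ‖u x - h x‖ₑ ^ (2 : ℝ))
            (volume.restrict (ball 0 t)) :=
          ((hmu.sub hmh).enorm.pow_const _).const_mul _
        rw [lintegral_add_left' hm, lintegral_const_mul' _ _ ENNReal.ofReal_ne_top,
          lintegral_const_mul' _ _ ENNReal.ofReal_ne_top, lintegral_add_left measurable_const,
          lintegral_const, one_mul, Measure.restrict_apply_univ]
        refine add_le_add (mul_le_mul_right h4 _) (mul_le_mul_right (add_le_add ?_ ?_) _)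
        · rw [← home]
          exact measure_mono (ball_subset_ball ht2.le)
        · refine (approx_lint (by linarith) (by linarith) h2).trans ?_
          exact ENNReal.ofReal_le_ofReal (Real.rpow_le_rpow_of_exponent_le h3 hq3)
      refine h5.trans ?_
      have hB3 : (C₆ / (2 - t) ^ (n + 1)) ^ (3 : ℝ) = C₆ ^ 3 / (2 - t) ^ (3 * n + 3) := by
        have e1 : (C₆ / (2 - t) ^ (n + 1)) ^ (3 : ℝ) = (C₆ / (2 - t) ^ (n + 1)) ^ 3 := by
          norm_num
        rw [e1, div_pow, ← pow_mul]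
        congr 2
        ring
      have hB1 : 1 ≤ C₆ ^ 3 / (2 - t) ^ (3 * n + 3) := by
        rw [← hB3]
        exact Real.one_le_rpow h3 (by norm_num)
      rw [hB3]
      rw [← ENNReal.ofReal_mul (by positivity), ← ENNReal.ofReal_add hom0 (by positivity),
        ← ENNReal.ofReal_mul hκ0.le, ← ENNReal.ofReal_add (by positivity) (by positivity)]
      refine ENNReal.ofReal_le_ofReal ?_
      have e2 : κ⁻¹ * κ ^ (2 : ℝ) = κ := by
        rw [Real.rpow_two]
        field_simp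
      rw [e2]
      have e3 : C / (2 - t) ^ (3 * n + 3) * |p - 2| ≥
          K₀ * (2 + om) * C₆ ^ 3 / (2 - t) ^ (3 * n + 3) * |p - 2| := by
        refine mul_le_mul_of_nonneg_right ?_ hab
        refine div_le_div_of_nonneg_right ?_ (by positivity)
        rw [hC]
        linarith
      refine le_trans ?_ e3
      set b : ℝ := C₆ ^ 3 / (2 - t) ^ (3 * n + 3) with hb
      have e4 : K₀ * (2 + om) * C₆ ^ 3 / (2 - t) ^ (3 * n + 3) * |p - 2| =
          κ * ((2 + om) * b) := by
        rw [hκ, hb]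
        ring
      rw [e4]
      have e5 : 1 + (om + b) ≤ (2 + om) * b := by nlinarith
      nlinarith
  · intro t ht ht2
    obtain ⟨h1, -, -⟩ := hT' t ht ht2
    have hd : 0 < 2 - t := by linarith
    refine (approx_sq (div_nonneg hC₂ hd.le) h1).trans ?_
    refine pow_le_pow_left₀ (div_nonneg hC₂ hd.le) ?_ 2
    refine div_le_div_of_nonneg_right ?_ hd.le
    rw [hC]
    linarith

end Pool.Agent.Helper20.PN
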