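import Pool.Agent.Helper20.PN.Defs2

/-! Weighted mean squares: elementary facts. -/

open MeasureTheory Metric Set Filter
open scoped ENNReal NNReal Topology

namespace Pool.Agent.Helper20.PN

lemma base_wt_cont (n : ℕ) : Continuous (wt (n := n)) := by
  unfold wt
  fun_prop

lemma base_wt_nonneg {n : ℕ} (z : V n) : 0 ≤ wt z := le_max_right _ _

lemma base_wt_le_one {n : ℕ} (z : V n) : wt z ≤ 1 := by
  unfold wt
  exact max_le (by nlinarith [sq_nonneg ‖z‖]) (by norm_num)

lemma base_wt_zero {n : ℕ} {z : V n} (h : 1 ≤ ‖z‖) : wt z = 0 := by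
  unfold wt
  exact max_eq_right (by nlinarith)

lemma base_wt_integrable (n : ℕ) : Integrable (wt (n := n)) := by
  refine (base_wt_cont n).integrable_of_hasCompactSupport ?_
  refine HasCompactSupport.intro (isCompact_closedBall (0 : V n) 1) ?_
  intro x hx
  refine base_wt_zero ?_
  rw [mem_closedBall_zero_iff, not_le] at hx
  exact hx.le

theorem wt_pos (n : ℕ) : 0 < ∫ z, wt (n := n) z := by
  rw [integral_pos_iff_support_of_nonneg (fun z => base_wt_nonneg z) (base_wt_integrable n)]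
  refine lt_of_lt_of_le (measure_ball_pos volume (0 : V n) one_pos) (measure_mono ?_)
  intro x hx
  rw [mem_ball_zero_iff] at hx
  rw [Function.mem_support]
  unfold wt
  have : 0 < 1 - ‖x‖ ^ 2 := by nlinarith [norm_nonneg x]
  rw [max_eq_left this.le]
  exact this.ne'

theorem A_nonneg {n : ℕ} (r : ℝ) (f : V n → ℝ) : 0 ≤ A r f :=
  integral_nonneg fun z => mul_nonneg (base_wt_nonneg z) (sq_nonneg _)

/-- Integrability after multiplication with the weight, outer form. -/
lemma base_gen' {n : ℕ} {ψ : V n → ℝ} (hψ : IntegrableOn ψ (ball 0 2)) {r : ℝ} (hr : 0 < r)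
    (hr2 : r ≤ 2) : Integrable (fun x => wt (r⁻¹ • x) * ψ x) := by
  have h2 : IntegrableOn (fun x => wt (r⁻¹ • x) * ψ x) (ball 0 2) := by
    refine Integrable.mono' hψ.norm ?_ ?_
    · refine AEStronglyMeasurable.mul ?_ hψ.aestronglyMeasurable
      exact ((base_wt_cont n).comp (continuous_const_smul r⁻¹)).aestronglyMeasurable
    · refine ae_of_all _ fun x => ?_
      rw [norm_mul, Real.norm_of_nonneg (base_wt_nonneg _)]
      exact mul_le_of_le_one_left (norm_nonneg _) (base_wt_le_one _)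
  refine (integrableOn_iff_integrable_of_support_subset ?_).1 h2
  intro x hx
  rw [Function.mem_support] at hx
  rw [mem_ball_zero_iff]
  by_contra hc
  push Not at hc
  apply hx
  rw [base_wt_zero, zero_mul]
  rw [norm_smul, norm_inv, Real.norm_of_nonneg hr.le, ← div_eq_inv_mul,
    le_div_iff₀ hr]
  linarith

/-- Integrability after multiplication with the weight. -/
lemma base_gen {n : ℕ} {ψ : V n → ℝ} (hψ : IntegrableOn ψ (ball 0 2)) {r : ℝ} (hr : 0 < r)
    (hr2 : r ≤ 2) : Integrable (fun z => wt z * ψ (r • z)) := by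
  have h4 := (integrable_comp_smul_iff volume (fun x => wt (r⁻¹ • x) * ψ x) hr.ne').2
    (base_gen' hψ hr hr2)
  refine h4.congr (ae_of_all _ fun z => ?_)
  simp only [smul_smul, inv_mul_cancel₀ hr.ne', one_smul]

/-- Change of variables. -/
lemma base_cov {n : ℕ} (ψ : V n → ℝ) {r : ℝ} (hr : 0 < r) :
    ∫ z, wt z * ψ (r • z) = (r ^ n)⁻¹ * ∫ x, wt (r⁻¹ • x) * ψ x := by
  have h := Measure.integral_comp_smul volume (fun x : V n => wt (r⁻¹ • x) * ψ x) r
  simp only [smul_smul, inv_mul_cancel₀ hr.ne', one_smul, finrank_euclideanSpace,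
    Fintype.card_fin, smul_eq_mul] at h
  rw [h, abs_of_nonneg (by positivity)]

lemma base_sq {n : ℕ} {f : V n → ℝ} (hf : MemLp f 2 (volume.restrict (ball 0 2))) :
    IntegrableOn (fun x => f x ^ 2) (ball 0 2) := hf.integrable_sq

lemma base_one {n : ℕ} {f : V n → ℝ} (hf : MemLp f 2 (volume.restrict (ball 0 2))) :
    IntegrableOn f (ball 0 2) := by
  have : IsFiniteMeasure (volume.restrict (ball (0 : V n) 2)) :=
    ⟨by rw [Measure.restrict_apply_univ]; exact measure_ball_lt_top⟩
  exact hf.integrable (by norm_num)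

lemma base_const {n : ℕ} (c : ℝ) :
    MemLp (fun _ : V n => c) 2 (volume.restrict (ball (0 : V n) 2)) := by
  have : IsFiniteMeasure (volume.restrict (ball (0 : V n) 2)) :=
    ⟨by rw [Measure.restrict_apply_univ]; exact measure_ball_lt_top⟩
  exact memLp_const c

theorem A_integrable {n : ℕ} {f : V n → ℝ} (hf : MemLp f 2 (volume.restrict (ball 0 2)))
    {r : ℝ} (hr : 0 < r) (hr2 : r ≤ 2) : Integrable (fun z => wt z * f (r • z) ^ 2) :=
  base_gen (base_sq hf) hr hr2

theorem A_le_int {n : ℕ} {f : V n → ℝ} (hf : MemLp f 2 (volume.restrict (ball 0 2)))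
    {r : ℝ} (hr : 0 < r) (hr2 : r ≤ 2) : A r f ≤ (1 / r) ^ n * ∫ x in ball 0 r, f x ^ 2 := by
  unfold A
  rw [base_cov (fun x => f x ^ 2) hr, one_div, inv_pow]
  refine mul_le_mul_of_nonneg_left ?_ (by positivity)
  rw [← integral_indicator measurableSet_ball]
  refine integral_mono (base_gen' (base_sq hf) hr hr2) ?_ ?_
  · rw [integrable_indicator_iff measurableSet_ball]
    exact (base_sq hf).mono_set (ball_subset_ball hr2)
  · intro x
    by_cases hx : x ∈ ball (0 : V n) r
    · simp only [indicator_of_mem hx]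
      exact mul_le_of_le_one_left (sq_nonneg _) (base_wt_le_one _)
    · simp only [indicator_of_notMem hx]
      rw [mem_ball_zero_iff, not_lt] at hx
      rw [base_wt_zero, zero_mul]
      rw [norm_smul, norm_inv, Real.norm_of_nonneg hr.le, ← div_eq_inv_mul,
        le_div_iff₀ hr]
      linarith

theorem int_le_A {n : ℕ} {f : V n → ℝ} (hf : MemLp f 2 (volume.restrict (ball 0 2)))
    {s r : ℝ} (hs : 0 < s) (hsr : s < r) (hr2 : r ≤ 2) :
    ∫ x in ball 0 s, f x ^ 2 ≤ r ^ n / (1 - (s / r) ^ 2) * A r f := by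
  have hr : 0 < r := hs.trans hsr
  have h1 : s / r < 1 := by rw [div_lt_one hr]; exact hsr
  have h2 : 0 < 1 - (s / r) ^ 2 := by nlinarith [div_pos hs hr]
  unfold A
  rw [base_cov (fun x => f x ^ 2) hr]
  have e : r ^ n / (1 - (s / r) ^ 2) * ((r ^ n)⁻¹ * ∫ x, wt (r⁻¹ • x) * f x ^ 2) =
      (∫ x, wt (r⁻¹ • x) * f x ^ 2) / (1 - (s / r) ^ 2) := by
    field_simp
  rw [e, le_div_iff₀ h2, mul_comm, ← integral_const_mul]
  have hint := base_gen' (base_sq hf) hr hr2
  calc ∫ x in ball 0 s, (1 - (s / r) ^ 2) * f x ^ 2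
      ≤ ∫ x in ball 0 s, wt (r⁻¹ • x) * f x ^ 2 := by
        refine setIntegral_mono_on ?_ hint.integrableOn measurableSet_ball ?_
        · exact ((base_sq hf).mono_set (ball_subset_ball (hsr.le.trans hr2))).const_mul _
        · intro x hx
          rw [mem_ball_zero_iff] at hx
          refine mul_le_mul_of_nonneg_right ?_ (sq_nonneg _)
          refine le_trans ?_ (le_max_left _ _)
          have h3 : ‖r⁻¹ • x‖ ≤ s / r := by
            rw [norm_smul, norm_inv, Real.norm_of_nonneg hr.le, ← div_eq_inv_mul]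
            exact div_le_div_of_nonneg_right hx.le hr.le
          have h4 : ‖r⁻¹ • x‖ ^ 2 ≤ (s / r) ^ 2 := pow_le_pow_left₀ (norm_nonneg _) h3 2
          linarith
    _ ≤ ∫ x, wt (r⁻¹ • x) * f x ^ 2 :=
        setIntegral_le_integral hint
          (ae_of_all _ fun x => mul_nonneg (base_wt_nonneg _) (sq_nonneg _))

theorem A_add_le {n : ℕ} {f g : V n → ℝ} (hf : MemLp f 2 (volume.restrict (ball 0 2)))
    (hg : MemLp g 2 (volume.restrict (ball 0 2))) {r : ℝ} (hr : 0 < r) (hr2 : r ≤ 2) {τ : ℝ}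
    (hτ : 0 < τ) : A r (fun x => f x + g x) ≤ (1 + τ) * A r f + (1 + 1 / τ) * A r g := by
  have hfg : MemLp (fun x => f x + g x) 2 (volume.restrict (ball 0 2)) := hf.add hg
  unfold A
  rw [← integral_const_mul, ← integral_const_mul, ← integral_add
    ((A_integrable hf hr hr2).const_mul _) ((A_integrable hg hr hr2).const_mul _)]
  refine integral_mono (A_integrable hfg hr hr2)
    (((A_integrable hf hr hr2).const_mul _).add ((A_integrable hg hr hr2).const_mul _)) ?_
  intro z
  simp only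
  set a := f (r • z)
  set b := g (r • z)
  have hw := base_wt_nonneg z
  have key : (a + b) ^ 2 ≤ (1 + τ) * a ^ 2 + (1 + 1 / τ) * b ^ 2 := by
    have e : (1 + τ) * a ^ 2 + (1 + 1 / τ) * b ^ 2 - (a + b) ^ 2 = (τ * a - b) ^ 2 / τ := by
      field_simp
      ring
    have : 0 ≤ (τ * a - b) ^ 2 / τ := by positivity
    linarith
  nlinarith [mul_le_mul_of_nonneg_left key hw]

theorem G_le {n : ℕ} {f : V n → ℝ} (hf : MemLp f 2 (volume.restrict (ball 0 2)))
    {r : ℝ} (hr : 0 < r) (hr2 : r ≤ 2) (c : ℝ) : G r f ≤ A r (fun x => f x - c) := by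
  have h1 := base_gen (base_one hf) hr hr2
  have h2 := A_integrable hf hr hr2
  have h0 := base_wt_integrable n
  have hW := wt_pos n
  have expand : ∀ c : ℝ, A r (fun x => f x - c) =
      A r f - 2 * c * (∫ z, wt z * f (r • z)) + c ^ 2 * ∫ z, wt (n := n) z := by
    intro c
    have h3 : Integrable (fun z => wt z * f (r • z) ^ 2 - 2 * c * (wt z * f (r • z))) :=
      h2.sub (h1.const_mul _)
    unfold A
    rw [← integral_const_mul, ← integral_const_mul,
      ← integral_sub h2 (h1.const_mul _), ← integral_add h3 (h0.const_mul _)]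
    refine integral_congr_ae (ae_of_all _ fun z => ?_)
    simp only
    ring
  unfold G
  rw [expand, expand]
  have e : ∫ z, wt z * f (r • z) = mn r f * ∫ z, wt (n := n) z := by
    unfold mn
    rw [div_mul_cancel₀ _ hW.ne']
  rw [e]
  nlinarith [mul_nonneg (sq_nonneg (c - mn r f)) hW.le]

theorem G_mono {n : ℕ} {f : V n → ℝ} (hf : MemLp f 2 (volume.restrict (ball 0 2)))
    {s r : ℝ} (hs : 0 < s) (hsr : s ≤ r) (hr2 : r ≤ 2) : G s f ≤ (r / s) ^ n * G r f := by
  have hr : 0 < r := lt_of_lt_of_le hs hsr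
  have hF : MemLp (fun x => f x - mn r f) 2 (volume.restrict (ball (0 : V n) 2)) :=
    hf.sub (base_const _)
  refine (G_le hf hs (hsr.trans hr2) (mn r f)).trans ?_
  unfold G A
  rw [base_cov (fun x => (f x - mn r f) ^ 2) hs, base_cov (fun x => (f x - mn r f) ^ 2) hr]
  have e : (r / s) ^ n * ((r ^ n)⁻¹ * ∫ x, wt (r⁻¹ • x) * (f x - mn r f) ^ 2) =
      (s ^ n)⁻¹ * ∫ x, wt (r⁻¹ • x) * (f x - mn r f) ^ 2 := by
    rw [div_pow]
    field_simp
  rw [e]
  refine mul_le_mul_of_nonneg_left ?_ (by positivity)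
  refine integral_mono (base_gen' (base_sq hF) hs (hsr.trans hr2))
    (base_gen' (base_sq hF) hr hr2) ?_
  intro x
  refine mul_le_mul_of_nonneg_right ?_ (sq_nonneg _)
  have h3 : ‖r⁻¹ • x‖ ≤ ‖s⁻¹ • x‖ := by
    rw [norm_smul, norm_smul, norm_inv, norm_inv, Real.norm_of_nonneg hr.le,
      Real.norm_of_nonneg hs.le]
    exact mul_le_mul_of_nonneg_right (inv_anti₀ hs hsr) (norm_nonneg _)
  have h4 : ‖r⁻¹ • x‖ ^ 2 ≤ ‖s⁻¹ • x‖ ^ 2 := pow_le_pow_left₀ (norm_nonneg _) h3 2
  exact max_le_max (by linarith) le_rfl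

theorem G_scale {n : ℕ} (f : V n → ℝ) (l t r : ℝ) :
    G r (fun z => l * f (t • z)) = l ^ 2 * G (t * r) f := by
  have hm : mn r (fun z => l * f (t • z)) = l * mn (t * r) f := by
    unfold mn
    rw [← mul_div_assoc, ← integral_const_mul]
    congr 1
    refine integral_congr_ae (ae_of_all _ fun z => ?_)
    simp only [smul_smul]
    ring
  unfold G
  rw [hm]
  unfold A
  rw [← integral_const_mul]
  refine integral_congr_ae (ae_of_all _ fun z => ?_)
  simp only [smul_smul]
  ring

theorem A_le_sup {n : ℕ} {f : V n → ℝ} {s B : ℝ} (hs : 0 < s)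
    (hB : ∀ᵐ y ∂(volume.restrict (ball (0 : V n) s)), |f y| ≤ B) :
    A s f ≤ B ^ 2 * ∫ z, wt (n := n) z := by
  rw [ae_restrict_iff' measurableSet_ball] at hB
  have hq : Measure.QuasiMeasurePreserving (fun z : V n => s • z) volume volume := by
    refine ⟨(continuous_const_smul s).measurable, ?_⟩
    rw [Measure.map_addHaar_smul volume hs.ne']
    exact Measure.smul_absolutelyContinuous
  have h1 : ∀ᵐ z : V n, s • z ∈ ball (0 : V n) s → |f (s • z)| ≤ B := hq.ae hB
  unfold A
  rw [← integral_const_mul]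
  refine integral_mono_of_nonneg
    (ae_of_all _ fun z => mul_nonneg (base_wt_nonneg z) (sq_nonneg _))
    ((base_wt_integrable n).const_mul _) ?_
  filter_upwards [h1] with z hz
  by_cases hz1 : ‖z‖ < 1
  · have h2 : |f (s • z)| ≤ B := by
      apply hz
      rw [mem_ball_zero_iff, norm_smul, Real.norm_of_nonneg hs.le]
      nlinarith
    have h3 : f (s • z) ^ 2 ≤ B ^ 2 := by
      rw [← sq_abs]
      exact pow_le_pow_left₀ (abs_nonneg _) h2 2
    nlinarith [mul_le_mul_of_nonneg_left h3 (base_wt_nonneg z)]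
  · rw [base_wt_zero (not_lt.1 hz1)]
    simp

end Pool.Agent.Helper20.PN
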