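import Pool.Agent.Helper20.PN.Defs

/-!
# The theorem of Coifman and Fefferman for nested partitions
-/

open MeasureTheory Metric Set Filter
open scoped ENNReal NNReal Topology

namespace Pool.Agent.Helper20.PN

section cfa

variable {X : Type} [MeasurableSpace X]

set_option linter.unusedSectionVars false

/-- the cell of order `k` of `x` -/
private def cfaCell (S : Set X) (ι : ℕ → X → ℕ) (k : ℕ) (x : X) : Set X :=
  {y | y ∈ S ∧ ι k y = ι k x}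

private def cfaBad (μ ν : Measure X) (S : Set X) (ι : ℕ → X → ℕ) (L : ℝ≥0∞) (k : ℕ) (x : X) :
    Prop :=
  L * ν (cfaCell S ι k x) < μ (cfaCell S ι k x)

private def cfaOm (μ ν : Measure X) (S : Set X) (ι : ℕ → X → ℕ) (L : ℝ≥0∞) : Set X :=
  {x | x ∈ S ∧ ∃ k, cfaBad μ ν S ι L k x}

private def cfaT (μ ν : Measure X) (S : Set X) (ι : ℕ → X → ℕ) (L : ℝ≥0∞) (p : ℕ × ℕ) : Set X :=
  {x | x ∈ S ∧ ι p.1 x = p.2 ∧ cfaBad μ ν S ι L p.1 x ∧ ∀ j < p.1, ¬ cfaBad μ ν S ι L j x}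

private theorem cfaCell_eq {S : Set X} {ι : ℕ → X → ℕ} {k : ℕ} {x y : X} (h : ι k x = ι k y) :
    cfaCell S ι k x = cfaCell S ι k y := by
  simp only [cfaCell, h]

private theorem cfaBad_congr {μ ν : Measure X} {S : Set X} {ι : ℕ → X → ℕ} {L : ℝ≥0∞} {k : ℕ}
    {x y : X} (h : ι k x = ι k y) : cfaBad μ ν S ι L k x ↔ cfaBad μ ν S ι L k y := by
  simp only [cfaBad, cfaCell_eq (S := S) h]

private theorem cfaBad_mono {μ ν : Measure X} {S : Set X} {ι : ℕ → X → ℕ} {L L' : ℝ≥0∞} {k : ℕ}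
    {x : X} (hL : L ≤ L') (h : cfaBad μ ν S ι L' k x) : cfaBad μ ν S ι L k x :=
  lt_of_le_of_lt (by gcongr) h

private theorem cfa_nest {S : Set X} {ι : ℕ → X → ℕ}
    (hn : ∀ k, ∀ x ∈ S, ∀ y ∈ S, ι (k + 1) x = ι (k + 1) y → ι k x = ι k y)
    {x y : X} (hx : x ∈ S) (hy : y ∈ S) {j k : ℕ} (hjk : j ≤ k) (h : ι k x = ι k y) :
    ι j x = ι j y := by
  induction k, hjk using Nat.le_induction with
  | base => exact h
  | succ k _ ih => exact ih (hn k x hx y hy h)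

private theorem cfaCell_meas {S : Set X} {ι : ℕ → X → ℕ} (hS : MeasurableSet S)
    (hι : ∀ k, Measurable (ι k)) (k : ℕ) (x : X) : MeasurableSet (cfaCell S ι k x) :=
  hS.inter ((hι k) (measurableSet_singleton (ι k x)))

private theorem cfaBad_meas (μ ν : Measure X) {S : Set X} {ι : ℕ → X → ℕ} (hS : MeasurableSet S)
    (hι : ∀ k, Measurable (ι k)) (L : ℝ≥0∞) (k : ℕ) :
    MeasurableSet {x | x ∈ S ∧ cfaBad μ ν S ι L k x} := by
  have : {x | x ∈ S ∧ cfaBad μ ν S ι L k x} =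
      S ∩ (ι k) ⁻¹' {m | ∃ y ∈ S, ι k y = m ∧ cfaBad μ ν S ι L k y} := by
    ext x
    constructor
    · rintro ⟨h1, h2⟩
      exact ⟨h1, x, h1, rfl, h2⟩
    · rintro ⟨h1, y, -, h3, h4⟩
      exact ⟨h1, (cfaBad_congr h3).1 h4⟩
  rw [this]
  exact hS.inter ((hι k) (MeasurableSet.of_discrete))

private theorem cfaOm_meas (μ ν : Measure X) {S : Set X} {ι : ℕ → X → ℕ} (hS : MeasurableSet S)
    (hι : ∀ k, Measurable (ι k)) (L : ℝ≥0∞) : MeasurableSet (cfaOm μ ν S ι L) := by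
  have : cfaOm μ ν S ι L = ⋃ k, {x | x ∈ S ∧ cfaBad μ ν S ι L k x} := by
    ext x
    simp only [cfaOm, mem_ofPred_eq, mem_iUnion]
    constructor
    · rintro ⟨h1, k, h2⟩
      exact ⟨k, h1, h2⟩
    · rintro ⟨k, h1, h2⟩
      exact ⟨h1, k, h2⟩
  rw [this]
  exact MeasurableSet.iUnion fun k => cfaBad_meas μ ν hS hι L k

private theorem cfaT_meas (μ ν : Measure X) {S : Set X} {ι : ℕ → X → ℕ} (hS : MeasurableSet S)
    (hι : ∀ k, Measurable (ι k)) (L : ℝ≥0∞) (p : ℕ × ℕ) : MeasurableSet (cfaT μ ν S ι L p) := by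
  have : cfaT μ ν S ι L p = ({x | x ∈ S ∧ cfaBad μ ν S ι L p.1 x} ∩ (ι p.1) ⁻¹' {p.2}) ∩
      (⋃ j ∈ Finset.range p.1, {x | x ∈ S ∧ cfaBad μ ν S ι L j x})ᶜ := by
    ext x
    simp only [cfaT, mem_ofPred_eq, mem_inter_iff, mem_preimage, mem_singleton_iff, mem_compl_iff,
      mem_iUnion, Finset.mem_range, not_exists, not_and]
    constructor
    · rintro ⟨h1, h2, h3, h4⟩
      exact ⟨⟨⟨h1, h3⟩, h2⟩, fun j hj _ => h4 j hj⟩
    · rintro ⟨⟨⟨h1, h3⟩, h2⟩, h4⟩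
      exact ⟨h1, h2, h3, fun j hj => h4 j hj h1⟩
  rw [this]
  refine ((cfaBad_meas μ ν hS hι L p.1).inter ((hι p.1) (measurableSet_singleton _))).inter ?_
  exact (Finset.measurableSet_biUnion _ fun j _ => cfaBad_meas μ ν hS hι L j).compl

private theorem cfaT_disj (μ ν : Measure X) (S : Set X) (ι : ℕ → X → ℕ) (L : ℝ≥0∞) :
    Pairwise (Function.onFun Disjoint (cfaT μ ν S ι L)) := by
  intro p q hpq
  rw [Function.onFun, Set.disjoint_left]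
  rintro x ⟨-, h2, h3, h4⟩ ⟨-, g2, g3, g4⟩
  apply hpq
  have h1 : p.1 = q.1 := by
    rcases lt_trichotomy p.1 q.1 with h | h | h
    · exact absurd h3 (g4 _ h)
    · exact h
    · exact absurd g3 (h4 _ h)
  refine Prod.ext h1 ?_
  rw [← h2, ← g2, h1]

private theorem cfaOm_eq (μ ν : Measure X) (S : Set X) (ι : ℕ → X → ℕ) (L : ℝ≥0∞) :
    cfaOm μ ν S ι L = ⋃ p, cfaT μ ν S ι L p := by
  ext x
  simp only [mem_iUnion]
  constructor
  · rintro ⟨h1, h2⟩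
    classical
    refine ⟨(Nat.find h2, ι (Nat.find h2) x), h1, rfl, Nat.find_spec h2, ?_⟩
    intro j hj
    exact Nat.find_min h2 hj
  · rintro ⟨p, h1, -, h3, -⟩
    exact ⟨h1, p.1, h3⟩

private theorem cfaT_eq {μ ν : Measure X} {S : Set X} {ι : ℕ → X → ℕ}
    (hn : ∀ k, ∀ x ∈ S, ∀ y ∈ S, ι (k + 1) x = ι (k + 1) y → ι k x = ι k y) {L : ℝ≥0∞}
    {p : ℕ × ℕ} {x : X} (hx : x ∈ cfaT μ ν S ι L p) :
    cfaT μ ν S ι L p = cfaCell S ι p.1 x := by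
  obtain ⟨h1, h2, h3, h4⟩ := hx
  ext y
  constructor
  · rintro ⟨g1, g2, -, -⟩
    exact ⟨g1, g2.trans h2.symm⟩
  · rintro ⟨g1, g2⟩
    refine ⟨g1, g2.trans h2, (cfaBad_congr g2).2 h3, ?_⟩
    intro j hj hb
    exact h4 j hj ((cfaBad_congr (cfa_nest hn g1 h1 hj.le g2)).1 hb)

private theorem cfa_B {μ ν : Measure X} {S : Set X} {ι : ℕ → X → ℕ} {C D : ℝ≥0}
    (hS : MeasurableSet S) (hι : ∀ k, Measurable (ι k))
    (h0 : ∀ x ∈ S, ∀ y ∈ S, ι 0 x = ι 0 y)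
    (hn : ∀ k, ∀ x ∈ S, ∀ y ∈ S, ι (k + 1) x = ι (k + 1) y → ι k x = ι k y)
    (hμS : μ S < ⊤) (hνS : ν S < ⊤)
    (hμ : ∀ k, ∀ x ∈ S, 0 < μ (cfaCell S ι k x))
    (hν : ∀ k, ∀ x ∈ S, 0 < ν (cfaCell S ι k x))
    (hA : ∀ k, ∀ x ∈ S, ∀ F ⊆ cfaCell S ι k x, MeasurableSet F →
      ν F ≤ C * (μ F / μ (cfaCell S ι k x)) ^ (1 / 3 : ℝ) * ν (cfaCell S ι k x))
    (hD : ∀ k, ∀ x ∈ S, ν (cfaCell S ι k x) ≤ D * ν (cfaCell S ι (k + 1) x))
    {L : ℝ≥0∞} (hL0 : L ≠ 0) (hLt : L ≠ ⊤) (hL : μ S ≤ L * ν S) {p : ℕ × ℕ} {x : X}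
    (hx : x ∈ cfaT μ ν S ι L p) :
    μ (cfaCell S ι p.1 x) ≤ ((2 * C) ^ 3 : ℝ≥0) *
      μ (cfaCell S ι p.1 x \ cfaOm μ ν S ι ((2 * (D + 1) : ℝ≥0) * L)) := by
  obtain ⟨hxS, -, hbad, hnot⟩ := hx
  set k := p.1 with hk
  set b : ℝ≥0∞ := ((2 * (D + 1) : ℝ≥0) : ℝ≥0∞) with hb
  set Q := cfaCell S ι k x with hQ
  have hQS : Q ⊆ S := fun y hy => hy.1
  have hQt : ν Q ≠ ⊤ := ((measure_mono hQS).trans_lt hνS).ne
  have hQμt : μ Q ≠ ⊤ := ((measure_mono hQS).trans_lt hμS).ne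
  have hQm : MeasurableSet Q := cfaCell_meas hS hι k x
  have hb1 : (1 : ℝ≥0∞) ≤ b := by
    rw [hb]
    have : (1 : ℝ≥0) ≤ 2 * (D + 1) := by
      calc (1 : ℝ≥0) ≤ 2 * (0 + 1) := by norm_num
        _ ≤ 2 * (D + 1) := by
            gcongr
            exact D.2
    exact_mod_cast this
  have hLb : L ≤ b * L := by
    calc L = 1 * L := (one_mul _).symm
      _ ≤ b * L := by gcongr
  -- the order is positive
  obtain ⟨j, hj⟩ : ∃ j, k = j + 1 := by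
    rcases Nat.eq_zero_or_pos k with h | h
    · exfalso
      have hS0 : cfaCell S ι 0 x = S := by
        ext y
        exact ⟨fun h => h.1, fun h => ⟨h, h0 y h x hxS⟩⟩
      unfold cfaBad at hbad
      rw [h, hS0] at hbad
      exact absurd hL (not_le.2 hbad)
    · exact ⟨k - 1, by omega⟩
  have hpar : μ (cfaCell S ι j x) ≤ L * ν (cfaCell S ι j x) := by
    have := hnot j (by omega)
    exact not_lt.1 this
  have hsub : Q ⊆ cfaCell S ι j x := by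
    rintro y ⟨hy1, hy2⟩
    exact ⟨hy1, cfa_nest hn hy1 hxS (by omega) hy2⟩
  have h1 : μ Q ≤ L * (D * ν Q) := by
    calc μ Q ≤ μ (cfaCell S ι j x) := measure_mono hsub
      _ ≤ L * ν (cfaCell S ι j x) := hpar
      _ ≤ L * (D * ν Q) := by
          have := hD j x hxS
          rw [← hj] at this
          gcongr
  -- the mass of the stopping cells of the next generation
  have h2 : (b * L) * ν (Q ∩ cfaOm μ ν S ι (b * L)) ≤ μ Q := by
    have e1 : Q ∩ cfaOm μ ν S ι (b * L) = ⋃ q, (Q ∩ cfaT μ ν S ι (b * L) q) := by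
      rw [cfaOm_eq, inter_iUnion]
    have e2 : ∀ q, (b * L) * ν (Q ∩ cfaT μ ν S ι (b * L) q) ≤
        μ (Q ∩ cfaT μ ν S ι (b * L) q) := by
      intro q
      rcases (Q ∩ cfaT μ ν S ι (b * L) q).eq_empty_or_nonempty with he | ⟨y, hy⟩
      · rw [he]
        simp
      · have hyT := hy.2
        have hyQ := hy.1
        have hkq : k ≤ q.1 := by
          by_contra hcon
          have hlt : q.1 < k := not_le.1 hcon
          have g1 : ι q.1 y = ι q.1 x := cfa_nest hn hyQ.1 hxS hlt.le hyQ.2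
          have g2 : cfaBad μ ν S ι (b * L) q.1 x := (cfaBad_congr g1).1 hyT.2.2.1
          exact hnot q.1 hlt (cfaBad_mono hLb g2)
        have e3 : Q ∩ cfaT μ ν S ι (b * L) q = cfaCell S ι q.1 y := by
          rw [cfaT_eq hn hyT]
          apply inter_eq_self_of_subset_right
          rintro z ⟨hz1, hz2⟩
          exact ⟨hz1, (cfa_nest hn hz1 hyQ.1 hkq hz2).trans hyQ.2⟩
        rw [e3]
        exact le_of_lt hyT.2.2.1
    calc (b * L) * ν (Q ∩ cfaOm μ ν S ι (b * L))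
        ≤ (b * L) * ∑' q, ν (Q ∩ cfaT μ ν S ι (b * L) q) := by
          rw [e1]
          gcongr
          exact measure_iUnion_le _
      _ = ∑' q, (b * L) * ν (Q ∩ cfaT μ ν S ι (b * L) q) := ENNReal.tsum_mul_left.symm
      _ ≤ ∑' q, μ (Q ∩ cfaT μ ν S ι (b * L) q) := ENNReal.tsum_le_tsum e2
      _ = μ (⋃ q, (Q ∩ cfaT μ ν S ι (b * L) q)) := by
          rw [measure_iUnion]
          · intro p q hpq
            exact (cfaT_disj μ ν S ι (b * L) hpq).mono inter_subset_right inter_subset_right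
          · intro q
            exact hQm.inter (cfaT_meas μ ν hS hι _ q)
      _ ≤ μ Q := by
          apply measure_mono
          rw [← inter_iUnion]
          exact inter_subset_left
  set O := cfaOm μ ν S ι (b * L) with hO
  have hOm : MeasurableSet O := cfaOm_meas μ ν hS hι _
  have h3 : b * ν (Q ∩ O) ≤ (D + 1 : ℝ≥0) * ν Q := by
    have g1 : L * (b * ν (Q ∩ O)) ≤ L * (D * ν Q) := by
      calc L * (b * ν (Q ∩ O)) = (b * L) * ν (Q ∩ O) := by ring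
        _ ≤ μ Q := h2
        _ ≤ L * (D * ν Q) := h1
    have g2 : b * ν (Q ∩ O) ≤ D * ν Q := by
      rwa [ENNReal.mul_le_mul_iff_right hL0 hLt] at g1
    refine g2.trans ?_
    gcongr
    simp
  have hD1 : ((D + 1 : ℝ≥0) : ℝ≥0∞) ≠ 0 := by
    rw [Ne, ENNReal.coe_eq_zero]
    exact (by positivity : (0 : ℝ≥0) < D + 1).ne'
  have h4 : 2 * ν (Q ∩ O) ≤ ν Q := by
    have g1 : ((D + 1 : ℝ≥0) : ℝ≥0∞) * (2 * ν (Q ∩ O)) ≤ ((D + 1 : ℝ≥0) : ℝ≥0∞) * ν Q := by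
      refine le_trans (le_of_eq ?_) h3
      rw [hb, ENNReal.coe_mul]
      push_cast
      ring
    rwa [ENNReal.mul_le_mul_iff_right hD1 ENNReal.coe_ne_top] at g1
  have h5 : ν Q ≤ 2 * ν (Q \ O) := by
    have g1 : ν Q = ν (Q ∩ O) + ν (Q \ O) := (measure_inter_add_sdiff Q hOm).symm
    have g2 : ν Q + ν Q ≤ ν Q + 2 * ν (Q \ O) := by
      calc ν Q + ν Q = 2 * ν (Q ∩ O) + 2 * ν (Q \ O) := by rw [g1]; ring
        _ ≤ ν Q + 2 * ν (Q \ O) := by gcongr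
    exact (ENNReal.add_le_add_iff_left hQt).1 g2
  have h6 := hA k x hxS (Q \ O) sdiff_subset (hQm.diff hOm)
  rw [← hQ] at h6
  have hQpos := hν k x hxS
  rw [← hQ] at hQpos
  have hQμpos := hμ k x hxS
  rw [← hQ] at hQμpos
  have h7 : (1 : ℝ≥0∞) ≤ (2 * C : ℝ≥0) * (μ (Q \ O) / μ Q) ^ (1 / 3 : ℝ) := by
    have g1 : ν Q * 1 ≤ ν Q * ((2 * C : ℝ≥0) * (μ (Q \ O) / μ Q) ^ (1 / 3 : ℝ)) := by
      calc ν Q * 1 = ν Q := mul_one _
        _ ≤ 2 * ν (Q \ O) := h5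
        _ ≤ 2 * (C * (μ (Q \ O) / μ Q) ^ (1 / 3 : ℝ) * ν Q) := by gcongr
        _ = ν Q * ((2 * C : ℝ≥0) * (μ (Q \ O) / μ Q) ^ (1 / 3 : ℝ)) := by
            push_cast
            ring
    rwa [ENNReal.mul_le_mul_iff_right hQpos.ne' hQt] at g1
  have h8 : (1 : ℝ≥0∞) ≤ ((2 * C) ^ 3 : ℝ≥0) * (μ (Q \ O) / μ Q) := by
    have g1 : ((1 : ℝ≥0∞)) ^ (3 : ℝ) ≤
        (((2 * C : ℝ≥0) : ℝ≥0∞) * (μ (Q \ O) / μ Q) ^ (1 / 3 : ℝ)) ^ (3 : ℝ) :=
      ENNReal.rpow_le_rpow h7 (by norm_num)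
    rw [ENNReal.one_rpow, ENNReal.mul_rpow_of_nonneg _ _ (by norm_num : (0 : ℝ) ≤ 3),
      ← ENNReal.rpow_mul] at g1
    have g2 : (1 / 3 : ℝ) * 3 = 1 := by norm_num
    rw [g2, ENNReal.rpow_one] at g1
    have g3 : ((2 * C : ℝ≥0) : ℝ≥0∞) ^ (3 : ℝ) = (((2 * C) ^ 3 : ℝ≥0) : ℝ≥0∞) := by
      rw [show (3 : ℝ) = ((3 : ℕ) : ℝ) by norm_num, ENNReal.rpow_natCast]
      push_cast
      rfl
    rw [g3] at g1
    exact g1
  calc μ Q = μ Q * 1 := (mul_one _).symm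
    _ ≤ μ Q * (((2 * C) ^ 3 : ℝ≥0) * (μ (Q \ O) / μ Q)) := by gcongr
    _ = ((2 * C) ^ 3 : ℝ≥0) * (μ Q * (μ (Q \ O) / μ Q)) := by ring
    _ = ((2 * C) ^ 3 : ℝ≥0) * μ (Q \ O) := by
        rw [ENNReal.mul_div_cancel hQμpos.ne' hQμt]

private theorem cfa_A {μ ν : Measure X} {S : Set X} {ι : ℕ → X → ℕ} {C D : ℝ≥0}
    (hS : MeasurableSet S) (hι : ∀ k, Measurable (ι k))
    (h0 : ∀ x ∈ S, ∀ y ∈ S, ι 0 x = ι 0 y)
    (hn : ∀ k, ∀ x ∈ S, ∀ y ∈ S, ι (k + 1) x = ι (k + 1) y → ι k x = ι k y)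
    (hμS : μ S < ⊤) (hνS : ν S < ⊤)
    (hμ : ∀ k, ∀ x ∈ S, 0 < μ (cfaCell S ι k x))
    (hν : ∀ k, ∀ x ∈ S, 0 < ν (cfaCell S ι k x))
    (hA : ∀ k, ∀ x ∈ S, ∀ F ⊆ cfaCell S ι k x, MeasurableSet F →
      ν F ≤ C * (μ F / μ (cfaCell S ι k x)) ^ (1 / 3 : ℝ) * ν (cfaCell S ι k x))
    (hD : ∀ k, ∀ x ∈ S, ν (cfaCell S ι k x) ≤ D * ν (cfaCell S ι (k + 1) x))
    {L : ℝ≥0∞} (hL0 : L ≠ 0) (hLt : L ≠ ⊤) (hL : μ S ≤ L * ν S) :
    (((2 * C) ^ 3 + 1 + 1 : ℝ≥0) : ℝ≥0∞) * μ (cfaOm μ ν S ι ((2 * (D + 1) : ℝ≥0) * L)) ≤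
      (((2 * C) ^ 3 + 1 : ℝ≥0) : ℝ≥0∞) * μ (cfaOm μ ν S ι L) := by
  set O := cfaOm μ ν S ι ((2 * (D + 1) : ℝ≥0) * L) with hO
  set K0 : ℝ≥0∞ := (((2 * C) ^ 3 + 1 : ℝ≥0) : ℝ≥0∞) with hK0
  have hK1 : (((2 * C) ^ 3 + 1 + 1 : ℝ≥0) : ℝ≥0∞) = K0 + 1 := by
    rw [hK0]
    push_cast
    rfl
  rw [hK1]
  have hOm : MeasurableSet O := cfaOm_meas μ ν hS hι _
  have hb1 : (1 : ℝ≥0∞) ≤ ((2 * (D + 1) : ℝ≥0) : ℝ≥0∞) := by
    have : (1 : ℝ≥0) ≤ 2 * (D + 1) := by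
      calc (1 : ℝ≥0) ≤ 2 * (0 + 1) := by norm_num
        _ ≤ 2 * (D + 1) := by
            gcongr
            exact D.2
    exact_mod_cast this
  have hLb : L ≤ ((2 * (D + 1) : ℝ≥0) : ℝ≥0∞) * L := by
    calc L = 1 * L := (one_mul _).symm
      _ ≤ _ := by gcongr
  have hsub : O ⊆ cfaOm μ ν S ι L := by
    rintro x ⟨h1, k, h2⟩
    exact ⟨h1, k, cfaBad_mono hLb h2⟩
  have hcell : ∀ p, (K0 + 1) * μ (cfaT μ ν S ι L p ∩ O) ≤ K0 * μ (cfaT μ ν S ι L p) := by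
    intro p
    rcases (cfaT μ ν S ι L p).eq_empty_or_nonempty with he | ⟨x, hx⟩
    · rw [he]
      simp
    · have hB := cfa_B hS hι h0 hn hμS hνS hμ hν hA hD hL0 hLt hL hx
      rw [cfaT_eq hn hx]
      rw [← hO] at hB
      set Q := cfaCell S ι p.1 x with hQ
      have hQS : Q ⊆ S := fun y hy => hy.1
      have hQμt : μ Q ≠ ⊤ := ((measure_mono hQS).trans_lt hμS).ne
      have g1 : μ Q = μ (Q ∩ O) + μ (Q \ O) := (measure_inter_add_sdiff Q hOm).symm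
      have g2 : μ Q ≤ (K0 + 1) * μ (Q \ O) := by
        refine hB.trans ?_
        gcongr
        rw [hK0]
        have : ((2 * C) ^ 3 : ℝ≥0) ≤ (2 * C) ^ 3 + 1 + 1 := by
          rw [add_assoc]
          exact le_self_add
        exact_mod_cast this
      have g3 : μ Q + (K0 + 1) * μ (Q ∩ O) ≤ μ Q + K0 * μ Q := by
        calc μ Q + (K0 + 1) * μ (Q ∩ O) ≤ (K0 + 1) * μ (Q \ O) + (K0 + 1) * μ (Q ∩ O) := by
              gcongr
          _ = (K0 + 1) * μ Q := by rw [g1]; ring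
          _ = μ Q + K0 * μ Q := by ring
      exact (ENNReal.add_le_add_iff_left hQμt).1 g3
  have e1 : O = ⋃ p, (cfaT μ ν S ι L p ∩ O) := by
    rw [← iUnion_inter, ← cfaOm_eq]
    exact (inter_eq_self_of_subset_right hsub).symm
  calc (K0 + 1) * μ O ≤ (K0 + 1) * ∑' p, μ (cfaT μ ν S ι L p ∩ O) := by
        gcongr
        conv_lhs => rw [e1]
        exact measure_iUnion_le _
    _ = ∑' p, (K0 + 1) * μ (cfaT μ ν S ι L p ∩ O) := ENNReal.tsum_mul_left.symm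
    _ ≤ ∑' p, K0 * μ (cfaT μ ν S ι L p) := ENNReal.tsum_le_tsum hcell
    _ = K0 * ∑' p, μ (cfaT μ ν S ι L p) := ENNReal.tsum_mul_left
    _ = K0 * μ (cfaOm μ ν S ι L) := by
        rw [cfaOm_eq, measure_iUnion (cfaT_disj μ ν S ι L) (cfaT_meas μ ν hS hι L)]

private theorem cfa_point {μ ν : Measure X} {S : Set X} {ι : ℕ → X → ℕ}
    (hμS : μ S < ⊤) (hμ : ∀ k, ∀ x ∈ S, 0 < μ (cfaCell S ι k x))
    {L : ℝ≥0∞} (hL0 : L ≠ 0) (hLt : L ≠ ⊤) {x : X} (hx : x ∈ S) (hxL : x ∉ cfaOm μ ν S ι L)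
    {c : ℝ≥0∞} (hc : Tendsto (fun k => ν (cfaCell S ι k x) / μ (cfaCell S ι k x)) atTop (𝓝 c))
    {a : ℝ} (ha : 0 < a) : c ^ (-a) ≤ L ^ a := by
  have h1 : L⁻¹ ≤ c := by
    refine ge_of_tendsto' hc ?_
    intro k
    have hb : ¬ cfaBad μ ν S ι L k x := fun h => hxL ⟨hx, k, h⟩
    have hb' : μ (cfaCell S ι k x) ≤ L * ν (cfaCell S ι k x) := not_lt.1 hb
    have ht : μ (cfaCell S ι k x) ≠ ⊤ :=
      ((measure_mono (fun y hy => hy.1)).trans_lt hμS).ne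
    rw [ENNReal.le_div_iff_mul_le (Or.inl (hμ k x hx).ne') (Or.inl ht)]
    calc L⁻¹ * μ (cfaCell S ι k x) ≤ L⁻¹ * (L * ν (cfaCell S ι k x)) := by gcongr
      _ = ν (cfaCell S ι k x) := by
          rw [← mul_assoc, ENNReal.inv_mul_cancel hL0 hLt, one_mul]
  calc c ^ (-a) = (c ^ a)⁻¹ := ENNReal.rpow_neg _ _
    _ ≤ ((L⁻¹) ^ a)⁻¹ := ENNReal.inv_le_inv.2 (ENNReal.rpow_le_rpow h1 ha.le)
    _ = L ^ a := by rw [ENNReal.inv_rpow, inv_inv]

end cfa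

/-- Coifman-Fefferman for nested partitions. The cell of order `k` of `x` is
`{y ∈ S | ι k y = ι k x}`. -/
theorem cf_abstract (C D : ℝ≥0) : ∃ a : ℝ, 0 < a ∧ a ≤ 1 ∧ ∃ CA : ℝ≥0, ∀ {X : Type}
    [MeasurableSpace X] (μ : Measure X) (S : Set X) (w : X → ℝ≥0∞) (ι : ℕ → X → ℕ),
    MeasurableSet S → μ S < ⊤ → Measurable w → (∀ k, Measurable (ι k)) →
    (∀ x ∈ S, ∀ y ∈ S, ι 0 x = ι 0 y) →
    (∀ k, ∀ x ∈ S, ∀ y ∈ S, ι (k + 1) x = ι (k + 1) y → ι k x = ι k y) →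
    (∀ k, ∀ x ∈ S, 0 < μ {y | y ∈ S ∧ ι k y = ι k x}) →
    (∀ k, ∀ x ∈ S, 0 < ∫⁻ z in {y | y ∈ S ∧ ι k y = ι k x}, w z ∂μ) →
    ∫⁻ z in S, w z ∂μ < ⊤ →
    (∀ k, ∀ x ∈ S, ∀ F ⊆ {y | y ∈ S ∧ ι k y = ι k x}, MeasurableSet F →
      ∫⁻ z in F, w z ∂μ ≤ C * (μ F / μ {y | y ∈ S ∧ ι k y = ι k x}) ^ (1 / 3 : ℝ) *
        ∫⁻ z in {y | y ∈ S ∧ ι k y = ι k x}, w z ∂μ) →
    (∀ k, ∀ x ∈ S, ∫⁻ z in {y | y ∈ S ∧ ι k y = ι k x}, w z ∂μ ≤
      D * ∫⁻ z in {y | y ∈ S ∧ ι (k + 1) y = ι (k + 1) x}, w z ∂μ) →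
    (∀ᵐ x ∂(μ.restrict S), Tendsto (fun k =>
      (∫⁻ z in {y | y ∈ S ∧ ι k y = ι k x}, w z ∂μ) / μ {y | y ∈ S ∧ ι k y = ι k x}) atTop
        (𝓝 (w x))) →
    ∫⁻ z in S, w z ^ (-a) ∂μ ≤ CA * (μ S / ∫⁻ z in S, w z ∂μ) ^ a * μ S := by
  set K0 : ℝ≥0 := (2 * C) ^ 3 + 1 with hK0
  set b : ℝ≥0 := 2 * (D + 1) with hb
  set t : ℝ≥0 := (K0 + 2) / (K0 + 1) with ht
  set r : ℝ≥0 := K0 / (K0 + 1) with hr
  have hK0' : (0 : ℝ) ≤ K0 := K0.2
  have hD' : (0 : ℝ) ≤ D := D.2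
  have hK1 : (1 : ℝ) ≤ K0 := by
    have : (1 : ℝ≥0) ≤ K0 := by
      rw [hK0]
      exact le_add_self
    exact_mod_cast this
  have hbr : (b : ℝ) = 2 * (D + 1) := by rw [hb]; push_cast; ring
  have htr : (t : ℝ) = (K0 + 2) / (K0 + 1) := by rw [ht]; push_cast; ring
  have hrr : (r : ℝ) = K0 / (K0 + 1) := by rw [hr]; push_cast; ring
  have hb2 : (2 : ℝ) ≤ b := by rw [hbr]; linarith
  have ht1 : (1 : ℝ) < t := by
    rw [htr, lt_div_iff₀ (by linarith)]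
    linarith
  have ht2 : (t : ℝ) ≤ 2 := by
    rw [htr, div_le_iff₀ (by linarith)]
    linarith
  have htr1 : (t : ℝ) * r < 1 := by
    rw [htr, hrr, div_mul_div_comm, div_lt_one (by positivity)]
    nlinarith
  set a : ℝ := Real.logb b t with ha
  have hab : (b : ℝ) ^ a = t := by
    rw [ha]
    exact Real.rpow_logb (by linarith) (by linarith) (by linarith)
  have ha0 : 0 < a := Real.logb_pos (by linarith) ht1
  have ha1 : a ≤ 1 := by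
    have h1 : (b : ℝ) ^ a ≤ (b : ℝ) ^ (1 : ℝ) := by
      rw [hab, Real.rpow_one]
      linarith
    exact (Real.rpow_le_rpow_left_iff (by linarith)).1 h1
  have habE : ((b : ℝ≥0∞)) ^ a = t := by
    rw [← ENNReal.coe_rpow_of_nonneg _ ha0.le]
    congr 1
    apply NNReal.eq
    rw [NNReal.coe_rpow]
    exact hab
  refine ⟨a, ha0, ha1, 1 + t * (1 - t * r)⁻¹, ?_⟩
  intro X _ μ S w ι hS hμS hw hι h0 hn hμ hν hνS hA hD hlim
  rcases S.eq_empty_or_nonempty with he | ⟨x0, hx0⟩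
  · subst he
    simp
  set ν : Measure X := μ.withDensity w with hνdef
  have hcm : ∀ k x, MeasurableSet (cfaCell S ι k x) := fun k x => cfaCell_meas hS hι k x
  have hνc : ∀ k x, ν (cfaCell S ι k x) = ∫⁻ z in {y | y ∈ S ∧ ι k y = ι k x}, w z ∂μ :=
    fun k x => withDensity_apply w (hcm k x)
  have hνSe : ν S = ∫⁻ z in S, w z ∂μ := withDensity_apply w hS
  have hμ' : ∀ k, ∀ x ∈ S, 0 < μ (cfaCell S ι k x) := hμ
  have hν' : ∀ k, ∀ x ∈ S, 0 < ν (cfaCell S ι k x) := by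
    intro k x hx
    rw [hνc]
    exact hν k x hx
  have hνS' : ν S < ⊤ := by rw [hνSe]; exact hνS
  have hA' : ∀ k, ∀ x ∈ S, ∀ F ⊆ cfaCell S ι k x, MeasurableSet F →
      ν F ≤ C * (μ F / μ (cfaCell S ι k x)) ^ (1 / 3 : ℝ) * ν (cfaCell S ι k x) := by
    intro k x hx F hF hFm
    rw [hνc, hνdef, withDensity_apply w hFm]
    exact hA k x hx F hF hFm
  have hD'' : ∀ k, ∀ x ∈ S, ν (cfaCell S ι k x) ≤ D * ν (cfaCell S ι (k + 1) x) := by
    intro k x hx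
    rw [hνc, hνc]
    exact hD k x hx
  have hS0 : cfaCell S ι 0 x0 = S := by
    ext y
    exact ⟨fun h => h.1, fun h => ⟨h, h0 y h x0 hx0⟩⟩
  have hμSpos : 0 < μ S := by
    have := hμ' 0 x0 hx0
    rwa [hS0] at this
  have hνSpos : 0 < ν S := by
    have := hν' 0 x0 hx0
    rwa [hS0] at this
  rw [← hνSe]
  set L0 : ℝ≥0∞ := μ S / ν S with hL0
  have hL00 : L0 ≠ 0 := (ENNReal.div_pos hμSpos.ne' hνS'.ne).ne'
  have hL0t : L0 ≠ ⊤ := (ENNReal.div_lt_top hμS.ne hνSpos.ne').ne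
  have hL0S : μ S ≤ L0 * ν S := by
    rw [hL0, ENNReal.div_mul_cancel hνSpos.ne' hνS'.ne]
  have hb1 : (1 : ℝ≥0∞) ≤ b := by
    have : (1 : ℝ≥0) ≤ b := by
      have : (1 : ℝ) ≤ b := by linarith
      exact_mod_cast this
    exact_mod_cast this
  have hb0 : (b : ℝ≥0∞) ≠ 0 := (lt_of_lt_of_le one_pos hb1).ne'
  set Lj : ℕ → ℝ≥0∞ := fun j => (b : ℝ≥0∞) ^ j * L0 with hLj
  have hLj0 : ∀ j, Lj j ≠ 0 := fun j => mul_ne_zero (pow_ne_zero j hb0) hL00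
  have hLjt : ∀ j, Lj j ≠ ⊤ := fun j =>
    ENNReal.mul_ne_top (ENNReal.pow_ne_top ENNReal.coe_ne_top) hL0t
  have hLjS : ∀ j, μ S ≤ Lj j * ν S := by
    intro j
    refine hL0S.trans ?_
    gcongr
    calc L0 = 1 * L0 := (one_mul _).symm
      _ ≤ Lj j := by
          simp only [hLj]
          gcongr
          exact one_le_pow₀ hb1
  have hLjs : ∀ j, Lj (j + 1) = (b : ℝ≥0∞) * Lj j := by
    intro j
    simp only [hLj, pow_succ]
    ring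
  have hLja : ∀ j, (Lj j) ^ a = (t : ℝ≥0∞) ^ j * L0 ^ a := by
    intro j
    simp only [hLj]
    rw [ENNReal.mul_rpow_of_nonneg _ _ ha0.le]
    congr 1
    rw [← ENNReal.rpow_natCast, ← ENNReal.rpow_mul, mul_comm, ENNReal.rpow_mul, habE,
      ENNReal.rpow_natCast]
  have hdec : ∀ j, μ (cfaOm μ ν S ι (Lj j)) ≤ (r : ℝ≥0∞) ^ j * μ S := by
    intro j
    induction j with
    | zero =>
      rw [pow_zero, one_mul]
      exact measure_mono (fun y hy => hy.1)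
    | succ j ih =>
      have h1 := cfa_A hS hι h0 hn hμS hνS' hμ' hν' hA' hD'' (hLj0 j) (hLjt j) (hLjS j)
      rw [← hb, ← hLjs j] at h1
      have hK2 : (((2 * C) ^ 3 + 1 + 1 : ℝ≥0) : ℝ≥0∞) = (K0 : ℝ≥0∞) + 1 := by
        rw [hK0]
        push_cast
        rfl
      rw [hK2, ← hK0] at h1
      have hK3 : (K0 : ℝ≥0∞) + 1 ≠ 0 := by simp
      have hK4 : (K0 : ℝ≥0∞) + 1 ≠ ⊤ := by simp
      have h2 : μ (cfaOm μ ν S ι (Lj (j + 1))) ≤ (r : ℝ≥0∞) * μ (cfaOm μ ν S ι (Lj j)) := by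
        have hr2 : (K0 : ℝ≥0∞) = ((K0 : ℝ≥0∞) + 1) * r := by
          have : K0 = (K0 + 1) * r := by
            rw [hr]
            field_simp
          calc (K0 : ℝ≥0∞) = (((K0 + 1) * r : ℝ≥0) : ℝ≥0∞) := by rw [← this]
            _ = ((K0 : ℝ≥0∞) + 1) * r := by push_cast; rfl
        have h3 : ((K0 : ℝ≥0∞) + 1) * μ (cfaOm μ ν S ι (Lj (j + 1))) ≤
            ((K0 : ℝ≥0∞) + 1) * ((r : ℝ≥0∞) * μ (cfaOm μ ν S ι (Lj j))) := by
          refine h1.trans (le_of_eq ?_)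
          rw [← mul_assoc, ← hr2]
        rwa [ENNReal.mul_le_mul_iff_right hK3 hK4] at h3
      calc μ (cfaOm μ ν S ι (Lj (j + 1))) ≤ (r : ℝ≥0∞) * μ (cfaOm μ ν S ι (Lj j)) := h2
        _ ≤ (r : ℝ≥0∞) * ((r : ℝ≥0∞) ^ j * μ S) := by gcongr
        _ = (r : ℝ≥0∞) ^ (j + 1) * μ S := by ring
  have hOmm : ∀ j, MeasurableSet (cfaOm μ ν S ι (Lj j)) := fun j => cfaOm_meas μ ν hS hι _
  -- the pointwise bound
  have hpt : ∀ᵐ x ∂(μ.restrict S), w x ^ (-a) ≤ L0 ^ a * (1 + ∑' j,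
      (t : ℝ≥0∞) ^ (j + 1) * (cfaOm μ ν S ι (Lj j)).indicator (fun _ => (1 : ℝ≥0∞)) x) := by
    have hres : ∀ᵐ x ∂(μ.restrict S), x ∈ S := ae_restrict_mem hS
    filter_upwards [hlim, hres] with x hx hxS
    have hx' : Tendsto (fun k => ν (cfaCell S ι k x) / μ (cfaCell S ι k x)) atTop (𝓝 (w x)) := by
      simp only [hνc]
      exact hx
    by_cases h1 : ∀ j, x ∈ cfaOm μ ν S ι (Lj j)
    · have h2 : ∑' j, (t : ℝ≥0∞) ^ (j + 1) *
          (cfaOm μ ν S ι (Lj j)).indicator (fun _ => (1 : ℝ≥0∞)) x = ⊤ := by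
        rw [eq_top_iff]
        have h3 : ∑' _ : ℕ, (1 : ℝ≥0∞) = ⊤ := ENNReal.tsum_const_eq_top_of_ne_zero one_ne_zero
        rw [← h3]
        apply ENNReal.tsum_le_tsum
        intro j
        rw [indicator_of_mem (h1 j), mul_one]
        apply one_le_pow₀
        have : (1 : ℝ≥0) ≤ t := by
          have : (1 : ℝ) ≤ t := ht1.le
          exact_mod_cast this
        exact_mod_cast this
      rw [h2]
      have h4 : L0 ^ a ≠ 0 := (ENNReal.rpow_pos (pos_iff_ne_zero.2 hL00) hL0t).ne'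
      rw [add_top, ENNReal.mul_top h4]
      exact le_top
    · push Not at h1
      classical
      obtain ⟨hj1, hj2⟩ : x ∉ cfaOm μ ν S ι (Lj (Nat.find h1)) ∧
          ∀ i < Nat.find h1, x ∈ cfaOm μ ν S ι (Lj i) := by
        refine ⟨Nat.find_spec h1, ?_⟩
        intro i hi
        by_contra hcon
        exact Nat.find_min h1 hi hcon
      set j := Nat.find h1 with hj
      have h5 := cfa_point hμS hμ' (hLj0 j) (hLjt j) hxS hj1 hx' ha0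
      rw [hLja] at h5
      refine h5.trans ?_
      rw [mul_comm]
      gcongr
      rcases Nat.eq_zero_or_pos j with h6 | h6
      · rw [h6, pow_zero]
        exact le_self_add
      · refine le_trans ?_ le_add_self
        have h7 : x ∈ cfaOm μ ν S ι (Lj (j - 1)) := hj2 (j - 1) (by omega)
        calc (t : ℝ≥0∞) ^ j = (t : ℝ≥0∞) ^ (j - 1 + 1) *
              (cfaOm μ ν S ι (Lj (j - 1))).indicator (fun _ => (1 : ℝ≥0∞)) x := by
              rw [indicator_of_mem h7, mul_one]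
              congr 1
              omega
          _ ≤ _ := ENNReal.le_tsum (f := fun j => (t : ℝ≥0∞) ^ (j + 1) *
              (cfaOm μ ν S ι (Lj j)).indicator (fun _ => (1 : ℝ≥0∞)) x) (j - 1)
  have hOS : ∀ j, cfaOm μ ν S ι (Lj j) ⊆ S := fun j y hy => hy.1
  calc ∫⁻ z in S, w z ^ (-a) ∂μ
      ≤ ∫⁻ z in S, L0 ^ a * (1 + ∑' j, (t : ℝ≥0∞) ^ (j + 1) *
          (cfaOm μ ν S ι (Lj j)).indicator (fun _ => (1 : ℝ≥0∞)) z) ∂μ := lintegral_mono_ae hpt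
    _ = L0 ^ a * (μ S + ∑' j, (t : ℝ≥0∞) ^ (j + 1) * μ (cfaOm μ ν S ι (Lj j))) := by
        have hm : ∀ j, Measurable (fun z => (t : ℝ≥0∞) ^ (j + 1) *
            (cfaOm μ ν S ι (Lj j)).indicator (fun _ => (1 : ℝ≥0∞)) z) := fun j =>
          (measurable_const.indicator (hOmm j)).const_mul _
        rw [lintegral_const_mul _ (by
          exact measurable_const.add (Measurable.tsum hm))]
        rw [lintegral_add_left measurable_const, lintegral_tsum (fun j => (hm j).aemeasurable)]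
        rw [setLIntegral_const, one_mul]
        congr 2
        refine tsum_congr fun j => ?_
        rw [lintegral_const_mul _ (measurable_const.indicator (hOmm j)),
          lintegral_indicator (hOmm j), setLIntegral_const, one_mul,
          Measure.restrict_apply (hOmm j), inter_eq_self_of_subset_left (hOS j)]
    _ ≤ L0 ^ a * (μ S + ∑' j, (t : ℝ≥0∞) ^ (j + 1) * ((r : ℝ≥0∞) ^ j * μ S)) := by
        gcongr with j
        exact hdec j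
    _ = L0 ^ a * (μ S + ((t : ℝ≥0∞) * (1 - (t : ℝ≥0∞) * (r : ℝ≥0∞))⁻¹) * μ S) := by
        congr 2
        rw [← ENNReal.tsum_geometric]
        rw [← ENNReal.tsum_mul_left, ← ENNReal.tsum_mul_right]
        refine tsum_congr fun j => ?_
        rw [mul_pow]
        ring
    _ = ((1 + t * (1 - t * r)⁻¹ : ℝ≥0) : ℝ≥0∞) * L0 ^ a * μ S := by
        have h1 : (1 - t * r : ℝ≥0) ≠ 0 := by
          have h2 : t * r < 1 := by
            have : ((t * r : ℝ≥0) : ℝ) < 1 := by push_cast; exact htr1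
            exact_mod_cast this
          exact (tsub_pos_of_lt h2).ne'
        rw [ENNReal.coe_add, ENNReal.coe_mul, ENNReal.coe_inv h1, ENNReal.coe_sub,
          ENNReal.coe_mul, ENNReal.coe_one]
        ring

end Pool.Agent.Helper20.PN
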