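import Pool.Agent.Helper20.PN.Defs
import Pool.Agent.Helper20.PN.CFA

/-!
# From the reverse Hoelder doubling inequality to the Muckenhoupt condition
-/

open MeasureTheory Metric Set Filter
open scoped ENNReal NNReal ContDiff Topology

namespace Pool.Agent.Helper20.PN

/-! ### Geometry of the dyadic cells -/

/-- The integer coordinates of the dyadic cell. -/
private noncomputable def cfb_fl {n : ℕ} (y : V n) (r : ℝ) (k : ℕ) (x : V n) : Fin n → ℤ :=
  fun i => ⌊2 ^ k * ((x i - y i + r) / (2 * r))⌋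

/-- The code of the dyadic cell. -/
private noncomputable def cfb_io {n : ℕ} (y : V n) (r : ℝ) (k : ℕ) (x : V n) : ℕ :=
  Encodable.encode (cfb_fl y r k x)

/-- The cube. -/
private def cfb_S {n : ℕ} (y : V n) (r : ℝ) : Set (V n) := {x | ∀ i, y i - r ≤ x i ∧ x i < y i + r}

/-- The centre of the cell. -/
private noncomputable def cfb_c {n : ℕ} (y : V n) (r : ℝ) (k : ℕ) (x : V n) : V n :=
  WithLp.toLp 2 (fun i => y i - r + ((cfb_fl y r k x i : ℝ) + 1 / 2) * (2 * (r / 2 ^ k)))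

private lemma cfb_io_iff {n : ℕ} (y : V n) (r : ℝ) (k : ℕ) (x z : V n) :
    cfb_io y r k z = cfb_io y r k x ↔ ∀ i, cfb_fl y r k z i = cfb_fl y r k x i := by
  unfold cfb_io
  rw [Encodable.encode_inj]
  exact funext_iff

private lemma cfb_norm_le {n : ℕ} {v : V n} {b : ℝ} (hb : 0 ≤ b) (h : ∀ i, |v i| ≤ b) :
    ‖v‖ ≤ n * b := by
  rw [EuclideanSpace.norm_eq, Real.sqrt_le_iff]
  refine ⟨by positivity, ?_⟩
  have h1 : ∑ i, ‖v i‖ ^ 2 ≤ ∑ _i : Fin n, b ^ 2 := by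
    refine Finset.sum_le_sum fun i _ => ?_
    have := h i
    rw [Real.norm_eq_abs]
    exact pow_le_pow_left₀ (abs_nonneg _) this 2
  refine h1.trans ?_
  simp only [Finset.sum_const, Finset.card_univ, Fintype.card_fin, nsmul_eq_mul]
  rcases Nat.eq_zero_or_pos n with h0 | h0
  · subst h0; simp
  · have : (1 : ℝ) ≤ n := by exact_mod_cast h0
    nlinarith [sq_nonneg b, mul_nonneg (sub_nonneg.2 this) (sq_nonneg b),
      mul_nonneg (mul_nonneg (sub_nonneg.2 this) (sq_nonneg b)) (zero_le_one.trans this)]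

private lemma cfb_abs_le {n : ℕ} (v : V n) (i : Fin n) : |v i| ≤ ‖v‖ := by
  rw [EuclideanSpace.norm_eq, ← Real.norm_eq_abs]
  refine Real.le_sqrt_of_sq_le ?_
  exact Finset.single_le_sum (f := fun i => ‖v i‖ ^ 2) (fun j _ => by positivity)
    (Finset.mem_univ i)

private lemma cfb_fl_bounds {n : ℕ} {y : V n} {r : ℝ} (hr : 0 < r) (k : ℕ) (x : V n) (i : Fin n) :
    y i - r + (cfb_fl y r k x i : ℝ) * (2 * (r / 2 ^ k)) ≤ x i ∧
    x i < y i - r + ((cfb_fl y r k x i : ℝ) + 1) * (2 * (r / 2 ^ k)) := by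
  have h1 := Int.floor_le ((2 : ℝ) ^ k * ((x i - y i + r) / (2 * r)))
  have h2 := Int.lt_floor_add_one ((2 : ℝ) ^ k * ((x i - y i + r) / (2 * r)))
  have hk : (0 : ℝ) < 2 ^ k := by positivity
  have hpos : 0 < 2 * (r / 2 ^ k) := by positivity
  have h3 : (2 : ℝ) ^ k * ((x i - y i + r) / (2 * r)) * (2 * (r / 2 ^ k)) = x i - y i + r := by
    field_simp
  have e : cfb_fl y r k x i = ⌊2 ^ k * ((x i - y i + r) / (2 * r))⌋ := rfl
  rw [e]
  constructor
  · have := mul_le_mul_of_nonneg_right h1 hpos.le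
    linarith
  · have := mul_lt_mul_of_pos_right h2 hpos
    linarith

private lemma cfb_fl_eq {n : ℕ} {y : V n} {r : ℝ} (hr : 0 < r) (k : ℕ) (z : V n) (i : Fin n)
    (m : ℤ) (h1 : y i - r + (m : ℝ) * (2 * (r / 2 ^ k)) ≤ z i)
    (h2 : z i < y i - r + ((m : ℝ) + 1) * (2 * (r / 2 ^ k))) : cfb_fl y r k z i = m := by
  unfold cfb_fl
  rw [Int.floor_eq_iff]
  have hk : (0 : ℝ) < 2 ^ k := by positivity
  have hpos : 0 < 2 * (r / 2 ^ k) := by positivity
  have h3 : (2 : ℝ) ^ k * ((z i - y i + r) / (2 * r)) = (z i - y i + r) / (2 * (r / 2 ^ k)) := by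
    field_simp
  rw [h3]
  constructor
  · rw [le_div_iff₀ hpos]; linarith
  · rw [div_lt_iff₀ hpos]; linarith

private lemma cfb_fl_range {n : ℕ} {y : V n} {r : ℝ} (hr : 0 < r) (k : ℕ) {x : V n}
    (hx : x ∈ cfb_S y r) (i : Fin n) : 0 ≤ cfb_fl y r k x i ∧ cfb_fl y r k x i + 1 ≤ 2 ^ k := by
  have hk : (0 : ℝ) < 2 ^ k := by positivity
  have hx' := hx i
  constructor
  · unfold cfb_fl
    apply Int.floor_nonneg.2
    have : 0 ≤ x i - y i + r := by linarith [hx'.1]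
    positivity
  · have : cfb_fl y r k x i < 2 ^ k := by
      unfold cfb_fl
      rw [Int.floor_lt]
      push_cast
      have : (x i - y i + r) / (2 * r) < 1 := by
        rw [div_lt_one (by positivity)]; linarith [hx'.2]
      calc (2 : ℝ) ^ k * ((x i - y i + r) / (2 * r)) < 2 ^ k * 1 :=
            mul_lt_mul_of_pos_left this hk
        _ = 2 ^ k := mul_one _
    omega

private lemma cfb_c_apply {n : ℕ} (y : V n) (r : ℝ) (k : ℕ) (x : V n) (i : Fin n) :
    cfb_c y r k x i = y i - r + ((cfb_fl y r k x i : ℝ) + 1 / 2) * (2 * (r / 2 ^ k)) := rfl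

private lemma cfb_near {n : ℕ} {y : V n} {r : ℝ} (hr : 0 < r) (k : ℕ) {x z : V n}
    (h : cfb_io y r k z = cfb_io y r k x) (i : Fin n) : |z i - cfb_c y r k x i| ≤ r / 2 ^ k := by
  have h1 := (cfb_io_iff y r k x z).1 h i
  have h2 := cfb_fl_bounds hr (y := y) k z i
  rw [h1] at h2
  rw [cfb_c_apply, abs_le]
  constructor <;> linarith [h2.1, h2.2]

private lemma cfb_ball_sub {n : ℕ} {y : V n} {r : ℝ} (hr : 0 < r) (k : ℕ) {x : V n}
    (hx : x ∈ cfb_S y r) : ball (cfb_c y r k x) (r / 2 ^ k) ⊆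
      {z | z ∈ cfb_S y r ∧ cfb_io y r k z = cfb_io y r k x} := by
  intro z hz
  rw [mem_ball, dist_eq_norm] at hz
  have hk : (0 : ℝ) < 2 ^ k := by positivity
  have hpos : 0 < r / 2 ^ k := by positivity
  have key : ∀ i, y i - r + (cfb_fl y r k x i : ℝ) * (2 * (r / 2 ^ k)) ≤ z i ∧
      z i < y i - r + ((cfb_fl y r k x i : ℝ) + 1) * (2 * (r / 2 ^ k)) := by
    intro i
    have h1 : |z i - cfb_c y r k x i| < r / 2 ^ k := by
      have := cfb_abs_le (z - cfb_c y r k x) i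
      exact lt_of_le_of_lt this hz
    rw [cfb_c_apply, abs_lt] at h1
    constructor <;> linarith [h1.1, h1.2]
  refine ⟨fun i => ?_, (cfb_io_iff y r k x z).2 fun i => cfb_fl_eq hr k z i _ (key i).1 (key i).2⟩
  obtain ⟨h3, h4⟩ := cfb_fl_range hr k hx i
  have h3' : (0 : ℝ) ≤ cfb_fl y r k x i := by exact_mod_cast h3
  have h4' : (cfb_fl y r k x i : ℝ) + 1 ≤ 2 ^ k := by exact_mod_cast h4
  have h5 : 0 ≤ (cfb_fl y r k x i : ℝ) * (2 * (r / 2 ^ k)) := by positivity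
  have h6 : ((cfb_fl y r k x i : ℝ) + 1) * (2 * (r / 2 ^ k)) ≤ 2 ^ k * (2 * (r / 2 ^ k)) :=
    mul_le_mul_of_nonneg_right h4' (by positivity)
  have h7 : (2 : ℝ) ^ k * (2 * (r / 2 ^ k)) = 2 * r := by field_simp
  constructor <;> linarith [(key i).1, (key i).2]

private lemma cfb_sub_ball {n : ℕ} (hn : 1 ≤ n) {y : V n} {r : ℝ} (hr : 0 < r) (k : ℕ) (x : V n) :
    {z | z ∈ cfb_S y r ∧ cfb_io y r k z = cfb_io y r k x} ⊆
      ball (cfb_c y r k x) (2 * n * (r / 2 ^ k)) := by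
  rintro z ⟨-, hz⟩
  rw [mem_ball, dist_eq_norm]
  have hn' : (1 : ℝ) ≤ n := by exact_mod_cast hn
  have hpos : 0 < r / 2 ^ k := by positivity
  have := cfb_norm_le (v := z - cfb_c y r k x) hpos.le (fun i => cfb_near hr k hz i)
  have h2 : 0 < (n : ℝ) * (r / 2 ^ k) := by positivity
  linarith

private lemma cfb_sub_ball' {n : ℕ} (hn : 1 ≤ n) {y : V n} {r : ℝ} (hr : 0 < r) (k : ℕ) (x : V n) :
    {z | z ∈ cfb_S y r ∧ cfb_io y r k z = cfb_io y r k x} ⊆
      ball (cfb_c y r (k + 1) x) (8 * n * (r / 2 ^ (k + 1))) := by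
  rintro z ⟨-, hz⟩
  rw [mem_ball, dist_eq_norm]
  have hn' : (1 : ℝ) ≤ n := by exact_mod_cast hn
  have hpos : 0 < r / 2 ^ (k + 1) := by positivity
  have e : r / 2 ^ k = 2 * (r / 2 ^ (k + 1)) := by rw [pow_succ]; field_simp
  have := cfb_norm_le (v := z - cfb_c y r (k + 1) x) (b := 5 * (r / 2 ^ (k + 1)))
    (by positivity) (fun i => by
      have h1 := cfb_near hr k hz i
      have h2 := cfb_near hr k (rfl : cfb_io y r k x = cfb_io y r k x) i
      have h3 := cfb_near hr (k + 1) (rfl : cfb_io y r (k + 1) x = cfb_io y r (k + 1) x) i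
      rw [e] at h1 h2
      have h4 : (z - cfb_c y r (k + 1) x) i = z i - cfb_c y r (k + 1) x i := rfl
      rw [h4]
      rw [abs_le] at *
      constructor <;> linarith [h1.1, h1.2, h2.1, h2.2, h3.1, h3.2])
  have h2 : 0 < (n : ℝ) * (r / 2 ^ (k + 1)) := by positivity
  linarith

private lemma cfb_sub_closedBall {n : ℕ} {y : V n} {r : ℝ} (hr : 0 < r) (k : ℕ)
    (x : V n) : {z | z ∈ cfb_S y r ∧ cfb_io y r k z = cfb_io y r k x} ⊆
      closedBall x (2 * n * (r / 2 ^ k)) := by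
  rintro z ⟨-, hz⟩
  rw [mem_closedBall, dist_eq_norm]
  have hpos : 0 < r / 2 ^ k := by positivity
  have := cfb_norm_le (v := z - x) (b := 2 * (r / 2 ^ k)) (by positivity) (fun i => by
      have h1 := cfb_near hr k hz i
      have h2 := cfb_near hr k (rfl : cfb_io y r k x = cfb_io y r k x) i
      have h4 : (z - x) i = z i - x i := rfl
      rw [h4]
      rw [abs_le] at *
      constructor <;> linarith [h1.1, h1.2, h2.1, h2.2])
  linarith

private lemma cfb_dist_c {n : ℕ} {y : V n} {r : ℝ} (hr : 0 < r) (k : ℕ) {x : V n}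
    (hx : x ∈ cfb_S y r) : dist (cfb_c y r k x) y ≤ n * r := by
  rw [dist_eq_norm]
  refine cfb_norm_le hr.le fun i => ?_
  have h4 : (cfb_c y r k x - y) i = cfb_c y r k x i - y i := rfl
  rw [h4, cfb_c_apply]
  have hk : (0 : ℝ) < 2 ^ k := by positivity
  obtain ⟨h3, h4⟩ := cfb_fl_range hr k hx i
  have h3' : (0 : ℝ) ≤ cfb_fl y r k x i := by exact_mod_cast h3
  have h4' : (cfb_fl y r k x i : ℝ) + 1 ≤ 2 ^ k := by exact_mod_cast h4
  have h5 : 0 ≤ (cfb_fl y r k x i : ℝ) * (2 * (r / 2 ^ k)) := by positivity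
  have h6 : ((cfb_fl y r k x i : ℝ) + 1) * (2 * (r / 2 ^ k)) ≤ 2 ^ k * (2 * (r / 2 ^ k)) :=
    mul_le_mul_of_nonneg_right h4' (by positivity)
  have h7 : (2 : ℝ) ^ k * (2 * (r / 2 ^ k)) = 2 * r := by field_simp
  have h8 : 0 < r / 2 ^ k := by positivity
  rw [abs_le]
  constructor <;> linarith

private lemma cfb_S_sub {n : ℕ} {y : V n} {r : ℝ} (hr : 0 < r) :
    cfb_S y r ⊆ closedBall y (n * r) := by
  intro x hx
  rw [mem_closedBall, dist_eq_norm]
  refine cfb_norm_le hr.le fun i => ?_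
  have h4 : (x - y) i = x i - y i := rfl
  rw [h4, abs_le]
  constructor <;> linarith [(hx i).1, (hx i).2]

private lemma cfb_ball_sub_S {n : ℕ} {y : V n} {r : ℝ} : ball y r ⊆ cfb_S y r := by
  intro x hx i
  rw [mem_ball, dist_eq_norm] at hx
  have h1 := lt_of_le_of_lt (cfb_abs_le (x - y) i) hx
  have h4 : (x - y) i = x i - y i := rfl
  rw [h4, abs_lt] at h1
  constructor <;> linarith [h1.1, h1.2]

private lemma cfb_zero {n : ℕ} {y : V n} {r : ℝ} (hr : 0 < r) {x z : V n} (hx : x ∈ cfb_S y r)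
    (hz : z ∈ cfb_S y r) : cfb_io y r 0 x = cfb_io y r 0 z := by
  rw [cfb_io_iff]
  intro i
  have h1 := cfb_fl_range hr 0 hx i
  have h2 := cfb_fl_range hr 0 hz i
  simp only [pow_zero] at h1 h2
  omega

private lemma cfb_nest {n : ℕ} {y : V n} {r : ℝ} (k : ℕ) {x z : V n}
    (h : cfb_io y r (k + 1) x = cfb_io y r (k + 1) z) : cfb_io y r k x = cfb_io y r k z := by
  rw [cfb_io_iff] at h ⊢
  intro i
  have key : ∀ x : V n, cfb_fl y r k x i = cfb_fl y r (k + 1) x i / 2 := by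
    intro x
    unfold cfb_fl
    have := Int.floor_div_natCast ((2 : ℝ) ^ (k + 1) * ((x i - y i + r) / (2 * r))) 2
    push_cast at this
    rw [← this, pow_succ]
    congr 1
    ring
  rw [key x, key z, h i]

private lemma cfb_meas_S {n : ℕ} (y : V n) (r : ℝ) : MeasurableSet (cfb_S y r) := by
  unfold cfb_S
  have : {x : V n | ∀ i, y i - r ≤ x i ∧ x i < y i + r} =
      ⋂ i, {x : V n | y i - r ≤ x i ∧ x i < y i + r} := by
    ext x; simp
  rw [this]
  refine MeasurableSet.iInter fun i => ?_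
  have hm : Measurable fun x : V n => x i := by fun_prop
  exact (measurableSet_le measurable_const hm).inter (measurableSet_lt hm measurable_const)

private lemma cfb_meas_io {n : ℕ} (y : V n) (r : ℝ) (k : ℕ) : Measurable (cfb_io y r k) := by
  have h1 : Measurable (cfb_fl y r k) := by
    refine measurable_pi_lambda _ fun i => ?_
    unfold cfb_fl
    have hm : Measurable fun x : V n => x i := by fun_prop
    exact Int.measurable_floor.comp (by fun_prop)
  have h2 : Measurable (Encodable.encode : (Fin n → ℤ) → ℕ) := measurable_of_countable _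
  exact h2.comp h1

/-! ### Hoelder and the chain of balls -/

private lemma cfb_conj {p : ℝ} (hp : 3 / 2 ≤ p) : p.HolderConjugate (p / (p - 1)) := by
  have h1 : 1 < p := by linarith
  exact Real.HolderConjugate.conjExponent h1

private lemma cfb_holder {n : ℕ} {p : ℝ} (hp : 3 / 2 ≤ p) {w : V n → ℝ≥0∞} (hw : Measurable w)
    (F : Set (V n)) :
    ∫⁻ x in F, w x ≤ volume F ^ (1 - 1 / p) * (∫⁻ x in F, w x ^ p) ^ (1 / p) := by
  have h := ENNReal.lintegral_mul_le_Lp_mul_Lq (volume.restrict F) (cfb_conj hp)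
    (f := w) (g := fun _ => 1) hw.aemeasurable aemeasurable_const
  have e : 1 / (p / (p - 1)) = 1 - 1 / p := by
    have : p ≠ 0 := by linarith
    field_simp
  rw [e] at h
  simp only [Pi.mul_apply, mul_one, ENNReal.one_rpow, lintegral_const, one_mul,
    Measure.restrict_apply_univ] at h
  rw [mul_comm]
  exact h

private lemma cfb_vol_ball {n : ℕ} (x : V n) {t : ℝ} (ht : 0 < t) :
    volume (ball x t) = ENNReal.ofReal (t ^ n) * volume (ball (0 : V n) 1) := by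
  rw [Measure.addHaar_ball_of_pos volume x ht]
  simp

private lemma cfb_rpow_le (a : ℝ≥0∞) {e : ℝ} (h0 : 0 ≤ e) (h1 : e ≤ 1) : a ^ e ≤ max 1 a := by
  rcases le_total a 1 with h | h
  · refine le_trans ?_ (le_max_left _ _)
    exact ENNReal.rpow_le_one h h0
  · refine le_trans ?_ (le_max_right _ _)
    calc a ^ e ≤ a ^ (1 : ℝ) := ENNReal.rpow_le_rpow_of_exponent_le h h1
      _ = a := ENNReal.rpow_one a

private lemma cfb_ofReal_rpow {n : ℕ} {t e : ℝ} (ht : 0 < t) :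
    ENNReal.ofReal (t ^ (-(n : ℝ) * e)) = (ENNReal.ofReal (t ^ n))⁻¹ ^ e := by
  rw [← ENNReal.ofReal_inv_of_pos (by positivity), ENNReal.ofReal_rpow_of_pos (by positivity)]
  congr 1
  rw [← Real.rpow_natCast, ← Real.rpow_neg ht.le, ← Real.rpow_mul ht.le]

private lemma cfb_step {n : ℕ} {Cs : ℝ≥0} {p : ℝ} (hp : 3 / 2 ≤ p) {w : V n → ℝ≥0∞}
    (hw : Measurable w) (c : V n) {t : ℝ} (ht : 0 < t)
    (H : (∫⁻ y in ball c (2 * t), w y ^ p) ^ (1 / p) ≤
        Cs * ENNReal.ofReal (t ^ (-(n : ℝ) * (1 - 1 / p))) * ∫⁻ y in ball c t, w y) :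
    (∫⁻ y in ball c (2 * t), w y ^ p) ^ (1 / p) ≤
      (Cs * max 1 (volume (ball (0 : V n) 1))) * (∫⁻ y in ball c t, w y ^ p) ^ (1 / p) := by
  have he0 : 0 ≤ 1 - 1 / p := by
    have : 1 / p ≤ 1 := by rw [div_le_one (by linarith)]; linarith
    linarith
  have he1 : 1 - 1 / p ≤ 1 := by
    have : 0 ≤ 1 / p := by positivity
    linarith
  refine H.trans ?_
  have h1 := cfb_holder hp hw (ball c t)
  rw [cfb_vol_ball c ht] at h1
  rw [cfb_ofReal_rpow ht]
  calc (Cs : ℝ≥0∞) * (ENNReal.ofReal (t ^ n))⁻¹ ^ (1 - 1 / p) * ∫⁻ y in ball c t, w y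
      ≤ Cs * (ENNReal.ofReal (t ^ n))⁻¹ ^ (1 - 1 / p) *
        ((ENNReal.ofReal (t ^ n) * volume (ball (0 : V n) 1)) ^ (1 - 1 / p) *
          (∫⁻ y in ball c t, w y ^ p) ^ (1 / p)) := by gcongr
    _ = Cs * ((ENNReal.ofReal (t ^ n))⁻¹ * (ENNReal.ofReal (t ^ n) *
          volume (ball (0 : V n) 1))) ^ (1 - 1 / p) *
          (∫⁻ y in ball c t, w y ^ p) ^ (1 / p) := by
        have e2 := ENNReal.mul_rpow_of_nonneg (ENNReal.ofReal (t ^ n))⁻¹
          (ENNReal.ofReal (t ^ n) * volume (ball (0 : V n) 1)) he0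
        rw [e2]
        ring
    _ = Cs * (volume (ball (0 : V n) 1)) ^ (1 - 1 / p) *
          (∫⁻ y in ball c t, w y ^ p) ^ (1 / p) := by
        rw [← mul_assoc (ENNReal.ofReal (t ^ n))⁻¹, ENNReal.inv_mul_cancel, one_mul]
        · simp only [ne_eq, ENNReal.ofReal_eq_zero, not_le]; positivity
        · exact ENNReal.ofReal_ne_top
    _ ≤ (Cs * max 1 (volume (ball (0 : V n) 1))) *
          (∫⁻ y in ball c t, w y ^ p) ^ (1 / p) := by
        gcongr
        exact cfb_rpow_le _ he0 he1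

private lemma cfb_chain {n : ℕ} {Cs : ℝ≥0} {p : ℝ} (hp : 3 / 2 ≤ p) {w : V n → ℝ≥0∞}
    (hw : Measurable w) (c : V n) {T : ℝ}
    (H : ∀ t : ℝ, 0 < t → t ≤ T → (∫⁻ y in ball c (2 * t), w y ^ p) ^ (1 / p) ≤
        Cs * ENNReal.ofReal (t ^ (-(n : ℝ) * (1 - 1 / p))) * ∫⁻ y in ball c t, w y)
    {s : ℝ} (hs : 0 < s) (hsT : s ≤ 2 * T) (j : ℕ) :
    (∫⁻ y in ball c s, w y ^ p) ^ (1 / p) ≤
      (Cs * max 1 (volume (ball (0 : V n) 1))) ^ j *
        (∫⁻ y in ball c (s / 2 ^ j), w y ^ p) ^ (1 / p) := by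
  induction j with
  | zero => simp
  | succ j ih =>
    refine ih.trans ?_
    have e : s / 2 ^ j = 2 * (s / 2 ^ (j + 1)) := by rw [pow_succ]; field_simp
    have hpos : 0 < s / 2 ^ (j + 1) := by positivity
    have hle : s / 2 ^ (j + 1) ≤ T := by
      have : s / 2 ^ (j + 1) ≤ s / 2 := by
        apply div_le_div_of_nonneg_left hs.le (by norm_num)
        rw [pow_succ]
        have : (1 : ℝ) ≤ 2 ^ j := one_le_pow₀ (by norm_num)
        linarith
      linarith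
    have := cfb_step hp hw c hpos (H _ hpos hle)
    rw [pow_succ, mul_assoc, e]
    gcongr

private lemma cfb_base {n : ℕ} {Cs : ℝ≥0} {p : ℝ} (hp : 3 / 2 ≤ p) {w : V n → ℝ≥0∞}
    (hw : Measurable w) (c : V n) {T : ℝ}
    (H : ∀ t : ℝ, 0 < t → t ≤ T → (∫⁻ y in ball c (2 * t), w y ^ p) ^ (1 / p) ≤
        Cs * ENNReal.ofReal (t ^ (-(n : ℝ) * (1 - 1 / p))) * ∫⁻ y in ball c t, w y)
    {K ρ : ℝ} (hK : 2 ≤ K) (hρ : 0 < ρ) (hsT : K * ρ ≤ 2 * T) (m : ℕ) (hm : K ≤ 2 ^ (m + 1))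
    {F : Set (V n)} (hF : F ⊆ ball c (K * ρ)) :
    ∫⁻ y in F, w y ≤ (Cs * max 1 (volume (ball (0 : V n) 1))) ^ m * Cs *
      (volume F * (ENNReal.ofReal (ρ ^ n))⁻¹) ^ (1 - 1 / p) * ∫⁻ y in ball c ρ, w y := by
  have he0 : 0 ≤ 1 - 1 / p := by
    have : 1 / p ≤ 1 := by rw [div_le_one (by linarith)]; linarith
    linarith
  have h1p : 0 ≤ 1 / p := by positivity
  have hρT : ρ ≤ T := by nlinarith
  have h1 := cfb_holder hp hw F
  have h2 : (∫⁻ x in F, w x ^ p) ^ (1 / p) ≤ (∫⁻ x in ball c (K * ρ), w x ^ p) ^ (1 / p) :=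
    ENNReal.rpow_le_rpow (lintegral_mono_set hF) h1p
  have h3 := cfb_chain hp hw c H (s := K * ρ) (by positivity) hsT m
  have h4 : (∫⁻ x in ball c (K * ρ / 2 ^ m), w x ^ p) ^ (1 / p) ≤
      (∫⁻ x in ball c (2 * ρ), w x ^ p) ^ (1 / p) := by
    refine ENNReal.rpow_le_rpow (lintegral_mono_set (ball_subset_ball ?_)) h1p
    rw [div_le_iff₀ (by positivity)]
    rw [pow_succ] at hm
    nlinarith
  have h5 := H ρ hρ hρT
  rw [cfb_ofReal_rpow hρ] at h5
  calc ∫⁻ y in F, w y ≤ volume F ^ (1 - 1 / p) * (∫⁻ x in F, w x ^ p) ^ (1 / p) := h1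
    _ ≤ volume F ^ (1 - 1 / p) * ((Cs * max 1 (volume (ball (0 : V n) 1))) ^ m *
        (Cs * (ENNReal.ofReal (ρ ^ n))⁻¹ ^ (1 - 1 / p) * ∫⁻ y in ball c ρ, w y)) := by
        gcongr
        refine h2.trans (h3.trans ?_)
        gcongr
        exact h4.trans h5
    _ = (Cs * max 1 (volume (ball (0 : V n) 1))) ^ m * Cs *
      (volume F * (ENNReal.ofReal (ρ ^ n))⁻¹) ^ (1 - 1 / p) * ∫⁻ y in ball c ρ, w y := by
        rw [ENNReal.mul_rpow_of_nonneg _ _ he0]
        ring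

/-! ### Lebesgue differentiation -/

private lemma cfb_diff {n : ℕ} (hn : 1 ≤ n) {y : V n} {r : ℝ} (hr : 0 < r) {w : V n → ℝ≥0∞}
    (hw : Measurable w) (hfin : ∫⁻ x, w x < ⊤) :
    ∀ᵐ x ∂(volume.restrict (cfb_S y r)), Tendsto (fun k =>
      (∫⁻ z in {z | z ∈ cfb_S y r ∧ cfb_io y r k z = cfb_io y r k x}, w z) /
        volume {z | z ∈ cfb_S y r ∧ cfb_io y r k z = cfb_io y r k x}) atTop (𝓝 (w x)) := by
  have hn' : (1 : ℝ) ≤ n := by exact_mod_cast hn
  have hint : Integrable (fun x => (w x).toReal) :=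
    integrable_toReal_of_lintegral_ne_top hw.aemeasurable hfin.ne
  have hltop : ∀ᵐ x, w x < ⊤ := ae_lt_top hw hfin.ne
  rw [ae_restrict_iff' (cfb_meas_S y r)]
  filter_upwards [IsUnifLocDoublingMeasure.ae_tendsto_average_norm_sub (μ := volume)
    hint.locallyIntegrable 1, hltop] with x hx hxt hxS
  have hδ : Tendsto (fun k : ℕ => 2 * n * (r / 2 ^ k)) atTop (𝓝[>] 0) := by
    rw [tendsto_nhdsWithin_iff]
    constructor
    · have : Tendsto (fun k : ℕ => r / (2 : ℝ) ^ k) atTop (𝓝 0) :=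
        tendsto_const_nhds.div_atTop (tendsto_pow_atTop_atTop_of_one_lt (by norm_num))
      simpa using this.const_mul (2 * (n : ℝ))
    · exact Eventually.of_forall fun k => by
        simp only [mem_Ioi]; positivity
  have hx1 := hx (fun _ : ℕ => x) (fun k : ℕ => 2 * n * (r / 2 ^ k)) hδ
    (Eventually.of_forall fun k => by
      simp only [one_mul, mem_closedBall, dist_self]; positivity)
  have hball : ∀ k, ball (cfb_c y r k x) (r / 2 ^ k) ⊆
      {z | z ∈ cfb_S y r ∧ cfb_io y r k z = cfb_io y r k x} := fun k => cfb_ball_sub hr k hxS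
  have hQm : ∀ k, MeasurableSet {z | z ∈ cfb_S y r ∧ cfb_io y r k z = cfb_io y r k x} :=
    fun k => (cfb_meas_S y r).inter ((cfb_meas_io y r k) (measurableSet_singleton _))
  have hQsub : ∀ k, {z | z ∈ cfb_S y r ∧ cfb_io y r k z = cfb_io y r k x} ⊆
      closedBall x (2 * n * (r / 2 ^ k)) := fun k => cfb_sub_closedBall hr k x
  have hω0 : volume (ball (0 : V n) 1) ≠ 0 := (measure_ball_pos _ _ one_pos).ne'
  have hωt : volume (ball (0 : V n) 1) ≠ ⊤ := measure_ball_lt_top.ne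
  have hQpos : ∀ k, volume {z | z ∈ cfb_S y r ∧ cfb_io y r k z = cfb_io y r k x} ≠ 0 := fun k =>
    ((measure_ball_pos volume _ (by positivity)).trans_le (measure_mono (hball k))).ne'
  have hQfin : ∀ k, volume {z | z ∈ cfb_S y r ∧ cfb_io y r k z = cfb_io y r k x} ≠ ⊤ := fun k =>
    ((measure_mono (hQsub k)).trans_lt measure_closedBall_lt_top).ne
  have hvol : ∀ k, volume.real (closedBall x (2 * n * (r / 2 ^ k))) ≤
      (2 * n) ^ n * volume.real {z | z ∈ cfb_S y r ∧ cfb_io y r k z = cfb_io y r k x} := by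
    intro k
    have h1 : volume (closedBall x (2 * n * (r / 2 ^ k))) =
        ENNReal.ofReal ((2 * n) ^ n) * volume (ball (cfb_c y r k x) (r / 2 ^ k)) := by
      rw [Measure.addHaar_closedBall _ _ (by positivity), finrank_euclideanSpace,
        Fintype.card_fin, cfb_vol_ball (cfb_c y r k x) (show 0 < r / 2 ^ k by positivity),
        ← mul_assoc, ← ENNReal.ofReal_mul (by positivity), ← mul_pow]
    have h2 : volume (closedBall x (2 * n * (r / 2 ^ k))) ≤ ENNReal.ofReal ((2 * n) ^ n) *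
        volume {z | z ∈ cfb_S y r ∧ cfb_io y r k z = cfb_io y r k x} := by
      rw [h1]; gcongr; exact hball k
    have h3 := ENNReal.toReal_mono (ENNReal.mul_ne_top ENNReal.ofReal_ne_top (hQfin k)) h2
    rw [ENNReal.toReal_mul, ENNReal.toReal_ofReal (by positivity)] at h3
    exact h3
  have hreal : Tendsto (fun k => (∫ z in {z | z ∈ cfb_S y r ∧ cfb_io y r k z = cfb_io y r k x},
      (w z).toReal) / volume.real {z | z ∈ cfb_S y r ∧ cfb_io y r k z = cfb_io y r k x})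
      atTop (𝓝 (w x).toReal) := by
    rw [tendsto_iff_norm_sub_tendsto_zero]
    have hz : Tendsto (fun k : ℕ => (2 * (n : ℝ)) ^ n *
        ⨍ z in closedBall x (2 * n * (r / 2 ^ k)), ‖(w z).toReal - (w x).toReal‖) atTop (𝓝 0) := by
      simpa using hx1.const_mul ((2 * (n : ℝ)) ^ n)
    refine squeeze_zero (fun _ => norm_nonneg _) (fun k => ?_) hz
    set Q := {z | z ∈ cfb_S y r ∧ cfb_io y r k z = cfb_io y r k x} with hQ
    have hvp : 0 < volume.real Q := ENNReal.toReal_pos (hQpos k) (hQfin k)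
    have hBp : 0 < volume.real (closedBall x (2 * n * (r / 2 ^ k))) := by
      apply ENNReal.toReal_pos _ measure_closedBall_lt_top.ne
      exact (measure_closedBall_pos _ _ (by positivity)).ne'
    have hIQ : IntegrableOn (fun z => (w z).toReal) Q := hint.integrableOn
    have hIc : IntegrableOn (fun _ => (w x).toReal) Q := integrableOn_const (hQfin k)
    have e1 : (∫ z in Q, (w z).toReal) / volume.real Q - (w x).toReal =
        (∫ z in Q, ((w z).toReal - (w x).toReal)) / volume.real Q := by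
      rw [integral_sub hIQ hIc, setIntegral_const, smul_eq_mul]
      field_simp
    have hIB : IntegrableOn (fun z => ‖(w z).toReal - (w x).toReal‖)
        (closedBall x (2 * n * (r / 2 ^ k))) :=
      (hint.integrableOn.sub (integrableOn_const measure_closedBall_lt_top.ne)).norm
    rw [e1, norm_div, Real.norm_of_nonneg hvp.le]
    have h1 : ‖∫ z in Q, ((w z).toReal - (w x).toReal)‖ ≤
        ∫ z in closedBall x (2 * n * (r / 2 ^ k)), ‖(w z).toReal - (w x).toReal‖ :=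
      (norm_integral_le_integral_norm _).trans
        (setIntegral_mono_set hIB (Eventually.of_forall fun _ => norm_nonneg _)
          (LE.le.eventuallyLE (hQsub k)))
    rw [setAverage_eq, smul_eq_mul, div_le_iff₀ hvp]
    have h2 := hvol k
    have h0 : 0 ≤ ∫ z in closedBall x (2 * n * (r / 2 ^ k)), ‖(w z).toReal - (w x).toReal‖ :=
      integral_nonneg fun _ => norm_nonneg _
    refine h1.trans ?_
    have h3 : (2 * (n : ℝ)) ^ n * ((volume.real (closedBall x (2 * n * (r / 2 ^ k))))⁻¹ *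
        ∫ z in closedBall x (2 * n * (r / 2 ^ k)), ‖(w z).toReal - (w x).toReal‖) * volume.real Q =
        (((2 * (n : ℝ)) ^ n * volume.real Q) *
          (volume.real (closedBall x (2 * n * (r / 2 ^ k))))⁻¹) *
        ∫ z in closedBall x (2 * n * (r / 2 ^ k)), ‖(w z).toReal - (w x).toReal‖ := by ring
    rw [h3]
    refine le_mul_of_one_le_left h0 ?_
    rw [← div_eq_mul_inv, one_le_div hBp]
    exact h2
  rw [← ENNReal.tendsto_toReal_iff _ hxt.ne]
  · refine hreal.congr fun k => ?_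
    rw [ENNReal.toReal_div]
    congr 1
    rw [integral_toReal hw.aemeasurable (ae_restrict_of_ae hltop)]
  · intro k
    exact ENNReal.div_ne_top ((setLIntegral_le_lintegral _ _).trans_lt hfin).ne (hQpos k)


/-! ### The main proof -/

private lemma cfb_exp {p : ℝ} (hp : 3 / 2 ≤ p) : 1 / 3 ≤ 1 - 1 / p ∧ 1 - 1 / p ≤ 1 := by
  have h1 : 1 / p ≤ 2 / 3 := by
    rw [div_le_div_iff₀ (by linarith) (by norm_num)]; linarith
  have h2 : 0 ≤ 1 / p := by positivity
  constructor <;> linarith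

private lemma cfb_cond_F {n : ℕ} (hn : 1 ≤ n) {Cs : ℝ≥0} {p : ℝ} (hp : 3 / 2 ≤ p)
    {w : V n → ℝ≥0∞} (hw : Measurable w) {y : V n} {r : ℝ} (hr : 0 < r) (k : ℕ) {x : V n}
    (hx : x ∈ cfb_S y r) {T : ℝ} (hT : n * r ≤ T)
    (H : ∀ t : ℝ, 0 < t → t ≤ T → (∫⁻ z in ball (cfb_c y r k x) (2 * t), w z ^ p) ^ (1 / p) ≤
        Cs * ENNReal.ofReal (t ^ (-(n : ℝ) * (1 - 1 / p))) * ∫⁻ z in ball (cfb_c y r k x) t, w z)
    {F : Set (V n)} (hF : F ⊆ {z | z ∈ cfb_S y r ∧ cfb_io y r k z = cfb_io y r k x}) :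
    ∫⁻ z in F, w z ≤ ((Cs * max 1 (volume (ball (0 : V n) 1))) ^ n * Cs *
      max 1 (ENNReal.ofReal ((2 * n) ^ n) * volume (ball (0 : V n) 1))) *
      (volume F / volume {z | z ∈ cfb_S y r ∧ cfb_io y r k z = cfb_io y r k x}) ^ (1 / 3 : ℝ) *
        ∫⁻ z in {z | z ∈ cfb_S y r ∧ cfb_io y r k z = cfb_io y r k x}, w z := by
  have hn' : (1 : ℝ) ≤ n := by exact_mod_cast hn
  have hρ : 0 < r / 2 ^ k := by positivity
  have hρr : r / 2 ^ k ≤ r := by
    rw [div_le_iff₀ (by positivity)]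
    have : (1 : ℝ) ≤ 2 ^ k := one_le_pow₀ (by norm_num)
    nlinarith
  have hK : 2 * (n : ℝ) ≤ 2 ^ (n + 1) := by
    have : n ≤ 2 ^ n := Nat.lt_two_pow_self.le
    have h2 : (n : ℝ) ≤ 2 ^ n := by exact_mod_cast this
    rw [pow_succ]; linarith
  obtain ⟨he3, he1⟩ := cfb_exp hp
  have he0 : 0 ≤ 1 - 1 / p := by linarith
  have hsub := cfb_sub_ball hn hr k x (y := y)
  have hsup := cfb_ball_sub hr k hx
  have h1 := cfb_base hp hw (cfb_c y r k x) H (K := 2 * n) (ρ := r / 2 ^ k) (by linarith) hρ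
    (by nlinarith) n hK (F := F) (hF.trans hsub)
  set Q := {z | z ∈ cfb_S y r ∧ cfb_io y r k z = cfb_io y r k x} with hQ
  have hQ0 : volume Q ≠ 0 :=
    ((measure_ball_pos volume _ hρ).trans_le (measure_mono hsup)).ne'
  have hQt : volume Q ≠ ⊤ := ((measure_mono hsub).trans_lt measure_ball_lt_top).ne
  have hvQ : volume Q ≤ ENNReal.ofReal ((r / 2 ^ k) ^ n) *
      (ENNReal.ofReal ((2 * n) ^ n) * volume (ball (0 : V n) 1)) := by
    refine (measure_mono hsub).trans ?_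
    rw [cfb_vol_ball _ (by positivity), ← mul_assoc, ← ENNReal.ofReal_mul (by positivity),
      ← mul_pow, mul_comm (r / 2 ^ k)]
  have ht0 : ENNReal.ofReal ((r / 2 ^ k) ^ n) ≠ 0 := by
    simp only [ne_eq, ENNReal.ofReal_eq_zero, not_le]; positivity
  have htt : ENNReal.ofReal ((r / 2 ^ k) ^ n) ≠ ⊤ := ENNReal.ofReal_ne_top
  have hinv : (ENNReal.ofReal ((r / 2 ^ k) ^ n))⁻¹ ≤
      (ENNReal.ofReal ((2 * n) ^ n) * volume (ball (0 : V n) 1)) / volume Q := by
    rw [ENNReal.le_div_iff_mul_le (Or.inl hQ0) (Or.inl hQt)]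
    calc (ENNReal.ofReal ((r / 2 ^ k) ^ n))⁻¹ * volume Q
        ≤ (ENNReal.ofReal ((r / 2 ^ k) ^ n))⁻¹ * (ENNReal.ofReal ((r / 2 ^ k) ^ n) *
          (ENNReal.ofReal ((2 * n) ^ n) * volume (ball (0 : V n) 1))) := by gcongr
      _ = ENNReal.ofReal ((2 * n) ^ n) * volume (ball (0 : V n) 1) := by
        rw [← mul_assoc, ENNReal.inv_mul_cancel ht0 htt, one_mul]
  have hFQ : volume F / volume Q ≤ 1 := by
    rw [ENNReal.div_le_iff hQ0 hQt, one_mul]
    exact measure_mono hF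
  have h2 : (volume F * (ENNReal.ofReal ((r / 2 ^ k) ^ n))⁻¹) ^ (1 - 1 / p) ≤
      max 1 (ENNReal.ofReal ((2 * n) ^ n) * volume (ball (0 : V n) 1)) *
        (volume F / volume Q) ^ (1 / 3 : ℝ) := by
    calc (volume F * (ENNReal.ofReal ((r / 2 ^ k) ^ n))⁻¹) ^ (1 - 1 / p)
        ≤ (volume F * ((ENNReal.ofReal ((2 * n) ^ n) * volume (ball (0 : V n) 1)) /
          volume Q)) ^ (1 - 1 / p) := by gcongr
      _ = ((ENNReal.ofReal ((2 * n) ^ n) * volume (ball (0 : V n) 1)) *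
          (volume F / volume Q)) ^ (1 - 1 / p) := by
          congr 1
          rw [div_eq_mul_inv, div_eq_mul_inv]; ring
      _ = (ENNReal.ofReal ((2 * n) ^ n) * volume (ball (0 : V n) 1)) ^ (1 - 1 / p) *
          (volume F / volume Q) ^ (1 - 1 / p) := ENNReal.mul_rpow_of_nonneg _ _ he0
      _ ≤ max 1 (ENNReal.ofReal ((2 * n) ^ n) * volume (ball (0 : V n) 1)) *
        (volume F / volume Q) ^ (1 / 3 : ℝ) := by
          exact mul_le_mul' (cfb_rpow_le _ he0 he1)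
            (ENNReal.rpow_le_rpow_of_exponent_ge hFQ he3)
  calc ∫⁻ z in F, w z ≤ (Cs * max 1 (volume (ball (0 : V n) 1))) ^ n * Cs *
      (volume F * (ENNReal.ofReal ((r / 2 ^ k) ^ n))⁻¹) ^ (1 - 1 / p) *
        ∫⁻ y in ball (cfb_c y r k x) (r / 2 ^ k), w y := h1
    _ ≤ (Cs * max 1 (volume (ball (0 : V n) 1))) ^ n * Cs *
      (max 1 (ENNReal.ofReal ((2 * n) ^ n) * volume (ball (0 : V n) 1)) *
        (volume F / volume Q) ^ (1 / 3 : ℝ)) * ∫⁻ z in Q, w z := by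
        gcongr
    _ = _ := by ring

private lemma cfb_cond_D {n : ℕ} (hn : 1 ≤ n) {Cs : ℝ≥0} {p : ℝ} (hp : 3 / 2 ≤ p)
    {w : V n → ℝ≥0∞} (hw : Measurable w) {y : V n} {r : ℝ} (hr : 0 < r) (k : ℕ) {x : V n}
    (hx : x ∈ cfb_S y r) {T : ℝ} (hT : 2 * n * r ≤ T)
    (H : ∀ t : ℝ, 0 < t → t ≤ T →
      (∫⁻ z in ball (cfb_c y r (k + 1) x) (2 * t), w z ^ p) ^ (1 / p) ≤
        Cs * ENNReal.ofReal (t ^ (-(n : ℝ) * (1 - 1 / p))) *
          ∫⁻ z in ball (cfb_c y r (k + 1) x) t, w z) :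
    ∫⁻ z in {z | z ∈ cfb_S y r ∧ cfb_io y r k z = cfb_io y r k x}, w z ≤
      ((Cs * max 1 (volume (ball (0 : V n) 1))) ^ (n + 2) * Cs *
      max 1 (ENNReal.ofReal ((8 * n) ^ n) * volume (ball (0 : V n) 1))) *
        ∫⁻ z in {z | z ∈ cfb_S y r ∧ cfb_io y r (k + 1) z = cfb_io y r (k + 1) x}, w z := by
  have hn' : (1 : ℝ) ≤ n := by exact_mod_cast hn
  have hρ : 0 < r / 2 ^ (k + 1) := by positivity
  have hρr : r / 2 ^ (k + 1) ≤ r / 2 := by
    apply div_le_div_of_nonneg_left hr.le (by norm_num)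
    rw [pow_succ]
    have : (1 : ℝ) ≤ 2 ^ k := one_le_pow₀ (by norm_num)
    linarith
  have hK : 8 * (n : ℝ) ≤ 2 ^ (n + 2 + 1) := by
    have : n ≤ 2 ^ n := Nat.lt_two_pow_self.le
    have h2 : (n : ℝ) ≤ 2 ^ n := by exact_mod_cast this
    rw [pow_succ, pow_add]; linarith
  obtain ⟨he3, he1⟩ := cfb_exp hp
  have he0 : 0 ≤ 1 - 1 / p := by linarith
  have hsub := cfb_sub_ball' hn hr k x (y := y)
  have hsup := cfb_ball_sub hr (k + 1) hx
  have h1 := cfb_base hp hw (cfb_c y r (k + 1) x) H (K := 8 * n) (ρ := r / 2 ^ (k + 1))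
    (by linarith) hρ (by nlinarith) (n + 2) hK hsub
  set Q := {z | z ∈ cfb_S y r ∧ cfb_io y r k z = cfb_io y r k x} with hQ
  have hvQ : volume Q ≤ ENNReal.ofReal ((r / 2 ^ (k + 1)) ^ n) *
      (ENNReal.ofReal ((8 * n) ^ n) * volume (ball (0 : V n) 1)) := by
    refine (measure_mono hsub).trans ?_
    rw [cfb_vol_ball _ (by positivity), ← mul_assoc, ← ENNReal.ofReal_mul (by positivity),
      ← mul_pow, mul_comm (r / 2 ^ (k + 1))]
  have ht0 : ENNReal.ofReal ((r / 2 ^ (k + 1)) ^ n) ≠ 0 := by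
    simp only [ne_eq, ENNReal.ofReal_eq_zero, not_le]; positivity
  have htt : ENNReal.ofReal ((r / 2 ^ (k + 1)) ^ n) ≠ ⊤ := ENNReal.ofReal_ne_top
  have h2 : (volume Q * (ENNReal.ofReal ((r / 2 ^ (k + 1)) ^ n))⁻¹) ^ (1 - 1 / p) ≤
      max 1 (ENNReal.ofReal ((8 * n) ^ n) * volume (ball (0 : V n) 1)) := by
    refine le_trans ?_ (cfb_rpow_le _ he0 he1)
    refine ENNReal.rpow_le_rpow ?_ he0
    calc volume Q * (ENNReal.ofReal ((r / 2 ^ (k + 1)) ^ n))⁻¹
        ≤ (ENNReal.ofReal ((r / 2 ^ (k + 1)) ^ n) *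
          (ENNReal.ofReal ((8 * n) ^ n) * volume (ball (0 : V n) 1))) *
          (ENNReal.ofReal ((r / 2 ^ (k + 1)) ^ n))⁻¹ := by gcongr
      _ = ENNReal.ofReal ((8 * n) ^ n) * volume (ball (0 : V n) 1) := by
        rw [mul_comm, ← mul_assoc, ENNReal.inv_mul_cancel ht0 htt, one_mul]
  calc ∫⁻ z in Q, w z ≤ (Cs * max 1 (volume (ball (0 : V n) 1))) ^ (n + 2) * Cs *
      (volume Q * (ENNReal.ofReal ((r / 2 ^ (k + 1)) ^ n))⁻¹) ^ (1 - 1 / p) *
        ∫⁻ y in ball (cfb_c y r (k + 1) x) (r / 2 ^ (k + 1)), w y := h1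
    _ ≤ _ := by
        gcongr

private lemma cfb_radius {n : ℕ} (hn : 1 ≤ n) {x₀ y : V n} {R r : ℝ} (hr : 0 < r)
    (h : ball y r ⊆ ball x₀ R) : dist y x₀ < R ∧ r ≤ R := by
  have h1 : dist y x₀ < R := by
    have := h (mem_ball_self hr)
    rwa [mem_ball] at this
  refine ⟨h1, ?_⟩
  by_contra hcon
  push Not at hcon
  have hR : 0 < R := dist_nonneg.trans_lt h1
  set e : V n := EuclideanSpace.single (⟨0, hn⟩ : Fin n) (1 : ℝ) with he
  have hen : ‖e‖ = 1 := by rw [he, PiLp.norm_single]; simp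
  have h2 : y + R • e ∈ ball x₀ R := by
    apply h
    rw [mem_ball, dist_eq_norm, add_sub_cancel_left, norm_smul, hen, mul_one,
      Real.norm_of_nonneg hR.le]
    exact hcon
  have h3 : y - R • e ∈ ball x₀ R := by
    apply h
    rw [mem_ball, dist_eq_norm, sub_sub_cancel_left, norm_neg, norm_smul, hen, mul_one,
      Real.norm_of_nonneg hR.le]
    exact hcon
  rw [mem_ball] at h2 h3
  have h4 : dist (y + R • e) (y - R • e) < 2 * R := by
    have := dist_triangle_right (y + R • e) (y - R • e) x₀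
    linarith
  have h5 : dist (y + R • e) (y - R • e) = 2 * R := by
    rw [dist_eq_norm]
    have : y + R • e - (y - R • e) = (2 * R) • e := by
      rw [mul_smul, two_smul]; abel
    rw [this, norm_smul, hen, mul_one, Real.norm_of_nonneg (by positivity)]
  linarith

/-- The case of a measurable function with finite integral. -/
private theorem cfb_main (n : ℕ) (hn : 1 ≤ n) (Cs : ℝ≥0) : ∃ q : ℝ, 1 < q ∧ ∃ CA : ℝ≥0,
    ∀ (p : ℝ), 3 / 2 ≤ p → p ≤ 3 → ∀ (w : V n → ℝ≥0∞) (x₀ : V n) (R : ℝ), 0 < R →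
    Measurable w → ∫⁻ x, w x < ⊤ →
    (∀ x : V n, dist x x₀ ≤ (n + 1) * R → ∀ r : ℝ, 0 < r → r ≤ 2 * (n + 2) * R →
      0 < ∫⁻ y in ball x r, w y ∧
      (∫⁻ y in ball x (2 * r), w y ^ p) ^ (1 / p) ≤
        Cs * ENNReal.ofReal (r ^ (-(n : ℝ) * (1 - 1 / p))) * ∫⁻ y in ball x r, w y) →
    ∀ (y : V n) (r : ℝ), 0 < r → ball y r ⊆ ball x₀ R →
      (⨍⁻ x in ball y r, w x ∂volume) *
        (⨍⁻ x in ball y r, w x ^ (-(1 / (q - 1))) ∂volume) ^ (q - 1) ≤ CA := by
  have hn' : (1 : ℝ) ≤ n := by exact_mod_cast hn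
  have hωt : volume (ball (0 : V n) 1) ≠ ⊤ := measure_ball_lt_top.ne
  have hω0 : volume (ball (0 : V n) 1) ≠ 0 := (measure_ball_pos _ _ one_pos).ne'
  have hCt : ((Cs * max 1 (volume (ball (0 : V n) 1))) ^ n * Cs *
      max 1 (ENNReal.ofReal ((2 * n) ^ n) * volume (ball (0 : V n) 1))) ≠ ⊤ := by
    finiteness
  have hDt : ((Cs * max 1 (volume (ball (0 : V n) 1))) ^ (n + 2) * Cs *
      max 1 (ENNReal.ofReal ((8 * n) ^ n) * volume (ball (0 : V n) 1))) ≠ ⊤ := by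
    finiteness
  obtain ⟨C, hC⟩ : ∃ C : ℝ≥0, (C : ℝ≥0∞) = _ := ⟨_, ENNReal.coe_toNNReal hCt⟩
  obtain ⟨D, hD⟩ : ∃ D : ℝ≥0, (D : ℝ≥0∞) = _ := ⟨_, ENNReal.coe_toNNReal hDt⟩
  obtain ⟨a, ha0, ha1, CA, hCA⟩ := cf_abstract C D
  refine ⟨1 + 1 / a, by have : 0 < 1 / a := by positivity
                        linarith, ?_⟩
  have hCAt : ((CA * ENNReal.ofReal ((2 * n) ^ n)) ^ (1 / a) *
      ENNReal.ofReal ((2 * n) ^ n)) ≠ ⊤ := by
    have : 0 ≤ 1 / a := by positivity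
    finiteness
  obtain ⟨CB, hCB⟩ : ∃ CB : ℝ≥0, (CB : ℝ≥0∞) = _ := ⟨_, ENNReal.coe_toNNReal hCAt⟩
  refine ⟨CB, ?_⟩
  intro p hp hp3 w x₀ R hR hw hfin H y r hr hB
  obtain ⟨hyx, hrR⟩ := cfb_radius hn hr hB
  have e1 : 1 + 1 / a - 1 = 1 / a := by ring
  have e2 : 1 / (1 / a) = a := by rw [one_div_one_div]
  rw [e1, e2, hCB]
  have hc : ∀ k, ∀ x ∈ cfb_S y r, dist (cfb_c y r k x) x₀ ≤ (n + 1) * R := by
    intro k x hx
    have h1 := cfb_dist_c hr k hx (y := y)
    have h2 := dist_triangle (cfb_c y r k x) y x₀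
    nlinarith
  have key := hCA (volume : Measure (V n)) (cfb_S y r) w (cfb_io y r) (cfb_meas_S y r)
    ((measure_mono (cfb_S_sub hr)).trans_lt measure_closedBall_lt_top) hw
    (cfb_meas_io y r) (fun x hx z hz => cfb_zero hr hx hz)
    (fun k x _ z _ h => cfb_nest k h)
    (fun k x hx => (measure_ball_pos volume _ (by positivity)).trans_le
      (measure_mono (cfb_ball_sub hr k hx)))
    (fun k x hx => by
      have hρr : r / 2 ^ k ≤ r := by
        rw [div_le_iff₀ (by positivity)]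
        have : (1 : ℝ) ≤ 2 ^ k := one_le_pow₀ (by norm_num)
        nlinarith
      have h1 := (H _ (hc k x hx) (r / 2 ^ k) (by positivity) (by nlinarith)).1
      exact h1.trans_le (lintegral_mono_set (cfb_ball_sub hr k hx)))
    ((setLIntegral_le_lintegral _ _).trans_lt hfin)
    (fun k x hx F hF _ => by
      rw [hC]
      exact cfb_cond_F hn hp hw hr k hx (T := 2 * (n + 2) * R) (by nlinarith)
        (fun t ht htT => (H _ (hc k x hx) t ht htT).2) hF)
    (fun k x hx => by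
      rw [hD]
      exact cfb_cond_D hn hp hw hr k hx (T := 2 * (n + 2) * R) (by nlinarith)
        (fun t ht htT => (H _ (hc (k + 1) x hx) t ht htT).2))
    (cfb_diff hn hr hw hfin)
  have hBS : ball y r ⊆ cfb_S y r := cfb_ball_sub_S
  have hB0 : volume (ball y r) ≠ 0 := (measure_ball_pos _ _ hr).ne'
  have hBt : volume (ball y r) ≠ ⊤ := measure_ball_lt_top.ne
  have hwB : 0 < ∫⁻ z in ball y r, w z :=
    (H y (by nlinarith) r hr (by nlinarith)).1
  have hwS0 : ∫⁻ z in cfb_S y r, w z ≠ 0 := (hwB.trans_le (lintegral_mono_set hBS)).ne'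
  have hwSt : ∫⁻ z in cfb_S y r, w z ≠ ⊤ := ((setLIntegral_le_lintegral _ _).trans_lt hfin).ne
  have hSB : volume (cfb_S y r) ≤ ENNReal.ofReal ((2 * n) ^ n) * volume (ball y r) := by
    have h1 : cfb_S y r ⊆ ball y (2 * n * r) := by
      refine (cfb_S_sub hr).trans (closedBall_subset_ball ?_)
      nlinarith
    refine (measure_mono h1).trans ?_
    rw [cfb_vol_ball _ (by positivity), cfb_vol_ball _ hr, ← mul_assoc,
      ← ENNReal.ofReal_mul (by positivity), ← mul_pow]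
  have h1a : 0 ≤ 1 / a := by positivity
  rw [setLAverage_eq, setLAverage_eq]
  set W := ∫⁻ z in cfb_S y r, w z with hW
  set vB := volume (ball y r) with hvB
  set vS := volume (cfb_S y r) with hvS
  set K := ENNReal.ofReal ((2 * n) ^ n) with hKdef
  have hA : ∫⁻ x in ball y r, w x ^ (-a) ≤ CA * (vS / W) ^ a * vS :=
    (lintegral_mono_set hBS).trans key
  have hA2 : (∫⁻ x in ball y r, w x ^ (-a)) / vB ≤ (CA * K) * (vS / W) ^ a := by
    rw [ENNReal.div_le_iff hB0 hBt]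
    refine hA.trans ?_
    calc CA * (vS / W) ^ a * vS ≤ CA * (vS / W) ^ a * (K * vB) := by gcongr
      _ = (CA * K) * (vS / W) ^ a * vB := by ring
  have hA3 : ((∫⁻ x in ball y r, w x ^ (-a)) / vB) ^ (1 / a) ≤
      (CA * K) ^ (1 / a) * (vS / W) := by
    refine (ENNReal.rpow_le_rpow hA2 h1a).trans ?_
    rw [ENNReal.mul_rpow_of_nonneg _ _ h1a, ← ENNReal.rpow_mul, mul_one_div_cancel ha0.ne',
      ENNReal.rpow_one]
  have hA4 : (∫⁻ x in ball y r, w x) / vB ≤ W / vB := by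
    gcongr
    exact lintegral_mono_set hBS
  calc (∫⁻ x in ball y r, w x) / vB * ((∫⁻ x in ball y r, w x ^ (-a)) / vB) ^ (1 / a)
      ≤ W / vB * ((CA * K) ^ (1 / a) * (vS / W)) := by gcongr
    _ ≤ W / vB * ((CA * K) ^ (1 / a) * (K * vB / W)) := by gcongr
    _ = (CA * K) ^ (1 / a) * K := by
      rw [div_eq_mul_inv, div_eq_mul_inv]
      calc W * vB⁻¹ * ((CA * K) ^ (1 / a) * (K * vB * W⁻¹))
          = (CA * K) ^ (1 / a) * K * (W * W⁻¹) * (vB * vB⁻¹) := by ring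
        _ = (CA * K) ^ (1 / a) * K := by
          rw [ENNReal.mul_inv_cancel hwS0 hwSt, ENNReal.mul_inv_cancel hB0 hBt, mul_one, mul_one]

/-- The theorem of Coifman and Fefferman in the form used here. -/
theorem muckenhoupt (n : ℕ) (hn : 1 ≤ n) (Cs : ℝ≥0) : ∃ q : ℝ, 1 < q ∧ ∃ CA : ℝ≥0,
    ∀ (p : ℝ), 3 / 2 ≤ p → p ≤ 3 → ∀ (w : V n → ℝ≥0∞) (x₀ : V n) (R : ℝ), 0 < R →
    AEMeasurable w (volume.restrict (ball x₀ (5 * (n + 2) * R))) →
    ∫⁻ x in ball x₀ (5 * (n + 2) * R), w x ^ p < ⊤ →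
    (∀ x : V n, dist x x₀ ≤ (n + 1) * R → ∀ r : ℝ, 0 < r → r ≤ 2 * (n + 2) * R →
      0 < ∫⁻ y in ball x r, w y ∧
      (∫⁻ y in ball x (2 * r), w y ^ p) ^ (1 / p) ≤
        Cs * ENNReal.ofReal (r ^ (-(n : ℝ) * (1 - 1 / p))) * ∫⁻ y in ball x r, w y) →
    ∀ (y : V n) (r : ℝ), 0 < r → ball y r ⊆ ball x₀ R →
      (⨍⁻ x in ball y r, w x ∂volume) *
        (⨍⁻ x in ball y r, w x ^ (-(1 / (q - 1))) ∂volume) ^ (q - 1) ≤ CA := by
  obtain ⟨q, hq, CA, hCA⟩ := cfb_main n hn Cs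
  refine ⟨q, hq, CA, ?_⟩
  intro p hp hp3 w x₀ R hR hw hfin H y r hr hB
  have hn' : (1 : ℝ) ≤ n := by exact_mod_cast hn
  obtain ⟨hyx, hrR⟩ := cfb_radius hn hr hB
  set BB := ball x₀ (5 * (n + 2) * R) with hBB
  set w' : V n → ℝ≥0∞ := BB.indicator (hw.mk w) with hw'
  have hw'm : Measurable w' := hw.measurable_mk.indicator measurableSet_ball
  have hae : ∀ᵐ x ∂(volume.restrict BB), w x = w' x := by
    have h1 := hw.ae_eq_mk
    have h2 : ∀ᵐ x ∂(volume.restrict BB), x ∈ BB := ae_restrict_mem measurableSet_ball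
    filter_upwards [h1, h2] with x hx1 hx2
    rw [hw', indicator_of_mem hx2, hx1]
  have haeS : ∀ A ⊆ BB, ∀ᵐ x ∂(volume.restrict A), w x = w' x := fun A hA =>
    ae_restrict_of_ae_restrict_of_subset hA hae
  have hI1 : ∀ A ⊆ BB, ∫⁻ x in A, w x = ∫⁻ x in A, w' x := fun A hA =>
    lintegral_congr_ae (haeS A hA)
  have hI2 : ∀ A ⊆ BB, ∀ e : ℝ, ∫⁻ x in A, w x ^ e = ∫⁻ x in A, w' x ^ e := fun A hA e =>
    lintegral_congr_ae ((haeS A hA).mono fun x hx => by simp only [hx])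
  have hfin' : ∫⁻ x, w' x < ⊤ := by
    have h1 : ∫⁻ x, w' x = ∫⁻ x in BB, w' x := by
      rw [← lintegral_indicator measurableSet_ball]
      congr 1
      ext x
      rw [hw', indicator_indicator, inter_self]
    rw [h1]
    refine (cfb_holder hp hw'm BB).trans_lt ?_
    rw [← hI2 BB subset_rfl p]
    have h1p : 0 ≤ 1 / p := by positivity
    have he := cfb_exp hp
    have he0 : 0 ≤ 1 - 1 / p := by linarith
    have hv : volume BB ≠ ⊤ := measure_ball_lt_top.ne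
    exact ENNReal.mul_lt_top (ENNReal.rpow_lt_top_of_nonneg he0 hv)
      (ENNReal.rpow_lt_top_of_nonneg h1p hfin.ne)
  have hsub : ball y r ⊆ BB := by
    refine hB.trans (ball_subset_ball ?_)
    nlinarith
  have := hCA p hp hp3 w' x₀ R hR hw'm hfin' (fun x hx t ht htT => by
    have hs1 : ball x t ⊆ BB := ball_subset_ball' (by nlinarith)
    have hs2 : ball x (2 * t) ⊆ BB := ball_subset_ball' (by nlinarith)
    rw [← hI1 _ hs1, ← hI2 _ hs2]
    exact H x hx t ht htT) y r hr hB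
  rw [setLAverage_eq, setLAverage_eq] at this ⊢
  rw [hI1 _ hsub, hI2 _ hsub]
  exact this

end Pool.Agent.Helper20.PN
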