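import Mathlib

/-!
# The p-Laplace equation for p near 2: definitions

Definitions for the project PN (problem MP_bc0202_an): weak gradients, weak solutions of the
p-Laplace equation, the weighted mean squares `A r f`, weakly harmonic functions.
-/

open MeasureTheory Metric Set
open scoped ENNReal NNReal ContDiff

namespace Pool.Agent.Helper20.PN

/-- Euclidean space of dimension `n`. -/
abbrev V (n : ℕ) := EuclideanSpace ℝ (Fin n)

/-- Smooth functions with compact support contained in `Ω`. -/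
def IsTest {n : ℕ} (Ω : Set (V n)) (φ : V n → ℝ) : Prop :=
  ContDiff ℝ ∞ φ ∧ HasCompactSupport φ ∧ tsupport φ ⊆ Ω

/-- `g` is the weak (distributional) gradient of `u` in `Ω`. -/
def IsWeakGrad {n : ℕ} (Ω : Set (V n)) (u : V n → ℝ) (g : V n → V n) : Prop :=
  LocallyIntegrableOn u Ω ∧ LocallyIntegrableOn g Ω ∧
    ∀ φ : V n → ℝ, IsTest Ω φ → ∀ i : Fin n,
      ∫ x, u x * fderiv ℝ φ x (EuclideanSpace.single i 1) = - ∫ x, g x i * φ x

/-- `u`, with weak gradient `g`, is a weak solution in `W^{1,p}_loc(Ω)` of the p-Laplace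
equation. -/
structure IsWeakSol {n : ℕ} (p : ℝ) (Ω : Set (V n)) (u : V n → ℝ) (g : V n → V n) : Prop where
  grad : IsWeakGrad Ω u g
  loc_u : ∀ K ⊆ Ω, IsCompact K → ∫⁻ x in K, ‖u x‖ₑ ^ p < ⊤
  loc_g : ∀ K ⊆ Ω, IsCompact K → ∫⁻ x in K, ‖g x‖ₑ ^ p < ⊤
  eqn : ∀ φ : V n → ℝ, IsTest Ω φ → ∫ x, ‖g x‖ ^ (p - 2) * fderiv ℝ φ x (g x) = 0

/-- Derivative in the direction of the `i`-th basis vector. -/
noncomputable def pd {n : ℕ} (i : Fin n) (f : V n → ℝ) (x : V n) : ℝ :=
  fderiv ℝ f x (EuclideanSpace.single i 1)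

/-- The Laplacian. -/
noncomputable def lap {n : ℕ} (f : V n → ℝ) (x : V n) : ℝ := ∑ i, pd i (pd i f) x

/-- The weight `max (1 - |z|^2) 0`. -/
noncomputable def wt {n : ℕ} (z : V n) : ℝ := max (1 - ‖z‖ ^ 2) 0

/-- Weighted mean square of `f` on the ball of radius `r` about the origin. -/
noncomputable def A {n : ℕ} (r : ℝ) (f : V n → ℝ) : ℝ := ∫ z, wt z * (f (r • z)) ^ 2

/-- Square integrable weakly harmonic functions in the ball of radius 2. -/
def IsWHarm {n : ℕ} (h : V n → ℝ) : Prop :=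
  MemLp h 2 (volume.restrict (ball 0 2)) ∧
    ∀ ψ : V n → ℝ, IsTest (ball 0 2) ψ → ∫ x, h x * lap ψ x = 0

/-- The exponent `2n/(n+2)`, conjugate to `2n/(n-2)`. -/
noncomputable def ss (n : ℕ) : ℝ := 2 * n / (n + 2)

/-- The exponent `2n/(n-2)`. -/
noncomputable def sd (n : ℕ) : ℝ := 2 * n / (n - 2)

/-- The exponent `2n/(n+1)`, smaller than 2. -/
noncomputable def s0 (n : ℕ) : ℝ := 2 * n / (n + 1)

/-- The exponent `2n/(n-1)`, the Sobolev exponent of `s0`, larger than 2. -/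
noncomputable def q0 (n : ℕ) : ℝ := 2 * n / (n - 1)

/-- The `a`-norm of a function on a set. -/
noncomputable def nrm {n : ℕ} {F : Type*} [ENorm F] (a : ℝ) (S : Set (V n)) (f : V n → F) :
    ℝ≥0∞ := (∫⁻ x in S, ‖f x‖ₑ ^ a) ^ (1 / a)

end Pool.Agent.Helper20.PN
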