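import Pool.Agent.Helper20.PN.Defs

/-! Rescaling of weak solutions. -/

open MeasureTheory Metric Set Filter
open scoped ENNReal NNReal ContDiff Topology Gradient

namespace Pool.Agent.Helper20.PN

/-- The affine homeomorphism `z ↦ x + ρ z`. -/
private noncomputable def resc_T {n : ℕ} (x : V n) {ρ : ℝ} (hρ : ρ ≠ 0) : V n ≃ₜ V n :=
  (Homeomorph.smulOfNeZero ρ hρ).trans (Homeomorph.addLeft x)

private theorem resc_T_apply {n : ℕ} (x : V n) {ρ : ℝ} (hρ : ρ ≠ 0) (z : V n) :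
    resc_T x hρ z = x + ρ • z := rfl

private theorem resc_T_symm_apply {n : ℕ} (x : V n) {ρ : ℝ} (hρ : ρ ≠ 0) (y : V n) :
    (resc_T x hρ).symm y = ρ⁻¹ • (y - x) := by
  rw [Homeomorph.symm_apply_eq, resc_T_apply, smul_inv_smul₀ hρ]
  abel

private theorem resc_integral {n : ℕ} {E : Type*} [NormedAddCommGroup E] [NormedSpace ℝ E]
    (x : V n) (ρ : ℝ) (f : V n → E) :
    ∫ z, f (x + ρ • z) = |(ρ ^ n)⁻¹| • ∫ y, f y := by
  have h1 := Measure.integral_comp_smul (volume : Measure (V n)) (fun y => f (x + y)) ρ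
  rw [h1, integral_add_left_eq_self (fun y => f y) x]
  simp

private theorem resc_lint {n : ℕ} (x : V n) {ρ : ℝ} (hρ : ρ ≠ 0) (f : V n → ℝ≥0∞) :
    ∫⁻ z, f (x + ρ • z) = ENNReal.ofReal |(ρ ^ n)⁻¹| * ∫⁻ y, f y := by
  have h1 : ∫⁻ y, f (x + y) = ∫⁻ y, f y := lintegral_add_left_eq_self f x
  have h2 : Measure.map (fun z : V n => ρ • z) volume =
      ENNReal.ofReal |(ρ ^ n)⁻¹| • (volume : Measure (V n)) := by
    have := Measure.map_addHaar_smul (volume : Measure (V n)) hρ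
    simpa using this
  have h3 := lintegral_map_equiv (μ := (volume : Measure (V n))) (fun y => f (x + y))
    (Homeomorph.smulOfNeZero ρ hρ).toMeasurableEquiv
  have h4 : Measure.map (⇑(Homeomorph.smulOfNeZero ρ hρ).toMeasurableEquiv) volume =
      ENNReal.ofReal |(ρ ^ n)⁻¹| • (volume : Measure (V n)) := h2
  rw [h4, lintegral_smul_measure, h1] at h3
  simpa using h3.symm

private theorem resc_integrable {n : ℕ} {E : Type*} [NormedAddCommGroup E] [NormedSpace ℝ E]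
    (x : V n) {ρ : ℝ} (hρ : ρ ≠ 0) {f : V n → E} (hf : Integrable f) :
    Integrable (fun z => f (x + ρ • z)) := by
  have h1 : Integrable (fun y => f (x + y)) := hf.comp_add_left x
  exact (integrable_comp_smul_iff (volume : Measure (V n)) (fun y => f (x + y)) hρ).2 h1

private theorem resc_image {n : ℕ} (x : V n) {ρ : ℝ} (hρ : ρ ≠ 0) {Ω K : Set (V n)}
    (hK : IsCompact K) (hs : K ⊆ {z : V n | x + ρ • z ∈ Ω}) :
    IsCompact (resc_T x hρ '' K) ∧ resc_T x hρ '' K ⊆ Ω := by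
  refine ⟨hK.image (resc_T x hρ).continuous, ?_⟩
  rintro _ ⟨z, hz, rfl⟩
  exact hs hz

private theorem resc_locInt {n : ℕ} {E : Type*} [NormedAddCommGroup E] [NormedSpace ℝ E]
    (x : V n) {ρ : ℝ} (hρ : ρ ≠ 0) {Ω : Set (V n)} (hO : IsOpen {z : V n | x + ρ • z ∈ Ω})
    {f : V n → E} (hf : LocallyIntegrableOn f Ω) :
    LocallyIntegrableOn (fun z => f (x + ρ • z)) {z : V n | x + ρ • z ∈ Ω} := by
  rw [locallyIntegrableOn_iff hO.isLocallyClosed]
  intro K hs hK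
  obtain ⟨hK', hs'⟩ := resc_image x hρ hK hs
  have h1 : IntegrableOn f (resc_T x hρ '' K) := hf.integrableOn_compact_subset hs' hK'
  have h2 := resc_integrable x hρ ((integrable_indicator_iff hK'.measurableSet).2 h1)
  rw [← integrable_indicator_iff hK.measurableSet]
  refine h2.congr (Eventually.of_forall fun z => ?_)
  by_cases hz : z ∈ K
  · have hz' : x + ρ • z ∈ resc_T x hρ '' K := ⟨z, hz, rfl⟩
    simp [indicator_of_mem hz, indicator_of_mem hz']
  · have hz' : x + ρ • z ∉ resc_T x hρ '' K := by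
      rintro ⟨w, hw, hw'⟩
      have : w = z := (resc_T x hρ).injective hw'
      exact hz (this ▸ hw)
    simp [indicator_of_notMem hz, indicator_of_notMem hz']

private theorem resc_locLint {n : ℕ} (x : V n) {ρ : ℝ} (hρ : ρ ≠ 0) {Ω : Set (V n)}
    {f : V n → ℝ≥0∞} (hf : ∀ K ⊆ Ω, IsCompact K → ∫⁻ y in K, f y < ⊤) :
    ∀ K ⊆ {z : V n | x + ρ • z ∈ Ω}, IsCompact K → ∫⁻ z in K, f (x + ρ • z) < ⊤ := by
  intro K hs hK
  obtain ⟨hK', hs'⟩ := resc_image x hρ hK hs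
  have h1 := hf _ hs' hK'
  rw [← lintegral_indicator hK'.measurableSet] at h1
  rw [← lintegral_indicator hK.measurableSet]
  have h2 : ∫⁻ z, K.indicator (fun z => f (x + ρ • z)) z =
      ∫⁻ z, (resc_T x hρ '' K).indicator f (x + ρ • z) := by
    congr 1; ext z
    by_cases hz : z ∈ K
    · have hz' : x + ρ • z ∈ resc_T x hρ '' K := ⟨z, hz, rfl⟩
      simp [indicator_of_mem hz, indicator_of_mem hz']
    · have hz' : x + ρ • z ∉ resc_T x hρ '' K := by
        rintro ⟨w, hw, hw'⟩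
        have : w = z := (resc_T x hρ).injective hw'
        exact hz (this ▸ hw)
      simp [indicator_of_notMem hz, indicator_of_notMem hz']
  rw [h2, resc_lint x hρ]
  exact ENNReal.mul_lt_top ENNReal.ofReal_lt_top h1

private theorem resc_test {n : ℕ} (x : V n) {ρ : ℝ} (hρ : ρ ≠ 0) {Ω : Set (V n)}
    {φ : V n → ℝ} (hφ : IsTest {z : V n | x + ρ • z ∈ Ω} φ) :
    IsTest Ω (fun y => φ (ρ⁻¹ • (y - x))) := by
  obtain ⟨h1, h2, h3⟩ := hφ
  have he : (fun y => φ (ρ⁻¹ • (y - x))) = φ ∘ (resc_T x hρ).symm := by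
    ext y; simp [resc_T_symm_apply]
  refine ⟨?_, ?_, ?_⟩
  · have h5 : ContDiff ℝ ∞ (fun y : V n => ρ⁻¹ • (y - x)) := by fun_prop
    exact h1.comp h5
  · rw [he]
    exact h2.comp_homeomorph _
  · rw [he, tsupport_comp_eq_preimage]
    intro y hy
    have h4 : x + ρ • ((resc_T x hρ).symm y) ∈ Ω := h3 hy
    rwa [← resc_T_apply x hρ, Homeomorph.apply_symm_apply] at h4

private theorem resc_fderiv {n : ℕ} (x : V n) {ρ : ℝ} (hρ : ρ ≠ 0) {φ : V n → ℝ}
    (hφ : Differentiable ℝ φ) (z v : V n) :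
    fderiv ℝ φ z v = ρ * fderiv ℝ (fun y => φ (ρ⁻¹ • (y - x))) (x + ρ • z) v := by
  have h0 : ρ⁻¹ • (x + ρ • z - x) = z := by
    rw [add_sub_cancel_left, inv_smul_smul₀ hρ]
  have h1 : HasFDerivAt (fun y : V n => ρ⁻¹ • (y - x)) (ρ⁻¹ • ContinuousLinearMap.id ℝ (V n))
      (x + ρ • z) :=
    ((hasFDerivAt_id (𝕜 := ℝ) (x + ρ • z)).sub_const x).const_smul ρ⁻¹
  have h2 : HasFDerivAt φ (fderiv ℝ φ z) (ρ⁻¹ • (x + ρ • z - x)) := by
    rw [h0]; exact (hφ z).hasFDerivAt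
  have h3 := (h2.comp (x + ρ • z) h1).fderiv
  have h4 : fderiv ℝ (fun y => φ (ρ⁻¹ • (y - x))) (x + ρ • z) =
      (fderiv ℝ φ z).comp (ρ⁻¹ • ContinuousLinearMap.id ℝ (V n)) := h3
  rw [h4]
  simp [mul_inv_cancel_left₀ hρ]

/-- Rescaling of a weak solution: `z ↦ λ u(x + ρ z)`. -/
theorem rescale {n : ℕ} {p : ℝ} (hp : 1 < p) {Ω : Set (V n)} (hΩ : IsOpen Ω) {u : V n → ℝ}
    {g : V n → V n} (hs : IsWeakSol p Ω u g) (x : V n) {ρ : ℝ} (hρ : 0 < ρ) (l : ℝ) :
    IsOpen {z : V n | x + ρ • z ∈ Ω} ∧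
    IsWeakSol p {z : V n | x + ρ • z ∈ Ω} (fun z => l * u (x + ρ • z))
      (fun z => (l * ρ) • g (x + ρ • z)) := by
  have hρ0 : ρ ≠ 0 := hρ.ne'
  have hO : IsOpen {z : V n | x + ρ • z ∈ Ω} :=
    hΩ.preimage (by fun_prop : Continuous (fun z : V n => x + ρ • z))
  have hp0 : 0 ≤ p := by linarith
  obtain ⟨⟨hu, hg, hid⟩, hlu, hlg, heq⟩ := hs
  refine ⟨hO, ⟨⟨?_, ?_, ?_⟩, ?_, ?_, ?_⟩⟩
  · intro z hz
    exact (resc_locInt x hρ0 hO hu z hz).smul l
  · intro z hz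
    exact (resc_locInt x hρ0 hO hg z hz).smul (l * ρ)
  · intro φ hφ i
    have hψ := resc_test x hρ0 hφ
    have hd : Differentiable ℝ φ := hφ.1.differentiable (by simp)
    set ψ : V n → ℝ := fun y => φ (ρ⁻¹ • (y - x)) with hψd
    have h1 : ∀ z, φ z = ψ (x + ρ • z) := by
      intro z
      rw [hψd]
      simp only [add_sub_cancel_left, inv_smul_smul₀ hρ0]
    have h2 := hid ψ hψ i
    have h3 : ∫ z, l * u (x + ρ • z) * fderiv ℝ φ z (EuclideanSpace.single i 1) =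
        ∫ z, (fun y => l * u y * (ρ * fderiv ℝ ψ y (EuclideanSpace.single i 1))) (x + ρ • z) := by
      congr 1; ext z
      rw [resc_fderiv x hρ0 hd]
    have h4 : ∫ z, ((l * ρ) • g (x + ρ • z)) i * φ z =
        ∫ z, (fun y => (l * ρ) * (g y i * ψ y)) (x + ρ • z) := by
      congr 1; ext z
      rw [h1 z]
      simp only [PiLp.smul_apply, smul_eq_mul]
      ring
    rw [h3, h4, resc_integral x ρ (fun y => l * u y *
      (ρ * fderiv ℝ ψ y (EuclideanSpace.single i 1))),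
      resc_integral x ρ (fun y => (l * ρ) * (g y i * ψ y)), integral_const_mul]
    have h5 : ∫ y, l * u y * (ρ * fderiv ℝ ψ y (EuclideanSpace.single i 1)) =
        (l * ρ) * ∫ y, u y * fderiv ℝ ψ y (EuclideanSpace.single i 1) := by
      rw [← integral_const_mul]
      congr 1; ext y; ring
    rw [h5, h2]
    simp only [smul_eq_mul]
    ring
  · intro K hs hK
    have h1 := resc_locLint x hρ0 hlu K hs hK
    have h2 : ∀ z, ‖l * u (x + ρ • z)‖ₑ ^ p = ‖l‖ₑ ^ p * ‖u (x + ρ • z)‖ₑ ^ p := by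
      intro z
      rw [enorm_mul, ENNReal.mul_rpow_of_nonneg _ _ hp0]
    simp only [h2]
    rw [lintegral_const_mul' _ _ (ENNReal.rpow_ne_top_of_nonneg hp0 enorm_ne_top)]
    exact ENNReal.mul_lt_top (ENNReal.rpow_lt_top_of_nonneg hp0 enorm_ne_top) h1
  · intro K hs hK
    have h1 := resc_locLint x hρ0 hlg K hs hK
    have h2 : ∀ z, ‖(l * ρ) • g (x + ρ • z)‖ₑ ^ p = ‖l * ρ‖ₑ ^ p * ‖g (x + ρ • z)‖ₑ ^ p := by
      intro z
      rw [enorm_smul, ENNReal.mul_rpow_of_nonneg _ _ hp0]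
    simp only [h2]
    rw [lintegral_const_mul' _ _ (ENNReal.rpow_ne_top_of_nonneg hp0 enorm_ne_top)]
    exact ENNReal.mul_lt_top (ENNReal.rpow_lt_top_of_nonneg hp0 enorm_ne_top) h1
  · intro φ hφ
    have hψ := resc_test x hρ0 hφ
    have hd : Differentiable ℝ φ := hφ.1.differentiable (by simp)
    set ψ : V n → ℝ := fun y => φ (ρ⁻¹ • (y - x)) with hψd
    have h2 := heq ψ hψ
    have h3 : ∫ z, ‖(l * ρ) • g (x + ρ • z)‖ ^ (p - 2) *
        fderiv ℝ φ z ((l * ρ) • g (x + ρ • z)) =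
        ∫ z, (fun y => (|l * ρ| ^ (p - 2) * ρ * (l * ρ)) *
          (‖g y‖ ^ (p - 2) * fderiv ℝ ψ y (g y))) (x + ρ • z) := by
      congr 1; ext z
      rw [resc_fderiv x hρ0 hd, norm_smul, Real.mul_rpow (norm_nonneg _) (norm_nonneg _),
        map_smul, Real.norm_eq_abs, smul_eq_mul]
      ring
    rw [h3, resc_integral x ρ (fun y => (|l * ρ| ^ (p - 2) * ρ * (l * ρ)) *
          (‖g y‖ ^ (p - 2) * fderiv ℝ ψ y (g y))), integral_const_mul, h2]
    simp

end Pool.Agent.Helper20.PN
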