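import Pool.Agent.Helper20.PN.Defs2
import Pool.Agent.Helper20.PN.Base
import Pool.Agent.Helper20.PN.Poin
import Pool.Agent.Helper20.PN.WHarm2

/-! Piece PN-18 of the project PN: the lower estimate of the gradient. -/

open MeasureTheory Metric Set Filter
open scoped ENNReal NNReal ContDiff Topology Gradient

namespace Pool.Agent.Helper20.PN

private lemma star_cs {α : Type*} [MeasurableSpace α] {μ : Measure α} [IsFiniteMeasure μ]
    {v : α → ℝ} (hv : MemLp v 2 μ) :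
    (∫ x, |v x| ∂μ) ^ 2 ≤ μ.real univ * ∫ x, v x ^ 2 ∂μ := by
  have hi : Integrable (fun x => |v x|) μ := (hv.integrable (by norm_num)).abs
  have hsq : Integrable (fun x => v x ^ 2) μ := hv.integrable_sq
  have key : ∀ m : ℝ, 0 ≤ (∫ x, v x ^ 2 ∂μ) - 2 * m * (∫ x, |v x| ∂μ) + m ^ 2 * μ.real univ := by
    intro m
    have h1 : 0 ≤ ∫ x, (v x ^ 2 - 2 * m * |v x| + m ^ 2) ∂μ := by
      refine integral_nonneg fun x => ?_
      have : v x ^ 2 - 2 * m * |v x| + m ^ 2 = (|v x| - m) ^ 2 := by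
        rw [← sq_abs (v x)]; ring
      show 0 ≤ v x ^ 2 - 2 * m * |v x| + m ^ 2
      rw [this]; positivity
    have h2 : ∫ x, (v x ^ 2 - 2 * m * |v x| + m ^ 2) ∂μ =
        (∫ x, v x ^ 2 ∂μ) - 2 * m * (∫ x, |v x| ∂μ) + m ^ 2 * μ.real univ := by
      have e1 : ∫ x, (v x ^ 2 - 2 * m * |v x| + m ^ 2) ∂μ =
          ∫ x, (v x ^ 2 - 2 * m * |v x|) ∂μ + ∫ _x, m ^ 2 ∂μ :=
        integral_add (hsq.sub (hi.const_mul (2 * m))) (integrable_const _)
      have e2 : ∫ x, (v x ^ 2 - 2 * m * |v x|) ∂μ =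
          ∫ x, v x ^ 2 ∂μ - ∫ x, 2 * m * |v x| ∂μ :=
        integral_sub hsq (hi.const_mul (2 * m))
      rw [e1, e2, integral_const_mul, integral_const]
      simp only [smul_eq_mul]; ring
    rw [h2] at h1; exact h1
  have hM : 0 ≤ μ.real univ := measureReal_nonneg
  have hS : 0 ≤ ∫ x, v x ^ 2 ∂μ := integral_nonneg fun x => by positivity
  rcases hM.eq_or_lt with h0 | h0
  · have : μ = 0 := by
      rw [← Measure.measure_univ_eq_zero]
      rcases (measureReal_eq_zero_iff (μ := μ) (s := univ)).1 h0.symm with h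
      exact h
    subst this
    simp
  · have h := key ((∫ x, |v x| ∂μ) / μ.real univ)
    have h3 : (∫ x, v x ^ 2 ∂μ) - 2 * ((∫ x, |v x| ∂μ) / μ.real univ) * (∫ x, |v x| ∂μ) +
        ((∫ x, |v x| ∂μ) / μ.real univ) ^ 2 * μ.real univ =
        (∫ x, v x ^ 2 ∂μ) - (∫ x, |v x| ∂μ) ^ 2 / μ.real univ := by
      field_simp; ring
    rw [h3] at h
    have h4 : (∫ x, |v x| ∂μ) ^ 2 / μ.real univ ≤ ∫ x, v x ^ 2 ∂μ := by linarith
    rw [div_le_iff₀ h0] at h4
    linarith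

theorem star_A (n : ℕ) (C₀ : ℝ) (hC₀ : 1 ≤ C₀) : ∃ C : ℝ, 1 ≤ C ∧ ∀ p : ℝ,
    |p - 2| ≤ 1 / 4 → ∀ (Ω : Set (V n)) (u : V n → ℝ) (g : V n → V n) (h : V n → ℝ),
    IsOpen Ω → closedBall 0 2 ⊆ Ω → IsWeakSol p Ω u g → Approx C₀ p u h → ∀ s t : ℝ,
    1 / 2 ≤ s → s < t → t < 2 → G s u ≤
      C / (t - s) ^ (2 * n) * ((∫⁻ x in ball 0 t, ‖g x‖ₑ).toReal + |p - 2|) ^ 2 := by
  obtain ⟨C₁, hC₁⟩ := poincare n 1 le_rfl
  obtain ⟨C₂, hC₂p, hC₂⟩ := wharm_sup_gen n
  have hκ : 0 < ∫ z, wt (n := n) z := wt_pos n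
  set κ : ℝ := ∫ z, wt (n := n) z with hκd
  set vb : ℝ := (volume.restrict (ball (0 : V n) 2)).real univ with hvb
  have hvb0 : 0 ≤ vb := measureReal_nonneg
  set C₃ : ℝ := C₁ + C₀ * √vb with hC₃
  have hC₃0 : 0 ≤ C₃ := by positivity
  have h22 : (1 : ℝ) ≤ 2 ^ n := one_le_pow₀ (by norm_num)
  have h44 : (1 : ℝ) ≤ 2 ^ (2 * n) := one_le_pow₀ (by norm_num)
  refine ⟨2 * κ * C₂ ^ 2 * C₃ ^ 2 + 2 * 2 ^ n * C₀ ^ 2 * 2 ^ (2 * n), ?_, ?_⟩
  · have h1 : 1 ≤ 2 * 2 ^ n * C₀ ^ 2 * 2 ^ (2 * n) := by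
      have h2 : (1 : ℝ) ≤ C₀ ^ 2 := one_le_pow₀ hC₀
      have h3 : (1 : ℝ) ≤ 2 * 2 ^ n := by linarith
      have h4 : (1 : ℝ) ≤ 2 * 2 ^ n * C₀ ^ 2 := one_le_mul_of_one_le_of_one_le h3 h2
      exact one_le_mul_of_one_le_of_one_le h4 h44
    have h2 : 0 ≤ 2 * κ * C₂ ^ 2 * C₃ ^ 2 := by positivity
    linarith
  intro p hp Ω u g h hΩ hball hsol hap s t hs hst ht
  have hs0 : 0 < s := by linarith
  have ht0 : 0 < t := by linarith
  have hmu := hap.memu
  have hmh : MemLp h 2 (volume.restrict (ball 0 2)) := hap.harm.1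
  have hcball : closedBall (0 : V n) t ⊆ Ω := (closedBall_subset_closedBall ht.le).trans hball
  -- Poincare
  obtain ⟨c, hc⟩ := hC₁ Ω u g hΩ hsol.grad
    (fun K hK hKc => by
      have := hsol.grad.1.integrableOn_compact_subset hK hKc
      simp only [ENNReal.rpow_one]
      exact this.2)
    (fun K hK hKc => by
      have := hsol.grad.2.1.integrableOn_compact_subset hK hKc
      simp only [ENNReal.rpow_one]
      exact this.2) t ht0 ht.le hcball
  simp only [ENNReal.rpow_one] at hc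
  have hgfin : ∫⁻ x in ball (0 : V n) t, ‖g x‖ₑ ≠ ⊤ := by
    have h1 := hsol.grad.2.1.integrableOn_compact_subset hcball (isCompact_closedBall _ _)
    have h2 : IntegrableOn g (ball (0 : V n) t) := h1.mono_set ball_subset_closedBall
    exact h2.2.ne
  set gt : ℝ := (∫⁻ x in ball (0 : V n) t, ‖g x‖ₑ).toReal with hgt
  have hgt0 : 0 ≤ gt := ENNReal.toReal_nonneg
  have : IsFiniteMeasure (volume.restrict (ball (0 : V n) 2)) :=
    ⟨by rw [Measure.restrict_apply_univ]; exact measure_ball_lt_top⟩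
  have : IsFiniteMeasure (volume.restrict (ball (0 : V n) t)) :=
    ⟨by rw [Measure.restrict_apply_univ]; exact measure_ball_lt_top⟩
  have hle : volume.restrict (ball (0 : V n) t) ≤ volume.restrict (ball (0 : V n) 2) :=
    Measure.restrict_mono (ball_subset_ball ht.le) le_rfl
  have hmuc : MemLp (fun x => u x - c) 2 (volume.restrict (ball 0 2)) :=
    hmu.sub (memLp_const c)
  have hmhc : MemLp (fun x => h x - c) 2 (volume.restrict (ball 0 2)) :=
    hmh.sub (memLp_const c)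
  have hmuh : MemLp (fun x => u x - h x) 2 (volume.restrict (ball 0 2)) := hmu.sub hmh
  -- step 1
  have hG : G s u ≤ A s (fun x => u x - c) := G_le hmu hs0 (by linarith) c
  have hadd : A s (fun x => u x - c) ≤ 2 * A s (fun x => h x - c) +
      2 * A s (fun x => u x - h x) := by
    have h1 := A_add_le hmhc hmuh hs0 (show s ≤ 2 by linarith) (τ := 1) one_pos
    have h2 : (fun x => h x - c + (u x - h x)) = fun x => u x - c := by
      funext x; ring
    rw [h2] at h1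
    norm_num at h1
    exact h1
  have hint2 : ∫ x in ball (0 : V n) 2, (u x - h x) ^ 2 ≤ (C₀ * |p - 2|) ^ 2 := hap.small
  have hAuh : A s (fun x => u x - h x) ≤ 2 ^ n * (C₀ * |p - 2|) ^ 2 := by
    have h1 := A_le_int hmuh hs0 (show s ≤ 2 by linarith)
    have h2 : ∫ x in ball (0 : V n) s, (u x - h x) ^ 2 ≤
        ∫ x in ball (0 : V n) 2, (u x - h x) ^ 2 := by
      apply setIntegral_mono_set
      · exact hmuh.integrable_sq
      · exact Eventually.of_forall fun x => by positivity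
      · exact (ball_subset_ball (by linarith)).eventuallyLE
    have h3 : (1 / s) ^ n ≤ 2 ^ n := by
      apply pow_le_pow_left₀ (by positivity)
      rw [div_le_iff₀ hs0]; linarith
    calc A s (fun x => u x - h x) ≤ (1 / s) ^ n * ∫ x in ball (0 : V n) s, (u x - h x) ^ 2 := h1
      _ ≤ 2 ^ n * ∫ x in ball (0 : V n) s, (u x - h x) ^ 2 :=
          mul_le_mul_of_nonneg_right h3 (integral_nonneg fun x => by positivity)
      _ ≤ 2 ^ n * (C₀ * |p - 2|) ^ 2 :=
          mul_le_mul_of_nonneg_left (h2.trans hint2) (by positivity)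
  -- step 2
  have hI1 : ∫ x in ball (0 : V n) t, |u x - c| ≤ C₁ * gt := by
    have h1 : ∫ x in ball (0 : V n) t, |u x - c| =
        (∫⁻ x in ball (0 : V n) t, ‖u x - c‖ₑ).toReal := by
      have h2 : ∫ x in ball (0 : V n) t, |u x - c| = ∫ x in ball (0 : V n) t, ‖u x - c‖ := rfl
      rw [h2, integral_norm_eq_lintegral_enorm]
      exact (hmuc.mono_measure hle).1
    rw [h1, hgt]
    have h3 := ENNReal.toReal_mono (ENNReal.mul_ne_top ENNReal.coe_ne_top hgfin) hc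
    rw [ENNReal.toReal_mul, ENNReal.coe_toReal] at h3
    exact h3
  have hI2 : ∫ x in ball (0 : V n) t, |u x - h x| ≤ C₀ * √vb * |p - 2| := by
    have h1 : ∫ x in ball (0 : V n) t, |u x - h x| ≤ ∫ x in ball (0 : V n) 2, |u x - h x| := by
      apply setIntegral_mono_set
      · exact (hmuh.integrable (by norm_num)).abs
      · exact Eventually.of_forall fun x => by positivity
      · exact (ball_subset_ball ht.le).eventuallyLE
    have h2 := star_cs hmuh
    have h3 : (∫ x in ball (0 : V n) 2, |u x - h x|) ^ 2 ≤ vb * (C₀ * |p - 2|) ^ 2 :=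
      h2.trans (mul_le_mul_of_nonneg_left hint2 hvb0)
    have h4 : vb * (C₀ * |p - 2|) ^ 2 = (C₀ * √vb * |p - 2|) ^ 2 := by
      rw [mul_pow, mul_pow, mul_pow, Real.sq_sqrt hvb0]; ring
    rw [h4] at h3
    exact h1.trans (abs_le_of_sq_le_sq' h3 (by positivity)).2
  have hI : ∫ x in ball (0 : V n) t, |h x - c| ≤ C₃ * (gt + |p - 2|) := by
    have h1 : ∫ x in ball (0 : V n) t, |h x - c| ≤
        ∫ x in ball (0 : V n) t, (|u x - c| + |u x - h x|) := by
      apply integral_mono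
      · exact ((hmhc.mono_measure hle).integrable (by norm_num)).abs
      · exact ((hmuc.mono_measure hle).integrable (by norm_num)).abs.add
          ((hmuh.mono_measure hle).integrable (by norm_num)).abs
      · intro x
        show |h x - c| ≤ |u x - c| + |u x - h x|
        have h2 : h x - c = (u x - c) - (u x - h x) := by ring
        rw [h2]
        exact abs_sub _ _
    rw [integral_add ((hmuc.mono_measure hle).integrable (by norm_num)).abs
      ((hmuh.mono_measure hle).integrable (by norm_num)).abs] at h1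
    have h3 : C₁ * gt + C₀ * √vb * |p - 2| ≤ C₃ * (gt + |p - 2|) := by
      have h4 : 0 ≤ (C₁ : ℝ) * |p - 2| := by positivity
      have h5 : 0 ≤ C₀ * √vb * gt := by positivity
      rw [hC₃]; nlinarith
    linarith
  -- step 3
  have hts : 0 < t - s := by linarith
  have hts2 : t - s ≤ 2 := by linarith
  set B : ℝ := C₂ / (t - s) ^ n * (C₃ * (gt + |p - 2|)) with hB
  have hAh : A s (fun x => h x - c) ≤ B ^ 2 * κ := by
    apply A_le_sup hs0
    filter_upwards [hC₂ h hap.harm c s t hs0 hst ht] with y hy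
    refine hy.trans ?_
    exact mul_le_mul_of_nonneg_left hI (by positivity)
  have hq : (C₀ * |p - 2|) ^ 2 ≤ C₀ ^ 2 * (gt + |p - 2|) ^ 2 := by
    rw [← mul_pow]
    apply pow_le_pow_left₀ (by positivity)
    apply mul_le_mul_of_nonneg_left _ (by positivity)
    linarith
  have hpow : 1 ≤ 2 ^ (2 * n) / (t - s) ^ (2 * n) := by
    rw [le_div_iff₀ (by positivity), one_mul]
    exact pow_le_pow_left₀ hts.le hts2 _
  have hB2 : B ^ 2 = C₂ ^ 2 * C₃ ^ 2 / (t - s) ^ (2 * n) * (gt + |p - 2|) ^ 2 := by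
    rw [hB, mul_pow, mul_pow, div_pow, ← pow_mul, mul_comm n 2]; ring
  have hfin : 2 * (2 ^ n * (C₀ * |p - 2|) ^ 2) ≤
      2 * 2 ^ n * C₀ ^ 2 * 2 ^ (2 * n) / (t - s) ^ (2 * n) * (gt + |p - 2|) ^ 2 := by
    calc 2 * (2 ^ n * (C₀ * |p - 2|) ^ 2) ≤ 2 * (2 ^ n * (C₀ ^ 2 * (gt + |p - 2|) ^ 2)) := by
          gcongr
      _ = (2 * 2 ^ n * C₀ ^ 2 * (gt + |p - 2|) ^ 2) * 1 := by ring
      _ ≤ (2 * 2 ^ n * C₀ ^ 2 * (gt + |p - 2|) ^ 2) * (2 ^ (2 * n) / (t - s) ^ (2 * n)) :=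
          mul_le_mul_of_nonneg_left hpow (by positivity)
      _ = _ := by ring
  calc G s u ≤ 2 * A s (fun x => h x - c) + 2 * A s (fun x => u x - h x) := hG.trans hadd
    _ ≤ 2 * (B ^ 2 * κ) + 2 * (2 ^ n * (C₀ * |p - 2|) ^ 2) := by linarith
    _ ≤ 2 * (B ^ 2 * κ) +
        2 * 2 ^ n * C₀ ^ 2 * 2 ^ (2 * n) / (t - s) ^ (2 * n) * (gt + |p - 2|) ^ 2 := by linarith
    _ = (2 * κ * C₂ ^ 2 * C₃ ^ 2 + 2 * 2 ^ n * C₀ ^ 2 * 2 ^ (2 * n)) / (t - s) ^ (2 * n) *
        (gt + |p - 2|) ^ 2 := by rw [hB2]; ring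

end Pool.Agent.Helper20.PN
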