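import Pool.Agent.Helper20.PN.Defs2
import Pool.Agent.Helper20.PN.Base
import Pool.Agent.Helper20.PN.Cacc
import Pool.Agent.Helper20.PN.WHarm2

/-! Interior estimates at unit scale: bounds by weighted mean squares. -/

open MeasureTheory Metric Set Filter
open scoped ENNReal NNReal ContDiff Topology

namespace Pool.Agent.Helper20.PN

variable {n : ℕ}

private lemma memLp_sub_const {h : V n → ℝ} (hh : MemLp h 2 (volume.restrict (ball 0 2))) (c : ℝ) :
    MemLp (fun x => h x - c) 2 (volume.restrict (ball (0 : V n) 2)) := by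
  have : IsFiniteMeasure (volume.restrict (ball (0 : V n) 2)) :=
    ⟨by simpa using measure_ball_lt_top⟩
  exact hh.sub (memLp_const c)

private lemma restrict_mono_ball {a b : ℝ} (hab : a ≤ b) :
    (volume.restrict (ball (0 : V n) a)) ≤ volume.restrict (ball (0 : V n) b) :=
  Measure.restrict_mono (ball_subset_ball hab) le_rfl

private lemma rpow_le_cube {b p : ℝ} (hb : 1 ≤ b) (hp : p ≤ 3) : b ^ p ≤ b ^ 3 := by
  calc b ^ p ≤ b ^ (3 : ℝ) := Real.rpow_le_rpow_of_exponent_le hb hp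
    _ = b ^ 3 := by norm_cast

/-- Cauchy-Schwarz on a ball. -/
private lemma int_abs_le {f : V n → ℝ} (hf : MemLp f 2 (volume.restrict (ball 0 2))) {r : ℝ}
    (hr2 : r ≤ 2) : ∫ x in ball (0 : V n) r, |f x| ≤
      √(volume (ball (0 : V n) 2)).toReal * √(∫ x in ball (0 : V n) r, f x ^ 2) := by
  have : IsFiniteMeasure (volume.restrict (ball (0 : V n) r)) :=
    ⟨by simpa using measure_ball_lt_top⟩
  have hfr : MemLp f 2 (volume.restrict (ball (0 : V n) r)) :=
    hf.mono_measure (restrict_mono_ball hr2)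
  have h1 := integral_mul_le_Lp_mul_Lq_of_nonneg (μ := volume.restrict (ball (0 : V n) r))
    (p := 2) (q := 2) Real.HolderConjugate.two_two (f := fun _ => (1 : ℝ)) (g := fun x => |f x|)
    (Eventually.of_forall fun _ => zero_le_one) (Eventually.of_forall fun _ => abs_nonneg _)
    (by simpa using memLp_const (1 : ℝ))
    (by
      have h0 : MemLp (fun x => |f x|) 2 (volume.restrict (ball (0 : V n) r)) := hfr.norm
      simpa using h0)
  simp only [one_mul, Real.one_rpow, integral_const, smul_eq_mul, mul_one] at h1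
  have e1 : (∫ x in ball (0 : V n) r, |f x| ^ (2 : ℝ)) = ∫ x in ball (0 : V n) r, f x ^ 2 := by
    apply integral_congr_ae
    apply Eventually.of_forall
    intro x
    simp only
    rw [Real.rpow_two, sq_abs]
  rw [e1, ← Real.sqrt_eq_rpow, ← Real.sqrt_eq_rpow] at h1
  refine h1.trans (mul_le_mul_of_nonneg_right (Real.sqrt_le_sqrt ?_) (Real.sqrt_nonneg _))
  rw [measureReal_restrict_apply_univ, measureReal_def]
  exact ENNReal.toReal_mono measure_ball_lt_top.ne (measure_mono (ball_subset_ball hr2))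

theorem sup_A (n : ℕ) : ∃ C : ℝ, 1 ≤ C ∧ ∀ h : V n → ℝ, IsWHarm h → ∀ c s t : ℝ,
    1 / 2 ≤ s → s < t → t < 2 → ∀ᵐ y ∂(volume.restrict (ball (0 : V n) s)),
      |h y - c| ≤ C / (t - s) ^ (n + 1) * √(A t (fun x => h x - c)) := by
  obtain ⟨C₁, hC₁, H⟩ := wharm_sup_gen n
  set v : ℝ := (volume (ball (0 : V n) 2)).toReal with hv
  refine ⟨max 1 (C₁ * 2 ^ n * (√v * √(2 ^ (n + 3)))), le_max_left _ _,
    fun h hh c s t hs hst ht => ?_⟩
  have hs0 : 0 < s := by linarith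
  have ht0 : 0 < t := by linarith
  have hts : 0 < t - s := by linarith
  have hf := memLp_sub_const hh.1 c
  filter_upwards [H h hh c s ((s + t) / 2) hs0 (by linarith) (by linarith)] with y hy
  have hA : 0 ≤ A t (fun x => h x - c) := A_nonneg _ _
  have h1 := int_abs_le hf (r := (s + t) / 2) (by linarith)
  have h2 := int_le_A hf (s := (s + t) / 2) (r := t) (by linarith) (by linarith) ht.le
  have h3 : (t : ℝ) ^ n / (1 - ((s + t) / 2 / t) ^ 2) ≤ 2 ^ (n + 3) / (t - s) ^ 2 := by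
    have e1 : (t - s) / 4 ≤ 1 - ((s + t) / 2 / t) ^ 2 := by
      have e2 : 1 - ((s + t) / 2 / t) ^ 2 = ((t - s) / 2) * ((3 * t + s) / 2) / t ^ 2 := by
        field_simp
        ring
      rw [e2, le_div_iff₀ (by positivity)]
      nlinarith [mul_pos hts ht0, mul_pos hts hs0,
        mul_pos (mul_pos hts ht0) (by linarith : 0 < 2 - t)]
    calc (t : ℝ) ^ n / (1 - ((s + t) / 2 / t) ^ 2) ≤ 2 ^ n / ((t - s) / 4) := by
          gcongr
      _ = 2 ^ n * 4 * (t - s) / (t - s) ^ 2 := by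
          field_simp
      _ ≤ 2 ^ n * 4 * 2 / (t - s) ^ 2 := by
          gcongr
          linarith
      _ = 2 ^ (n + 3) / (t - s) ^ 2 := by ring
  have h4 : ∫ x in ball (0 : V n) ((s + t) / 2), (h x - c) ^ 2 ≤
      2 ^ (n + 3) / (t - s) ^ 2 * A t (fun x => h x - c) :=
    h2.trans (mul_le_mul_of_nonneg_right h3 hA)
  have h5 : √(∫ x in ball (0 : V n) ((s + t) / 2), (h x - c) ^ 2) ≤
      √(2 ^ (n + 3)) / (t - s) * √(A t (fun x => h x - c)) := by
    refine (Real.sqrt_le_sqrt h4).trans (le_of_eq ?_)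
    rw [Real.sqrt_mul (by positivity), Real.sqrt_div (by positivity), Real.sqrt_sq hts.le]
  calc |h y - c| ≤ C₁ / ((s + t) / 2 - s) ^ n * ∫ x in ball (0 : V n) ((s + t) / 2), |h x - c| := hy
    _ ≤ C₁ / ((s + t) / 2 - s) ^ n * (√v * (√(2 ^ (n + 3)) / (t - s) *
          √(A t (fun x => h x - c)))) := by
        have : 0 < (s + t) / 2 - s := by linarith
        refine mul_le_mul_of_nonneg_left (h1.trans ?_) (by positivity)
        exact mul_le_mul_of_nonneg_left h5 (Real.sqrt_nonneg _)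
    _ = (C₁ * 2 ^ n * (√v * √(2 ^ (n + 3)))) / (t - s) ^ (n + 1) *
          √(A t (fun x => h x - c)) := by
        have : (s + t) / 2 - s = (t - s) / 2 := by ring
        rw [this, div_pow]
        field_simp
        ring
    _ ≤ max 1 (C₁ * 2 ^ n * (√v * √(2 ^ (n + 3)))) / (t - s) ^ (n + 1) *
          √(A t (fun x => h x - c)) := by
        gcongr
        exact le_max_right _ _

theorem cac_A (n : ℕ) (C₀ : ℝ) (hC₀ : 1 ≤ C₀) : ∃ C : ℝ, 1 ≤ C ∧ ∀ p : ℝ, |p - 2| ≤ 1 / 4 →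
    ∀ (Ω : Set (V n)) (u : V n → ℝ) (g : V n → V n) (h : V n → ℝ), IsOpen Ω →
    closedBall 0 2 ⊆ Ω → IsWeakSol p Ω u g → Approx C₀ p u h → ∀ c s t : ℝ,
    1 / 2 ≤ s → s < t → t < 2 → ∫⁻ x in ball 0 s, ‖g x‖ₑ ^ p ≤
      ENNReal.ofReal (C / (t - s) ^ (3 * n + 6) *
        (A t (fun x => h x - c) ^ (p / 2) + |p - 2| / (2 - t) ^ (3 * n + 3))) := by
  obtain ⟨C₂, hC₂, HC⟩ := caccioppoli n
  obtain ⟨C₃, hC₃, HS⟩ := sup_A n
  set v : ℝ := (volume (ball (0 : V n) 2)).toReal with hv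
  have hv0 : 0 ≤ v := ENNReal.toReal_nonneg
  have h2C : 1 ≤ 2 * C₂ := by linarith
  have hC3' : 1 ≤ C₃ * 2 ^ (n + 1) := by
    have : (1 : ℝ) ≤ 2 ^ (n + 1) := one_le_pow₀ one_le_two
    nlinarith
  refine ⟨4 * (2 * C₂) ^ 3 * (v * (C₃ * 2 ^ (n + 1)) ^ 3 + 2 ^ (3 * n + 3) * C₀), ?_, ?_⟩
  · have e1 : 1 ≤ (2 * C₂) ^ 3 := one_le_pow₀ h2C
    have e2 : (1 : ℝ) ≤ 2 ^ (3 * n + 3) := one_le_pow₀ one_le_two
    have e3 : 0 ≤ v * (C₃ * 2 ^ (n + 1)) ^ 3 := by positivity
    have e4 : 1 ≤ 2 ^ (3 * n + 3) * C₀ := by nlinarith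
    nlinarith
  intro p hp Ω u g h hΩ hB hsol hap c s t hs hst ht
  have hp1 : 7 / 4 ≤ p := by
    have := (abs_le.1 hp).1
    linarith
  have hp2 : p ≤ 9 / 4 := by
    have := (abs_le.1 hp).2
    linarith
  have hts : 0 < t - s := by linarith
  have hts2 : t - s ≤ 2 := by linarith
  set t' : ℝ := (s + t) / 2 with ht'
  have hA : 0 ≤ A t (fun x => h x - c) := A_nonneg _ _
  set a : ℝ := A t (fun x => h x - c) with ha
  have hsub : closedBall (0 : V n) t' ⊆ Ω :=
    (closedBall_subset_closedBall (by rw [ht']; linarith)).trans hB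
  have h1 := HC p (by linarith) (by linarith) Ω u g hΩ hsol s t' c (by linarith)
    (by rw [ht']; linarith) hsub
  -- the integral of |u - c|^p
  have hsup := HS h hap.harm c t' t (by rw [ht']; linarith) (by rw [ht']; linarith) ht
  have hsp := hap.small_p t' (by rw [ht']; linarith) (by rw [ht']; linarith)
  have hbase : 1 ≤ C₃ / (t - t') ^ (n + 1) := by
    rw [le_div_iff₀ (by rw [ht']; exact pow_pos (by linarith) _)]
    have e1 : (t - t') ^ (n + 1) ≤ 1 := pow_le_one₀ (by rw [ht']; linarith) (by rw [ht']; linarith)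
    linarith
  have h2 : ∫⁻ x in ball (0 : V n) t', ‖h x - c‖ₑ ^ p ≤
      ENNReal.ofReal (v * (C₃ * 2 ^ (n + 1)) ^ 3 / (t - s) ^ (3 * n + 3) * a ^ (p / 2)) := by
    calc ∫⁻ x in ball (0 : V n) t', ‖h x - c‖ₑ ^ p
        ≤ ∫⁻ _ in ball (0 : V n) t', ENNReal.ofReal ((C₃ / (t - t') ^ (n + 1)) ^ 3 *
            a ^ (p / 2)) := by
          apply lintegral_mono_ae
          filter_upwards [hsup] with y hy
          rw [Real.enorm_eq_ofReal_abs, ENNReal.ofReal_rpow_of_nonneg (abs_nonneg _) (by linarith)]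
          apply ENNReal.ofReal_le_ofReal
          calc |h y - c| ^ p ≤ (C₃ / (t - t') ^ (n + 1) * √a) ^ p :=
                Real.rpow_le_rpow (abs_nonneg _) hy (by linarith)
            _ = (C₃ / (t - t') ^ (n + 1)) ^ p * a ^ (p / 2) := by
                rw [Real.mul_rpow (by linarith) (Real.sqrt_nonneg _), Real.sqrt_eq_rpow,
                  ← Real.rpow_mul hA]
                ring_nf
            _ ≤ (C₃ / (t - t') ^ (n + 1)) ^ 3 * a ^ (p / 2) := by
                refine mul_le_mul_of_nonneg_right ?_ (Real.rpow_nonneg hA _)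
                exact rpow_le_cube hbase (by linarith)
      _ = ENNReal.ofReal ((C₃ / (t - t') ^ (n + 1)) ^ 3 * a ^ (p / 2)) *
            volume (ball (0 : V n) t') := by
          rw [lintegral_const, Measure.restrict_apply_univ]
      _ ≤ ENNReal.ofReal ((C₃ / (t - t') ^ (n + 1)) ^ 3 * a ^ (p / 2)) * ENNReal.ofReal v := by
          gcongr
          rw [hv, ENNReal.ofReal_toReal measure_ball_lt_top.ne]
          exact measure_mono (ball_subset_ball (by rw [ht']; linarith))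
      _ = ENNReal.ofReal (v * (C₃ * 2 ^ (n + 1)) ^ 3 / (t - s) ^ (3 * n + 3) * a ^ (p / 2)) := by
          rw [← ENNReal.ofReal_mul (mul_nonneg (by positivity) (Real.rpow_nonneg hA _))]
          congr 1
          have e1 : t - t' = (t - s) / 2 := by rw [ht']; ring
          have e2 : (3 * n + 3) = (n + 1) * 3 := by ring
          rw [e1, e2, div_pow, div_pow (t - s), pow_mul, mul_pow]
          field_simp
  have h3 : ∫⁻ x in ball (0 : V n) t', ‖u x - h x‖ₑ ^ p ≤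
      ENNReal.ofReal (C₀ / (2 - t) ^ (3 * n + 3) * |p - 2|) := by
    refine hsp.trans (ENNReal.ofReal_le_ofReal ?_)
    have e0 : 0 < 2 - t := by linarith
    have e1 : 2 - t ≤ 2 - t' := by rw [ht']; linarith
    gcongr
  have h4 : ∫⁻ x in ball (0 : V n) t', ‖u x - c‖ₑ ^ p ≤
      4 * ((∫⁻ x in ball (0 : V n) t', ‖h x - c‖ₑ ^ p) + ∫⁻ x in ball (0 : V n) t',
        ‖u x - h x‖ₑ ^ p) := by
    have hm : AEMeasurable (fun x => ‖h x - c‖ₑ ^ p) (volume.restrict (ball (0 : V n) t')) := by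
      have e1 := (memLp_sub_const hap.harm.1 c).aestronglyMeasurable
      have e2 := e1.mono_measure (restrict_mono_ball (n := n) (a := t') (b := 2)
        (by rw [ht']; linarith))
      exact e2.enorm.pow_const p
    rw [← lintegral_add_left' hm, ← lintegral_const_mul' _ _ (by norm_num)]
    apply lintegral_mono
    intro x
    have e1 : ‖u x - c‖ₑ ≤ ‖h x - c‖ₑ + ‖u x - h x‖ₑ := by
      calc ‖u x - c‖ₑ = ‖(h x - c) + (u x - h x)‖ₑ := by ring_nf
        _ ≤ _ := enorm_add_le _ _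
    calc ‖u x - c‖ₑ ^ p ≤ (‖h x - c‖ₑ + ‖u x - h x‖ₑ) ^ p :=
          ENNReal.rpow_le_rpow e1 (by linarith)
      _ ≤ 2 ^ (p - 1) * (‖h x - c‖ₑ ^ p + ‖u x - h x‖ₑ ^ p) :=
          ENNReal.rpow_add_le_mul_rpow_add_rpow _ _ (by linarith)
      _ ≤ 4 * (‖h x - c‖ₑ ^ p + ‖u x - h x‖ₑ ^ p) := by
          gcongr
          calc (2 : ℝ≥0∞) ^ (p - 1) ≤ 2 ^ (2 : ℝ) :=
                ENNReal.rpow_le_rpow_of_exponent_le (by norm_num) (by linarith)
            _ = 4 := by norm_num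
  have hX : 0 ≤ v * (C₃ * 2 ^ (n + 1)) ^ 3 / (t - s) ^ (3 * n + 3) * a ^ (p / 2) :=
    mul_nonneg (by positivity) (Real.rpow_nonneg hA _)
  have hY : 0 ≤ C₀ / (2 - t) ^ (3 * n + 3) * |p - 2| := by
    have : 0 < 2 - t := by linarith
    positivity
  have h5 : ∫⁻ x in ball (0 : V n) s, ‖g x‖ₑ ^ p ≤ ENNReal.ofReal ((2 * C₂ / (t - s)) ^ 3 *
      (4 * (v * (C₃ * 2 ^ (n + 1)) ^ 3 / (t - s) ^ (3 * n + 3) * a ^ (p / 2) +
        C₀ / (2 - t) ^ (3 * n + 3) * |p - 2|))) := by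
    refine h1.trans ?_
    rw [ENNReal.ofReal_mul (by positivity), ENNReal.ofReal_mul (by norm_num),
      ENNReal.ofReal_add hX hY]
    have e1 : ENNReal.ofReal ((C₂ / (t' - s)) ^ p) ≤ ENNReal.ofReal ((2 * C₂ / (t - s)) ^ 3) := by
      apply ENNReal.ofReal_le_ofReal
      have e2 : C₂ / (t' - s) = 2 * C₂ / (t - s) := by
        have e4 : t' - s = (t - s) / 2 := by rw [ht']; ring
        rw [e4]
        field_simp
      rw [e2]
      refine rpow_le_cube ?_ (by linarith)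
      rw [le_div_iff₀ hts]
      linarith
    have e3 : ENNReal.ofReal 4 = 4 := by norm_num
    rw [e3]
    exact mul_le_mul' e1 (h4.trans (mul_le_mul' le_rfl (add_le_add h2 h3)))
  refine h5.trans (ENNReal.ofReal_le_ofReal ?_)
  have h2t : 0 < 2 - t := by linarith
  have e1 : (2 * C₂ / (t - s)) ^ 3 * (4 * (v * (C₃ * 2 ^ (n + 1)) ^ 3 / (t - s) ^ (3 * n + 3) *
      a ^ (p / 2) + C₀ / (2 - t) ^ (3 * n + 3) * |p - 2|)) =
      4 * (2 * C₂) ^ 3 * (v * (C₃ * 2 ^ (n + 1)) ^ 3 * a ^ (p / 2) +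
        (t - s) ^ (3 * n + 3) * C₀ * (|p - 2| / (2 - t) ^ (3 * n + 3))) /
        (t - s) ^ (3 * n + 6) := by
    field_simp
    ring
  rw [e1]
  have e2 : (t - s) ^ (3 * n + 3) ≤ 2 ^ (3 * n + 3) := pow_le_pow_left₀ hts.le hts2 _
  have e3 : 0 ≤ a ^ (p / 2) := Real.rpow_nonneg hA _
  have e4 : 0 ≤ |p - 2| / (2 - t) ^ (3 * n + 3) := by positivity
  rw [div_mul_eq_mul_div, mul_assoc (4 * (2 * C₂) ^ 3)]
  gcongr
  calc v * (C₃ * 2 ^ (n + 1)) ^ 3 * a ^ (p / 2) +
        (t - s) ^ (3 * n + 3) * C₀ * (|p - 2| / (2 - t) ^ (3 * n + 3))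
      ≤ v * (C₃ * 2 ^ (n + 1)) ^ 3 * a ^ (p / 2) +
        2 ^ (3 * n + 3) * C₀ * (|p - 2| / (2 - t) ^ (3 * n + 3)) := by gcongr
    _ ≤ (v * (C₃ * 2 ^ (n + 1)) ^ 3 + 2 ^ (3 * n + 3) * C₀) *
        (a ^ (p / 2) + |p - 2| / (2 - t) ^ (3 * n + 3)) := by
        have f1 : 0 ≤ v * (C₃ * 2 ^ (n + 1)) ^ 3 * (|p - 2| / (2 - t) ^ (3 * n + 3)) := by
          positivity
        have f2 : 0 ≤ 2 ^ (3 * n + 3) * C₀ * a ^ (p / 2) := by positivity
        nlinarith

end Pool.Agent.Helper20.PN
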