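import Pool.Agent.Helper20.PN.Defs2
import Pool.Agent.Helper20.PN.Approx
import Pool.Agent.Helper20.PN.Base
import Pool.Agent.Helper20.PN.Star
import Pool.Agent.Helper20.PN.SupCac
import Pool.Agent.Helper20.PN.WHarm2

/-! All estimates at unit scale. -/

open MeasureTheory Metric Set Filter
open scoped ENNReal NNReal ContDiff Topology Gradient

namespace Pool.Agent.Helper20.PN

/-! ### Radii -/

lemma unit_pow_le {ε : ℝ} (h0 : 0 < ε) (h1 : ε ≤ 1 / 8) {j : ℕ} (hj : j ≤ 9) :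
    (1 + ε) ^ j ≤ 3 := by
  calc (1 + ε) ^ j ≤ (1 + ε) ^ 9 := pow_le_pow_right₀ (by linarith) hj
    _ ≤ (1 + 1 / 8) ^ 9 := pow_le_pow_left₀ (by linarith) (by linarith) 9
    _ ≤ 3 := by norm_num

lemma unit_rad_ge {ε : ℝ} (h0 : 0 < ε) (h1 : ε ≤ 1 / 8) {j : ℕ} (hj : j ≤ 9) :
    1 / 2 ≤ 2 / (1 + ε) ^ j := by
  have := unit_pow_le h0 h1 hj
  rw [div_le_div_iff₀ (by norm_num) (by positivity)]
  linarith

lemma unit_rad_gap {ε : ℝ} (h0 : 0 < ε) (h1 : ε ≤ 1 / 8) {j : ℕ} (hj : j + 1 ≤ 9) :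
    ε / 2 ≤ 2 / (1 + ε) ^ j - 2 / (1 + ε) ^ (j + 1) := by
  have h3 := unit_pow_le h0 h1 hj
  have e : 2 / (1 + ε) ^ j - 2 / (1 + ε) ^ (j + 1) = 2 * ε / (1 + ε) ^ (j + 1) := by
    rw [pow_succ]
    field_simp
    ring
  rw [e, div_le_div_iff₀ (by norm_num) (by positivity)]
  nlinarith

lemma unit_rad_two {ε : ℝ} (h0 : 0 < ε) (h1 : ε ≤ 1 / 8) {j : ℕ} (hj : 1 ≤ j) :
    ε / 2 ≤ 2 - 2 / (1 + ε) ^ j := by
  have h3 : (1 + ε) ^ 1 ≤ (1 + ε) ^ j := pow_le_pow_right₀ (by linarith) hj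
  have h4 : 2 / (1 + ε) ^ j ≤ 2 / (1 + ε) ^ 1 :=
    div_le_div_of_nonneg_left (by norm_num) (by positivity) h3
  have h5 : 2 / (1 + ε) ^ 1 ≤ 2 - ε := by
    rw [pow_one, div_le_iff₀ (by linarith)]
    nlinarith
  linarith

lemma unit_rad_lt {ε : ℝ} (h0 : 0 < ε) {i j : ℕ} (hij : i < j) :
    2 / (1 + ε) ^ j < 2 / (1 + ε) ^ i :=
  div_lt_div_of_pos_left (by norm_num) (by positivity)
    (pow_lt_pow_right₀ (by linarith) hij)

/-! ### The error term -/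

lemma unit_const {n : ℕ} (c : ℝ) :
    MemLp (fun _ : V n => c) 2 (volume.restrict (ball (0 : V n) 2)) := by
  haveI : IsFiniteMeasure (volume.restrict (ball (0 : V n) 2)) :=
    ⟨by rw [Measure.restrict_apply_univ]; exact measure_ball_lt_top⟩
  exact memLp_const c

lemma unit_err {n : ℕ} {C p : ℝ} {u h : V n → ℝ} (ha : Approx C p u h) {r : ℝ}
    (hr : 1 / 2 ≤ r) (hr2 : r ≤ 2) :
    A r (fun x => u x - h x) ≤ 2 ^ n * (C * |p - 2|) ^ 2 := by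
  have hm : MemLp (fun x => u x - h x) 2 (volume.restrict (ball (0 : V n) 2)) :=
    ha.memu.sub ha.harm.1
  have hi : IntegrableOn (fun x => (u x - h x) ^ 2) (ball (0 : V n) 2) := hm.integrable_sq
  have h1 := A_le_int hm (by linarith : (0 : ℝ) < r) hr2
  have h2 : ∫ x in ball (0 : V n) r, (u x - h x) ^ 2 ≤ ∫ x in ball (0 : V n) 2, (u x - h x) ^ 2 :=
    setIntegral_mono_set hi (ae_of_all _ fun x => sq_nonneg _)
      (ae_of_all _ fun x hx => ball_subset_ball hr2 hx)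
  have h3 : (1 / r) ^ n ≤ 2 ^ n := by
    refine pow_le_pow_left₀ (by positivity) ?_ n
    rw [div_le_iff₀ (by linarith)]
    linarith
  have h4 : 0 ≤ ∫ x in ball (0 : V n) r, (u x - h x) ^ 2 := integral_nonneg fun x => sq_nonneg _
  calc A r (fun x => u x - h x) ≤ (1 / r) ^ n * ∫ x in ball (0 : V n) r, (u x - h x) ^ 2 := h1
    _ ≤ 2 ^ n * (C * |p - 2|) ^ 2 :=
        mul_le_mul h3 (h2.trans ha.small) h4 (by positivity)

lemma unit_err' {n : ℕ} {C p : ℝ} {u h : V n → ℝ} (ha : Approx C p u h) {r : ℝ}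
    (hr : 1 / 2 ≤ r) (hr2 : r ≤ 2) :
    A r (fun x => h x - u x) ≤ 2 ^ n * (C * |p - 2|) ^ 2 := by
  have := unit_err ha hr hr2
  have e : A r (fun x => h x - u x) = A r (fun x => u x - h x) := by
    unfold A
    refine integral_congr_ae (ae_of_all _ fun z => ?_)
    simp only
    ring
  rwa [e]

/-- from `u` to `h` -/
lemma unit_uh {n : ℕ} {C p : ℝ} {u h : V n → ℝ} (ha : Approx C p u h) {r : ℝ}
    (hr : 1 / 2 ≤ r) (hr2 : r ≤ 2) {τ : ℝ} (hτ : 0 < τ) (hτ1 : τ ≤ 1) :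
    A r (fun x => h x - mn r u) ≤
      (1 + τ) * G r u + 2 / τ * (2 ^ n * (C * |p - 2|) ^ 2) := by
  have hm : MemLp (fun x => u x - mn r u) 2 (volume.restrict (ball (0 : V n) 2)) :=
    ha.memu.sub (unit_const _)
  have hm' : MemLp (fun x => h x - u x) 2 (volume.restrict (ball (0 : V n) 2)) :=
    ha.harm.1.sub ha.memu
  have h1 := A_add_le hm hm' (by linarith : (0 : ℝ) < r) hr2 hτ
  have e : (fun x => u x - mn r u + (h x - u x)) = fun x => h x - mn r u := by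
    funext x; ring
  rw [e] at h1
  have h2 := unit_err' ha hr hr2
  have h3 : 1 + 1 / τ ≤ 2 / τ := by
    rw [← sub_nonneg]
    have : 2 / τ - (1 + 1 / τ) = (1 - τ) / τ := by field_simp; ring
    rw [this]
    exact div_nonneg (by linarith) hτ.le
  have h4 : 0 ≤ A r (fun x => h x - u x) := A_nonneg _ _
  have h5 : (1 + 1 / τ) * A r (fun x => h x - u x) ≤
      2 / τ * (2 ^ n * (C * |p - 2|) ^ 2) :=
    mul_le_mul h3 h2 h4 (by positivity)
  have : G r u = A r (fun x => u x - mn r u) := rfl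
  rw [this]
  linarith

/-- from `h` to `u` -/
lemma unit_hu {n : ℕ} {C p : ℝ} {u h : V n → ℝ} (ha : Approx C p u h) {r : ℝ}
    (hr : 1 / 2 ≤ r) (hr2 : r ≤ 2) {τ : ℝ} (hτ : 0 < τ) (hτ1 : τ ≤ 1) (c : ℝ) :
    G r u ≤ (1 + τ) * A r (fun x => h x - c) + 2 / τ * (2 ^ n * (C * |p - 2|) ^ 2) := by
  have hm : MemLp (fun x => h x - c) 2 (volume.restrict (ball (0 : V n) 2)) :=
    ha.harm.1.sub (unit_const _)
  have hm' : MemLp (fun x => u x - h x) 2 (volume.restrict (ball (0 : V n) 2)) :=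
    ha.memu.sub ha.harm.1
  have h1 := A_add_le hm hm' (by linarith : (0 : ℝ) < r) hr2 hτ
  have e : (fun x => h x - c + (u x - h x)) = fun x => u x - c := by
    funext x; ring
  rw [e] at h1
  have h2 := unit_err ha hr hr2
  have h3 : 1 + 1 / τ ≤ 2 / τ := by
    rw [← sub_nonneg]
    have : 2 / τ - (1 + 1 / τ) = (1 - τ) / τ := by field_simp; ring
    rw [this]
    exact div_nonneg (by linarith) hτ.le
  have h4 : 0 ≤ A r (fun x => u x - h x) := A_nonneg _ _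
  have h5 : (1 + 1 / τ) * A r (fun x => u x - h x) ≤
      2 / τ * (2 ^ n * (C * |p - 2|) ^ 2) :=
    mul_le_mul h3 h2 h4 (by positivity)
  have h6 := G_le ha.memu (by linarith : (0 : ℝ) < r) hr2 c
  linarith

lemma unit_G_nonneg {n : ℕ} (r : ℝ) (u : V n → ℝ) : 0 ≤ G r u := A_nonneg _ _

/-- The inequality V1. -/
lemma unit_V1 {n : ℕ} {C p : ℝ} (hC : 1 ≤ C) {u h : V n → ℝ} (ha : Approx C p u h)
    {ε : ℝ} (h0 : 0 < ε) (h1 : ε ≤ 1 / 8) (K : ℕ) {τ : ℝ} (hτ : 0 < τ) (hτ1 : τ ≤ 1) :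
    ((1 + ε) ^ 4 + 1 / (1 + ε) ^ 4) * G (2 / (1 + ε) ^ 5) u ≤
      (1 + τ) ^ 2 * (G (2 / (1 + ε)) u / ((1 + ε) ^ 4) ^ (2 * K + 1) +
        ((1 + ε) ^ 4) ^ (2 * K + 1) * G (2 / (1 + ε) ^ 9) u) +
      14 * (2 ^ n * C ^ 2) * ((1 + ε) ^ 4) ^ (2 * K + 1) / τ * |p - 2| ^ 2 := by
  set l : ℝ := (1 + ε) ^ 4 with hl
  set M : ℝ := l ^ (2 * K + 1) with hM
  have hl1 : 1 < l := one_lt_pow₀ (by linarith) (by norm_num)
  have hM1 : 1 ≤ M := one_le_pow₀ hl1.le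
  have hl3 : l ≤ 3 := unit_pow_le h0 h1 (by norm_num)
  have hl2 : l ≤ 2 := by
    calc l ≤ (1 + 1 / 8) ^ 4 := pow_le_pow_left₀ (by linarith) (by linarith) 4
      _ ≤ 2 := by norm_num
  have hl' : 1 / l ≤ 1 := by rw [div_le_one (by linarith)]; linarith
  obtain ⟨c₀, hc1, hc2⟩ := wharm_three_gen ha.harm
  have e1 : l * (2 / (1 + ε) ^ 5) = 2 / (1 + ε) := by
    rw [hl]; field_simp
  have e2 : 2 / (1 + ε) ^ 5 / l = 2 / (1 + ε) ^ 9 := by
    rw [hl]; field_simp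
  have r1 : 1 / 2 ≤ 2 / (1 + ε) := by
    have := unit_rad_ge h0 h1 (j := 1) (by norm_num)
    rwa [pow_one] at this
  have r1' : 2 / (1 + ε) < 2 := by
    have := unit_rad_two h0 h1 (j := 1) (by norm_num)
    rw [pow_one] at this
    linarith
  have r5 := unit_rad_ge h0 h1 (j := 5) (by norm_num)
  have r5' : 2 / (1 + ε) ^ 5 < 2 := by
    have := unit_rad_two h0 h1 (j := 5) (by norm_num)
    linarith
  have r9 := unit_rad_ge h0 h1 (j := 9) (by norm_num)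
  have r9' : 2 / (1 + ε) ^ 9 < 2 := by
    have := unit_rad_two h0 h1 (j := 9) (by norm_num)
    linarith
  have t1 := hc1 l K (2 / (1 + ε) ^ 5) hl1 (by linarith) (by rw [e1]; exact r1')
  rw [e1, e2] at t1
  have s1 := (hc2 _ (by linarith) r1' (mn (2 / (1 + ε)) u)).trans
    (unit_uh ha r1 r1'.le hτ hτ1)
  have s9 := (hc2 _ (by linarith) r9' (mn (2 / (1 + ε) ^ 9) u)).trans
    (unit_uh ha r9 r9'.le hτ hτ1)
  have s5 := unit_hu ha r5 r5'.le hτ hτ1 c₀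
  set a1 := G (2 / (1 + ε)) u
  set a5 := G (2 / (1 + ε) ^ 5) u
  set a9 := G (2 / (1 + ε) ^ 9) u
  set b1 := A (2 / (1 + ε)) (fun x => h x - c₀)
  set b5 := A (2 / (1 + ε) ^ 5) (fun x => h x - c₀)
  set b9 := A (2 / (1 + ε) ^ 9) (fun x => h x - c₀)
  set Q : ℝ := 2 / τ * (2 ^ n * (C * |p - 2|) ^ 2) with hQ
  have hQ0 : 0 ≤ Q := by positivity
  have hM0 : 0 < M := by linarith
  have hMi : 1 / M ≤ M := by
    rw [div_le_iff₀ hM0]; nlinarith
  have k1 : (l + 1 / l) * a5 ≤ (1 + τ) * ((l + 1 / l) * b5) + (l + 1 / l) * Q := by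
    have : (l + 1 / l) * a5 ≤ (l + 1 / l) * ((1 + τ) * b5 + Q) :=
      mul_le_mul_of_nonneg_left s5 (by positivity)
    linarith
  have k2 : (1 + τ) * ((l + 1 / l) * b5) ≤ (1 + τ) * (b1 / M + M * b9) :=
    mul_le_mul_of_nonneg_left t1 (by linarith)
  have k3 : b1 / M ≤ ((1 + τ) * a1 + Q) / M := div_le_div_of_nonneg_right s1 hM0.le
  have k4 : M * b9 ≤ M * ((1 + τ) * a9 + Q) := mul_le_mul_of_nonneg_left s9 hM0.le
  have k5 : (1 + τ) * (b1 / M + M * b9) ≤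
      (1 + τ) * (((1 + τ) * a1 + Q) / M + M * ((1 + τ) * a9 + Q)) :=
    mul_le_mul_of_nonneg_left (add_le_add k3 k4) (by linarith)
  have k6 : (1 + τ) * (((1 + τ) * a1 + Q) / M + M * ((1 + τ) * a9 + Q)) =
      (1 + τ) ^ 2 * (a1 / M + M * a9) + (1 + τ) * ((1 / M + M) * Q) := by
    field_simp
    ring
  have k7 : (1 + τ) * ((1 / M + M) * Q) ≤ 4 * (M * Q) := by
    have : (1 / M + M) * Q ≤ 2 * M * Q := mul_le_mul_of_nonneg_right (by linarith) hQ0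
    have h' : 0 ≤ (1 / M + M) * Q := by positivity
    calc (1 + τ) * ((1 / M + M) * Q) ≤ 2 * ((1 / M + M) * Q) :=
          mul_le_mul_of_nonneg_right (by linarith) h'
      _ ≤ 2 * (2 * M * Q) := by linarith
      _ = 4 * (M * Q) := by ring
  have k8 : (l + 1 / l) * Q ≤ 3 * (M * Q) := by
    have : (l + 1 / l) * Q ≤ 3 * Q := mul_le_mul_of_nonneg_right (by linarith) hQ0
    have h' : Q ≤ M * Q := by nlinarith
    linarith
  have k9 : 7 * (M * Q) = 14 * (2 ^ n * C ^ 2) * M / τ * |p - 2| ^ 2 := by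
    rw [hQ, mul_pow]
    field_simp
    ring
  linarith

/-- Auxiliary: powers of sums. -/
lemma unit_rpow_add {a b s : ℝ} (ha : 0 ≤ a) (hb : 0 ≤ b) (hs : 0 ≤ s) (hs2 : s ≤ 2) :
    (2 * a + 2 * b) ^ s ≤ 16 * (a ^ s + b ^ s) := by
  have h4 : (4 : ℝ) ^ s ≤ 16 := by
    calc (4 : ℝ) ^ s ≤ 4 ^ (2 : ℝ) := Real.rpow_le_rpow_of_exponent_le (by norm_num) hs2
      _ = 16 := by norm_num
  have hA := Real.rpow_nonneg ha s
  have hB := Real.rpow_nonneg hb s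
  rcases le_total a b with h | h
  · calc (2 * a + 2 * b) ^ s ≤ (4 * b) ^ s := Real.rpow_le_rpow (by linarith) (by linarith) hs
      _ = 4 ^ s * b ^ s := Real.mul_rpow (by norm_num) hb
      _ ≤ 16 * b ^ s := mul_le_mul_of_nonneg_right h4 hB
      _ ≤ 16 * (a ^ s + b ^ s) := by linarith
  · calc (2 * a + 2 * b) ^ s ≤ (4 * a) ^ s := Real.rpow_le_rpow (by linarith) (by linarith) hs
      _ = 4 ^ s * a ^ s := Real.mul_rpow (by norm_num) ha
      _ ≤ 16 * a ^ s := mul_le_mul_of_nonneg_right h4 hA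
      _ ≤ 16 * (a ^ s + b ^ s) := by linarith

/-- The inequalities V2, V3. -/
lemma unit_V2 {n : ℕ} {C C₁ p : ℝ} (hC : 1 ≤ C) (hC₁ : 1 ≤ C₁) (hp : |p - 2| ≤ 1 / 4)
    {u h : V n → ℝ} (ha : Approx C p u h) {ε : ℝ} (h0 : 0 < ε) (h1 : ε ≤ 1 / 8) {s t : ℝ}
    {g : V n → V n} (hs : 1 / 2 ≤ s) (hst : ε / 2 ≤ t - s) (ht : ε / 2 ≤ 2 - t)
    (hc : ∀ c : ℝ, ∫⁻ x in ball 0 s, ‖g x‖ₑ ^ p ≤
      ENNReal.ofReal (C₁ / (t - s) ^ (3 * n + 6) *
        (A t (fun x => h x - c) ^ (p / 2) + |p - 2| / (2 - t) ^ (3 * n + 3)))) :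
    ∫⁻ x in ball 0 s, ‖g x‖ₑ ^ p ≤
      ENNReal.ofReal (17 * (2 ^ n * C ^ 2) ^ 2 * C₁ * 2 ^ (6 * n + 9) / ε ^ (6 * n + 9) *
        (G t u ^ (p / 2) + |p - 2|)) := by
  refine (hc (mn t u)).trans (ENNReal.ofReal_le_ofReal ?_)
  obtain ⟨hp1, hp2⟩ := abs_le.1 hp
  set E : ℝ := 2 ^ n * C ^ 2 with hE
  have hE1 : 1 ≤ E := one_le_mul_of_one_le_of_one_le (one_le_pow₀ (by norm_num))
    (one_le_pow₀ hC)
  set a := G t u with haG
  have ha0 : 0 ≤ a := unit_G_nonneg t u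
  set κ := |p - 2| with hκ
  have hκ0 : 0 ≤ κ := abs_nonneg _
  have m1 : A t (fun x => h x - mn t u) ≤ 2 * a + 2 * (E * κ ^ 2) := by
    have := unit_uh ha (r := t) (by linarith) (by linarith) (τ := 1) one_pos le_rfl
    have e : (1 + 1) * G t u + 2 / 1 * (2 ^ n * (C * |p - 2|) ^ 2) =
        2 * a + 2 * (E * κ ^ 2) := by
      rw [hE, hκ, haG]
      ring
    rwa [e] at this
  have m2 : A t (fun x => h x - mn t u) ^ (p / 2) ≤ 16 * (a ^ (p / 2) + E ^ 2 * κ) := by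
    have q1 : A t (fun x => h x - mn t u) ^ (p / 2) ≤
        16 * (a ^ (p / 2) + (E * κ ^ 2) ^ (p / 2)) :=
      (Real.rpow_le_rpow (A_nonneg _ _) m1 (by linarith)).trans
        (unit_rpow_add ha0 (by positivity) (by linarith) (by linarith))
    have q2 : (E * κ ^ 2) ^ (p / 2) ≤ E ^ 2 * κ := by
      rw [Real.mul_rpow (by positivity) (by positivity)]
      have q3 : E ^ (p / 2) ≤ E ^ (2 : ℝ) :=
        Real.rpow_le_rpow_of_exponent_le hE1 (by linarith)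
      have q4 : (κ ^ 2) ^ (p / 2) ≤ κ := by
        rw [← Real.rpow_natCast κ 2, ← Real.rpow_mul hκ0]
        have : ((2 : ℕ) : ℝ) * (p / 2) = p := by push_cast; ring
        rw [this]
        calc κ ^ p ≤ κ ^ (1 : ℝ) :=
              Real.rpow_le_rpow_of_exponent_ge_of_imp hκ0 (by linarith) (by linarith)
                (fun _ _ => by linarith)
          _ = κ := Real.rpow_one κ
      rw [Real.rpow_two] at q3
      exact mul_le_mul q3 q4 (by positivity) (by positivity)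
    calc _ ≤ _ := q1
      _ ≤ _ := by linarith
  have w : 1 ≤ 2 / ε := by rw [le_div_iff₀ h0]; linarith
  have w1 : 1 / (t - s) ^ (3 * n + 6) ≤ (2 / ε) ^ (3 * n + 6) := by
    rw [← one_div_pow]
    refine pow_le_pow_left₀ (div_nonneg zero_le_one (by linarith)) ?_ _
    rw [div_le_div_iff₀ (by linarith) h0]
    linarith
  have w2 : 1 / (2 - t) ^ (3 * n + 3) ≤ (2 / ε) ^ (3 * n + 3) := by
    rw [← one_div_pow]
    refine pow_le_pow_left₀ (by have : 0 < 2 - t := by linarith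
                                positivity) ?_ _
    rw [div_le_div_iff₀ (by linarith) h0]
    linarith
  have w3 : 1 ≤ (2 / ε) ^ (3 * n + 3) := one_le_pow₀ w
  set W := (2 / ε) ^ (3 * n + 3) with hW
  have n1 : A t (fun x => h x - mn t u) ^ (p / 2) + κ / (2 - t) ^ (3 * n + 3) ≤
      17 * E ^ 2 * W * (a ^ (p / 2) + κ) := by
    have z1 : κ / (2 - t) ^ (3 * n + 3) ≤ κ * W := by
      rw [div_eq_mul_one_div]
      exact mul_le_mul_of_nonneg_left w2 hκ0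
    have z2 : 0 ≤ a ^ (p / 2) := Real.rpow_nonneg ha0 _
    have hEE : 1 ≤ E ^ 2 := one_le_pow₀ hE1
    have hEW : 1 ≤ E ^ 2 * W := one_le_mul_of_one_le_of_one_le hEE w3
    have z3 : 16 * a ^ (p / 2) ≤ 17 * E ^ 2 * W * a ^ (p / 2) := by
      refine mul_le_mul_of_nonneg_right ?_ z2
      nlinarith
    have z4 : 16 * (E ^ 2 * κ) ≤ 16 * E ^ 2 * W * κ := by
      have : E ^ 2 * κ ≤ E ^ 2 * κ * W := le_mul_of_one_le_right (by positivity) w3
      linarith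
    have z5 : κ * W ≤ E ^ 2 * W * κ := by
      have : κ * W ≤ E ^ 2 * (κ * W) := le_mul_of_one_le_left (by positivity) hEE
      linarith
    calc _ ≤ 16 * (a ^ (p / 2) + E ^ 2 * κ) + κ * W := add_le_add m2 z1
      _ ≤ 17 * E ^ 2 * W * (a ^ (p / 2) + κ) := by linarith
  have n0 : 0 ≤ A t (fun x => h x - mn t u) ^ (p / 2) + κ / (2 - t) ^ (3 * n + 3) := by
    have := Real.rpow_nonneg (A_nonneg t (fun x => h x - mn t u)) (p / 2)
    have h' : 0 < 2 - t := by linarith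
    positivity
  have n2 : C₁ / (t - s) ^ (3 * n + 6) ≤ C₁ * (2 / ε) ^ (3 * n + 6) := by
    rw [div_eq_mul_one_div]
    exact mul_le_mul_of_nonneg_left w1 (by linarith)
  calc _ ≤ C₁ * (2 / ε) ^ (3 * n + 6) * (17 * E ^ 2 * W * (a ^ (p / 2) + κ)) :=
        mul_le_mul n2 n1 n0 (by positivity)
    _ = _ := by
        rw [hW, show 6 * n + 9 = (3 * n + 6) + (3 * n + 3) by ring, pow_add 2, pow_add ε,
          div_pow, div_pow]
        field_simp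

/-- Weaker powers. -/
lemma unit_weak {C C' ε : ℝ} {m m' : ℕ} (hC : 0 ≤ C) (hCC : C ≤ C') (h0 : 0 < ε) (h1 : ε ≤ 1)
    (hm : m ≤ m') : C / ε ^ m ≤ C' / ε ^ m' :=
  div_le_div₀ (hC.trans hCC) hCC (by positivity) (pow_le_pow_of_le_one h0.le h1 hm)

/-- All estimates at unit scale. -/
theorem unit (n : ℕ) (hn : 3 ≤ n) : ∃ C δ : ℝ, ∃ m : ℕ, 2 ^ n ≤ C ∧ 0 < δ ∧ δ ≤ 1 / 4 ∧
    ∀ ε : ℝ, 0 < ε → ε ≤ 1 / 8 → ∀ p : ℝ, |p - 2| ≤ δ → ∀ (Ω : Set (V n)) (u : V n → ℝ)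
    (g : V n → V n), IsOpen Ω → closedBall 0 2 ⊆ Ω → IsWeakSol p Ω u g →
    ∫⁻ x in ball 0 2, ‖g x‖ₑ ^ p = 1 →
    (∀ (K : ℕ) (τ : ℝ), 0 < τ → τ ≤ 1 →
      ((1 + ε) ^ 4 + 1 / (1 + ε) ^ 4) * G (2 / (1 + ε) ^ 5) u ≤
        (1 + τ) ^ 2 * (G (2 / (1 + ε)) u / ((1 + ε) ^ 4) ^ (2 * K + 1) +
          ((1 + ε) ^ 4) ^ (2 * K + 1) * G (2 / (1 + ε) ^ 9) u) +
        C / ε ^ m * ((1 + ε) ^ 4) ^ (2 * K + 1) / τ * |p - 2| ^ 2) ∧
    ∫⁻ x in ball 0 (2 / (1 + ε) ^ 4), ‖g x‖ₑ ^ p ≤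
      ENNReal.ofReal (C / ε ^ m * (G (2 / (1 + ε)) u ^ (p / 2) + |p - 2|)) ∧
    ∫⁻ x in ball 0 (2 / (1 + ε) ^ 8), ‖g x‖ₑ ^ p ≤
      ENNReal.ofReal (C / ε ^ m * (G (2 / (1 + ε) ^ 5) u ^ (p / 2) + |p - 2|)) ∧
    G (2 / (1 + ε)) u ≤ C / ε ^ m ∧
    G (2 / (1 + ε) ^ 9) u ≤ C / ε ^ m *
      ((∫⁻ x in ball 0 (2 / (1 + ε) ^ 8), ‖g x‖ₑ).toReal + |p - 2|) ^ 2 ∧
    G (2 / (1 + ε) ^ 5) u ≤ 2 ^ n * G (2 / (1 + ε)) u := by
  obtain ⟨C₀, δ, hC₀, hδ0, hδ, happ⟩ := approx n hn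
  obtain ⟨C₁, hC₁, hcac⟩ := cac_A n C₀ hC₀
  obtain ⟨C₂, hC₂, hstar⟩ := star_A n C₀ hC₀
  set E : ℝ := 2 ^ n * C₀ ^ 2 with hE
  have hE1 : 1 ≤ E := one_le_mul_of_one_le_of_one_le (one_le_pow₀ (by norm_num))
    (one_le_pow₀ hC₀)
  set P : ℝ := 2 ^ (6 * n + 9) with hP
  have hP1 : 1 ≤ P := one_le_pow₀ (by norm_num)
  set C : ℝ := 17 * E ^ 2 * C₁ * P * C₂ with hC
  have hEE : E ≤ E ^ 2 := by nlinarith
  have hEE1 : 1 ≤ E ^ 2 := one_le_pow₀ hE1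
  have c1 : 17 * E ^ 2 * C₁ * P ≤ C := le_mul_of_one_le_right (by positivity) hC₂
  have c0 : 17 * E ^ 2 ≤ C := by
    have a1 : 17 * E ^ 2 ≤ 17 * E ^ 2 * C₁ := le_mul_of_one_le_right (by positivity) hC₁
    have a2 : 17 * E ^ 2 * C₁ ≤ 17 * E ^ 2 * C₁ * P :=
      le_mul_of_one_le_right (by positivity) hP1
    linarith
  have c2 : 14 * E ≤ C := by linarith
  have c3 : P * C₂ ≤ C := by
    have a1 : P * C₂ ≤ (17 * E ^ 2 * C₁) * (P * C₂) := by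
      refine le_mul_of_one_le_left (by positivity) ?_
      have : 1 ≤ E ^ 2 * C₁ := one_le_mul_of_one_le_of_one_le hEE1 hC₁
      nlinarith
    calc P * C₂ ≤ (17 * E ^ 2 * C₁) * (P * C₂) := a1
      _ = C := by rw [hC]; ring
  have c4 : P ≤ C := le_trans (le_mul_of_one_le_right (by positivity) hC₂) c3
  have c5 : 2 ^ n ≤ C := by
    refine le_trans ?_ c4
    exact pow_le_pow_right₀ (by norm_num) (by omega)
  have c6 : E * 4 ≤ C := by linarith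
  refine ⟨C, δ, 6 * n + 9, c5, hδ0, hδ, ?_⟩
  intro ε h0 h1 p hp Ω u g hΩ hB hs hX
  obtain ⟨h, ha⟩ := happ p hp Ω u g hΩ hB hs hX
  have hp4 : |p - 2| ≤ 1 / 4 := hp.trans hδ
  have hε1 : ε ≤ 1 := by linarith
  have r1 : 1 / 2 ≤ 2 / (1 + ε) := by
    have := unit_rad_ge h0 h1 (j := 1) (by norm_num)
    rwa [pow_one] at this
  have r1' : ε / 2 ≤ 2 - 2 / (1 + ε) := by
    have := unit_rad_two h0 h1 (j := 1) (by norm_num)
    rwa [pow_one] at this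
  refine ⟨?_, ?_, ?_, ?_, ?_, ?_⟩
  · intro K τ hτ hτ1
    refine (unit_V1 hC₀ ha h0 h1 K hτ hτ1).trans ?_
    have w : 14 * (2 ^ n * C₀ ^ 2) ≤ C / ε ^ (6 * n + 9) := by
      have := unit_weak (C := 14 * E) (C' := C) (m := 0) (m' := 6 * n + 9) (by positivity)
        c2 h0 hε1 (Nat.zero_le _)
      simpa using this
    have : 14 * (2 ^ n * C₀ ^ 2) * ((1 + ε) ^ 4) ^ (2 * K + 1) / τ * |p - 2| ^ 2 ≤
        C / ε ^ (6 * n + 9) * ((1 + ε) ^ 4) ^ (2 * K + 1) / τ * |p - 2| ^ 2 := by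
      gcongr
    linarith
  · have g1 : 2 / (1 + ε) ^ 4 < 2 / (1 + ε) ^ 1 := unit_rad_lt h0 (by norm_num)
    rw [pow_one] at g1
    have g2 : ε / 2 ≤ 2 / (1 + ε) - 2 / (1 + ε) ^ 4 := by
      have x1 := unit_rad_gap h0 h1 (j := 1) (by norm_num)
      have x2 : 2 / (1 + ε) ^ 4 < 2 / (1 + ε) ^ 2 := unit_rad_lt h0 (by norm_num)
      rw [pow_one] at x1
      norm_num at x1
      linarith
    have := unit_V2 (s := 2 / (1 + ε) ^ 4) (t := 2 / (1 + ε)) (g := g) hC₀ hC₁ hp4 ha h0 h1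
      (unit_rad_ge h0 h1 (by norm_num)) g2 r1'
      (fun c => hcac p hp4 Ω u g h hΩ hB hs ha c _ _ (unit_rad_ge h0 h1 (by norm_num)) g1
        (by linarith))
    refine this.trans (ENNReal.ofReal_le_ofReal ?_)
    refine mul_le_mul_of_nonneg_right ?_ ?_
    · exact unit_weak (by positivity) c1 h0 hε1 le_rfl
    · have := Real.rpow_nonneg (unit_G_nonneg (2 / (1 + ε)) u) (p / 2)
      positivity
  · have g1 : 2 / (1 + ε) ^ 8 < 2 / (1 + ε) ^ 5 := unit_rad_lt h0 (by norm_num)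
    have g2 : ε / 2 ≤ 2 / (1 + ε) ^ 5 - 2 / (1 + ε) ^ 8 := by
      have x1 := unit_rad_gap h0 h1 (j := 5) (by norm_num)
      have x2 : 2 / (1 + ε) ^ 8 < 2 / (1 + ε) ^ 6 := unit_rad_lt h0 (by norm_num)
      norm_num at x1
      linarith
    have g3 := unit_rad_two h0 h1 (j := 5) (by norm_num)
    have := unit_V2 (s := 2 / (1 + ε) ^ 8) (t := 2 / (1 + ε) ^ 5) (g := g) hC₀ hC₁ hp4 ha h0 h1
      (unit_rad_ge h0 h1 (by norm_num)) g2 g3
      (fun c => hcac p hp4 Ω u g h hΩ hB hs ha c _ _ (unit_rad_ge h0 h1 (by norm_num)) g1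
        (by linarith))
    refine this.trans (ENNReal.ofReal_le_ofReal ?_)
    refine mul_le_mul_of_nonneg_right ?_ ?_
    · exact unit_weak (by positivity) c1 h0 hε1 le_rfl
    · have := Real.rpow_nonneg (unit_G_nonneg (2 / (1 + ε) ^ 5) u) (p / 2)
      positivity
  · obtain ⟨c, hc⟩ := ha.osc
    have x1 := hc (2 / (1 + ε)) (by linarith) (by linarith)
    have x2 := G_le ha.memu (r := 2 / (1 + ε)) (by linarith) (by linarith) c
    have hm : MemLp (fun x => u x - c) 2 (volume.restrict (ball (0 : V n) 2)) :=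
      ha.memu.sub (unit_const _)
    have x3 := A_le_int hm (r := 2 / (1 + ε)) (by linarith) (by linarith)
    have x4 : (1 / (2 / (1 + ε))) ^ n ≤ 2 ^ n := by
      refine pow_le_pow_left₀ (by positivity) ?_ n
      rw [div_le_iff₀ (by linarith)]
      linarith
    have x5 : 0 ≤ ∫ x in ball (0 : V n) (2 / (1 + ε)), (u x - c) ^ 2 :=
      integral_nonneg fun x => sq_nonneg _
    have x6 : (C₀ / (2 - 2 / (1 + ε))) ^ 2 ≤ C₀ ^ 2 * 4 / ε ^ 2 := by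
      have : C₀ / (2 - 2 / (1 + ε)) ≤ C₀ / (ε / 2) :=
        div_le_div_of_nonneg_left (by linarith) (by positivity) r1'
      calc (C₀ / (2 - 2 / (1 + ε))) ^ 2 ≤ (C₀ / (ε / 2)) ^ 2 := by
            refine pow_le_pow_left₀ ?_ this 2
            exact div_nonneg (by linarith) (by linarith)
        _ = C₀ ^ 2 * 4 / ε ^ 2 := by field_simp; ring
    calc G (2 / (1 + ε)) u ≤ (1 / (2 / (1 + ε))) ^ n *
          ∫ x in ball (0 : V n) (2 / (1 + ε)), (u x - c) ^ 2 := x2.trans x3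
      _ ≤ 2 ^ n * (C₀ ^ 2 * 4 / ε ^ 2) :=
          mul_le_mul x4 (x1.trans x6) x5 (by positivity)
      _ = E * 4 / ε ^ 2 := by rw [hE]; ring
      _ ≤ C / ε ^ (6 * n + 9) := unit_weak (by positivity) c6 h0 hε1 (by omega)
  · have g1 : 2 / (1 + ε) ^ 9 < 2 / (1 + ε) ^ 8 := unit_rad_lt h0 (by norm_num)
    have g2 := unit_rad_gap h0 h1 (j := 8) (by norm_num)
    norm_num at g2
    have g3 := unit_rad_two h0 h1 (j := 8) (by norm_num)
    have x1 := hstar p hp4 Ω u g h hΩ hB hs ha (2 / (1 + ε) ^ 9) (2 / (1 + ε) ^ 8)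
      (unit_rad_ge h0 h1 (by norm_num)) g1 (by linarith)
    refine x1.trans (mul_le_mul_of_nonneg_right ?_ (sq_nonneg _))
    have x2 : 1 / (2 / (1 + ε) ^ 8 - 2 / (1 + ε) ^ 9) ^ (2 * n) ≤ (2 / ε) ^ (2 * n) := by
      rw [← one_div_pow]
      refine pow_le_pow_left₀ ?_ ?_ _
      · exact div_nonneg zero_le_one (by linarith)
      · rw [div_le_div_iff₀ (by linarith) h0]
        linarith
    calc C₂ / (2 / (1 + ε) ^ 8 - 2 / (1 + ε) ^ 9) ^ (2 * n) ≤ C₂ * (2 / ε) ^ (2 * n) := by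
          rw [div_eq_mul_one_div]
          exact mul_le_mul_of_nonneg_left x2 (by linarith)
      _ = 2 ^ (2 * n) * C₂ / ε ^ (2 * n) := by rw [div_pow]; ring
      _ ≤ C / ε ^ (6 * n + 9) := by
          refine unit_weak (by positivity) (le_trans ?_ c3) h0 hε1 (by omega)
          exact mul_le_mul_of_nonneg_right (pow_le_pow_right₀ (by norm_num) (by omega))
            (by linarith)
  · have x1 := G_mono ha.memu (s := 2 / (1 + ε) ^ 5) (r := 2 / (1 + ε))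
      (by positivity) (by
        have := unit_rad_lt h0 (i := 1) (j := 5) (by norm_num)
        rw [pow_one] at this
        exact this.le) (by linarith)
    refine x1.trans (mul_le_mul_of_nonneg_right ?_ (unit_G_nonneg _ _))
    refine pow_le_pow_left₀ (by positivity) ?_ n
    have e : 2 / (1 + ε) / (2 / (1 + ε) ^ 5) = (1 + ε) ^ 4 := by field_simp
    rw [e]
    calc (1 + ε) ^ 4 ≤ (1 + 1 / 8) ^ 4 := pow_le_pow_left₀ (by linarith) (by linarith) 4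
      _ ≤ 2 := by norm_num

end Pool.Agent.Helper20.PN
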