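import Pool.Agent.Helper20.PN.Defs2
import Pool.Agent.Helper20.PN.Base
import Pool.Agent.Helper20.PN.Poin
import Pool.Agent.Helper20.PN.Resc
import Pool.Agent.Helper20.PN.Unit

/-! Start and step of the iteration over the scales. -/

open MeasureTheory Metric Set Filter
open scoped ENNReal NNReal ContDiff Topology Gradient

namespace Pool.Agent.Helper20.PN

/-! ### Scaling -/

private theorem step_G_smul {n : ℕ} (f : V n → ℝ) (s r : ℝ) :
    G r (fun z => s * f z) = s ^ 2 * G r f := by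
  simpa using G_scale f s 1 r

private theorem step_lint_smul {n : ℕ} {p s : ℝ} (hp : 0 ≤ p) (hs : 0 < s) (S : Set (V n))
    (g : V n → V n) :
    ∫⁻ x in S, ‖s • g x‖ₑ ^ p = ENNReal.ofReal (s ^ p) * ∫⁻ x in S, ‖g x‖ₑ ^ p := by
  have h2 : ∀ z, ‖s • g z‖ₑ ^ p = ENNReal.ofReal (s ^ p) * ‖g z‖ₑ ^ p := by
    intro z
    rw [enorm_smul, ENNReal.mul_rpow_of_nonneg _ _ hp, Real.enorm_eq_ofReal hs.le,
      ENNReal.ofReal_rpow_of_nonneg hs.le hp]
  simp only [h2]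
  rw [lintegral_const_mul' _ _ ENNReal.ofReal_ne_top]

private theorem step_lint_smul_one {n : ℕ} {s : ℝ} (hs : 0 < s) (S : Set (V n))
    (g : V n → V n) :
    ∫⁻ x in S, ‖s • g x‖ₑ = ENNReal.ofReal s * ∫⁻ x in S, ‖g x‖ₑ := by
  have h2 : ∀ z, ‖s • g z‖ₑ = ENNReal.ofReal s * ‖g z‖ₑ := by
    intro z
    rw [enorm_smul, Real.enorm_eq_ofReal hs.le]
  simp only [h2]
  rw [lintegral_const_mul' _ _ ENNReal.ofReal_ne_top]

private theorem step_good_smul {n : ℕ} {ε M D p s : ℝ} (hp : 0 < p) (hs : 0 < s)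
    {u : V n → ℝ} {g : V n → V n} (h : Good ε M D p u g) :
    Good ε M D p (fun x => s * u x) (fun x => s • g x) := by
  obtain ⟨h1, h2, h3⟩ := h
  refine ⟨?_, ?_, ?_⟩
  · rw [step_G_smul]; positivity
  · rw [step_G_smul, step_G_smul]
    calc s ^ 2 * G (2 / (1 + ε)) u ≤ s ^ 2 * (M * G (2 / (1 + ε) ^ 5) u) := by gcongr
      _ = _ := by ring
  · rw [step_lint_smul hp.le hs, step_G_smul]
    calc ENNReal.ofReal (s ^ p) * ∫⁻ x in ball 0 2, ‖g x‖ₑ ^ p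
        ≤ ENNReal.ofReal (s ^ p) * ENNReal.ofReal (D * G (2 / (1 + ε)) u ^ (p / 2)) := by
          gcongr
      _ = ENNReal.ofReal (s ^ p * (D * G (2 / (1 + ε)) u ^ (p / 2))) :=
          (ENNReal.ofReal_mul (by positivity)).symm
      _ = _ := by
        congr 1
        rw [Real.mul_rpow (by positivity) h1.le, ← Real.rpow_natCast, ← Real.rpow_mul hs.le]
        have : ((2 : ℕ) : ℝ) * (p / 2) = p := by push_cast; ring
        rw [this]; ring

private theorem step_sol_smul {n : ℕ} {p : ℝ} (hp : 1 < p) {Ω : Set (V n)} (hΩ : IsOpen Ω)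
    {u : V n → ℝ} {g : V n → V n} (hs : IsWeakSol p Ω u g) (s : ℝ) :
    IsWeakSol p Ω (fun x => s * u x) (fun x => s • g x) := by
  have h := (rescale hp hΩ hs 0 one_pos s).2
  simpa using h

/-- Integral over the ball after a dilation. -/
private theorem step_lint_ball {n : ℕ} {l : ℝ} (hl : 0 < l) (f : V n → ℝ≥0∞) :
    ∫⁻ z in ball 0 2, f (l⁻¹ • z) = ENNReal.ofReal (l ^ n) * ∫⁻ y in ball 0 (2 / l), f y := by
  have hl' : l⁻¹ ≠ 0 := inv_ne_zero hl.ne'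
  have h2 : Measure.map (fun z : V n => l⁻¹ • z) volume =
      ENNReal.ofReal (l ^ n) • (volume : Measure (V n)) := by
    have := Measure.map_addHaar_smul (volume : Measure (V n)) hl'
    have h3 : |((l⁻¹) ^ n)⁻¹| = l ^ n := by
      rw [inv_pow, inv_inv, abs_of_pos (pow_pos hl n)]
    simpa [h3, abs_of_pos hl] using this
  have h3 := lintegral_map_equiv (μ := (volume : Measure (V n)))
    ((ball (0 : V n) (2 / l)).indicator f)
    (Homeomorph.smulOfNeZero l⁻¹ hl').toMeasurableEquiv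
  have h4 : Measure.map (⇑(Homeomorph.smulOfNeZero l⁻¹ hl').toMeasurableEquiv) volume =
      ENNReal.ofReal (l ^ n) • (volume : Measure (V n)) := h2
  rw [h4, lintegral_smul_measure, lintegral_indicator measurableSet_ball] at h3
  rw [← lintegral_indicator measurableSet_ball]
  rw [smul_eq_mul] at h3
  rw [h3]
  refine lintegral_congr fun z => ?_
  change (ball (0 : V n) 2).indicator (fun z => f (l⁻¹ • z)) z =
    (ball (0 : V n) (2 / l)).indicator f (l⁻¹ • z)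
  have hiff : z ∈ ball (0 : V n) 2 ↔ l⁻¹ • z ∈ ball (0 : V n) (2 / l) := by
    rw [mem_ball_zero_iff, mem_ball_zero_iff, norm_smul, norm_inv, Real.norm_of_nonneg hl.le,
      inv_mul_eq_div, div_lt_div_iff_of_pos_right hl]
  by_cases hz : z ∈ ball (0 : V n) 2
  · rw [indicator_of_mem hz, indicator_of_mem (hiff.1 hz)]
  · rw [indicator_of_notMem hz, indicator_of_notMem (fun h => hz (hiff.2 h))]

/-! ### Numbers -/

private theorem step_num_start {n : ℕ} {L M D p a1 a5 : ℝ} (hL : 2 ^ n ≤ L)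
    (hM : 16 * L ^ 3 ≤ M) (hD : D = 2 ^ (n + 1) * L * M ^ 2) (hp : |p - 2| ≤ 1 / 4)
    (hpL : |p - 2| ≤ 1 / (4 * L)) (h1 : 1 ≤ 2 * (L * (a5 ^ (p / 2) + |p - 2|)))
    (h5 : 0 ≤ a5) (h2 : a1 ≤ L) (h6 : a5 ≤ 2 ^ n * a1) :
    0 < a1 ∧ a1 ≤ M * a5 ∧ 1 ≤ D * a1 ^ (p / 2) := by
  have h2n : (1 : ℝ) ≤ 2 ^ n := one_le_pow₀ (by norm_num)
  have hL1 : 1 ≤ L := h2n.trans hL
  have hL0 : 0 < L := by linarith
  obtain ⟨hp1, hp2⟩ := abs_le.1 hp
  set b : ℝ := 1 / (4 * L) with hb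
  have hb0 : 0 < b := by positivity
  have hb1 : b ≤ 1 := by
    rw [hb, div_le_one (by positivity)]; linarith
  have hbL : b * (4 * L) = 1 := by rw [hb]; field_simp
  have hA : b ≤ a5 ^ (p / 2) := by
    have h3 : 1 ≤ 2 * (L * (a5 ^ (p / 2) + b)) :=
      h1.trans (by gcongr)
    have h4 : 2 * (L * b) = 1 / 2 := by linarith
    have h5 : b * (4 * L) ≤ a5 ^ (p / 2) * (4 * L) := by nlinarith
    exact le_of_mul_le_mul_right h5 (by positivity)
  have hB : b ^ 2 ≤ a5 := by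
    by_contra hcon
    rw [not_le] at hcon
    have h3 : a5 ^ (p / 2) < (b ^ 2) ^ (p / 2) :=
      Real.rpow_lt_rpow h5 hcon (by linarith)
    have h4 : (b ^ 2) ^ (p / 2) = b ^ p := by
      rw [← Real.rpow_natCast, ← Real.rpow_mul hb0.le]
      congr 1; push_cast; ring
    have h6 : b ^ p ≤ b ^ (1 : ℝ) :=
      Real.rpow_le_rpow_of_exponent_ge hb0 hb1 (by linarith)
    rw [Real.rpow_one] at h6
    linarith
  have hbb : 0 < b ^ 2 := by positivity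
  have ha1 : b ^ 2 / 2 ^ n ≤ a1 := by
    rw [div_le_iff₀ (by positivity)]
    linarith [mul_comm a1 (2 ^ n)]
  have ha10 : 0 < a1 := lt_of_lt_of_le (by positivity) ha1
  refine ⟨ha10, ?_, ?_⟩
  · calc a1 ≤ L := h2
      _ = 16 * L ^ 3 * b ^ 2 := by
        rw [hb]; field_simp; ring
      _ ≤ M * a5 := by
        have hM0 : 0 ≤ M := le_trans (by positivity) hM
        gcongr
  · set c : ℝ := b ^ 2 / 2 ^ n with hc
    have hc0 : 0 < c := by positivity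
    have hc1 : c ≤ 1 := by
      rw [hc, div_le_one (by positivity)]
      exact (pow_le_one₀ hb0.le hb1).trans h2n
    have h7 : c ^ 2 ≤ a1 ^ (p / 2) := by
      calc c ^ 2 = c ^ (2 : ℝ) := by norm_num
        _ ≤ c ^ (p / 2) := Real.rpow_le_rpow_of_exponent_ge hc0 hc1 (by linarith)
        _ ≤ a1 ^ (p / 2) := Real.rpow_le_rpow hc0.le ha1 (by linarith)
    have hD0 : 0 ≤ D := by rw [hD]; positivity
    calc (1 : ℝ) ≤ 2 * (L ^ 2 * (L / 2 ^ n)) := by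
          have h8 : 1 ≤ L / 2 ^ n := by rw [one_le_div (by positivity)]; exact hL
          have h9 : 1 ≤ L ^ 2 := one_le_pow₀ hL1
          nlinarith
      _ = 2 ^ (n + 1) * L * (16 * L ^ 3) ^ 2 * c ^ 2 := by
          rw [hc, hb, pow_succ]; field_simp; ring
      _ ≤ 2 ^ (n + 1) * L * M ^ 2 * c ^ 2 := by gcongr
      _ = D * c ^ 2 := by rw [hD]
      _ ≤ D * a1 ^ (p / 2) := by gcongr

private theorem step_num_step {n : ℕ} {ε L M D p a1 a5 a9 : ℝ} (hε : 0 < ε) (hε1 : ε ≤ 1 / 8)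
    (hL : 2 ^ n ≤ L) (hM : 1 ≤ M) (hD : 1 ≤ D) (hp : |p - 2| ≤ 1 / 4)
    (hpL : |p - 2| ≤ ε ^ 2 / (4 * L * M * D)) (h0 : 0 < a1) (h1 : a1 ≤ M * a5)
    (h2 : 1 ≤ D * a1 ^ (p / 2))
    (hV1 : ((1 + ε) ^ 4 + 1 / (1 + ε) ^ 4) * a5 ≤
      (1 + ε ^ 2) ^ 2 * (a1 / M + M * a9) + L * M / ε ^ 2 * |p - 2| ^ 2) :
    0 < a5 ∧ a5 ≤ M * a9 ∧ L * (a1 ^ (p / 2) + |p - 2|) ≤ 2 * L * M ^ 2 * a5 ^ (p / 2) ∧
      (1 / (M * D)) ^ 2 ≤ a9 := by
  have h2n : (1 : ℝ) ≤ 2 ^ n := one_le_pow₀ (by norm_num)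
  have hL1 : 1 ≤ L := h2n.trans hL
  have hL0 : 0 < L := by linarith
  have hM0 : 0 < M := by linarith
  have hD0 : 0 < D := by linarith
  obtain ⟨hp1, hp2⟩ := abs_le.1 hp
  have ha5 : 0 < a5 := by
    by_contra hcon
    rw [not_lt] at hcon
    nlinarith
  have hpow : a1 ^ (p / 2) ≤ M ^ 2 * a5 ^ (p / 2) := by
    calc a1 ^ (p / 2) ≤ (M * a5) ^ (p / 2) := Real.rpow_le_rpow h0.le h1 (by linarith)
      _ = M ^ (p / 2) * a5 ^ (p / 2) := Real.mul_rpow hM0.le ha5.le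
      _ ≤ M ^ (2 : ℝ) * a5 ^ (p / 2) := by
          have hpp : M ^ (p / 2) ≤ M ^ (2 : ℝ) :=
            Real.rpow_le_rpow_of_exponent_le hM (by linarith)
          exact mul_le_mul_of_nonneg_right hpp (Real.rpow_nonneg ha5.le _)
      _ = M ^ 2 * a5 ^ (p / 2) := by norm_num
  have hdiv : 1 / D ≤ a1 ^ (p / 2) := by
    rw [div_le_iff₀ hD0]; linarith [mul_comm D (a1 ^ (p / 2))]
  have hD1 : 1 / D ≤ 1 := by rw [div_le_one hD0]; exact hD
  have hD2 : 0 < 1 / D := by positivity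
  have ha1 : (1 / D) ^ 2 ≤ a1 := by
    by_contra hcon
    rw [not_le] at hcon
    have h3 : a1 ^ (p / 2) < ((1 / D) ^ 2) ^ (p / 2) :=
      Real.rpow_lt_rpow h0.le hcon (by linarith)
    have h4 : ((1 / D) ^ 2) ^ (p / 2) = (1 / D) ^ p := by
      rw [← Real.rpow_natCast, ← Real.rpow_mul hD2.le]
      congr 1; push_cast; ring
    have h6 : (1 / D) ^ p ≤ (1 / D) ^ (1 : ℝ) :=
      Real.rpow_le_rpow_of_exponent_ge hD2 hD1 (by linarith)
    rw [Real.rpow_one] at h6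
    linarith
  have ha5' : (1 / D) ^ 2 / M ≤ a5 := by
    rw [div_le_iff₀ hM0]; linarith [mul_comm M a5]
  have hx0 : 0 ≤ |p - 2| := abs_nonneg _
  have hterm : L * M / ε ^ 2 * |p - 2| ^ 2 ≤ ε ^ 2 * a5 := by
    calc L * M / ε ^ 2 * |p - 2| ^ 2 ≤ L * M / ε ^ 2 * (ε ^ 2 / (4 * L * M * D)) ^ 2 := by
          gcongr
      _ = ε ^ 2 * ((1 / D) ^ 2 / M) * (1 / (16 * L)) := by
          field_simp; ring
      _ ≤ ε ^ 2 * ((1 / D) ^ 2 / M) * 1 := by
          gcongr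
          rw [div_le_one (by positivity)]; linarith
      _ ≤ ε ^ 2 * a5 := by rw [mul_one]; gcongr
  have hl : 2 + 9 * ε ^ 2 ≤ (1 + ε) ^ 4 + 1 / (1 + ε) ^ 4 := by
    have hq : 0 < (1 + ε) ^ 4 := by positivity
    have h3 : (1 + ε) ^ 4 + 1 / (1 + ε) ^ 4 - 2 = (((1 + ε) ^ 4 - 1) / (1 + ε) ^ 2) ^ 2 := by
      field_simp; ring
    have h4 : 3 * ε ≤ ((1 + ε) ^ 4 - 1) / (1 + ε) ^ 2 := by
      rw [le_div_iff₀ (by positivity)]
      nlinarith [pow_pos hε 2, pow_pos hε 3, pow_pos hε 4]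
    have h5 : (3 * ε) ^ 2 ≤ (((1 + ε) ^ 4 - 1) / (1 + ε) ^ 2) ^ 2 := by gcongr
    nlinarith
  have ha9 : a5 ≤ M * a9 := by
    by_contra hcon
    rw [not_le] at hcon
    have h3 : a1 / M ≤ a5 := by
      rw [div_le_iff₀ hM0]; linarith [mul_comm M a5]
    have h4 : (1 + ε ^ 2) ^ 2 * (a1 / M + M * a9) ≤ (1 + ε ^ 2) ^ 2 * (2 * a5) := by
      gcongr; linarith
    have h5 : (2 + 9 * ε ^ 2) * a5 ≤ ((1 + ε) ^ 4 + 1 / (1 + ε) ^ 4) * a5 := by gcongr
    have h6 : (1 + ε ^ 2) ^ 2 * 2 ≤ 2 + 5 * ε ^ 2 := by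
      have h7 : ε ^ 2 ≤ 1 / 64 := by nlinarith
      nlinarith [pow_pos hε 2]
    have h7 : (1 + ε ^ 2) ^ 2 * (2 * a5) ≤ (2 + 5 * ε ^ 2) * a5 := by
      rw [← mul_assoc]; gcongr
    have h8 : 0 < ε ^ 2 * a5 := by positivity
    nlinarith
  refine ⟨ha5, ha9, ?_, ?_⟩
  · have h3 : |p - 2| ≤ a1 ^ (p / 2) := by
      refine le_trans (hpL.trans ?_) hdiv
      rw [div_le_div_iff₀ (by positivity) hD0]
      have h4 : ε ^ 2 ≤ 1 := by nlinarith
      have h5 : 1 ≤ L * M := one_le_mul_of_one_le_of_one_le hL1 hM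
      nlinarith
    calc L * (a1 ^ (p / 2) + |p - 2|) ≤ L * (a1 ^ (p / 2) + a1 ^ (p / 2)) := by gcongr
      _ = 2 * L * a1 ^ (p / 2) := by ring
      _ ≤ 2 * L * (M ^ 2 * a5 ^ (p / 2)) := by gcongr
      _ = _ := by ring
  · have h3 : a5 / M ≤ a9 := by
      rw [div_le_iff₀ hM0]; linarith [mul_comm M a9]
    calc (1 / (M * D)) ^ 2 = (1 / D) ^ 2 / M / M := by field_simp
      _ ≤ a5 / M := by gcongr
      _ ≤ a9 := h3

private theorem step_num_last {ε L M D p a9 Y : ℝ} (hL : 1 ≤ L) (hM : 1 ≤ M) (hD : 1 ≤ D)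
    (hε : 0 < ε) (hε1 : ε ≤ 1 / 8) (hpL : |p - 2| ≤ ε ^ 2 / (4 * L * M * D))
    (hY : 0 ≤ Y) (h9 : (1 / (M * D)) ^ 2 ≤ a9) (h : a9 ≤ L * (Y + |p - 2|) ^ 2) :
    1 ≤ 2 * L * M * D * Y := by
  have hL0 : 0 < L := by linarith
  have hM0 : 0 < M := by linarith
  have hD0 : 0 < D := by linarith
  have hx0 : 0 ≤ |p - 2| := abs_nonneg _
  have h1 : (1 / (M * D)) ^ 2 ≤ (L * (Y + |p - 2|)) ^ 2 := by
    calc (1 / (M * D)) ^ 2 ≤ L * (Y + |p - 2|) ^ 2 := h9.trans h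
      _ ≤ L ^ 2 * (Y + |p - 2|) ^ 2 := by
          gcongr
          nlinarith
      _ = _ := by ring
  have h2 : 1 / (M * D) ≤ L * (Y + |p - 2|) :=
    le_of_sq_le_sq h1 (by positivity)
  have h3 : 1 ≤ L * M * D * (Y + |p - 2|) := by
    rw [div_le_iff₀ (by positivity)] at h2
    nlinarith
  have h4 : L * M * D * |p - 2| ≤ 1 / 4 := by
    calc L * M * D * |p - 2| ≤ L * M * D * (ε ^ 2 / (4 * L * M * D)) := by gcongr
      _ = ε ^ 2 / 4 := by field_simp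
      _ ≤ 1 / 4 := by
          have : ε ^ 2 ≤ 1 := by nlinarith
          linarith
  have h5 : 0 ≤ L * M * D * Y := by positivity
  nlinarith

private theorem step_exists_K {ε L : ℝ} (hε : 0 < ε) (hε1 : ε ≤ 1 / 8) (hL : 1 ≤ L) :
    ∃ K : ℕ, 16 * L ^ 3 ≤ ((1 + ε) ^ 4) ^ (2 * K + 1) ∧
      ((1 + ε) ^ 4) ^ (2 * K + 1) ≤ 64 * L ^ 3 := by
  classical
  set l : ℝ := (1 + ε) ^ 4 with hl
  have hl1 : 1 < l := one_lt_pow₀ (by linarith) (by norm_num)
  have hl2 : l ≤ 2 := by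
    calc l ≤ (1 + 1 / 8) ^ 4 := by rw [hl]; gcongr
      _ ≤ 2 := by norm_num
  have hL3 : 1 ≤ L ^ 3 := one_le_pow₀ hL
  have hex : ∃ K : ℕ, 16 * L ^ 3 ≤ l ^ (2 * K + 1) := by
    obtain ⟨k, hk⟩ := pow_unbounded_of_one_lt (16 * L ^ 3) hl1
    refine ⟨k, hk.le.trans ?_⟩
    exact pow_le_pow_right₀ hl1.le (by omega)
  refine ⟨Nat.find hex, Nat.find_spec hex, ?_⟩
  rcases Nat.eq_zero_or_pos (Nat.find hex) with h0 | h0
  · rw [h0]
    simp only [Nat.mul_zero, Nat.zero_add, pow_one]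
    linarith
  · have h1 : ¬ 16 * L ^ 3 ≤ l ^ (2 * (Nat.find hex - 1) + 1) :=
      Nat.find_min hex (by omega)
    rw [not_le] at h1
    have h2 : 2 * Nat.find hex + 1 = (2 * (Nat.find hex - 1) + 1) + 2 := by omega
    rw [h2, pow_add]
    have h3 : l ^ 2 ≤ 4 := by nlinarith
    have h4 : 0 < l ^ (2 * (Nat.find hex - 1) + 1) := by positivity
    nlinarith

/-! ### Start and step for a normalised pair -/

private theorem step_one_le {x : ℝ} (h : (1 : ℝ≥0∞) ≤ 2 * ENNReal.ofReal x) : 1 ≤ 2 * x := by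
  have h2 : (2 : ℝ≥0∞) = ENNReal.ofReal 2 := by norm_num
  rw [h2, ← ENNReal.ofReal_mul (by norm_num), ENNReal.one_le_ofReal] at h
  exact h

/-- The integral of the `p`-th power of the gradient is positive in a good state. -/
private theorem step_pos {n : ℕ} {ε M D p : ℝ} (hε : 0 < ε) (hp : 1 ≤ p) {Ω : Set (V n)}
    (hΩ : IsOpen Ω) (hΩ2 : closedBall 0 2 ⊆ Ω) {u : V n → ℝ} {g : V n → V n}
    (hs : IsWeakSol p Ω u g) (hG : Good ε M D p u g) :
    0 < ∫⁻ x in ball 0 2, ‖g x‖ₑ ^ p := by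
  rw [pos_iff_ne_zero]
  intro hX
  obtain ⟨C, hC⟩ := poincare n p hp
  obtain ⟨c, hc⟩ := hC Ω u g hΩ hs.grad hs.loc_u hs.loc_g 2 (by norm_num) le_rfl hΩ2
  rw [hX, mul_zero, nonpos_iff_eq_zero] at hc
  have hum : AEMeasurable u (volume.restrict (ball (0 : V n) 2)) := by
    have h1 : IntegrableOn u (closedBall (0 : V n) 2) :=
      hs.grad.1.integrableOn_compact_subset hΩ2 (isCompact_closedBall _ _)
    exact (h1.mono_set ball_subset_closedBall).aestronglyMeasurable.aemeasurable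
  have hae : ∀ᵐ x ∂(volume.restrict (ball (0 : V n) 2)), u x = c := by
    rw [lintegral_eq_zero_iff' ((hum.sub_const c).enorm.pow_const p)] at hc
    filter_upwards [hc] with x hx
    simp only [Pi.zero_apply] at hx
    rw [ENNReal.rpow_eq_zero_iff] at hx
    rcases hx with ⟨h, _⟩ | ⟨_, h⟩
    · rw [enorm_eq_zero, sub_eq_zero] at h
      exact h
    · linarith
  have hmem : MemLp u 2 (volume.restrict (ball (0 : V n) 2)) := by
    have : IsFiniteMeasure (volume.restrict (ball (0 : V n) 2)) :=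
      ⟨by rw [Measure.restrict_apply_univ]; exact measure_ball_lt_top⟩
    exact (memLp_const (μ := volume.restrict (ball (0 : V n) 2)) (p := 2) c).ae_eq
      (hae.mono fun x hx => hx.symm)
  have hr0 : 0 < 2 / (1 + ε) := by positivity
  have hr2 : 2 / (1 + ε) ≤ 2 := by
    rw [div_le_iff₀ (by positivity)]; linarith
  have h1 := G_le hmem hr0 hr2 c
  have h2 : A (2 / (1 + ε)) (fun x => u x - c) ≤ 0 ^ 2 * ∫ z, wt (n := n) z := by
    refine A_le_sup hr0 ?_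
    have h3 := ae_restrict_of_ae_restrict_of_subset (ball_subset_ball hr2) hae
    filter_upwards [h3] with y hy
    rw [hy, sub_self, abs_zero]
  have h3 := hG.1
  rw [zero_pow two_ne_zero, zero_mul] at h2
  linarith

theorem start_step (n : ℕ) (hn : 3 ≤ n) : ∃ c : ℝ, ∃ m : ℕ, 0 < c ∧ c ≤ 1 / 4 ∧
    ∀ ε : ℝ, 0 < ε → ε ≤ 1 / 8 → ∃ M D : ℝ, ∃ Cs : ℝ≥0, ∀ p : ℝ, |p - 2| ≤ c * ε ^ m →
    ∀ (Ω : Set (V n)) (u : V n → ℝ) (g : V n → V n), IsOpen Ω → closedBall 0 2 ⊆ Ω →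
    IsWeakSol p Ω u g →
    (0 < ∫⁻ x in ball 0 2, ‖g x‖ₑ ^ p →
      ∫⁻ x in ball 0 2, ‖g x‖ₑ ^ p ≤ 2 * ∫⁻ x in ball 0 (2 / (1 + ε) ^ 8), ‖g x‖ₑ ^ p →
      Good ε M D p u g) ∧
    (Good ε M D p u g →
      Good ε M D p (fun z => u (((1 + ε) ^ 4)⁻¹ • z))
        (fun z => ((1 + ε) ^ 4)⁻¹ • g (((1 + ε) ^ 4)⁻¹ • z)) ∧
      0 < ∫⁻ x in ball 0 2, ‖g x‖ₑ ^ p ∧
      (∫⁻ x in ball 0 2, ‖g x‖ₑ ^ p) ^ (1 / p) ≤
        Cs * ∫⁻ x in ball 0 (2 / (1 + ε) ^ 8), ‖g x‖ₑ) := by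
  obtain ⟨C, δ, m, hC, hδ, hδ4, hunit⟩ := unit n hn
  have h2n : (1 : ℝ) ≤ 2 ^ n := one_le_pow₀ (by norm_num)
  have hC1 : 1 ≤ C := h2n.trans hC
  have hC0 : 0 < C := by linarith
  refine ⟨min δ (1 / (2 ^ (n + 21) * C ^ 11)), 11 * m + 2, by positivity,
    (min_le_left _ _).trans hδ4, ?_⟩
  intro ε hε hε1
  have hεm0 : 0 < ε ^ m := by positivity
  have hεm : ε ^ m ≤ 1 := pow_le_one₀ hε.le (by linarith)
  set L : ℝ := C / ε ^ m with hLdef
  have hCL : C ≤ L := by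
    rw [hLdef, le_div_iff₀ hεm0]
    nlinarith
  have hL : 2 ^ n ≤ L := hC.trans hCL
  have hL1 : 1 ≤ L := h2n.trans hL
  have hL0 : 0 < L := by linarith
  obtain ⟨K, hK1, hK2⟩ := step_exists_K hε hε1 hL1
  set M : ℝ := ((1 + ε) ^ 4) ^ (2 * K + 1) with hMdef
  have hL3 : 1 ≤ L ^ 3 := one_le_pow₀ hL1
  have hM1 : 1 ≤ M := by linarith
  have hM0 : 0 < M := by linarith
  set D : ℝ := 2 ^ (n + 1) * L * M ^ 2 with hDdef
  have hD1 : 1 ≤ D := by
    have h1 : (1 : ℝ) ≤ 2 ^ (n + 1) := one_le_pow₀ (by norm_num)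
    have h2 : 1 ≤ M ^ 2 := one_le_pow₀ hM1
    exact one_le_mul_of_one_le_of_one_le (one_le_mul_of_one_le_of_one_le h1 hL1) h2
  have hD0 : 0 < D := by linarith
  refine ⟨M, D, Real.toNNReal (2 * L * M * D), ?_⟩
  intro p hp
  have hpδ : |p - 2| ≤ δ := by
    calc |p - 2| ≤ min δ (1 / (2 ^ (n + 21) * C ^ 11)) * ε ^ (11 * m + 2) := hp
      _ ≤ min δ (1 / (2 ^ (n + 21) * C ^ 11)) * 1 := by
          gcongr
          exact pow_le_one₀ hε.le (by linarith)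
      _ ≤ δ := by rw [mul_one]; exact min_le_left _ _
  have hp4 : |p - 2| ≤ 1 / 4 := hpδ.trans hδ4
  obtain ⟨hp1, hp2⟩ := abs_le.1 hp4
  have hpL : |p - 2| ≤ ε ^ 2 / (4 * L * M * D) := by
    have h1 : 4 * L * M * D ≤ 2 ^ (n + 21) * L ^ 11 := by
      calc 4 * L * M * D = 4 * L * M * (2 ^ (n + 1) * L * M ^ 2) := by rw [hDdef]
        _ ≤ 4 * L * (64 * L ^ 3) * (2 ^ (n + 1) * L * (64 * L ^ 3) ^ 2) := by gcongr
        _ = 2 ^ (n + 21) * L ^ 11 := by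
            rw [pow_add 2 n 21, pow_add 2 n 1]; ring
    calc |p - 2| ≤ min δ (1 / (2 ^ (n + 21) * C ^ 11)) * ε ^ (11 * m + 2) := hp
      _ ≤ 1 / (2 ^ (n + 21) * C ^ 11) * ε ^ (11 * m + 2) := by
          gcongr; exact min_le_right _ _
      _ = ε ^ 2 / (2 ^ (n + 21) * L ^ 11) := by
          rw [hLdef, div_pow, ← pow_mul, mul_comm m 11]; field_simp; ring
      _ ≤ ε ^ 2 / (4 * L * M * D) := by gcongr
  have hpL4 : |p - 2| ≤ 1 / (4 * L) := by
    refine hpL.trans ?_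
    rw [div_le_div_iff₀ (by positivity) (by positivity)]
    have h1 : ε ^ 2 ≤ 1 := by nlinarith
    have h2 : 1 ≤ M * D := one_le_mul_of_one_le_of_one_le hM1 hD1
    nlinarith
  intro Ω u g hΩ hΩ2 hs
  -- normalisation
  have key : ∀ X : ℝ≥0∞, X = ∫⁻ x in ball 0 2, ‖g x‖ₑ ^ p → 0 < X → ∃ s : ℝ, 0 < s ∧
      ENNReal.ofReal (s ^ p) * X = 1 ∧ ENNReal.ofReal s * X ^ (1 / p) = 1 := by
    intro X hX hX0
    have hXt : X < ⊤ := by
      rw [hX]
      exact (lintegral_mono_set ball_subset_closedBall).trans_lt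
        (hs.loc_g _ hΩ2 (isCompact_closedBall _ _))
    set x : ℝ := X.toReal with hx
    have hx0 : 0 < x := ENNReal.toReal_pos hX0.ne' hXt.ne
    have hXx : X = ENNReal.ofReal x := (ENNReal.ofReal_toReal hXt.ne).symm
    have hp0 : p ≠ 0 := by linarith
    refine ⟨x ^ (-(1 / p)), by positivity, ?_, ?_⟩
    · rw [hXx, ← Real.rpow_mul hx0.le, ← ENNReal.ofReal_mul (by positivity)]
      have h1 : -(1 / p) * p = -1 := by field_simp
      rw [h1, Real.rpow_neg_one, inv_mul_cancel₀ hx0.ne', ENNReal.ofReal_one]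
    · rw [hXx, ENNReal.ofReal_rpow_of_pos hx0, ← ENNReal.ofReal_mul (by positivity),
        ← Real.rpow_add hx0, neg_add_cancel, Real.rpow_zero, ENNReal.ofReal_one]
  have hsc : ∀ s : ℝ, 0 < s → (fun x => s⁻¹ * (s * u x)) = u := by
    intro s h0; funext x; exact inv_mul_cancel_left₀ h0.ne' _
  have hscg : ∀ s : ℝ, 0 < s → (fun x => s⁻¹ • (s • g x)) = g := by
    intro s h0; funext x; exact inv_smul_smul₀ h0.ne' _
  refine ⟨?_, ?_⟩
  · intro hX0 hX2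
    obtain ⟨s, hs0, hs1, hs2⟩ := key _ rfl hX0
    have hsol := step_sol_smul (by linarith) hΩ hs s
    have hX' : ∫⁻ x in ball 0 2, ‖s • g x‖ₑ ^ p = 1 := by
      rw [step_lint_smul (by linarith) hs0, hs1]
    obtain ⟨hU1, hU2, hU3, hU4, hU5, hU6⟩ := hunit ε hε hε1 p hpδ Ω _ _ hΩ hΩ2 hsol hX'
    have h1 : (1 : ℝ≥0∞) ≤ 2 * ∫⁻ x in ball 0 (2 / (1 + ε) ^ 8), ‖s • g x‖ₑ ^ p := by
      rw [step_lint_smul (by linarith) hs0, ← hs1]
      calc ENNReal.ofReal (s ^ p) * ∫⁻ x in ball 0 2, ‖g x‖ₑ ^ p ≤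
          ENNReal.ofReal (s ^ p) * (2 * ∫⁻ x in ball 0 (2 / (1 + ε) ^ 8), ‖g x‖ₑ ^ p) := by
            gcongr
        _ = _ := by ring
    have h2 := step_one_le (h1.trans (mul_le_mul_right hU3 2))
    have h5 : 0 ≤ G (2 / (1 + ε) ^ 5) (fun x => s * u x) := A_nonneg _ _
    obtain ⟨hr1, hr2, hr3⟩ := step_num_start hL hK1 hDdef hp4 hpL4 h2 h5 hU4 hU6
    have hgood : Good ε M D p (fun x => s * u x) (fun x => s • g x) := by
      refine ⟨hr1, hr2, ?_⟩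
      rw [hX', ENNReal.one_le_ofReal]
      exact hr3
    have h9 := step_good_smul (by linarith) (inv_pos.2 hs0) hgood
    rw [hsc s hs0, hscg s hs0] at h9
    exact h9
  · intro hG
    have hX0 := step_pos hε (by linarith) hΩ hΩ2 hs hG
    obtain ⟨s, hs0, hs1, hs2⟩ := key _ rfl hX0
    have hsol := step_sol_smul (by linarith) hΩ hs s
    have hX' : ∫⁻ x in ball 0 2, ‖s • g x‖ₑ ^ p = 1 := by
      rw [step_lint_smul (by linarith) hs0, hs1]
    obtain ⟨hU1, hU2, hU3, hU4, hU5, hU6⟩ := hunit ε hε hε1 p hpδ Ω _ _ hΩ hΩ2 hsol hX'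
    obtain ⟨hG1, hG2, hG3⟩ := step_good_smul (s := s) (by linarith) hs0 hG
    rw [hX', ENNReal.one_le_ofReal] at hG3
    have hτ : ε ^ 2 ≤ 1 := by nlinarith
    have hV1 := hU1 K (ε ^ 2) (by positivity) hτ
    obtain ⟨hr5, hr9, hr4, hr8⟩ := step_num_step hε hε1 hL hM1 hD1 hp4 hpL hG1 hG2 hG3 hV1
    have hr10 := step_num_last hL1 hM1 hD1 hε hε1 hpL ENNReal.toReal_nonneg hr8 hU5
    refine ⟨?_, hX0, ?_⟩
    · have hl0 : (0 : ℝ) < (1 + ε) ^ 4 := by positivity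
      have hl1 : (1 : ℝ) ≤ (1 + ε) ^ 4 := one_le_pow₀ (by linarith)
      have hl2 : (1 + ε) ^ 4 ≤ 2 := by
        calc (1 + ε) ^ 4 ≤ (1 + 1 / 8) ^ 4 := by gcongr
          _ ≤ 2 := by norm_num
      have hGr : ∀ r : ℝ, G r (fun z => s * u (((1 + ε) ^ 4)⁻¹ • z)) =
          G (((1 + ε) ^ 4)⁻¹ * r) (fun x => s * u x) := by
        intro r
        rw [G_scale u s, step_G_smul]
      have hr15 : ((1 + ε) ^ 4)⁻¹ * (2 / (1 + ε)) = 2 / (1 + ε) ^ 5 := by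
        field_simp
      have hr59 : ((1 + ε) ^ 4)⁻¹ * (2 / (1 + ε) ^ 5) = 2 / (1 + ε) ^ 9 := by
        field_simp
      have hgood : Good ε M D p (fun z => s * u (((1 + ε) ^ 4)⁻¹ • z))
          (fun z => s • (((1 + ε) ^ 4)⁻¹ • g (((1 + ε) ^ 4)⁻¹ • z))) := by
        refine ⟨?_, ?_, ?_⟩
        · rw [hGr, hr15]; exact hr5
        · rw [hGr, hGr, hr15, hr59]; exact hr9
        · rw [hGr, hr15]
          have h1 : ∀ z : V n, ‖s • (((1 + ε) ^ 4)⁻¹ • g (((1 + ε) ^ 4)⁻¹ • z))‖ₑ ^ p =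
              ENNReal.ofReal ((((1 + ε) ^ 4)⁻¹) ^ p) *
                ‖s • g (((1 + ε) ^ 4)⁻¹ • z)‖ₑ ^ p := by
            intro z
            rw [smul_comm s, enorm_smul, ENNReal.mul_rpow_of_nonneg _ _ (by linarith),
              Real.enorm_eq_ofReal (by positivity),
              ENNReal.ofReal_rpow_of_nonneg (by positivity) (by linarith)]
          simp only [h1]
          rw [lintegral_const_mul' _ _ ENNReal.ofReal_ne_top,
            step_lint_ball hl0 (fun y => ‖s • g y‖ₑ ^ p)]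
          have h2 : ENNReal.ofReal ((((1 + ε) ^ 4)⁻¹) ^ p) ≤ 1 := by
            rw [ENNReal.ofReal_le_one]
            exact Real.rpow_le_one (by positivity) (inv_le_one_of_one_le₀ hl1) (by linarith)
          have h3 : ENNReal.ofReal (((1 + ε) ^ 4) ^ n) ≤ ENNReal.ofReal (2 ^ n) := by
            gcongr
          calc ENNReal.ofReal ((((1 + ε) ^ 4)⁻¹) ^ p) * (ENNReal.ofReal (((1 + ε) ^ 4) ^ n) *
                ∫⁻ y in ball 0 (2 / (1 + ε) ^ 4), ‖s • g y‖ₑ ^ p)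
              ≤ 1 * (ENNReal.ofReal (2 ^ n) * ENNReal.ofReal (2 * L * M ^ 2 *
                G (2 / (1 + ε) ^ 5) (fun x => s * u x) ^ (p / 2))) := by
                gcongr
                exact hU2.trans (ENNReal.ofReal_le_ofReal hr4)
            _ = ENNReal.ofReal (D * G (2 / (1 + ε) ^ 5) (fun x => s * u x) ^ (p / 2)) := by
                rw [one_mul, ← ENNReal.ofReal_mul (by positivity)]
                congr 1
                rw [hDdef, pow_succ]; ring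
      have h9 := step_good_smul (by linarith) (inv_pos.2 hs0) hgood
      have e1 : (fun x => s⁻¹ * (s * u (((1 + ε) ^ 4)⁻¹ • x))) =
          fun z => u (((1 + ε) ^ 4)⁻¹ • z) := by
        funext x; exact inv_mul_cancel_left₀ hs0.ne' _
      have e2 : (fun x => s⁻¹ • (s • (((1 + ε) ^ 4)⁻¹ • g (((1 + ε) ^ 4)⁻¹ • x)))) =
          fun z => ((1 + ε) ^ 4)⁻¹ • g (((1 + ε) ^ 4)⁻¹ • z) := by
        funext x; exact inv_smul_smul₀ hs0.ne' _
      rw [e1, e2] at h9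
      exact h9
    · have hY : (1 : ℝ≥0∞) ≤ (Real.toNNReal (2 * L * M * D) : ℝ≥0∞) *
          (ENNReal.ofReal s * ∫⁻ x in ball 0 (2 / (1 + ε) ^ 8), ‖g x‖ₑ) := by
        rw [← step_lint_smul_one hs0]
        calc (1 : ℝ≥0∞) ≤ ENNReal.ofReal (2 * L * M * D *
              (∫⁻ x in ball 0 (2 / (1 + ε) ^ 8), ‖s • g x‖ₑ).toReal) := by
              rw [ENNReal.one_le_ofReal]; exact hr10
          _ = ENNReal.ofReal (2 * L * M * D) * ENNReal.ofReal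
              (∫⁻ x in ball 0 (2 / (1 + ε) ^ 8), ‖s • g x‖ₑ).toReal :=
              ENNReal.ofReal_mul (by positivity)
          _ ≤ ENNReal.ofReal (2 * L * M * D) *
              ∫⁻ x in ball 0 (2 / (1 + ε) ^ 8), ‖s • g x‖ₑ := by
              gcongr
              exact ENNReal.ofReal_toReal_le
      calc (∫⁻ x in ball 0 2, ‖g x‖ₑ ^ p) ^ (1 / p)
          = (∫⁻ x in ball 0 2, ‖g x‖ₑ ^ p) ^ (1 / p) * 1 := (mul_one _).symm
        _ ≤ (∫⁻ x in ball 0 2, ‖g x‖ₑ ^ p) ^ (1 / p) *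
            ((Real.toNNReal (2 * L * M * D) : ℝ≥0∞) *
              (ENNReal.ofReal s * ∫⁻ x in ball 0 (2 / (1 + ε) ^ 8), ‖g x‖ₑ)) := by gcongr
        _ = (Real.toNNReal (2 * L * M * D) : ℝ≥0∞) *
            ((ENNReal.ofReal s * (∫⁻ x in ball 0 2, ‖g x‖ₑ ^ p) ^ (1 / p)) *
              ∫⁻ x in ball 0 (2 / (1 + ε) ^ 8), ‖g x‖ₑ) := by ring
        _ = _ := by rw [hs2, one_mul]

end Pool.Agent.Helper20.PN
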