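import Pool.Agent.Helper20.PN.Defs2
import Pool.Agent.Helper20.PN.Resc
import Pool.Agent.Helper20.PN.Step

/-! All smaller scales. -/

open MeasureTheory Metric Set Filter
open scoped ENNReal NNReal ContDiff Topology Gradient

namespace Pool.Agent.Helper20.PN

private theorem scales_lint {n : ℕ} (x : V n) {ρ : ℝ} (hρ : ρ ≠ 0) (f : V n → ℝ≥0∞) :
    ∫⁻ z, f (x + ρ • z) = ENNReal.ofReal |(ρ ^ n)⁻¹| * ∫⁻ y, f y := by
  have h1 : ∫⁻ y, f (x + y) = ∫⁻ y, f y := lintegral_add_left_eq_self f x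
  have h2 : Measure.map (fun z : V n => ρ • z) volume =
      ENNReal.ofReal |(ρ ^ n)⁻¹| • (volume : Measure (V n)) := by
    have := Measure.map_addHaar_smul (volume : Measure (V n)) hρ
    simpa using this
  have h3 := lintegral_map_equiv (μ := (volume : Measure (V n))) (fun y => f (x + y))
    (Homeomorph.smulOfNeZero ρ hρ).toMeasurableEquiv
  have h4 : Measure.map (⇑(Homeomorph.smulOfNeZero ρ hρ).toMeasurableEquiv) volume =
      ENNReal.ofReal |(ρ ^ n)⁻¹| • (volume : Measure (V n)) := h2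
  rw [h4, lintegral_smul_measure, h1] at h3
  simpa using h3.symm

private theorem scales_ball {n : ℕ} (x : V n) {ρ : ℝ} (hρ : 0 < ρ) (s : ℝ) (f : V n → ℝ≥0∞) :
    ∫⁻ z in ball 0 s, f (x + ρ • z) =
      ENNReal.ofReal ((ρ ^ n)⁻¹) * ∫⁻ y in ball x (ρ * s), f y := by
  rw [← lintegral_indicator measurableSet_ball, ← lintegral_indicator measurableSet_ball]
  have h1 := scales_lint x hρ.ne' ((ball x (ρ * s)).indicator f)
  rw [abs_of_pos (by positivity)] at h1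
  rw [← h1]
  congr 1
  funext z
  have h2 : z ∈ ball (0 : V n) s ↔ x + ρ • z ∈ ball x (ρ * s) := by
    rw [mem_ball, mem_ball, dist_zero_right, dist_eq_norm, add_sub_cancel_left, norm_smul,
      Real.norm_of_nonneg hρ.le]
    exact (mul_lt_mul_iff_right₀ hρ).symm
  by_cases hz : z ∈ ball (0 : V n) s
  · rw [indicator_of_mem hz, indicator_of_mem (h2.1 hz)]
  · rw [indicator_of_notMem hz, indicator_of_notMem (fun h => hz (h2.2 h))]

/-- Passing to the original variables. -/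
private theorem scales_conv {n : ℕ} {p : ℝ} (hp : 1 < p) (g : V n → V n) (x : V n) {ρ : ℝ}
    (hρ : 0 < ρ) (s : ℝ) (C : ℝ≥0)
    (h0 : 0 < ∫⁻ z in ball 0 2, ‖ρ • g (x + ρ • z)‖ₑ ^ p)
    (h1 : (∫⁻ z in ball 0 2, ‖ρ • g (x + ρ • z)‖ₑ ^ p) ^ (1 / p) ≤
      C * ∫⁻ z in ball 0 s, ‖ρ • g (x + ρ • z)‖ₑ) :
    0 < ∫⁻ y in ball x (ρ * 2), ‖g y‖ₑ ^ p ∧
    (∫⁻ y in ball x (ρ * 2), ‖g y‖ₑ ^ p) ^ (1 / p) ≤
      C * ENNReal.ofReal (ρ ^ (-(n : ℝ) * (1 - 1 / p))) * ∫⁻ y in ball x (ρ * s), ‖g y‖ₑ := by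
  have hp0 : 0 < p := by linarith
  have hρe : ENNReal.ofReal ρ ≠ 0 := (ENNReal.ofReal_pos.2 hρ).ne'
  have e1 : ∫⁻ z in ball 0 2, ‖ρ • g (x + ρ • z)‖ₑ ^ p =
      ENNReal.ofReal ρ ^ p * (ENNReal.ofReal ((ρ ^ n)⁻¹) *
        ∫⁻ y in ball x (ρ * 2), ‖g y‖ₑ ^ p) := by
    rw [← scales_ball x hρ 2 (fun y => ‖g y‖ₑ ^ p), ← lintegral_const_mul']
    · congr 1
      funext z
      rw [enorm_smul, ENNReal.mul_rpow_of_nonneg _ _ hp0.le, Real.enorm_of_nonneg hρ.le]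
    · exact ENNReal.rpow_ne_top_of_nonneg hp0.le ENNReal.ofReal_ne_top
  have e2 : ∫⁻ z in ball 0 s, ‖ρ • g (x + ρ • z)‖ₑ =
      ENNReal.ofReal ρ * (ENNReal.ofReal ((ρ ^ n)⁻¹) *
        ∫⁻ y in ball x (ρ * s), ‖g y‖ₑ) := by
    rw [← scales_ball x hρ s (fun y => ‖g y‖ₑ), ← lintegral_const_mul' _ _ ENNReal.ofReal_ne_top]
    congr 1
    funext z
    rw [enorm_smul, Real.enorm_of_nonneg hρ.le]
  rw [e1] at h0 h1
  rw [e2] at h1
  set a := ∫⁻ y in ball x (ρ * 2), ‖g y‖ₑ ^ p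
  set b := ∫⁻ y in ball x (ρ * s), ‖g y‖ₑ
  refine ⟨?_, ?_⟩
  · rw [pos_iff_ne_zero]
    intro h
    rw [h, mul_zero, mul_zero] at h0
    exact lt_irrefl _ h0
  · rw [ENNReal.mul_rpow_of_nonneg _ _ (by positivity), ENNReal.mul_rpow_of_nonneg _ _ (by positivity),
      ← ENNReal.rpow_mul, mul_one_div_cancel hp0.ne', ENNReal.rpow_one,
      ENNReal.ofReal_rpow_of_nonneg (by positivity) (by positivity)] at h1
    have hk : 0 < ρ⁻¹ * ((ρ ^ n)⁻¹ ^ (1 / p))⁻¹ := by positivity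
    have h2 := mul_le_mul_right h1 (ENNReal.ofReal (ρ⁻¹ * ((ρ ^ n)⁻¹ ^ (1 / p))⁻¹))
    have h3 : ENNReal.ofReal (ρ⁻¹ * ((ρ ^ n)⁻¹ ^ (1 / p))⁻¹) *
        (ENNReal.ofReal ρ * (ENNReal.ofReal ((ρ ^ n)⁻¹ ^ (1 / p)) * a ^ (1 / p))) = a ^ (1 / p) := by
      rw [← mul_assoc, ← mul_assoc, ← ENNReal.ofReal_mul hk.le, ← ENNReal.ofReal_mul (by positivity)]
      have h4 : ρ⁻¹ * ((ρ ^ n)⁻¹ ^ (1 / p))⁻¹ * ρ * (ρ ^ n)⁻¹ ^ (1 / p) = 1 := by
        have h5 : ((ρ ^ n)⁻¹ ^ (1 / p)) ≠ 0 := by positivity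
        field_simp
      rw [h4, ENNReal.ofReal_one, one_mul]
    have h6 : ENNReal.ofReal (ρ⁻¹ * ((ρ ^ n)⁻¹ ^ (1 / p))⁻¹) *
        (C * (ENNReal.ofReal ρ * (ENNReal.ofReal ((ρ ^ n)⁻¹) * b))) =
        C * ENNReal.ofReal (ρ ^ (-(n : ℝ) * (1 - 1 / p))) * b := by
      have h7 : ρ ^ (-(n : ℝ) * (1 - 1 / p)) =
          ρ⁻¹ * ((ρ ^ n)⁻¹ ^ (1 / p))⁻¹ * (ρ * (ρ ^ n)⁻¹) := by
        have h8 : ((ρ ^ n)⁻¹ ^ (1 / p))⁻¹ = ρ ^ ((n : ℝ) * (1 / p)) := by
          rw [Real.inv_rpow (by positivity), inv_inv, ← Real.rpow_natCast, ← Real.rpow_mul hρ.le]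
        have h9 : (ρ ^ n)⁻¹ = ρ ^ (-(n : ℝ)) := by
          rw [Real.rpow_neg hρ.le, Real.rpow_natCast]
        rw [h8, h9]
        have h10 : -(n : ℝ) * (1 - 1 / p) = (n : ℝ) * (1 / p) + -(n : ℝ) := by ring
        rw [h10, Real.rpow_add hρ]
        field_simp
      rw [h7, ENNReal.ofReal_mul hk.le, ENNReal.ofReal_mul hρ.le]
      ring
    rw [h3, h6] at h2
    exact h2

/-- Hoelder. -/
private theorem scales_hold {n : ℕ} {p : ℝ} (hp : 1 < p) (g : V n → V n) (x : V n) {T : ℝ}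
    (hT : 0 < T) (hg : AEStronglyMeasurable g (volume.restrict (ball x (T * 2)))) :
    ∫⁻ y in ball x (T * 2), ‖g y‖ₑ ≤
      (∫⁻ y in ball x (T * 2), ‖g y‖ₑ ^ p) ^ (1 / p) *
        ENNReal.ofReal (T ^ ((n : ℝ) * (1 - 1 / p))) *
        (2 ^ n * max 1 (volume (ball (0 : V n) 1))) := by
  have hp0 : 0 < p := by linarith
  have hconj : p.HolderConjugate (p / (p - 1)) := Real.HolderConjugate.conjExponent hp
  have h1 := ENNReal.lintegral_mul_le_Lp_mul_Lq (volume.restrict (ball x (T * 2))) hconj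
    (f := fun y => ‖g y‖ₑ) (g := fun _ => 1) hg.enorm aemeasurable_const
  simp only [Pi.mul_apply, mul_one, ENNReal.one_rpow, lintegral_const, one_mul,
    Measure.restrict_apply MeasurableSet.univ, univ_inter] at h1
  refine h1.trans ?_
  rw [mul_assoc]
  refine mul_le_mul_right ?_ _
  have hq : 1 / (p / (p - 1)) = 1 - 1 / p := by
    field_simp
  have hq0 : 0 ≤ 1 - 1 / p := by
    rw [sub_nonneg, div_le_one hp0]
    exact hp.le
  have hq1 : 1 - 1 / p ≤ 1 := by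
    have : 0 < 1 / p := by positivity
    linarith
  rw [hq, Measure.addHaar_ball_of_pos _ _ (by positivity : (0 : ℝ) < T * 2), finrank_euclideanSpace_fin,
    ENNReal.mul_rpow_of_nonneg _ _ hq0, ENNReal.ofReal_rpow_of_nonneg (by positivity) hq0,
    mul_pow, Real.mul_rpow (by positivity) (by positivity), ENNReal.ofReal_mul (by positivity),
    mul_assoc]
  refine mul_le_mul' (le_of_eq ?_) (mul_le_mul' ?_ ?_)
  · rw [← Real.rpow_natCast, ← Real.rpow_mul hT.le]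
  · have h2 : ((2 : ℝ) ^ n) ^ (1 - 1 / p) ≤ 2 ^ n := by
      have h3 : (1 : ℝ) ≤ 2 ^ n := one_le_pow₀ (by norm_num)
      calc ((2 : ℝ) ^ n) ^ (1 - 1 / p) ≤ ((2 : ℝ) ^ n) ^ (1 : ℝ) :=
            Real.rpow_le_rpow_of_exponent_le h3 hq1
        _ = 2 ^ n := Real.rpow_one _
    calc ENNReal.ofReal (((2 : ℝ) ^ n) ^ (1 - 1 / p)) ≤ ENNReal.ofReal (2 ^ n) :=
          ENNReal.ofReal_le_ofReal h2
      _ = 2 ^ n := by
          rw [ENNReal.ofReal_pow (by norm_num)]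
          norm_num
  · rcases le_total (volume (ball (0 : V n) 1)) 1 with h | h
    · exact (ENNReal.rpow_le_one h hq0).trans (le_max_left _ _)
    · calc (volume (ball (0 : V n) 1)) ^ (1 - 1 / p) ≤ (volume (ball (0 : V n) 1)) ^ (1 : ℝ) :=
            ENNReal.rpow_le_rpow_of_exponent_le h hq1
        _ = volume (ball (0 : V n) 1) := ENNReal.rpow_one _
        _ ≤ _ := le_max_right _ _

theorem all_scales (n : ℕ) (hn : 3 ≤ n) : ∃ c : ℝ, ∃ m : ℕ, 0 < c ∧ c ≤ 1 / 4 ∧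
    ∀ ε : ℝ, 0 < ε → ε ≤ 1 / 8 → ∃ Cs : ℝ≥0, ∀ p : ℝ, |p - 2| ≤ c * ε ^ m →
    ∀ (Ω : Set (V n)) (u : V n → ℝ) (g : V n → V n), IsOpen Ω → IsWeakSol p Ω u g →
    ∀ (x : V n) (T : ℝ), 0 < T → closedBall x T ⊆ Ω → 0 < ∫⁻ y in ball x T, ‖g y‖ₑ ^ p →
    ∫⁻ y in ball x T, ‖g y‖ₑ ^ p ≤ 2 * ∫⁻ y in ball x (T / (1 + ε) ^ 8), ‖g y‖ₑ ^ p →
    ∀ r : ℝ, 0 < r → 2 * r ≤ T → 0 < ∫⁻ y in ball x r, ‖g y‖ₑ ∧
      (∫⁻ y in ball x (2 * r), ‖g y‖ₑ ^ p) ^ (1 / p) ≤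
        Cs * ENNReal.ofReal (r ^ (-(n : ℝ) * (1 - 1 / p))) * ∫⁻ y in ball x r, ‖g y‖ₑ := by
  obtain ⟨c, m, hc0, hc1, hS⟩ := start_step n hn
  refine ⟨c, m, hc0, hc1, fun ε hε hε1 => ?_⟩
  obtain ⟨M, D, Cs, hS⟩ := hS ε hε hε1
  have hL1 : 1 < (1 + ε) ^ 4 := one_lt_pow₀ (by linarith) (by norm_num)
  obtain ⟨j, hj⟩ : ∃ j : ℕ, 2 ≤ ((1 + ε) ^ 4) ^ (2 * j + 1) := by
    obtain ⟨j, hj⟩ := pow_unbounded_of_one_lt 2 hL1
    exact ⟨j, hj.le.trans (pow_le_pow_right₀ hL1.le (by omega))⟩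
  set v : ℝ≥0 := max 1 (volume (ball (0 : V n) 1)).toNNReal with hv
  have hve : (v : ℝ≥0∞) = max 1 (volume (ball (0 : V n) 1)) := by
    rw [hv, ENNReal.coe_max, ENNReal.coe_one, ENNReal.coe_toNNReal measure_ball_lt_top.ne]
  refine ⟨Cs * (2 ^ n * v * Cs) ^ j, ?_⟩
  intro p hp Ω u g hΩ hsol x T hT hball hpos hdoub r hr hrT
  have hp1 : 1 < p := by
    have h1 : ε ^ m ≤ 1 := pow_le_one₀ hε.le (by linarith)
    have h2 : c * ε ^ m ≤ 1 / 4 := by
      have h3 : 0 ≤ ε ^ m := by positivity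
      nlinarith
    have h3 := abs_le.1 (hp.trans h2)
    linarith
  have hp0 : 0 < p := by linarith
  set L := (1 + ε) ^ 4 with hL
  have hL0 : 0 < L := by linarith
  have hL8 : (1 + ε) ^ 8 = L ^ 2 := by
    rw [hL]
    ring
  rw [hL8] at hdoub
  have hρ : ∀ k : ℕ, 0 < T / 2 / L ^ k := fun k => by positivity
  have hρT : ∀ k : ℕ, T / 2 / L ^ k ≤ T / 2 := fun k =>
    div_le_self (by positivity) (one_le_pow₀ hL1.le)
  have hset : ∀ k : ℕ, closedBall (0 : V n) 2 ⊆ {z | x + (T / 2 / L ^ k) • z ∈ Ω} := by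
    intro k z hz
    apply hball
    rw [mem_closedBall, dist_zero_right] at hz
    rw [mem_closedBall, dist_eq_norm, add_sub_cancel_left, norm_smul,
      Real.norm_of_nonneg (hρ k).le]
    have h1 := hρ k
    have h2 := hρT k
    nlinarith [norm_nonneg z]
  have hres : ∀ k : ℕ, IsOpen {z : V n | x + (T / 2 / L ^ k) • z ∈ Ω} ∧
      IsWeakSol p {z : V n | x + (T / 2 / L ^ k) • z ∈ Ω} (fun z => u (x + (T / 2 / L ^ k) • z))
        (fun z => (T / 2 / L ^ k) • g (x + (T / 2 / L ^ k) • z)) := by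
    intro k
    have h1 := rescale hp1 hΩ hsol x (hρ k) 1
    simp only [one_mul] at h1
    exact h1
  have hgood : ∀ k : ℕ, Good ε M D p (fun z => u (x + (T / 2 / L ^ k) • z))
      (fun z => (T / 2 / L ^ k) • g (x + (T / 2 / L ^ k) • z)) := by
    intro k
    induction k with
    | zero =>
      refine (hS p hp _ _ _ (hres 0).1 (hset 0) (hres 0).2).1 ?_ ?_
      · have e1 : ∫⁻ z in ball 0 2, ‖(T / 2 / L ^ 0) • g (x + (T / 2 / L ^ 0) • z)‖ₑ ^ p =
            ENNReal.ofReal (T / 2 / L ^ 0) ^ p *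
              (ENNReal.ofReal (((T / 2 / L ^ 0) ^ n)⁻¹) *
              ∫⁻ y in ball x (T / 2 / L ^ 0 * 2), ‖g y‖ₑ ^ p) := by
          rw [← scales_ball x (hρ 0) 2 (fun y => ‖g y‖ₑ ^ p), ← lintegral_const_mul']
          · congr 1
            funext z
            rw [enorm_smul, ENNReal.mul_rpow_of_nonneg _ _ hp0.le, Real.enorm_of_nonneg (hρ 0).le]
          · exact ENNReal.rpow_ne_top_of_nonneg hp0.le ENNReal.ofReal_ne_top
        rw [e1]
        have h2 : T / 2 / L ^ 0 * 2 = T := by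
          rw [pow_zero]
          ring
        rw [h2]
        refine ENNReal.mul_pos ?_ (ENNReal.mul_pos ?_ hpos.ne').ne'
        · exact (ENNReal.rpow_pos (ENNReal.ofReal_pos.2 (hρ 0)) ENNReal.ofReal_ne_top).ne'
        · have := hρ 0
          exact (ENNReal.ofReal_pos.2 (by positivity)).ne'
      · have e1 : ∀ s : ℝ, ∫⁻ z in ball 0 s, ‖(T / 2 / L ^ 0) • g (x + (T / 2 / L ^ 0) • z)‖ₑ ^ p =
            ENNReal.ofReal (T / 2 / L ^ 0) ^ p *
              (ENNReal.ofReal (((T / 2 / L ^ 0) ^ n)⁻¹) *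
              ∫⁻ y in ball x (T / 2 / L ^ 0 * s), ‖g y‖ₑ ^ p) := by
          intro s
          rw [← scales_ball x (hρ 0) s (fun y => ‖g y‖ₑ ^ p), ← lintegral_const_mul']
          · congr 1
            funext z
            rw [enorm_smul, ENNReal.mul_rpow_of_nonneg _ _ hp0.le, Real.enorm_of_nonneg (hρ 0).le]
          · exact ENNReal.rpow_ne_top_of_nonneg hp0.le ENNReal.ofReal_ne_top
        rw [e1, e1]
        have h2 : T / 2 / L ^ 0 * 2 = T := by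
          rw [pow_zero]
          ring
        have h3 : T / 2 / L ^ 0 * (2 / (1 + ε) ^ 8) = T / L ^ 2 := by
          rw [pow_zero, hL8]
          ring
        rw [h2, h3]
        calc _ ≤ ENNReal.ofReal (T / 2 / L ^ 0) ^ p * (ENNReal.ofReal (((T / 2 / L ^ 0) ^ n)⁻¹) *
              (2 * ∫⁻ y in ball x (T / L ^ 2), ‖g y‖ₑ ^ p)) :=
              mul_le_mul_right (mul_le_mul_right hdoub _) _
          _ = _ := by ring
    | succ k ih =>
      have h1 := ((hS p hp _ _ _ (hres k).1 (hset k) (hres k).2).2 ih).1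
      have h2 : ∀ z : V n, (T / 2 / L ^ k) • L⁻¹ • z = (T / 2 / L ^ (k + 1)) • z := by
        intro z
        rw [smul_smul]
        congr 1
        rw [pow_succ]
        field_simp
      have h3 : ∀ z : V n, L⁻¹ • (T / 2 / L ^ k) • z = (T / 2 / L ^ (k + 1)) • z := by
        intro z
        rw [smul_smul]
        congr 1
        rw [pow_succ]
        field_simp
      simp only [h2, h3] at h1
      exact h1
  have hstep : ∀ k : ℕ, 0 < ∫⁻ y in ball x (T / L ^ k), ‖g y‖ₑ ^ p ∧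
      (∫⁻ y in ball x (T / L ^ k), ‖g y‖ₑ ^ p) ^ (1 / p) ≤
      Cs * ENNReal.ofReal ((T / 2 / L ^ k) ^ (-(n : ℝ) * (1 - 1 / p))) *
        ∫⁻ y in ball x (T / L ^ (k + 2)), ‖g y‖ₑ := by
    intro k
    have h1 := ((hS p hp _ _ _ (hres k).1 (hset k) (hres k).2).2 (hgood k)).2
    have h2 := scales_conv hp1 g x (hρ k) _ Cs h1.1 h1.2
    have h3 : T / 2 / L ^ k * 2 = T / L ^ k := by ring
    have h4 : T / 2 / L ^ k * (2 / (1 + ε) ^ 8) = T / L ^ (k + 2) := by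
      rw [hL8, pow_add]
      field_simp
    rw [h3, h4] at h2
    exact h2
  have hIter : ∀ k : ℕ, ∫⁻ y in ball x (T / L ^ k), ‖g y‖ₑ ≤
      (2 ^ n * v * Cs) * ∫⁻ y in ball x (T / L ^ (k + 2)), ‖g y‖ₑ := by
    intro k
    have hm : AEStronglyMeasurable g (volume.restrict (ball x (T / 2 / L ^ k * 2))) := by
      have h1 : IntegrableOn g (closedBall x T) :=
        hsol.grad.2.1.integrableOn_compact_subset hball (isCompact_closedBall x T)
      have h2 : ball x (T / 2 / L ^ k * 2) ⊆ closedBall x T := by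
        intro y hy
        rw [mem_ball] at hy
        rw [mem_closedBall]
        have := hρT k
        linarith
      exact (h1.mono_set h2).aestronglyMeasurable
    have h1 := scales_hold hp1 g x (hρ k) hm
    have h3 : T / 2 / L ^ k * 2 = T / L ^ k := by ring
    rw [h3] at h1
    refine h1.trans ?_
    rw [← hve]
    calc _ ≤ (Cs * ENNReal.ofReal ((T / 2 / L ^ k) ^ (-(n : ℝ) * (1 - 1 / p))) *
          ∫⁻ y in ball x (T / L ^ (k + 2)), ‖g y‖ₑ) *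
          ENNReal.ofReal ((T / 2 / L ^ k) ^ ((n : ℝ) * (1 - 1 / p))) * (2 ^ n * v) :=
          mul_le_mul_left (mul_le_mul_left (hstep k).2 _) _
      _ = (ENNReal.ofReal ((T / 2 / L ^ k) ^ (-(n : ℝ) * (1 - 1 / p))) *
          ENNReal.ofReal ((T / 2 / L ^ k) ^ ((n : ℝ) * (1 - 1 / p)))) *
          ((2 ^ n * v * Cs) * ∫⁻ y in ball x (T / L ^ (k + 2)), ‖g y‖ₑ) := by ring
      _ = _ := by
          have h0 := hρ k
          rw [← ENNReal.ofReal_mul (by positivity), ← Real.rpow_add h0, neg_mul, neg_add_cancel,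
            Real.rpow_zero, ENNReal.ofReal_one, one_mul]
  have hIterj : ∀ i k : ℕ, ∫⁻ y in ball x (T / L ^ k), ‖g y‖ₑ ≤
      (2 ^ n * v * Cs) ^ i * ∫⁻ y in ball x (T / L ^ (k + 2 * i)), ‖g y‖ₑ := by
    intro i
    induction i with
    | zero =>
      intro k
      rw [pow_zero, one_mul, mul_zero, add_zero]
    | succ i ih =>
      intro k
      refine (hIter k).trans ((mul_le_mul_right (ih (k + 2)) _).trans (le_of_eq ?_))
      rw [← mul_assoc, ← pow_succ', show k + 2 + 2 * i = k + 2 * (i + 1) by ring]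
  obtain ⟨k, hk1, hk2⟩ := exists_nat_pow_near (x := T / (2 * r)) (y := L)
    (by rw [le_div_iff₀ (by positivity)]; linarith) hL1
  rw [le_div_iff₀ (by positivity)] at hk1
  rw [div_lt_iff₀ (by positivity)] at hk2
  have hLk : 0 < L ^ k := by positivity
  have h2r : 2 * r ≤ T / L ^ k := by
    rw [le_div_iff₀ hLk]
    linarith
  have hfin : T / L ^ (k + 2 + 2 * j) ≤ r := by
    rw [div_le_iff₀ (by positivity)]
    have h1 : L ^ (k + 2 + 2 * j) = L ^ (k + 1) * L ^ (2 * j + 1) := by ring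
    rw [h1]
    have h2 : 0 < L ^ (k + 1) := by positivity
    have h3 : L ^ (k + 1) * 2 ≤ L ^ (k + 1) * L ^ (2 * j + 1) :=
      mul_le_mul_of_nonneg_left hj h2.le
    nlinarith
  have hmain : (∫⁻ y in ball x (T / L ^ k), ‖g y‖ₑ ^ p) ^ (1 / p) ≤
      ((Cs * (2 ^ n * v * Cs) ^ j : ℝ≥0) : ℝ≥0∞) *
        ENNReal.ofReal (r ^ (-(n : ℝ) * (1 - 1 / p))) * ∫⁻ y in ball x r, ‖g y‖ₑ := by
    refine (hstep k).2.trans ?_
    have h1 := (hIterj j (k + 2)).trans (mul_le_mul_right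
      (lintegral_mono_set (ball_subset_ball hfin)) _)
    have h2 : (T / 2 / L ^ k) ^ (-(n : ℝ) * (1 - 1 / p)) ≤ r ^ (-(n : ℝ) * (1 - 1 / p)) := by
      apply Real.rpow_le_rpow_of_nonpos hr
      · have : T / 2 / L ^ k = T / L ^ k / 2 := by ring
        rw [this]
        linarith
      · have : 0 ≤ 1 - 1 / p := by
          rw [sub_nonneg, div_le_one hp0]
          exact hp1.le
        have h4 : (0 : ℝ) ≤ n := by positivity
        nlinarith
    calc _ ≤ Cs * ENNReal.ofReal (r ^ (-(n : ℝ) * (1 - 1 / p))) *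
          ((2 ^ n * v * Cs) ^ j * ∫⁻ y in ball x r, ‖g y‖ₑ) :=
          mul_le_mul' (mul_le_mul_right (ENNReal.ofReal_le_ofReal h2) _) h1
      _ = _ := by
          push_cast
          ring
  refine ⟨?_, ?_⟩
  · rw [pos_iff_ne_zero]
    intro h
    rw [h, mul_zero] at hmain
    have h1 := (ENNReal.rpow_pos_of_nonneg (hstep k).1 (by positivity : (0 : ℝ) ≤ 1 / p))
    exact absurd hmain (not_le.2 h1)
  · refine le_trans ?_ hmain
    exact ENNReal.rpow_le_rpow (lintegral_mono_set (ball_subset_ball h2r)) (by positivity)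

end Pool.Agent.Helper20.PN
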