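import Pool.Agent.Helper20.PN.Defs2
import Pool.Agent.Helper20.PN.CFB
import Pool.Agent.Helper20.PN.Scales

/-! PN-22: the local theorem. -/

open MeasureTheory Metric Set Filter
open scoped ENNReal NNReal ContDiff Topology Gradient

namespace Pool.Agent.Helper20.PN

private lemma local_pow {J : ℕ} (hJ : 1 ≤ J) : (1 + 1 / (12 * (J : ℝ))) ^ (8 * J) ≤ 2 := by
  have hJ' : (0 : ℝ) < J := by exact_mod_cast hJ
  have h1 : 1 + 1 / (12 * (J : ℝ)) ≤ Real.exp (1 / (12 * (J : ℝ))) := by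
    rw [add_comm]
    exact Real.add_one_le_exp _
  have h2 : (1 + 1 / (12 * (J : ℝ))) ^ (8 * J) ≤ Real.exp (1 / (12 * (J : ℝ))) ^ (8 * J) :=
    pow_le_pow_left₀ (by positivity) h1 _
  refine h2.trans ?_
  rw [← Real.exp_nat_mul]
  have e : ((8 * J : ℕ) : ℝ) * (1 / (12 * (J : ℝ))) = 2 / 3 := by
    push_cast
    field_simp
    norm_num
  rw [e]
  have h3 : (2 / 3 : ℝ) ≤ Real.log 2 := by
    have := Real.log_two_gt_d9
    linarith
  calc Real.exp (2 / 3) ≤ Real.exp (Real.log 2) := Real.exp_le_exp.2 h3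
    _ = 2 := Real.exp_log (by norm_num)

private lemma local_chain {I : ℕ → ℝ≥0∞} {J : ℕ} (hJ : 1 ≤ J) (h : I 0 ≤ 2 ^ J * I J) :
    ∃ j < J, I j ≤ 2 * I (j + 1) := by
  by_contra hc
  push Not at hc
  have h1 : ∀ j ≤ J, 2 ^ j * I j ≤ I 0 := by
    intro j
    induction j with
    | zero => intro _; simp
    | succ j ih =>
      intro hj
      refine le_trans ?_ (ih (by omega))
      rw [pow_succ, mul_assoc]
      exact mul_le_mul_right (hc j (by omega)).le _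
  obtain ⟨K, rfl⟩ : ∃ K, J = K + 1 := ⟨J - 1, by omega⟩
  have h2 := h1 K (by omega)
  have h3 := hc K (by omega)
  have h4 : 2 ^ (K + 1) * I (K + 1) < 2 ^ K * I K := by
    rw [pow_succ, mul_assoc]
    exact ENNReal.mul_lt_mul_right (by positivity) (by simp) h3
  exact absurd (h4.trans_le h2) (not_lt.2 h)

theorem local_thm (n : ℕ) (hn : 3 ≤ n) : ∃ c : ℝ, ∃ m : ℕ, 0 < c ∧ c ≤ 1 / 4 ∧
    ∀ J : ℕ, 1 ≤ J → ∃ q : ℝ, 1 < q ∧ ∃ CA : ℝ≥0, ∀ p : ℝ, |p - 2| ≤ c / (J : ℝ) ^ m →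
    ∀ (Ω : Set (V n)) (u : V n → ℝ) (g : V n → V n), IsOpen Ω → IsWeakSol p Ω u g →
    ∀ (x₀ : V n) (R : ℝ), 0 < R → closedBall x₀ (10 * (n + 2) * R) ⊆ Ω →
    0 < ∫⁻ x in ball x₀ (10 * (n + 2) * R), ‖g x‖ₑ ^ p →
    ∫⁻ x in ball x₀ (10 * (n + 2) * R), ‖g x‖ₑ ^ p ≤ 2 ^ J * ∫⁻ x in ball x₀ R, ‖g x‖ₑ ^ p →
    ∀ (y : V n) (r : ℝ), 0 < r → ball y r ⊆ ball x₀ R → 0 < ∫⁻ x in ball y r, ‖g x‖ₑ ∧
      (⨍⁻ x in ball y r, ‖g x‖ₑ ∂volume) *
        (⨍⁻ x in ball y r, ‖g x‖ₑ ^ (-(1 / (q - 1))) ∂volume) ^ (q - 1) ≤ CA := by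
  obtain ⟨c, m, hc0, hc4, hall⟩ := all_scales n hn
  have h12 : (1 : ℝ) ≤ 12 ^ m := one_le_pow₀ (by norm_num)
  refine ⟨c / 12 ^ m, m, by positivity, ?_, ?_⟩
  · exact (div_le_self hc0.le h12).trans hc4
  intro J hJ
  have hJ' : (1 : ℝ) ≤ J := by exact_mod_cast hJ
  have hJ0 : (0 : ℝ) < J := by linarith
  set ε : ℝ := 1 / (12 * (J : ℝ)) with hε
  have hε0 : 0 < ε := by positivity
  have hε8 : ε ≤ 1 / 8 := by
    rw [hε]
    apply one_div_le_one_div_of_le (by norm_num)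
    linarith
  obtain ⟨Cs, hCs⟩ := hall ε hε0 hε8
  obtain ⟨q, hq, CA, hCA⟩ := muckenhoupt n (by omega) Cs
  refine ⟨q, hq, CA, ?_⟩
  intro p hp Ω u g hΩ hsol x₀ R hR hball hpos hdoub y r hr hy
  have hpe : |p - 2| ≤ c * ε ^ m := by
    refine hp.trans (le_of_eq ?_)
    rw [hε, one_div, inv_pow, mul_pow]
    field_simp
  have hp4 : |p - 2| ≤ 1 / 4 := by
    refine hpe.trans ?_
    have : ε ^ m ≤ 1 := pow_le_one₀ hε0.le (by linarith)
    nlinarith
  obtain ⟨hp1, hp2⟩ := abs_le.1 hp4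
  have hn0 : (0 : ℝ) ≤ n := Nat.cast_nonneg n
  have hnR : 0 ≤ (n : ℝ) * R := by positivity
  set w : V n → ℝ≥0∞ := fun x => ‖g x‖ₑ with hw
  have hcomp : IsCompact (closedBall x₀ (10 * (n + 2) * R)) := isCompact_closedBall _ _
  have hfin := hsol.loc_g _ hball hcomp
  -- measurability
  have hmeas : AEMeasurable w (volume.restrict (ball x₀ (5 * (n + 2) * R))) := by
    have h1 : IntegrableOn g (closedBall x₀ (10 * (n + 2) * R)) :=
      hsol.grad.2.1.integrableOn_compact_subset hball hcomp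
    have h2 : IntegrableOn g (ball x₀ (5 * (n + 2) * R)) :=
      h1.mono_set (ball_subset_closedBall.trans (closedBall_subset_closedBall (by nlinarith)))
    exact h2.aestronglyMeasurable.enorm
  have hfin5 : ∫⁻ x in ball x₀ (5 * (n + 2) * R), w x ^ p < ⊤ := by
    refine lt_of_le_of_lt (lintegral_mono_set ?_) hfin
    exact ball_subset_closedBall.trans (closedBall_subset_closedBall (by nlinarith))
  have hR0 : 0 < ∫⁻ x in ball x₀ R, ‖g x‖ₑ ^ p := by
    rw [pos_iff_ne_zero]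
    intro h0
    rw [h0, mul_zero] at hdoub
    exact absurd (lt_of_lt_of_le hpos hdoub) (lt_irrefl _)
  suffices hkey : ∀ x : V n, dist x x₀ ≤ (n + 1) * R → ∀ r : ℝ, 0 < r →
      r ≤ 2 * (n + 2) * R → 0 < ∫⁻ y in ball x r, w y ∧
      (∫⁻ y in ball x (2 * r), w y ^ p) ^ (1 / p) ≤
        Cs * ENNReal.ofReal (r ^ (-(n : ℝ) * (1 - 1 / p))) * ∫⁻ y in ball x r, w y by
    refine ⟨?_, hCA p (by linarith) (by linarith) w x₀ R hR hmeas hfin5 hkey y r hr hy⟩
    have hyR : dist y x₀ < R := hy (mem_ball_self hr)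
    have h1 := (hkey y (by nlinarith) (min r (2 * (n + 2) * R)) (lt_min hr (by positivity))
      (min_le_right _ _)).1
    exact lt_of_lt_of_le h1 (lintegral_mono_set (ball_subset_ball (min_le_left _ _)))
  intro x hx s hs hs2
  set T : ℕ → ℝ := fun j => 8 * (n + 2) * R / (1 + ε) ^ (8 * j) with hT
  have hpow1 : ∀ j, 1 ≤ (1 + ε) ^ (8 * j) := fun j => one_le_pow₀ (by linarith)
  have hTpos : ∀ j, 0 < T j := fun j => by
    simp only [hT]
    have := hpow1 j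
    positivity
  have hTle : ∀ j, T j ≤ 8 * (n + 2) * R := fun j => by
    simp only [hT]
    exact div_le_self (by positivity) (hpow1 j)
  have hTge : ∀ j ≤ J, 4 * (n + 2) * R ≤ T j := by
    intro j hj
    have h1 : (1 + ε) ^ (8 * j) ≤ 2 := by
      refine le_trans (pow_le_pow_right₀ (by linarith) (by omega : 8 * j ≤ 8 * J)) ?_
      exact local_pow hJ
    simp only [hT]
    rw [le_div_iff₀ (by have := hpow1 j; linarith)]
    have h2 : 0 < 4 * ((n : ℝ) + 2) * R := by positivity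
    nlinarith
  have hsub : ∀ j, closedBall x (T j) ⊆ closedBall x₀ (10 * (n + 2) * R) := by
    intro j
    apply closedBall_subset_closedBall'
    have := hTle j
    nlinarith
  have hsub2 : ∀ j ≤ J, ball x₀ R ⊆ ball x (T j) := by
    intro j hj
    apply ball_subset_ball'
    have := hTge j hj
    rw [dist_comm]
    nlinarith
  set I : ℕ → ℝ≥0∞ := fun j => ∫⁻ z in ball x (T j), ‖g z‖ₑ ^ p with hI
  have hI0 : I 0 ≤ 2 ^ J * I J := by
    have h1 : I 0 ≤ ∫⁻ z in ball x₀ (10 * (n + 2) * R), ‖g z‖ₑ ^ p := by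
      refine lintegral_mono_set ?_
      apply ball_subset_ball'
      have := hTle 0
      nlinarith
    refine h1.trans (hdoub.trans ?_)
    exact mul_le_mul_right (lintegral_mono_set (hsub2 J le_rfl)) _
  obtain ⟨j, hj, hj2⟩ := local_chain hJ hI0
  have eT : T j / (1 + ε) ^ 8 = T (j + 1) := by
    simp only [hT]
    rw [div_div, ← pow_add]
    ring_nf
  refine hCs p hpe Ω u g hΩ hsol x (T j) (hTpos j) ((hsub j).trans hball) ?_ ?_ s hs ?_
  · exact lt_of_lt_of_le hR0 (lintegral_mono_set (hsub2 j hj.le))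
  · rw [eT]
    exact hj2
  · have := hTge j hj.le
    nlinarith

end Pool.Agent.Helper20.PN
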