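import Pool.Agent.Helper20.PN.Defs2
import Pool.Agent.Helper20.PN.Cacc
import Pool.Agent.Helper20.PN.Local
import Pool.Agent.Helper20.PN.Resc

/-! # Entire solutions of polynomial growth -/

open MeasureTheory Metric Set Filter
open scoped ENNReal NNReal ContDiff Topology

namespace Pool.Agent.Helper20.PN

/-- Change of variables: translation. -/
theorem entire_translate {n : ℕ} (y : V n) (ρ : ℝ) (f : V n → ℝ≥0∞) :
    ∫⁻ x in ball (0 : V n) ρ, f (y + x) = ∫⁻ x in ball y ρ, f x := by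
  have h := (measurePreserving_add_left (volume : Measure (V n)) y).setLIntegral_comp_preimage_emb
    (measurableEmbedding_addLeft y) f (ball y ρ)
  have e : (fun x : V n => y + x) ⁻¹' ball y ρ = ball 0 ρ := by
    ext x
    simp [mem_ball, dist_eq_norm]
  rw [e] at h
  exact h

/-- The energy on a ball of radius `ρ` centred at `y`. -/
theorem entire_energy (n : ℕ) : ∃ C₁ : ℝ, 1 ≤ C₁ ∧ ∀ (p : ℝ), 1 < p → p ≤ 3 →
    ∀ (u : V n → ℝ) (g : V n → V n), IsWeakSol p univ u g → ∀ (y : V n) (ρ : ℝ), 0 < ρ →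
      ∫⁻ x in ball y ρ, ‖g x‖ₑ ^ p ≤
        ENNReal.ofReal ((C₁ / ρ) ^ p) * ∫⁻ x in ball y (2 * ρ), ‖u x‖ₑ ^ p := by
  obtain ⟨C₁, hC₁, hcac⟩ := caccioppoli n
  refine ⟨C₁, hC₁, ?_⟩
  intro p hp1 hp3 u g hs y ρ hρ
  have hr := (rescale hp1 isOpen_univ hs y one_pos 1)
  have hu : {z : V n | y + (1 : ℝ) • z ∈ (univ : Set (V n))} = univ := by
    ext z
    simp
  rw [hu] at hr
  have h := hcac p hp1 hp3 univ _ _ hr.1 hr.2 ρ (2 * ρ) 0 hρ (by linarith) (subset_univ _)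
  simp only [one_mul, one_smul, sub_zero] at h
  rw [show 2 * ρ - ρ = ρ by ring] at h
  rw [entire_translate y ρ (fun x => ‖g x‖ₑ ^ p),
    entire_translate y (2 * ρ) (fun x => ‖u x‖ₑ ^ p)] at h
  exact h

/-- The growth of the energy. -/
theorem entire_growth {n : ℕ} {p d C C₁ : ℝ} (hp1 : 1 < p) (hp3 : p ≤ 3) (hd : 0 ≤ d)
    (hC : 0 ≤ C) (hC₁ : 1 ≤ C₁) {u : V n → ℝ} {g : V n → V n} {y : V n} {ρ : ℝ}
    (hρ : 1 ≤ ρ) (hy : 1 + ‖y‖ ≤ 2 * ρ) (hu : ∀ᵐ x, |u x| ≤ C * (1 + ‖x‖) ^ d)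
    (hen : ∫⁻ x in ball y ρ, ‖g x‖ₑ ^ p ≤
        ENNReal.ofReal ((C₁ / ρ) ^ p) * ∫⁻ x in ball y (2 * ρ), ‖u x‖ₑ ^ p) :
    ∫⁻ x in ball y ρ, ‖g x‖ₑ ^ p < ⊤ ∧ (∫⁻ x in ball y ρ, ‖g x‖ₑ ^ p).toReal ≤
      (C₁ ^ 3 * (1 + C) ^ 3 * 4 ^ (3 * d) * 2 ^ n * (volume (ball (0 : V n) 1)).toReal) *
        ρ ^ ((n : ℝ) + 3 * d) := by
  have hρ0 : 0 < ρ := by linarith
  set B : ℝ := C * (4 * ρ) ^ d with hB
  have hB0 : 0 ≤ B := by positivity
  have h4 : 1 ≤ 4 * ρ := by linarith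
  have hub : ∀ᵐ x ∂(volume.restrict (ball y (2 * ρ))), ‖u x‖ₑ ^ p ≤ ENNReal.ofReal (B ^ p) := by
    have h1 : ∀ᵐ x ∂(volume.restrict (ball y (2 * ρ))), x ∈ ball y (2 * ρ) :=
      ae_restrict_mem measurableSet_ball
    filter_upwards [h1, ae_restrict_of_ae hu] with x hx hux
    have hx1 : 1 + ‖x‖ ≤ 4 * ρ := by
      rw [mem_ball, dist_eq_norm] at hx
      have : ‖x‖ ≤ ‖x - y‖ + ‖y‖ := by
        simpa using norm_add_le (x - y) y
      linarith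
    have h2 : |u x| ≤ B := by
      refine le_trans hux ?_
      apply mul_le_mul_of_nonneg_left _ hC
      exact Real.rpow_le_rpow (by positivity) hx1 hd
    rw [← ENNReal.ofReal_rpow_of_nonneg hB0 (by linarith)]
    apply ENNReal.rpow_le_rpow _ (by linarith)
    rw [← ofReal_norm, Real.norm_eq_abs]
    exact ENNReal.ofReal_le_ofReal h2
  have hint : ∫⁻ x in ball y (2 * ρ), ‖u x‖ₑ ^ p ≤
      ENNReal.ofReal (B ^ p) * volume (ball y (2 * ρ)) := by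
    calc ∫⁻ x in ball y (2 * ρ), ‖u x‖ₑ ^ p
        ≤ ∫⁻ x in ball y (2 * ρ), ENNReal.ofReal (B ^ p) := lintegral_mono_ae hub
      _ = _ := by rw [setLIntegral_const]
  have hvol : volume (ball y (2 * ρ)) =
      ENNReal.ofReal ((2 * ρ) ^ n) * volume (ball (0 : V n) 1) := by
    rw [Measure.addHaar_ball_of_pos volume y (by positivity)]
    simp
  have hv1 : volume (ball (0 : V n) 1) < ⊤ := measure_ball_lt_top
  set om : ℝ := (volume (ball (0 : V n) 1)).toReal with hom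
  have hom0 : 0 ≤ om := ENNReal.toReal_nonneg
  have hvo : volume (ball (0 : V n) 1) = ENNReal.ofReal om := by
    rw [hom, ENNReal.ofReal_toReal hv1.ne]
  have htot : ∫⁻ x in ball y ρ, ‖g x‖ₑ ^ p ≤
      ENNReal.ofReal ((C₁ / ρ) ^ p * (B ^ p * ((2 * ρ) ^ n * om))) := by
    refine le_trans hen ?_
    refine le_trans (by gcongr : _ ≤ ENNReal.ofReal ((C₁ / ρ) ^ p) * (ENNReal.ofReal (B ^ p) * volume (ball y (2 * ρ)))) ?_
    rw [hvol, hvo]
    rw [ENNReal.ofReal_mul (by positivity), ENNReal.ofReal_mul (by positivity),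
      ENNReal.ofReal_mul (by positivity)]
  have hreal : (C₁ / ρ) ^ p * (B ^ p * ((2 * ρ) ^ n * om)) ≤
      (C₁ ^ 3 * (1 + C) ^ 3 * 4 ^ (3 * d) * 2 ^ n * om) * ρ ^ ((n : ℝ) + 3 * d) := by
    have e1 : (C₁ / ρ) ^ p ≤ C₁ ^ 3 := by
      have h1 : C₁ / ρ ≤ C₁ := div_le_self (by linarith) hρ
      calc (C₁ / ρ) ^ p ≤ C₁ ^ p := Real.rpow_le_rpow (by positivity) h1 (by linarith)
        _ ≤ C₁ ^ (3 : ℝ) := Real.rpow_le_rpow_of_exponent_le hC₁ hp3
        _ = C₁ ^ 3 := by norm_cast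
    have e2 : B ^ p ≤ (1 + C) ^ 3 * (4 ^ (3 * d) * ρ ^ (3 * d)) := by
      have h1 : B ≤ (1 + C) * (4 * ρ) ^ d :=
        mul_le_mul_of_nonneg_right (by linarith) (by positivity)
      calc B ^ p ≤ ((1 + C) * (4 * ρ) ^ d) ^ p := Real.rpow_le_rpow hB0 h1 (by linarith)
        _ = (1 + C) ^ p * ((4 * ρ) ^ d) ^ p := Real.mul_rpow (by positivity) (by positivity)
        _ ≤ (1 + C) ^ (3 : ℝ) * ((4 * ρ) ^ d) ^ (3 : ℝ) := by
            apply mul_le_mul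
            · exact Real.rpow_le_rpow_of_exponent_le (by linarith) hp3
            · exact Real.rpow_le_rpow_of_exponent_le (Real.one_le_rpow h4 hd) hp3
            · positivity
            · positivity
        _ = (1 + C) ^ 3 * (4 ^ (3 * d) * ρ ^ (3 * d)) := by
            rw [← Real.rpow_mul (by positivity), Real.mul_rpow (by norm_num) hρ0.le]
            rw [show d * (3 : ℝ) = 3 * d by ring]
            norm_cast
    have e3 : ρ ^ ((n : ℝ) + 3 * d) = ρ ^ n * ρ ^ (3 * d) := by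
      rw [Real.rpow_add hρ0, Real.rpow_natCast]
    calc (C₁ / ρ) ^ p * (B ^ p * ((2 * ρ) ^ n * om))
        ≤ C₁ ^ 3 * ((1 + C) ^ 3 * (4 ^ (3 * d) * ρ ^ (3 * d)) * ((2 * ρ) ^ n * om)) := by
          apply mul_le_mul e1 _ (by positivity) (by positivity)
          exact mul_le_mul_of_nonneg_right e2 (by positivity)
      _ = _ := by
          rw [e3, mul_pow]
          ring
  refine ⟨lt_of_le_of_lt htot ENNReal.ofReal_lt_top, ?_⟩
  have h5 := ENNReal.toReal_mono ENNReal.ofReal_ne_top htot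
  rw [ENNReal.toReal_ofReal (by positivity)] at h5
  exact le_trans h5 hreal

/-- The doubling scales. -/
theorem entire_scale {a : ℕ → ℝ} {Λ E Q C₂ : ℝ} {k₀ k₁ : ℕ} (hΛ : 1 < Λ) (hE : 0 < E)
    (hQ : E * Λ ≤ Q) (hmono : Monotone a) (h0 : 0 < a k₀)
    (hgr : ∀ k, k₁ ≤ k → a k ≤ C₂ * E ^ k) (k₂ : ℕ) :
    ∃ k, k₂ ≤ k ∧ 0 < a k ∧ a (k + 1) ≤ Q * a k := by
  by_contra hcon
  push Not at hcon
  set K : ℕ := max (max k₀ k₁) k₂ with hK
  have hKk₂ : k₂ ≤ K := le_max_right _ _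
  have hKk₁ : k₁ ≤ K := le_trans (le_max_right _ _) (le_max_left _ _)
  have hKk₀ : k₀ ≤ K := le_trans (le_max_left _ _) (le_max_left _ _)
  have hpos : ∀ k, K ≤ k → 0 < a k := fun k hk => lt_of_lt_of_le h0 (hmono (le_trans hKk₀ hk))
  have hQ0 : 0 < Q := lt_of_lt_of_le (by positivity) hQ
  have hstep : ∀ j : ℕ, Q ^ j * a K ≤ a (K + j) := by
    intro j
    induction j with
    | zero => simp
    | succ j ih =>
      have h1 := hcon (K + j) (by omega) (hpos _ (by omega))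
      rw [pow_succ, ← add_assoc]
      calc Q ^ j * Q * a K = Q * (Q ^ j * a K) := by ring
        _ ≤ Q * a (K + j) := mul_le_mul_of_nonneg_left ih hQ0.le
        _ ≤ a (K + j + 1) := h1.le
  have hbd : ∀ j : ℕ, Λ ^ j * a K ≤ C₂ * E ^ K := by
    intro j
    have h1 : (E * Λ) ^ j * a K ≤ C₂ * E ^ (K + j) :=
      calc (E * Λ) ^ j * a K ≤ Q ^ j * a K :=
            mul_le_mul_of_nonneg_right (pow_le_pow_left₀ (by positivity) hQ j)
              (hpos K le_rfl).le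
        _ ≤ a (K + j) := hstep j
        _ ≤ C₂ * E ^ (K + j) := hgr _ (by omega)
    rw [mul_pow, pow_add] at h1
    have hEj : 0 < E ^ j := by positivity
    have h2 : E ^ j * (Λ ^ j * a K) ≤ E ^ j * (C₂ * E ^ K) := by
      calc E ^ j * (Λ ^ j * a K) = E ^ j * Λ ^ j * a K := by ring
        _ ≤ C₂ * (E ^ K * E ^ j) := h1
        _ = E ^ j * (C₂ * E ^ K) := by ring
    exact le_of_mul_le_mul_left h2 hEj
  obtain ⟨j, hj⟩ := pow_unbounded_of_one_lt (C₂ * E ^ K / a K) hΛ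
  rw [div_lt_iff₀ (hpos K le_rfl)] at hj
  linarith [hbd j]

/-- The choice of the number of doublings. -/
theorem entire_J (n : ℕ) {Λ : ℝ} (hΛ : 2 ≤ Λ) : ∃ K₀ : ℝ, 1 ≤ K₀ ∧ ∀ d : ℝ, 0 ≤ d →
    ∃ J : ℕ, 1 ≤ J ∧ (J : ℝ) ≤ K₀ * (1 + d) ∧
      Λ ^ ((n : ℝ) + 3 * d) * Λ ≤ 2 ^ J := by
  have hl2 : 0 < Real.log 2 := Real.log_pos (by norm_num)
  have hlΛ : 0 < Real.log Λ := Real.log_pos (by linarith)
  set b : ℝ := Real.log Λ / Real.log 2 with hb
  have hb0 : 0 < b := div_pos hlΛ hl2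
  refine ⟨(n + 4) * b + 1, by nlinarith [hb0, (Nat.cast_nonneg n : (0 : ℝ) ≤ n)], ?_⟩
  intro d hd
  refine ⟨⌈((n : ℝ) + 3 * d + 1) * b⌉₊, ?_, ?_, ?_⟩
  · rw [Nat.one_le_iff_ne_zero, Nat.ne_zero_iff_zero_lt, Nat.ceil_pos]
    positivity
  · have h1 := Nat.ceil_lt_add_one (a := ((n : ℝ) + 3 * d + 1) * b) (by positivity)
    refine le_trans h1.le ?_
    have hn : (0 : ℝ) ≤ n := Nat.cast_nonneg n
    have h2 : ((n : ℝ) + 3 * d + 1) ≤ (n + 4) * (1 + d) := by nlinarith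
    have h3 : ((n : ℝ) + 3 * d + 1) * b ≤ (n + 4) * (1 + d) * b :=
      mul_le_mul_of_nonneg_right h2 hb0.le
    nlinarith
  · have h1 := Nat.le_ceil (((n : ℝ) + 3 * d + 1) * b)
    have hΛ0 : 0 < Λ := by linarith
    have h2 : Λ ^ ((n : ℝ) + 3 * d) * Λ = Λ ^ ((n : ℝ) + 3 * d + 1) := by
      rw [Real.rpow_add_one hΛ0.ne']
    rw [h2, ← Real.rpow_natCast 2]
    have h3 : Λ = 2 ^ b := by
      rw [hb, Real.rpow_def_of_pos (by norm_num)]
      rw [mul_div_cancel₀ _ hl2.ne', Real.exp_log hΛ0]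
    calc Λ ^ ((n : ℝ) + 3 * d + 1) = (2 ^ b) ^ ((n : ℝ) + 3 * d + 1) := by rw [← h3]
      _ = 2 ^ (b * ((n : ℝ) + 3 * d + 1)) := by rw [← Real.rpow_mul (by norm_num)]
      _ ≤ 2 ^ ((⌈((n : ℝ) + 3 * d + 1) * b⌉₊ : ℕ) : ℝ) := by
          apply Real.rpow_le_rpow_of_exponent_le (by norm_num)
          rw [mul_comm]
          exact h1

/-- Entire solutions of polynomial growth. -/
theorem entire_thm (n : ℕ) (hn : 3 ≤ n) : ∃ c : ℝ, ∃ m : ℕ, 0 < c ∧ ∀ d : ℝ, 0 ≤ d →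
    ∃ q : ℝ, 1 < q ∧ ∃ CA : ℝ≥0, ∀ p : ℝ, |p - 2| ≤ c / (1 + d) ^ m →
    ∀ (u : V n → ℝ) (g : V n → V n), IsWeakSol p univ u g →
    (∃ C : ℝ, ∀ᵐ x, |u x| ≤ C * (1 + ‖x‖) ^ d) → ¬ (∀ᵐ x, g x = 0) →
    ∀ (y : V n) (r : ℝ), 0 < r → 0 < ∫⁻ x in ball y r, ‖g x‖ₑ ∧
      (⨍⁻ x in ball y r, ‖g x‖ₑ ∂volume) *
        (⨍⁻ x in ball y r, ‖g x‖ₑ ^ (-(1 / (q - 1))) ∂volume) ^ (q - 1) ≤ CA := by
  obtain ⟨c, m, hc0, hc4, hloc⟩ := local_thm n hn
  obtain ⟨C₁, hC₁, hen⟩ := entire_energy n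
  set Λ : ℝ := 10 * (n + 2) with hΛ
  have hn0 : (0 : ℝ) ≤ n := Nat.cast_nonneg n
  have hΛ2 : 2 ≤ Λ := by rw [hΛ]; linarith
  obtain ⟨K₀, hK₀, hJ⟩ := entire_J n hΛ2
  refine ⟨c / K₀ ^ m, m, by positivity, ?_⟩
  intro d hd
  obtain ⟨J, hJ1, hJK, hJΛ⟩ := hJ d hd
  obtain ⟨q, hq, CA, hq2⟩ := hloc J hJ1
  refine ⟨q, hq, CA, ?_⟩
  intro p hp u g hs hgrowth hg0 y r hr
  have hJpos : (0 : ℝ) < J := by exact_mod_cast hJ1
  have hpJ : |p - 2| ≤ c / (J : ℝ) ^ m := by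
    refine le_trans hp ?_
    rw [div_div, ← mul_pow]
    apply div_le_div_of_nonneg_left hc0.le (by positivity)
    exact pow_le_pow_left₀ hJpos.le hJK m
  have hp4 : |p - 2| ≤ 1 / 4 := by
    refine le_trans hpJ (le_trans ?_ hc4)
    apply div_le_self hc0.le
    exact one_le_pow₀ (by exact_mod_cast hJ1)
  have hp1 : 1 < p := by
    have := (abs_le.1 hp4).1
    linarith
  have hp3 : p ≤ 3 := by
    have := (abs_le.1 hp4).2
    linarith
  obtain ⟨C, hC⟩ := hgrowth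
  have hC' : ∀ᵐ x, |u x| ≤ |C| * (1 + ‖x‖) ^ d := by
    filter_upwards [hC] with x hx
    refine le_trans hx ?_
    apply mul_le_mul_of_nonneg_right (le_abs_self C) (by positivity)
  set D : ℕ → ℝ≥0∞ := fun k => ∫⁻ x in ball y (Λ ^ k), ‖g x‖ₑ ^ p with hD
  have hΛ1 : 1 < Λ := by linarith
  have hΛ0 : 0 < Λ := by linarith
  obtain ⟨k₁, hk₁⟩ := pow_unbounded_of_one_lt (1 + ‖y‖) hΛ1
  have hρ1 : ∀ k : ℕ, 1 ≤ Λ ^ k := fun k => one_le_pow₀ hΛ1.le
  have hDfin : ∀ k, D k < ⊤ := by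
    intro k
    have h1 := hs.loc_g (closedBall y (Λ ^ k)) (subset_univ _) (isCompact_closedBall _ _)
    refine lt_of_le_of_lt ?_ h1
    exact lintegral_mono_set ball_subset_closedBall
  have hDmono : Monotone D := by
    intro k k' hkk'
    apply lintegral_mono_set
    exact ball_subset_ball (pow_le_pow_right₀ hΛ1.le hkk')
  set a : ℕ → ℝ := fun k => (D k).toReal with ha
  have hamono : Monotone a := fun k k' hkk' =>
    ENNReal.toReal_mono (hDfin k').ne (hDmono hkk')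
  have hgm : AEStronglyMeasurable g volume := by
    have := hs.grad.2.1
    rw [locallyIntegrableOn_univ] at this
    exact this.aestronglyMeasurable
  have hex : ∃ k₀, 0 < a k₀ := by
    by_contra hcon
    push Not at hcon
    apply hg0
    have hzero : ∀ k, ∀ᵐ x ∂(volume.restrict (ball y (Λ ^ k))), g x = 0 := by
      intro k
      have h1 : D k = 0 := by
        have h2 := le_antisymm (hcon k) ENNReal.toReal_nonneg
        rcases (ENNReal.toReal_eq_zero_iff _).1 h2 with h3 | h3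
        · exact h3
        · exact absurd h3 (hDfin k).ne
      have h2 : AEMeasurable (fun x => ‖g x‖ₑ ^ p) (volume.restrict (ball y (Λ ^ k))) :=
        (hgm.enorm.pow_const p).restrict
      have h3 := (lintegral_eq_zero_iff' h2).1 h1
      filter_upwards [h3] with x hx
      simp only [Pi.zero_apply] at hx
      rw [ENNReal.rpow_eq_zero_iff] at hx
      rcases hx with hx | hx
      · simpa using hx.1
      · linarith [hx.2]
    have hU : (⋃ k : ℕ, ball y (Λ ^ k)) = univ := by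
      rw [eq_univ_iff_forall]
      intro x
      obtain ⟨k, hk⟩ := pow_unbounded_of_one_lt (dist x y) hΛ1
      exact mem_iUnion.2 ⟨k, hk⟩
    have h4 : ∀ᵐ x ∂(volume.restrict (⋃ k : ℕ, ball y (Λ ^ k))), g x = 0 := by
      rw [ae_restrict_iUnion_iff]
      exact hzero
    rw [hU, Measure.restrict_univ] at h4
    exact h4
  obtain ⟨k₀, hk₀⟩ := hex
  set C₂ : ℝ := C₁ ^ 3 * (1 + |C|) ^ 3 * 4 ^ (3 * d) * 2 ^ n *
    (volume (ball (0 : V n) 1)).toReal with hC₂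
  set E : ℝ := Λ ^ ((n : ℝ) + 3 * d) with hE
  have hgr : ∀ k, k₁ ≤ k → a k ≤ C₂ * E ^ k := by
    intro k hk
    have h1 : 1 + ‖y‖ ≤ 2 * Λ ^ k := by
      have h2 : Λ ^ k₁ ≤ Λ ^ k := pow_le_pow_right₀ hΛ1.le hk
      have h3 := hρ1 k
      linarith
    have h2 := (entire_growth hp1 hp3 hd (abs_nonneg C) hC₁ (hρ1 k) h1 hC'
      (hen p hp1 hp3 u g hs y (Λ ^ k) (by positivity))).2
    have h3 : (Λ ^ k) ^ ((n : ℝ) + 3 * d) = E ^ k := by
      rw [hE, ← Real.rpow_natCast Λ k, ← Real.rpow_mul hΛ0.le, mul_comm,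
        Real.rpow_mul hΛ0.le, Real.rpow_natCast]
    rw [h3] at h2
    exact h2
  obtain ⟨k₂, hk₂⟩ := pow_unbounded_of_one_lt r hΛ1
  obtain ⟨k, hk, hapos, hak⟩ := entire_scale (a := a) (E := E) (Q := 2 ^ J) (C₂ := C₂)
    (k₀ := k₀) (k₁ := k₁) hΛ1 (by positivity) hJΛ hamono hk₀ hgr k₂
  have hrk : r < Λ ^ k := lt_of_lt_of_le hk₂ (pow_le_pow_right₀ hΛ1.le hk)
  have hradius : (10 * (n + 2) * Λ ^ k : ℝ) = Λ ^ (k + 1) := by
    rw [pow_succ, hΛ]
    ring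
  have hDk : 0 < D k := by
    rw [pos_iff_ne_zero]
    intro h0
    rw [ha] at hapos
    simp only [h0, ENNReal.toReal_zero, lt_self_iff_false] at hapos
  have hDk1 : D (k + 1) ≤ 2 ^ J * D k := by
    have h1 : (2 ^ J * D k).toReal = 2 ^ J * a k := by
      rw [ENNReal.toReal_mul]
      simp [ha]
    rw [← ENNReal.toReal_le_toReal (hDfin _).ne
      (ENNReal.mul_ne_top (by simp) (hDfin k).ne), h1]
    exact hak
  apply hq2 p hpJ univ u g isOpen_univ hs y (Λ ^ k) (by positivity) (subset_univ _)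
  · rw [hradius]
    exact lt_of_lt_of_le hDk (hDmono (Nat.le_succ k))
  · rw [hradius]
    exact hDk1
  · exact hr
  · exact ball_subset_ball hrk.le

end Pool.Agent.Helper20.PN
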