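import Pool.Agent.Helper20.PN.Defs2
import Pool.Agent.Helper20.PN.Entire
import Pool.Agent.Helper20.PN.Local

/-! The final form of the two theorems: the gradient does not vanish, and its modulus is a
Muckenhoupt weight. -/

open MeasureTheory Metric Set Filter
open scoped ENNReal NNReal

namespace Pool.Agent.Helper20.PN

/-- A finite Muckenhoupt constant and a positive integral force that the weight does not
vanish. -/
theorem final_ne_zero {n : ℕ} {g : V n → V n} {y : V n} {r q : ℝ} {CA : ℝ≥0} (hr : 0 < r)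
    (hq : 1 < q) (hg : AEStronglyMeasurable g (volume.restrict (ball y r)))
    (hpos : 0 < ∫⁻ x in ball y r, ‖g x‖ₑ)
    (hA : (⨍⁻ x in ball y r, ‖g x‖ₑ ∂volume) *
        (⨍⁻ x in ball y r, ‖g x‖ₑ ^ (-(1 / (q - 1))) ∂volume) ^ (q - 1) ≤ CA) :
    ∀ᵐ x ∂(volume.restrict (ball y r)), g x ≠ 0 := by
  have hv0 : volume (ball y r) ≠ 0 := (measure_ball_pos volume y hr).ne'
  have hvt : volume (ball y r) ≠ ⊤ := measure_ball_lt_top.ne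
  have hq1 : 0 < q - 1 := by linarith
  have h1 : (⨍⁻ x in ball y r, ‖g x‖ₑ ∂volume) ≠ 0 := by
    rw [setLAverage_eq]
    exact ENNReal.div_ne_zero.2 ⟨hpos.ne', hvt⟩
  have h2 : (⨍⁻ x in ball y r, ‖g x‖ₑ ^ (-(1 / (q - 1))) ∂volume) ≠ ⊤ := by
    intro ht
    rw [ht, ENNReal.top_rpow_of_pos hq1, ENNReal.mul_top h1] at hA
    exact absurd (lt_of_le_of_lt hA ENNReal.coe_lt_top) (lt_irrefl _)
  have h3 : (∫⁻ x in ball y r, ‖g x‖ₑ ^ (-(1 / (q - 1)))) ≠ ⊤ := by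
    intro ht
    apply h2
    rw [setLAverage_eq, ht]
    exact ENNReal.top_div_of_ne_top hvt
  have h4 := ae_lt_top' (hg.enorm.pow_const (-(1 / (q - 1)))) h3
  filter_upwards [h4] with x hx hx0
  rw [hx0, enorm_zero, ENNReal.zero_rpow_of_neg (by
    have : 0 < 1 / (q - 1) := by positivity
    linarith)] at hx
  exact absurd hx (lt_irrefl _)

/-- The local theorem. -/
theorem final_local (n : ℕ) (hn : 3 ≤ n) : ∃ c : ℝ, ∃ m : ℕ, 0 < c ∧ ∀ J : ℕ, 1 ≤ J →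
    ∃ q : ℝ, 1 < q ∧ ∃ CA : ℝ≥0, ∀ p : ℝ, |p - 2| ≤ c / (J : ℝ) ^ m →
    ∀ (Ω : Set (V n)) (u : V n → ℝ) (g : V n → V n), IsOpen Ω → IsWeakSol p Ω u g →
    ∀ (x₀ : V n) (R : ℝ), 0 < R → closedBall x₀ (10 * (n + 2) * R) ⊆ Ω →
    0 < ∫⁻ x in ball x₀ (10 * (n + 2) * R), ‖g x‖ₑ ^ p →
    ∫⁻ x in ball x₀ (10 * (n + 2) * R), ‖g x‖ₑ ^ p ≤ 2 ^ J * ∫⁻ x in ball x₀ R, ‖g x‖ₑ ^ p →
    (∀ᵐ x ∂(volume.restrict (ball x₀ R)), g x ≠ 0) ∧
    ∀ (y : V n) (r : ℝ), 0 < r → ball y r ⊆ ball x₀ R →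
      (⨍⁻ x in ball y r, ‖g x‖ₑ ∂volume) *
        (⨍⁻ x in ball y r, ‖g x‖ₑ ^ (-(1 / (q - 1))) ∂volume) ^ (q - 1) ≤ CA := by
  obtain ⟨c, m, hc, -, h⟩ := local_thm n hn
  refine ⟨c, m, hc, fun J hJ => ?_⟩
  obtain ⟨q, hq, CA, h2⟩ := h J hJ
  refine ⟨q, hq, CA, ?_⟩
  intro p hp Ω u g hΩ hs x₀ R hR hB hpos hdoub
  have h3 := h2 p hp Ω u g hΩ hs x₀ R hR hB hpos hdoub
  refine ⟨?_, fun y r hr hy => (h3 y r hr hy).2⟩
  have h4 := h3 x₀ R hR Subset.rfl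
  have h5 : IntegrableOn g (closedBall x₀ (10 * (n + 2) * R)) :=
    hs.grad.2.1.integrableOn_compact_subset hB (isCompact_closedBall _ _)
  have hn0 : (0 : ℝ) ≤ n := Nat.cast_nonneg n
  have hnR : 0 ≤ (n : ℝ) * R := by positivity
  have h6 : IntegrableOn g (ball x₀ R) :=
    h5.mono_set (ball_subset_closedBall.trans (closedBall_subset_closedBall (by nlinarith)))
  exact final_ne_zero hR hq h6.aestronglyMeasurable h4.1 h4.2

/-- Entire solutions of polynomial growth. -/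
theorem final_entire (n : ℕ) (hn : 3 ≤ n) : ∃ c : ℝ, ∃ m : ℕ, 0 < c ∧ ∀ d : ℝ, 0 ≤ d →
    ∃ q : ℝ, 1 < q ∧ ∃ CA : ℝ≥0, ∀ p : ℝ, |p - 2| ≤ c / (1 + d) ^ m →
    ∀ (u : V n → ℝ) (g : V n → V n), IsWeakSol p univ u g →
    (∃ C : ℝ, ∀ᵐ x, |u x| ≤ C * (1 + ‖x‖) ^ d) → ¬ (∀ᵐ x, g x = 0) →
    (∀ᵐ x, g x ≠ 0) ∧
    ∀ (y : V n) (r : ℝ), 0 < r →
      (⨍⁻ x in ball y r, ‖g x‖ₑ ∂volume) *
        (⨍⁻ x in ball y r, ‖g x‖ₑ ^ (-(1 / (q - 1))) ∂volume) ^ (q - 1) ≤ CA := by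
  obtain ⟨c, m, hc, h⟩ := entire_thm n hn
  refine ⟨c, m, hc, fun d hd => ?_⟩
  obtain ⟨q, hq, CA, h2⟩ := h d hd
  refine ⟨q, hq, CA, ?_⟩
  intro p hp u g hs hgr hg0
  have h3 := h2 p hp u g hs hgr hg0
  refine ⟨?_, fun y r hr => (h3 y r hr).2⟩
  have hgm : AEStronglyMeasurable g volume := by
    have := hs.grad.2.1
    rw [locallyIntegrableOn_univ] at this
    exact this.aestronglyMeasurable
  have h4 : ∀ k : ℕ, ∀ᵐ x ∂(volume.restrict (ball (0 : V n) ((k : ℝ) + 1))), g x ≠ 0 := by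
    intro k
    have hk : (0 : ℝ) < (k : ℝ) + 1 := by positivity
    have h5 := h3 0 ((k : ℝ) + 1) hk
    exact final_ne_zero hk hq hgm.restrict h5.1 h5.2
  have hU : (⋃ k : ℕ, ball (0 : V n) ((k : ℝ) + 1)) = univ := by
    rw [eq_univ_iff_forall]
    intro x
    obtain ⟨k, hk⟩ := exists_nat_gt ‖x‖
    refine mem_iUnion.2 ⟨k, ?_⟩
    rw [mem_ball_zero_iff]
    linarith
  have h5 : ∀ᵐ x ∂(volume.restrict (⋃ k : ℕ, ball (0 : V n) ((k : ℝ) + 1))), g x ≠ 0 := by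
    rw [ae_restrict_iUnion_iff]
    exact h4
  rwa [hU, Measure.restrict_univ] at h5

end Pool.Agent.Helper20.PN
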