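import Pool.Agent.Helper20.PN.Defs
import Pool.Agent.Helper20.PN.MollH
import Pool.Agent.Helper20.PN.Three

/-! Weakly harmonic functions: three balls inequality and interior bounds. -/

open MeasureTheory Metric Set Filter
open scoped ENNReal NNReal ContDiff Topology

namespace Pool.Agent.Helper20.PN

variable {n : ℕ}

/-! ### The weight -/

lemma wharm_wt_cont : Continuous (wt : V n → ℝ) := by
  unfold wt
  fun_prop

lemma wharm_wt_nonneg (z : V n) : 0 ≤ wt z := le_max_right _ _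

lemma wharm_wt_le (z : V n) : wt z ≤ 1 := by
  unfold wt
  apply max_le _ zero_le_one
  nlinarith [sq_nonneg ‖z‖]

lemma wharm_wt_zero {z : V n} (hz : 1 ≤ ‖z‖) : wt z = 0 := by
  unfold wt
  apply max_eq_right
  nlinarith

lemma wharm_wt_cpt : HasCompactSupport (wt : V n → ℝ) := by
  apply HasCompactSupport.intro (isCompact_closedBall (0 : V n) 1)
  intro x hx
  apply wharm_wt_zero
  simp only [mem_closedBall, dist_zero_right, not_le] at hx
  exact hx.le

lemma wharm_wt_int : Integrable (wt : V n → ℝ) :=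
  wharm_wt_cont.integrable_of_hasCompactSupport wharm_wt_cpt

lemma wharm_wt_pos : 0 < ∫ z, wt (n := n) z := by
  apply wharm_wt_cont.integral_pos_of_hasCompactSupport_nonneg_nonzero wharm_wt_cpt
    wharm_wt_nonneg (x := 0)
  simp [wt]

/-! ### The weighted measure -/

/-- The measure with `∫ F = ∫ wt z * F (r z)`. -/
noncomputable def wharmNu (n : ℕ) (r : ℝ) : Measure (V n) :=
  ENNReal.ofReal |(r ^ n)⁻¹| • volume.withDensity (fun y => ENNReal.ofReal (wt (r⁻¹ • y)))

lemma wharm_meas (r : ℝ) : Measurable (fun y : V n => ENNReal.ofReal (wt (r⁻¹ • y))) := by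
  apply ENNReal.measurable_ofReal.comp
  exact (wharm_wt_cont.comp (continuous_const_smul r⁻¹)).measurable

lemma wharm_integral {r : ℝ} (hr : 0 < r) (F : V n → ℝ) :
    ∫ x, F x ∂(wharmNu n r) = ∫ z, wt z * F (r • z) := by
  unfold wharmNu
  rw [integral_smul_measure, integral_withDensity_eq_integral_toReal_smul (wharm_meas r)
    (Eventually.of_forall fun _ => ENNReal.ofReal_lt_top)]
  have h1 := Measure.integral_comp_smul (volume : Measure (V n))
    (fun y => wt (r⁻¹ • y) * F y) r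
  simp only [finrank_euclideanSpace_fin] at h1
  rw [ENNReal.toReal_ofReal (abs_nonneg _)]
  have h2 : ∀ y : V n, (ENNReal.ofReal (wt (r⁻¹ • y))).toReal • F y = wt (r⁻¹ • y) * F y := by
    intro y
    rw [ENNReal.toReal_ofReal (wharm_wt_nonneg _), smul_eq_mul]
  simp only [h2]
  rw [← h1]
  apply integral_congr_ae
  apply Eventually.of_forall
  intro z
  simp only
  rw [smul_smul, inv_mul_cancel₀ hr.ne', one_smul]

lemma wharm_le {r : ℝ} (hr : 0 < r) :
    wharmNu n r ≤ ENNReal.ofReal |(r ^ n)⁻¹| • volume.restrict (ball 0 r) := by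
  unfold wharmNu
  have h1 : (volume : Measure (V n)).withDensity (fun y => ENNReal.ofReal (wt (r⁻¹ • y))) ≤
      volume.restrict (ball 0 r) := by
    rw [← withDensity_indicator_one measurableSet_ball]
    apply withDensity_mono
    apply Eventually.of_forall
    intro y
    by_cases hy : y ∈ ball (0 : V n) r
    · rw [indicator_of_mem hy]
      simp only [Pi.one_apply]
      exact ENNReal.ofReal_le_one.2 (wharm_wt_le _)
    · rw [indicator_of_notMem hy]
      have : wt (r⁻¹ • y) = 0 := by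
        apply wharm_wt_zero
        rw [norm_smul, norm_inv, Real.norm_of_nonneg hr.le]
        simp only [mem_ball, dist_zero_right, not_lt] at hy
        rw [inv_mul_eq_div, one_le_div hr]
        exact hy
      simp only [this]
      simp
  exact Measure.le_iff'.2 fun s => by
    simp only [Measure.smul_apply, smul_eq_mul]
    exact mul_le_mul_right (h1 s) _

lemma wharm_le_two {r : ℝ} (hr : 0 < r) (hr2 : r ≤ 8 / 5) :
    wharmNu n r ≤ ENNReal.ofReal |(r ^ n)⁻¹| • volume.restrict (ball 0 2) := by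
  refine (wharm_le hr).trans ?_
  have h1 : (volume : Measure (V n)).restrict (ball 0 r) ≤ volume.restrict (ball 0 2) :=
    Measure.restrict_mono (ball_subset_ball (by linarith)) le_rfl
  exact Measure.le_iff'.2 fun s => by
    simp only [Measure.smul_apply, smul_eq_mul]
    exact mul_le_mul_right (h1 s) _

lemma wharm_fin {r : ℝ} (hr : 0 < r) : IsFiniteMeasure (wharmNu n r) := by
  constructor
  refine (wharm_le hr univ).trans_lt ?_
  simp only [Measure.smul_apply, smul_eq_mul, Measure.restrict_apply_univ]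
  exact ENNReal.mul_lt_top ENNReal.ofReal_lt_top measure_ball_lt_top

lemma wharm_mem {r : ℝ} (hr : 0 < r) (hr2 : r ≤ 8 / 5) {f : V n → ℝ}
    (hf : MemLp f 2 (volume.restrict (ball 0 2))) : MemLp f 2 (wharmNu n r) :=
  (hf.smul_measure ENNReal.ofReal_ne_top).mono_measure (wharm_le_two hr hr2)

lemma wharm_tendsto {r : ℝ} (hr : 0 < r) (hr2 : r ≤ 8 / 5) {f : ℕ → V n → ℝ}
    (hf : Tendsto (fun k => eLpNorm (f k) 2 (volume.restrict (ball 0 2))) atTop (𝓝 0)) :
    Tendsto (fun k => eLpNorm (f k) 2 (wharmNu n r)) atTop (𝓝 0) := by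
  have h1 : ∀ k, eLpNorm (f k) 2 (wharmNu n r) ≤
      (ENNReal.ofReal |(r ^ n)⁻¹|) ^ (1 / 2 : ℝ) * eLpNorm (f k) 2 (volume.restrict (ball 0 2)) := by
    intro k
    refine (eLpNorm_mono_measure (f k) (wharm_le_two hr hr2)).trans ?_
    rw [eLpNorm_smul_measure_of_ne_top (by simp)]
    simp
  have h2 : Tendsto (fun k => (ENNReal.ofReal |(r ^ n)⁻¹|) ^ (1 / 2 : ℝ) *
      eLpNorm (f k) 2 (volume.restrict (ball 0 2))) atTop (𝓝 0) := by
    have := ENNReal.Tendsto.const_mul (a := (ENNReal.ofReal |(r ^ n)⁻¹|) ^ (1 / 2 : ℝ)) hf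
      (Or.inr (by
        apply ENNReal.rpow_ne_top_of_nonneg (by norm_num) ENNReal.ofReal_ne_top))
    simpa using this
  exact tendsto_of_tendsto_of_tendsto_of_le_of_le tendsto_const_nhds h2 (fun _ => zero_le) h1

/-! ### Convergence of integrals -/

lemma wharm_int_tendsto {μ : Measure (V n)} [IsFiniteMeasure μ] {f : ℕ → V n → ℝ} {g : V n → ℝ}
    (hf : ∀ k, MemLp (f k) 2 μ) (hg : MemLp g 2 μ)
    (h : Tendsto (fun k => eLpNorm (fun x => f k x - g x) 2 μ) atTop (𝓝 0)) :
    Tendsto (fun k => ∫⁻ x, ‖f k x - g x‖ₑ ∂μ) atTop (𝓝 0) := by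
  have h1 : ∀ k, ∫⁻ x, ‖f k x - g x‖ₑ ∂μ ≤
      eLpNorm (fun x => f k x - g x) 2 μ * (μ univ) ^ (1 / 2 : ℝ) := by
    intro k
    have := eLpNorm_le_eLpNorm_mul_rpow_measure_univ (p := 1) (q := 2) (μ := μ)
      (f := fun x => f k x - g x) (by norm_num) ((hf k).1.sub hg.1)
    rw [eLpNorm_one_eq_lintegral_enorm] at this
    refine this.trans (le_of_eq ?_)
    norm_num
  have h2 : Tendsto (fun k => eLpNorm (fun x => f k x - g x) 2 μ * (μ univ) ^ (1 / 2 : ℝ)) atTop
      (𝓝 0) := by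
    have := ENNReal.Tendsto.mul_const (b := (μ univ) ^ (1 / 2 : ℝ)) h
      (Or.inr (by
        apply ENNReal.rpow_ne_top_of_nonneg (by norm_num) (measure_ne_top μ _)))
    simpa using this
  exact tendsto_of_tendsto_of_tendsto_of_le_of_le tendsto_const_nhds h2 (fun _ => zero_le) h1

lemma wharm_tendsto_int {μ : Measure (V n)} [IsFiniteMeasure μ] {f : ℕ → V n → ℝ} {g : V n → ℝ}
    (hf : ∀ k, MemLp (f k) 2 μ) (hg : MemLp g 2 μ)
    (h : Tendsto (fun k => eLpNorm (fun x => f k x - g x) 2 μ) atTop (𝓝 0)) :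
    Tendsto (fun k => ∫ x, f k x ∂μ) atTop (𝓝 (∫ x, g x ∂μ)) := by
  refine tendsto_integral_of_L1 g hg.1
    (Eventually.of_forall fun k => (hf k).integrable (by norm_num)) ?_
  exact wharm_int_tendsto hf hg h

lemma wharm_norm_sq {μ : Measure (V n)} {g : V n → ℝ} (hg : MemLp g 2 μ) :
    ‖hg.toLp g‖ ^ 2 = ∫ x, g x ^ 2 ∂μ := by
  rw [← real_inner_self_eq_norm_sq, L2.inner_def]
  apply integral_congr_ae
  filter_upwards [hg.coeFn_toLp] with x hx
  rw [hx]
  simp [pow_two]

lemma wharm_tendsto_sq {μ : Measure (V n)} {f : ℕ → V n → ℝ} {g : V n → ℝ}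
    (hf : ∀ k, MemLp (f k) 2 μ) (hg : MemLp g 2 μ)
    (h : Tendsto (fun k => eLpNorm (fun x => f k x - g x) 2 μ) atTop (𝓝 0)) :
    Tendsto (fun k => ∫ x, f k x ^ 2 ∂μ) atTop (𝓝 (∫ x, g x ^ 2 ∂μ)) := by
  have h1 : Tendsto (fun k => (hf k).toLp (f k)) atTop (𝓝 (hg.toLp g)) := by
    rw [Lp.tendsto_Lp_iff_tendsto_eLpNorm'']
    exact h
  have h2 := (h1.norm).pow 2
  rw [wharm_norm_sq hg] at h2
  refine h2.congr fun k => ?_
  rw [wharm_norm_sq (hf k)]

lemma wharm_A {r : ℝ} (hr : 0 < r) (f : V n → ℝ) : A r f = ∫ x, f x ^ 2 ∂(wharmNu n r) := by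
  rw [wharm_integral hr, A]

/-! ### The Laplacian of translates -/

lemma wharm_pd_sub (i : Fin n) (f : V n → ℝ) (c : ℝ) :
    pd i (fun x => f x - c) = pd i f := by
  funext x
  unfold pd
  rw [fderiv_sub_const]

lemma wharm_lap_sub (f : V n → ℝ) (c : ℝ) : lap (fun x => f x - c) = lap f := by
  funext x
  unfold lap
  simp only [wharm_pd_sub]

lemma wharm_pd_add (i : Fin n) (f : V n → ℝ) (y : V n) :
    pd i (fun x => f (y + x)) = fun x => pd i f (y + x) := by
  funext x
  unfold pd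
  rw [fderiv_comp_add_left]

lemma wharm_lap_add (f : V n → ℝ) (y x : V n) :
    lap (fun x => f (y + x)) x = lap f (y + x) := by
  unfold lap
  apply Finset.sum_congr rfl
  intro i _
  rw [wharm_pd_add, wharm_pd_add]

/-! ### Approximation -/

lemma wharm_fin2 {r : ℝ} : IsFiniteMeasure ((volume : Measure (V n)).restrict (ball 0 r)) := by
  constructor
  rw [Measure.restrict_apply_univ]
  exact measure_ball_lt_top

lemma wharm_cont_mem {f : V n → ℝ} (hf : Continuous f) :
    MemLp f 2 (volume.restrict (ball 0 2)) := by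
  have hb : ∃ C, ∀ x ∈ closedBall (0 : V n) 2, ‖f x‖ ≤ C :=
    (isCompact_closedBall (0 : V n) 2).exists_bound_of_continuousOn hf.continuousOn
  obtain ⟨C, hC⟩ := hb
  have hfin : IsFiniteMeasure ((volume : Measure (V n)).restrict (ball 0 2)) := wharm_fin2
  refine MemLp.of_bound hf.aestronglyMeasurable C ?_
  filter_upwards [ae_restrict_mem measurableSet_ball] with x hx
  exact hC x (ball_subset_closedBall hx)

lemma wharm_approx {h : V n → ℝ} (hh : IsWHarm h) :
    ∃ φ : ℕ → V n → ℝ, (∀ k, ContDiff ℝ ∞ (φ k)) ∧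
      (∀ k, ∀ x ∈ ball (0 : V n) (5 / 3), lap (φ k) x = 0) ∧
      (∀ k, MemLp (φ k) 2 (volume.restrict (ball 0 2))) ∧
      Tendsto (fun k => eLpNorm (fun x => φ k x - h x) 2 (volume.restrict (ball 0 2))) atTop
        (𝓝 0) := by
  obtain ⟨φ, h1, h2, h3⟩ := exists_moll_harm hh
  refine ⟨fun k => φ (k + 2), fun k => h1 _, ?_, fun k => wharm_cont_mem (h1 _).continuous, ?_⟩
  · intro k x hx
    apply h2 (k + 2) x
    refine ball_subset_ball ?_ hx
    have : 1 / (((k + 2 : ℕ) : ℝ) + 1) ≤ 1 / 3 := by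
      apply one_div_le_one_div_of_le (by norm_num)
      push_cast
      have : (0 : ℝ) ≤ k := by positivity
      linarith
    linarith
  · have h4 := (h3.comp (tendsto_add_atTop_nat 2)).ennrpow_const (1 / 2 : ℝ)
    simp only [Function.comp_def] at h4
    have h5 : (0 : ℝ≥0∞) ^ (1 / 2 : ℝ) = 0 := ENNReal.zero_rpow_of_pos (by norm_num)
    rw [h5] at h4
    refine h4.congr fun k => ?_
    rw [eLpNorm_eq_lintegral_rpow_enorm_toReal (by norm_num) (by norm_num)]
    simp

/-! ### The mean value -/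

lemma wharm_mean {h : V n → ℝ} (hh : ContDiff ℝ ∞ h) {R : ℝ}
    (harm : ∀ x ∈ ball (0 : V n) R, lap h x = 0) {r : ℝ} (hr : 0 < r) (hR : r < R) :
    ∫ x, h x ∂(wharmNu n r) = h 0 * ∫ z, wt (n := n) z := by
  rw [wharm_integral hr]
  exact mean_value hh harm hr hR

lemma wharm_mass {r : ℝ} (hr : 0 < r) : ∫ _x, (1 : ℝ) ∂(wharmNu n r) = ∫ z, wt (n := n) z := by
  rw [wharm_integral hr]
  simp

lemma wharm_common {h : V n → ℝ} (hh : IsWHarm h) : ∃ c₀ : ℝ, ∀ r : ℝ, 0 < r → r ≤ 8 / 5 →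
    ∫ x, h x ∂(wharmNu n r) = c₀ * ∫ z, wt (n := n) z := by
  obtain ⟨φ, h1, h2, h3, h4⟩ := wharm_approx hh
  have key : ∀ r : ℝ, 0 < r → r ≤ 8 / 5 →
      Tendsto (fun k => φ k 0 * ∫ z, wt (n := n) z) atTop (𝓝 (∫ x, h x ∂(wharmNu n r))) := by
    intro r hr hr2
    have := wharm_fin (n := n) hr
    have h5 := wharm_tendsto_int (μ := wharmNu n r) (fun k => wharm_mem hr hr2 (h3 k))
      (wharm_mem hr hr2 hh.1) (wharm_tendsto hr hr2 h4)
    refine h5.congr fun k => ?_
    exact wharm_mean (h1 k) (h2 k) hr (by linarith)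
  have hW := wharm_wt_pos (n := n)
  refine ⟨(∫ x, h x ∂(wharmNu n (8 / 5))) / ∫ z, wt (n := n) z, ?_⟩
  intro r hr hr2
  rw [div_mul_cancel₀ _ hW.ne']
  exact tendsto_nhds_unique (key r hr hr2) (key (8 / 5) (by norm_num) le_rfl)

lemma wharm_A_tendsto {r : ℝ} (hr : 0 < r) (hr2 : r ≤ 8 / 5) {φ : ℕ → V n → ℝ} {h : V n → ℝ}
    (hh : MemLp h 2 (volume.restrict (ball 0 2)))
    (h3 : ∀ k, MemLp (φ k) 2 (volume.restrict (ball 0 2)))
    (h4 : Tendsto (fun k => eLpNorm (fun x => φ k x - h x) 2 (volume.restrict (ball 0 2))) atTop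
        (𝓝 0)) (c : ℝ) :
    Tendsto (fun k => A r (fun x => φ k x - c)) atTop (𝓝 (A r (fun x => h x - c))) := by
  simp only [wharm_A hr]
  have := wharm_fin (n := n) hr
  have hc : MemLp (fun _ : V n => c) 2 (wharmNu n r) := memLp_const c
  have h6 : ∀ k, MemLp (fun x => φ k x - c) 2 (wharmNu n r) :=
    fun k => (wharm_mem hr hr2 (h3 k)).sub hc
  have h7 : MemLp (fun x => h x - c) 2 (wharmNu n r) := (wharm_mem hr hr2 hh).sub hc
  apply wharm_tendsto_sq h6 h7
  have h5 := wharm_tendsto hr hr2 h4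
  refine h5.congr fun k => ?_
  congr 1
  funext x
  ring

/-- The three balls inequality for weakly harmonic functions, and the common mean value. -/
theorem wharm_three {n : ℕ} {h : V n → ℝ} (hh : IsWHarm h) : ∃ c₀ : ℝ,
    (∀ K : ℕ, 5 / 2 * A (4 / 5) (fun x => h x - c₀) ≤
      A (8 / 5) (fun x => h x - c₀) / (4 ^ K / 8) +
        4 ^ K / 8 * A (2 / 5) (fun x => h x - c₀)) ∧
    ∀ r : ℝ, 0 < r → r ≤ 8 / 5 → ∀ c : ℝ,
      A r (fun x => h x - c₀) ≤ A r (fun x => h x - c) := by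
  obtain ⟨c₀, hc₀⟩ := wharm_common hh
  refine ⟨c₀, ?_, ?_⟩
  · intro K
    obtain ⟨φ, h1, h2, h3, h4⟩ := wharm_approx hh
    have t1 := wharm_A_tendsto (r := 4 / 5) (by norm_num) (by norm_num) hh.1 h3 h4 c₀
    have t2 := wharm_A_tendsto (r := 8 / 5) (by norm_num) (by norm_num) hh.1 h3 h4 c₀
    have t3 := wharm_A_tendsto (r := 2 / 5) (by norm_num) (by norm_num) hh.1 h3 h4 c₀
    refine le_of_tendsto_of_tendsto' (t1.const_mul (5 / 2))
      ((t2.div_const (4 ^ K / 8)).add (t3.const_mul (4 ^ K / 8))) ?_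
    intro k
    have h5 := three_ball (R := 5 / 3) (h := fun x => φ k x - c₀)
      ((h1 k).sub contDiff_const) (by
        intro x hx
        rw [wharm_lap_sub]
        exact h2 k x hx) K (r := 4 / 5) (by norm_num) (by norm_num)
    have e1 : (2 : ℝ) * (4 / 5) = 8 / 5 := by norm_num
    have e2 : (4 / 5 : ℝ) / 2 = 2 / 5 := by norm_num
    rw [e1, e2] at h5
    exact h5
  · intro r hr hr2 c
    rw [wharm_A hr, wharm_A hr]
    have := wharm_fin (n := n) hr
    have hm := wharm_mem hr hr2 hh.1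
    have hint : Integrable h (wharmNu n r) := hm.integrable (by norm_num)
    have hm0 : MemLp (fun x => h x - c₀) 2 (wharmNu n r) := hm.sub (memLp_const c₀)
    have hi0 : Integrable (fun x => (h x - c₀) ^ 2) (wharmNu n r) := hm0.integrable_sq
    have e1 : ∀ x, (h x - c) ^ 2 = (h x - c₀) ^ 2 + (2 * (c₀ - c) * (h x - c₀) +
        (c₀ - c) ^ 2 * 1) := fun x => by ring
    have hi1 : Integrable (fun x => 2 * (c₀ - c) * (h x - c₀)) (wharmNu n r) :=
      (hint.sub (integrable_const c₀)).const_mul _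
    have hi2 : Integrable (fun _ : V n => (c₀ - c) ^ 2 * (1 : ℝ)) (wharmNu n r) :=
      integrable_const _
    have e2 : ∫ x, (h x - c) ^ 2 ∂(wharmNu n r) = ∫ x, (h x - c₀) ^ 2 ∂(wharmNu n r) +
        (∫ x, 2 * (c₀ - c) * (h x - c₀) ∂(wharmNu n r) +
          ∫ _x, (c₀ - c) ^ 2 * (1 : ℝ) ∂(wharmNu n r)) := by
      simp only [e1]
      have hi3 : Integrable (fun x => 2 * (c₀ - c) * (h x - c₀) + (c₀ - c) ^ 2 * 1)
        (wharmNu n r) := hi1.add hi2
      rw [integral_add hi0 hi3, integral_add hi1 hi2]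
    have e3 : ∫ x, 2 * (c₀ - c) * (h x - c₀) ∂(wharmNu n r) = 0 := by
      rw [integral_const_mul, integral_sub hint (integrable_const c₀), hc₀ r hr hr2]
      have : ∫ _x : V n, c₀ ∂(wharmNu n r) = c₀ * ∫ _x, (1 : ℝ) ∂(wharmNu n r) := by
        rw [← integral_const_mul]
        simp
      rw [this, wharm_mass hr, sub_self, mul_zero]
    have e4 : 0 ≤ ∫ _x, (c₀ - c) ^ 2 * (1 : ℝ) ∂(wharmNu n r) := by
      apply integral_nonneg
      intro x
      positivity
    rw [e2, e3]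
    linarith

/-! ### Interior bounds -/

lemma wharm_loc {f : V n → ℝ} (hf : Continuous f) (y : V n) (r : ℝ) :
    IntegrableOn f (ball y r) :=
  (hf.continuousOn.integrableOn_compact (isCompact_closedBall y r)).mono_set
    ball_subset_closedBall

lemma wharm_point {φ : V n → ℝ} (h1 : ContDiff ℝ ∞ φ)
    (h2 : ∀ x ∈ ball (0 : V n) (5 / 3), lap φ x = 0) {r₁ r₂ : ℝ}
    (h12 : r₁ < r₂) (hr₂ : r₂ ≤ 8 / 5) (c : ℝ) {y : V n} (hy : y ∈ ball (0 : V n) r₁) :
    |φ y - c| ≤ (2 ^ n / ∫ z, wt (n := n) z) / (r₂ - r₁) ^ n *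
      ∫ x in ball 0 r₂, |φ x - c| := by
  obtain ⟨ρ, hρ⟩ : ∃ ρ, ρ = (r₂ - r₁) / 2 := ⟨_, rfl⟩
  have hρ0 : 0 < ρ := by rw [hρ]; linarith
  have hy' : ‖y‖ < r₁ := by simpa using hy
  obtain ⟨W, hWdef⟩ : ∃ W, W = ∫ z, wt (n := n) z := ⟨_, rfl⟩
  have hW : 0 < W := by rw [hWdef]; exact wharm_wt_pos
  rw [← hWdef]
  have hcont : Continuous (fun x => |φ x - c|) := (h1.continuous.sub continuous_const).abs
  have hcont2 : Continuous (fun x => |φ (y + x) - c|) :=
    hcont.comp (continuous_const.add continuous_id)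
  have m1 : ∫ x, (φ (y + x) - c) ∂(wharmNu n ρ) = (φ y - c) * W := by
    have h3 := wharm_mean (h := fun x => φ (y + x) - c) (R := 5 / 3 - ‖y‖)
      ((h1.comp (contDiff_const.add contDiff_id)).sub contDiff_const) (by
        intro x hx
        rw [wharm_lap_sub (fun x => φ (y + x)) c, wharm_lap_add]
        apply h2
        simp only [mem_ball, dist_zero_right] at hx ⊢
        have := norm_add_le y x
        linarith) hρ0 (by rw [hρ]; linarith)
    rw [h3, add_zero, hWdef]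
  have m2 : |φ y - c| * W ≤ ∫ x, |φ (y + x) - c| ∂(wharmNu n ρ) := by
    have h4 : |φ y - c| * W = |(φ y - c) * W| := by rw [abs_mul, abs_of_pos hW]
    rw [h4, ← m1]
    exact abs_integral_le_integral_abs
  have m3 : ∫ x, |φ (y + x) - c| ∂(wharmNu n ρ) ≤
      |(ρ ^ n)⁻¹| * ∫ x in ball 0 ρ, |φ (y + x) - c| := by
    have h5 := integral_mono_measure (wharm_le (n := n) hρ0) (f := fun x => |φ (y + x) - c|)
      (Eventually.of_forall fun x => abs_nonneg _)
      ((wharm_loc hcont2 0 ρ).smul_measure ENNReal.ofReal_ne_top)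
    rwa [integral_smul_measure, ENNReal.toReal_ofReal (abs_nonneg _), smul_eq_mul] at h5
  have m4 : ∫ x in ball 0 ρ, |φ (y + x) - c| = ∫ x in ball y ρ, |φ x - c| := by
    have h6 := (measurePreserving_add_left (volume : Measure (V n)) y).setIntegral_preimage_emb
      (measurableEmbedding_addLeft y) (fun x => |φ x - c|) (ball y ρ)
    rw [preimage_add_ball, sub_self] at h6
    exact h6
  have m5 : ∫ x in ball y ρ, |φ x - c| ≤ ∫ x in ball 0 r₂, |φ x - c| := by
    apply setIntegral_mono_set (wharm_loc hcont 0 r₂)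
      (Eventually.of_forall fun x => abs_nonneg _)
    apply LE.le.eventuallyLE
    intro x hx
    simp only [mem_ball, dist_zero_right] at hx ⊢
    rw [dist_eq_norm] at hx
    have h7 : ‖x‖ ≤ ‖x - y‖ + ‖y‖ := by
      simpa using norm_add_le (x - y) y
    rw [hρ] at hx
    linarith
  have m6 : |(ρ ^ n)⁻¹| = 2 ^ n / (r₂ - r₁) ^ n := by
    rw [abs_of_pos (by positivity), hρ, div_pow, inv_div]
  have m7 : |φ y - c| * W ≤ 2 ^ n / (r₂ - r₁) ^ n * ∫ x in ball 0 r₂, |φ x - c| := by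
    refine m2.trans (m3.trans ?_)
    rw [m6, m4]
    apply mul_le_mul_of_nonneg_left m5
    have : 0 < r₂ - r₁ := by linarith
    positivity
  have hd : (r₂ - r₁) ^ n ≠ 0 := by
    have : 0 < r₂ - r₁ := by linarith
    positivity
  calc |φ y - c| = |φ y - c| * W / W := by field_simp
    _ ≤ (2 ^ n / (r₂ - r₁) ^ n * ∫ x in ball 0 r₂, |φ x - c|) / W :=
        div_le_div_of_nonneg_right m7 hW.le
    _ = _ := by ring

/-- Interior bounds for weakly harmonic functions. -/
theorem wharm_sup (n : ℕ) : ∃ C : ℝ, 0 < C ∧ ∀ h : V n → ℝ, IsWHarm h → ∀ c r₁ r₂ : ℝ,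
    0 < r₁ → r₁ < r₂ → r₂ ≤ 8 / 5 → ∀ᵐ y ∂(volume.restrict (ball (0 : V n) r₁)),
      |h y - c| ≤ C / (r₂ - r₁) ^ n * ∫ x in ball 0 r₂, |h x - c| := by
  refine ⟨2 ^ n / ∫ z, wt (n := n) z, div_pos (by positivity) wharm_wt_pos, ?_⟩
  intro h hh c r₁ r₂ hr₁ h12 hr₂
  obtain ⟨φ, h1, h2, h3, h4⟩ := wharm_approx hh
  have hfin : IsFiniteMeasure ((volume : Measure (V n)).restrict (ball 0 2)) := wharm_fin2
  have hfin2 : IsFiniteMeasure ((volume : Measure (V n)).restrict (ball 0 r₂)) := wharm_fin2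
  -- a subsequence converging almost everywhere
  have h5 : TendstoInMeasure (volume.restrict (ball (0 : V n) 2)) φ atTop h :=
    tendstoInMeasure_of_tendsto_eLpNorm (p := 2) (by norm_num) (fun k => (h3 k).1) hh.1.1 h4
  obtain ⟨ns, hns, hae⟩ := h5.exists_seq_tendsto_ae
  -- convergence of the integrals
  have hle : (volume : Measure (V n)).restrict (ball 0 r₂) ≤ volume.restrict (ball 0 2) :=
    Measure.restrict_mono (ball_subset_ball (by linarith)) le_rfl
  have h6 : Tendsto (fun k => eLpNorm (fun x => φ k x - h x) 2 (volume.restrict (ball 0 r₂)))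
      atTop (𝓝 0) :=
    tendsto_of_tendsto_of_tendsto_of_le_of_le tendsto_const_nhds h4 (fun _ => zero_le)
      (fun k => eLpNorm_mono_measure _ hle)
  have h7 := wharm_int_tendsto (μ := (volume : Measure (V n)).restrict (ball 0 r₂))
    (fun k => (h3 k).mono_measure hle) (hh.1.mono_measure hle) h6
  have h8 : Tendsto (fun k => ∫ x in ball 0 r₂, |φ k x - c|) atTop
      (𝓝 (∫ x in ball 0 r₂, |h x - c|)) := by
    have hcm : MemLp (fun _ : V n => c) 2 ((volume : Measure (V n)).restrict (ball 0 r₂)) :=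
      memLp_const c
    refine tendsto_integral_of_L1 (fun x => |h x - c|)
      (((hh.1.mono_measure hle).sub hcm).1.norm)
      (Eventually.of_forall fun k =>
        (wharm_loc ((h1 k).continuous.sub continuous_const).abs 0 r₂)) ?_
    refine tendsto_of_tendsto_of_tendsto_of_le_of_le tendsto_const_nhds h7 (fun _ => zero_le)
      (fun k => lintegral_mono fun x => ?_)
    rw [← ofReal_norm, ← ofReal_norm]
    apply ENNReal.ofReal_le_ofReal
    rw [Real.norm_eq_abs, Real.norm_eq_abs]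
    refine (abs_abs_sub_abs_le_abs_sub _ _).trans (le_of_eq ?_)
    congr 1
    ring
  have h9 : Tendsto (fun k => (2 ^ n / ∫ z, wt (n := n) z) / (r₂ - r₁) ^ n *
      ∫ x in ball 0 r₂, |φ (ns k) x - c|) atTop
      (𝓝 ((2 ^ n / ∫ z, wt (n := n) z) / (r₂ - r₁) ^ n * ∫ x in ball 0 r₂, |h x - c|)) :=
    (h8.comp hns.tendsto_atTop).const_mul _
  have hle1 : (volume : Measure (V n)).restrict (ball 0 r₁) ≤ volume.restrict (ball 0 2) :=
    Measure.restrict_mono (ball_subset_ball (by linarith)) le_rfl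
  filter_upwards [ae_mono hle1 hae, ae_restrict_mem measurableSet_ball] with y hy hyr
  refine le_of_tendsto_of_tendsto' ((hy.sub_const c).abs) h9 ?_
  intro k
  exact wharm_point (h1 _) (h2 _) h12 hr₂ c hyr

end Pool.Agent.Helper20.PN
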